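import Pool.Agent.Lib.MP_305fdd_al.F2.W.Stm2

/-!
# MP_305fdd_al, F_2, section W: piece A1, the residue field is the fraction field of the residue ring
-/

set_option autoImplicit false

namespace Pool.Agent.F2W

open Pool.Agent.F2Ch Polynomial Pool.Agent.F2 Pool.Agent.F2RF

private theorem a1_one {K : Type} [Field K] {w : K → ℤ} (hw : IsV w) : w 1 = 0 := by
  have h := hw.mul 1 1 one_ne_zero one_ne_zero
  rw [mul_one] at h
  omega

private theorem a1_pow {K : Type} [Field K] {w : K → ℤ} (hw : IsV w) (x : K) (hx : x ≠ 0) (n : ℕ) :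
    w (x ^ n) = n * w x := by
  induction n with
  | zero => simp [a1_one hw]
  | succ n ih =>
    rw [pow_succ, hw.mul _ _ (pow_ne_zero n hx) hx, ih]
    push_cast
    ring

private theorem a1_ge_mul {K : Type} [Field K] {w : K → ℤ} (hw : IsV w) {f g : K} (hf : Ge w 0 f)
    (hg : Ge w 0 g) : Ge w 0 (f * g) := by
  by_cases h1 : f = 0
  · left; rw [h1, zero_mul]
  by_cases h2 : g = 0
  · left; rw [h2, mul_zero]
  right
  rw [hw.mul f g h1 h2]
  exact add_nonneg (hf.resolve_left h1) (hg.resolve_left h2)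

private theorem a1_ge_add {K : Type} [Field K] {w : K → ℤ} (hw : IsV w) {f g : K} (hf : Ge w 0 f)
    (hg : Ge w 0 g) : Ge w 0 (f + g) := by
  by_cases h1 : f = 0
  · rw [h1, zero_add]; exact hg
  by_cases h2 : g = 0
  · rw [h2, add_zero]; exact hf
  by_cases h3 : f + g = 0
  · exact Or.inl h3
  exact Or.inr ((le_min (hf.resolve_left h1) (hg.resolve_left h2)).trans (hw.add f g h1 h2 h3))

private theorem a1_lc_pos {K κ : Type} [Field K] [Field κ] (w : K → ℤ) (ac : K → κ) {f : K}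
    (h1 : f ≠ 0) (h2 : w f = 0) : lc w ac 0 f = ac f := by
  unfold lc
  rw [if_pos ⟨h1, h2⟩]

private theorem a1_lc_neg {K κ : Type} [Field K] [Field κ] (w : K → ℤ) (ac : K → κ) {f : K}
    (h : f = 0 ∨ w f ≠ 0) : lc w ac 0 f = 0 := by
  unfold lc
  rw [if_neg]
  rintro ⟨h1, h2⟩
  rcases h with h | h
  · exact h1 h
  · exact h h2

private theorem a1_lc_mul {k K κ : Type} [Field k] [Field K] [Algebra k K] [Field κ] [Algebra k κ]
    {w : K → ℤ} (hw : IsV w) {r : ℕ} {x : Fin r → K} {ac : K → κ} (hac : IsAC k w x ac) {f g : K}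
    (hf : Ge w 0 f) (hg : Ge w 0 g) : lc w ac 0 (f * g) = lc w ac 0 f * lc w ac 0 g := by
  by_cases h1 : f = 0
  · rw [a1_lc_neg w ac (Or.inl h1), zero_mul]
    exact a1_lc_neg w ac (Or.inl (by rw [h1, zero_mul]))
  by_cases h2 : g = 0
  · rw [a1_lc_neg w ac (f := g) (Or.inl h2), mul_zero]
    exact a1_lc_neg w ac (Or.inl (by rw [h2, mul_zero]))
  have hf' := hf.resolve_left h1
  have hg' := hg.resolve_left h2
  have hm := hw.mul f g h1 h2
  by_cases h3 : w f = 0
  · by_cases h4 : w g = 0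
    · rw [a1_lc_pos w ac h1 h3, a1_lc_pos w ac h2 h4, a1_lc_pos w ac (mul_ne_zero h1 h2) (by omega),
        hac.mul]
    · rw [a1_lc_neg w ac (f := g) (Or.inr h4), mul_zero]
      exact a1_lc_neg w ac (Or.inr (by omega))
  · rw [a1_lc_neg w ac (f := f) (Or.inr h3), zero_mul]
    exact a1_lc_neg w ac (Or.inr (by omega))

theorem p_A1 : S_A1 := by
  intro k K κ _ _ _ _ _ B hB w hw htriv hpos hneg r x ac hac
  have hcinst : ∀ c : k, lc w ac 0 (algebraMap k K c) = algebraMap k κ c ∧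
      Ge w 0 (algebraMap k K c) := by
    intro c
    refine ⟨?_, Or.inr (htriv c).ge⟩
    by_cases hc : c = 0
    · rw [a1_lc_neg w ac (Or.inl (by rw [hc, map_zero])), hc, map_zero]
    · rw [a1_lc_pos w ac ((_root_.map_ne_zero _).2 hc) (htriv c), hac.alg]
  let A : Subalgebra k κ :=
    { carrier := {z | ∃ f : B, Ge w 0 (f : K) ∧ lc w ac 0 (f : K) = z}
      mul_mem' := by
        rintro a b ⟨f, hf, hf'⟩ ⟨g, hg, hg'⟩
        refine ⟨f * g, ?_, ?_⟩
        · push_cast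
          exact a1_ge_mul hw hf hg
        · push_cast
          rw [a1_lc_mul hw hac hf hg, hf', hg']
      add_mem' := by
        rintro a b ⟨f, hf, hf'⟩ ⟨g, hg, hg'⟩
        refine ⟨f + g, ?_, ?_⟩
        · push_cast
          exact a1_ge_add hw hf hg
        · push_cast
          rw [hac.add 0 _ _ hf hg, hf', hg']
      algebraMap_mem' := by
        intro c
        exact ⟨algebraMap k B c, (hcinst c).2, (hcinst c).1⟩ }
  refine ⟨A, fun z => Iff.rfl, ?_⟩
  intro z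
  by_cases hz : z = 0
  · exact ⟨0, A.zero_mem, 1, A.one_mem, one_ne_zero, by rw [hz, zero_mul]⟩
  obtain ⟨f, hf0, hwf, hacf⟩ := hac.surj z hz
  obtain ⟨b1, b2, hb2, hb⟩ := hB f
  have hb1 : (b1 : K) ≠ 0 := by rw [← hb]; exact mul_ne_zero hf0 hb2
  have hn : w (b1 : K) = w (b2 : K) := by
    rw [← hb, hw.mul f b2 hf0 hb2, hwf, zero_add]
  obtain ⟨bp, hbp⟩ := hpos
  obtain ⟨bm, hbm⟩ := hneg
  have hbp0 : (bp : K) ≠ 0 := by
    intro h
    rw [h, hw.zero] at hbp
    exact lt_irrefl _ hbp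
  have hbm0 : (bm : K) ≠ 0 := by
    intro h
    rw [h, hw.zero] at hbm
    exact lt_irrefl _ hbm
  obtain ⟨b3, hb3, hwb3⟩ : ∃ b3 : B, (b3 : K) ≠ 0 ∧ w (b3 : K) = - w (b1 : K) := by
    rcases lt_trichotomy (w (b1 : K)) 0 with h | h | h
    · refine ⟨b1 ^ (w (bp : K) - 1).toNat * bp ^ (- w (b1 : K)).toNat, ?_, ?_⟩
      · push_cast
        exact mul_ne_zero (pow_ne_zero _ hb1) (pow_ne_zero _ hbp0)
      · push_cast
        rw [hw.mul _ _ (pow_ne_zero _ hb1) (pow_ne_zero _ hbp0), a1_pow hw _ hb1, a1_pow hw _ hbp0,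
          Int.toNat_of_nonneg (by omega), Int.toNat_of_nonneg (by omega)]
        ring
    · exact ⟨1, by simp, by rw [h]; simpa using a1_one hw⟩
    · refine ⟨b1 ^ (- w (bm : K) - 1).toNat * bm ^ (w (b1 : K)).toNat, ?_, ?_⟩
      · push_cast
        exact mul_ne_zero (pow_ne_zero _ hb1) (pow_ne_zero _ hbm0)
      · push_cast
        rw [hw.mul _ _ (pow_ne_zero _ hb1) (pow_ne_zero _ hbm0), a1_pow hw _ hb1, a1_pow hw _ hbm0,
          Int.toNat_of_nonneg (by omega), Int.toNat_of_nonneg (by omega)]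
        ring
  have h1 : w ((b1 : K) * (b3 : K)) = 0 := by
    rw [hw.mul _ _ hb1 hb3, hwb3]; ring
  have h2 : w ((b2 : K) * (b3 : K)) = 0 := by
    rw [hw.mul _ _ hb2 hb3, hwb3, hn]; ring
  refine ⟨ac ((b1 : K) * (b3 : K)), ⟨b1 * b3, Or.inr ?_, ?_⟩,
    ac ((b2 : K) * (b3 : K)), ⟨b2 * b3, Or.inr ?_, ?_⟩, ?_, ?_⟩
  · push_cast; exact h1.ge
  · push_cast; exact a1_lc_pos w ac (mul_ne_zero hb1 hb3) h1
  · push_cast; exact h2.ge
  · push_cast; exact a1_lc_pos w ac (mul_ne_zero hb2 hb3) h2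
  · exact hac.ne _ (mul_ne_zero hb2 hb3)
  · rw [← hacf, ← hac.mul, ← mul_assoc, hb]

end Pool.Agent.F2W
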