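import Pool.Agent.Lib.MP_305fdd_al.F2.W.Stm2

set_option autoImplicit false

namespace Pool.Agent.F2W

open Pool.Agent.F2Ch Polynomial Pool.Agent.F2 Pool.Agent.F2RF

theorem p_A2 (hU10 : Pool.Agent.F2RF.S_U10) (hU12 : Pool.Agent.F2RF.S_U12) : S_A2 := by
  intro k M _ _ _ n t hFG htr A hFO Q hQA hQne hAQ s hs htrs c₁ c₂ h1 h2 hc1 hc2 hq1 hq2 y
  have key : ∀ c d : M → ℝ, IsV c → IsV d →
      (∀ P : k[X], P ≠ 0 → c (aeval s P) = 0) → (∀ P : k[X], P ≠ 0 → d (aeval s P) = 0) →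
      (∀ h ∈ Q, h ≠ 0 → c h < 0) → (∀ h ∈ Q, h ≠ 0 → d h < 0) → 0 ≤ c y → 0 ≤ d y := by
    intro c d hc hd hcP hdP hcQ hdQ hcy
    by_contra hdy
    push Not at hdy
    have hy : y ≠ 0 := by
      rintro rfl
      rw [hd.zero] at hdy
      exact lt_irrefl _ hdy
    obtain ⟨hle, hneg⟩ := hU10 M ℝ A.toSubring Q c hc (fun h hh => hQA h hh) hQne
      (fun a ha h hh => hAQ a ha h hh) hcQ
    obtain ⟨-, a, ha, -, han⟩ := hU10 M ℝ A.toSubring Q d hd (fun h hh => hQA h hh) hQne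
      (fun a ha h hh => hAQ a ha h hh) hdQ
    have h := (hU12 k M n t hFG htr A hFO s hs htrs c d hc hd hcP hdP
      (fun a ha => hle a ha) hneg).1 ⟨y, hy, hcy, hdy⟩ a ha
    linarith
  exact ⟨key c₁ c₂ h1 h2 hc1 hc2 hq1 hq2, key c₂ c₁ h2 h1 hc2 hc1 hq2 hq1⟩

end Pool.Agent.F2W
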