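import Pool.Agent.Lib.MP_305fdd_al.F2.W.Stm4

/-!
# MP_305fdd_al, F_2, section W, piece A3: the vertex inequality
-/

set_option autoImplicit false

namespace Pool.Agent.F2W

open Pool.Agent.F2Ch Pool.Agent.F2 Pool.Agent.F2RF Polynomial

private theorem a3_pow {κ : Type} [Field κ] {c : κ → ℝ} (hc : IsV c) {a : κ} (ha : a ≠ 0) (n : ℕ) :
    c (a ^ n) = n * c a := by
  induction n with
  | zero =>
    have := hc.mul 1 1 one_ne_zero one_ne_zero
    rw [mul_one] at this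
    have h1 : c 1 = 0 := by linarith
    simp [h1]
  | succ n ih =>
    rw [pow_succ, hc.mul _ _ (pow_ne_zero n ha) ha, ih]
    push_cast
    ring

private theorem a3_wpow {K : Type} [Field K] {w : K → ℤ} (hw : IsV w) {a : K} (ha : a ≠ 0)
    (n : ℕ) : w (a ^ n) = n * w a := by
  induction n with
  | zero =>
    have := hw.mul 1 1 one_ne_zero one_ne_zero
    rw [mul_one] at this
    have h1 : w 1 = 0 := by linarith
    simp [h1]
  | succ n ih =>
    rw [pow_succ, hw.mul _ _ (pow_ne_zero n ha) ha, ih]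
    push_cast
    ring

theorem p_A3 : S_A3 := by
  intro k K κ _ _ _ _ _ B w hw hT hpos hneg r x ac hac A hA c₁ c₂ ρ hc₁ hc₂ hle
  obtain ⟨b₀, hb₀⟩ := hpos
  obtain ⟨b₁, hb₁⟩ := hneg
  have hacpow : ∀ (a : K) (n : ℕ), ac (a ^ n) = ac a ^ n := by
    intro a n
    induction n with
    | zero =>
      have h1 : ac 1 = 1 := by simpa using hac.alg 1
      simp [h1]
    | succ n ih => rw [pow_succ, pow_succ, hac.mul, ih]
  have hne : ∀ f : K, w f ≠ 0 → f ≠ 0 := by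
    rintro f hf rfl
    exact hf hw.zero
  -- value zero
  have hzero : ∀ f : B, (f : K) ≠ 0 → w (f : K) = 0 → c₁ (ac f) + ρ * c₂ (ac f) ≤ 0 := by
    intro f hf hwf
    refine hle (ac f) ((hA _).2 ⟨f, Or.inr hwf.ge, ?_⟩) (hac.ne _ hf)
    unfold lc
    rw [if_pos ⟨hf, hwf⟩]
  -- comparison
  have hkey : ∀ f g : B, 0 < w (f : K) → w (g : K) < 0 →
      (c₁ (ac f) + ρ * c₂ (ac f)) / (w (f : K) : ℝ) ≤
        (c₁ (ac g) + ρ * c₂ (ac g)) / (w (g : K) : ℝ) := by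
    intro f g hf hg
    obtain ⟨a, ha⟩ : ∃ a : ℕ, w (f : K) = a := ⟨(w (f : K)).toNat, by omega⟩
    obtain ⟨b, hb⟩ : ∃ b : ℕ, w (g : K) = -(b : ℤ) := ⟨(-w (g : K)).toNat, by omega⟩
    have hf0 := hne _ hf.ne'
    have hg0 := hne _ hg.ne
    have ha0 : (0 : ℝ) < a := by
      have : 0 < (a : ℤ) := by omega
      exact_mod_cast this
    have hb0 : (0 : ℝ) < b := by
      have : 0 < (b : ℤ) := by omega
      exact_mod_cast this
    have hfb := pow_ne_zero b hf0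
    have hga := pow_ne_zero a hg0
    have h1 := hzero (f ^ b * g ^ a) (by push_cast; exact mul_ne_zero hfb hga) (by
      push_cast
      rw [hw.mul _ _ hfb hga, a3_wpow hw hf0, a3_wpow hw hg0, ha, hb]
      ring)
    push_cast at h1
    rw [hac.mul, hacpow, hacpow,
      hc₁.mul _ _ (pow_ne_zero _ (hac.ne _ hf0)) (pow_ne_zero _ (hac.ne _ hg0)),
      hc₂.mul _ _ (pow_ne_zero _ (hac.ne _ hf0)) (pow_ne_zero _ (hac.ne _ hg0)),
      a3_pow hc₁ (hac.ne _ hf0), a3_pow hc₁ (hac.ne _ hg0), a3_pow hc₂ (hac.ne _ hf0),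
      a3_pow hc₂ (hac.ne _ hg0)] at h1
    rw [ha, hb]
    push_cast
    rw [div_neg, ← neg_div, div_le_div_iff₀ ha0 hb0]
    linarith
  set S : Set ℝ := {y | ∃ f : B, 0 < w (f : K) ∧
    y = (c₁ (ac f) + ρ * c₂ (ac f)) / (w (f : K) : ℝ)} with hS
  have hSne : S.Nonempty := ⟨_, b₀, hb₀, rfl⟩
  have hSb : BddAbove S := ⟨_, by rintro y ⟨f, hf, rfl⟩; exact hkey f b₁ hf hb₁⟩
  refine ⟨sSup S, fun f hf0 => ?_⟩
  rcases lt_trichotomy (w (f : K)) 0 with hf | hf | hf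
  · have h1 : sSup S ≤ (c₁ (ac f) + ρ * c₂ (ac f)) / (w (f : K) : ℝ) :=
      csSup_le hSne (by rintro y ⟨g, hg, rfl⟩; exact hkey g f hg hf)
    have h2 : (w (f : K) : ℝ) < 0 := by exact_mod_cast hf
    rwa [le_div_iff_of_neg h2] at h1
  · rw [hf]
    simpa using hzero f hf0 hf
  · have h1 : (c₁ (ac f) + ρ * c₂ (ac f)) / (w (f : K) : ℝ) ≤ sSup S := le_csSup hSb ⟨f, hf, rfl⟩
    have h2 : (0 : ℝ) < (w (f : K) : ℝ) := by exact_mod_cast hf
    rwa [div_le_iff₀ h2] at h1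

end Pool.Agent.F2W
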