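import Pool.Agent.Lib.MP_305fdd_al.F2.W.Stm4

/-!
# MP_305fdd_al, F_2, section W, piece A4: the descending direction is nonpositive on `A`
-/

set_option autoImplicit false

namespace Pool.Agent.F2W

open Pool.Agent.F2Ch Pool.Agent.F2 Pool.Agent.F2RF Polynomial

private theorem a4_pow {κ : Type} [Field κ] {c : κ → ℝ} (hc : IsV c) {a : κ} (ha : a ≠ 0) (n : ℕ) :
    c (a ^ n) = n * c a := by
  induction n with
  | zero =>
    have := hc.mul 1 1 one_ne_zero one_ne_zero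
    rw [mul_one] at this
    have h1 : c 1 = 0 := by linarith
    simp [h1]
  | succ n ih =>
    rw [pow_succ, hc.mul _ _ (pow_ne_zero n ha) ha, ih]
    push_cast
    ring

private theorem a4_wpow {K : Type} [Field K] {w : K → ℤ} (hw : IsV w) {a : K} (ha : a ≠ 0)
    (n : ℕ) : w (a ^ n) = n * w a := by
  induction n with
  | zero =>
    have := hw.mul 1 1 one_ne_zero one_ne_zero
    rw [mul_one] at this
    have h1 : w 1 = 0 := by linarith
    simp [h1]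
  | succ n ih =>
    rw [pow_succ, hw.mul _ _ (pow_ne_zero n ha) ha, ih]
    push_cast
    ring

/-- The hypothesis `S_U10` is not needed. -/
theorem p_A4 : S_A4 := by
  intro k K κ _ _ _ _ _ B res w hw hT hpos hneg r x ac hac A hA c hc hneg'
  obtain ⟨f₀, hf₀, hf₀'⟩ := hpos
  obtain ⟨g₀, hg₀, hg₀'⟩ := hneg
  have hne : ∀ f : K, w f ≠ 0 → f ≠ 0 := by
    rintro f hf rfl
    exact hf hw.zero
  have hlc : ∀ f : K, f ≠ 0 → w f = 0 → lc w ac 0 f = ac f := by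
    intro f hf hwf
    unfold lc
    rw [if_pos ⟨hf, hwf⟩]
  have hlc' : ∀ f : K, lc w ac 0 f ≠ 0 → f ≠ 0 ∧ w f = 0 := by
    intro f hf
    unfold lc at hf
    by_contra h
    rw [if_neg h] at hf
    exact hf rfl
  have hmul : ∀ f g : K, Ge w 0 f → Ge w 0 g → Ge w 0 (f * g) ∧
      lc w ac 0 (f * g) = lc w ac 0 f * lc w ac 0 g := by
    intro f g hf hg
    rcases eq_or_ne f 0 with rfl | hf0
    · refine ⟨Or.inl (zero_mul g), ?_⟩
      unfold lc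
      simp
    rcases eq_or_ne g 0 with rfl | hg0
    · refine ⟨Or.inl (mul_zero f), ?_⟩
      unfold lc
      simp
    have hf1 : 0 ≤ w f := hf.resolve_left hf0
    have hg1 : 0 ≤ w g := hg.resolve_left hg0
    have hfg := hw.mul f g hf0 hg0
    refine ⟨Or.inr (by rw [hfg]; exact add_nonneg hf1 hg1), ?_⟩
    unfold lc
    by_cases h1 : w f = 0
    · by_cases h2 : w g = 0
      · rw [if_pos ⟨mul_ne_zero hf0 hg0, by rw [hfg, h1, h2, add_zero]⟩, if_pos ⟨hf0, h1⟩,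
          if_pos ⟨hg0, h2⟩, hac.mul]
      · rw [if_neg (fun h => h2 (by have := h.2; rw [hfg] at this; omega)),
          if_neg (fun h : g ≠ 0 ∧ w g = 0 => h2 h.2), mul_zero]
    · rw [if_neg (fun h => h1 (by have := h.2; rw [hfg] at this; omega)),
        if_neg (fun h : f ≠ 0 ∧ w f = 0 => h1 h.2), zero_mul]
  set Q : Set κ := {z | ∃ f : B, res f = 0 ∧ Ge w 0 (f : K) ∧ lc w ac 0 (f : K) = z} with hQ
  have hQA : ∀ h ∈ Q, h ∈ A := by
    rintro h ⟨f, -, hf, rfl⟩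
    exact (hA _).2 ⟨f, hf, rfl⟩
  have hQmul : ∀ a ∈ A, ∀ h ∈ Q, a * h ∈ Q := by
    rintro a ha h ⟨f, hf, hf', rfl⟩
    obtain ⟨g, hg, rfl⟩ := (hA _).1 ha
    have h1 := hmul g f hg hf'
    exact ⟨g * f, by rw [map_mul, hf, mul_zero], h1.1, h1.2⟩
  have hQneg : ∀ h ∈ Q, h ≠ 0 → c h < 0 := by
    rintro h ⟨f, hf, -, rfl⟩ h0
    obtain ⟨hf0, hwf⟩ := hlc' _ h0
    rw [hlc _ hf0 hwf]
    exact hneg' f hf hf0 hwf
  have hQne : ∃ h ∈ Q, h ≠ 0 := by
    obtain ⟨a, ha⟩ : ∃ a : ℕ, w (f₀ : K) = a + 1 := ⟨(w (f₀ : K) - 1).toNat, by omega⟩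
    obtain ⟨b, hb⟩ : ∃ b : ℕ, w (g₀ : K) = -((b : ℤ) + 1) := ⟨(-w (g₀ : K) - 1).toNat, by omega⟩
    have hf0 := hne _ hf₀'.ne'
    have hg0 := hne _ hg₀'.ne
    have hfb := pow_ne_zero (b + 1) hf0
    have hga := pow_ne_zero (a + 1) hg0
    have hF0 : ((f₀ ^ (b + 1) * g₀ ^ (a + 1) : B) : K) ≠ 0 := by
      push_cast
      exact mul_ne_zero hfb hga
    have hFw : w ((f₀ ^ (b + 1) * g₀ ^ (a + 1) : B) : K) = 0 := by
      push_cast
      rw [hw.mul _ _ hfb hga, a4_wpow hw hf0, a4_wpow hw hg0, ha, hb]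
      push_cast
      ring
    refine ⟨ac ((f₀ ^ (b + 1) * g₀ ^ (a + 1) : B) : K), ⟨f₀ ^ (b + 1) * g₀ ^ (a + 1), ?_,
      Or.inr hFw.ge, hlc _ hF0 hFw⟩, hac.ne _ hF0⟩
    rw [map_mul, map_pow, hf₀, pow_succ, mul_zero, zero_mul]
  obtain ⟨h, hh, hh0⟩ := hQne
  have hQpow : ∀ a ∈ A, ∀ n : ℕ, a ^ n * h ∈ Q := by
    intro a ha n
    induction n with
    | zero => simpa using hh
    | succ n ih =>
      rw [pow_succ', mul_assoc]
      exact hQmul a ha _ ih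
  refine ⟨Q, hQA, ⟨h, hh, hh0⟩, hQmul, hQneg, fun a ha ha0 => ?_, ⟨h, hQA h hh, hh0, hQneg h hh hh0⟩⟩
  by_contra hca
  push Not at hca
  obtain ⟨n, hn⟩ := exists_nat_gt (-c h / c a)
  have h1 := hQneg _ (hQpow a ha n) (mul_ne_zero (pow_ne_zero n ha0) hh0)
  rw [hc.mul _ _ (pow_ne_zero n ha0) hh0, a4_pow hc ha0] at h1
  rw [div_lt_iff₀ hca] at hn
  linarith

end Pool.Agent.F2W
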