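import Pool.Agent.Lib.MP_305fdd_al.F2.W.Stm4

/-!
Piece `[F2W A5]` of MP_305fdd_al: `w` takes both signs on the ideal.
-/

set_option autoImplicit false

namespace Pool.Agent.F2W

open Pool.Agent.F2Ch Polynomial Pool.Agent.F2 Pool.Agent.F2RF

private theorem a5_one {K : Type} [Field K] (w : K → ℤ) (hw : IsV w) : w 1 = 0 := by
  have h := hw.mul 1 1 one_ne_zero one_ne_zero
  rw [mul_one] at h
  omega

private theorem a5_pow {K : Type} [Field K] (w : K → ℤ) (hw : IsV w) (b : K) (hb : b ≠ 0) (n : ℕ) :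
    w (b ^ n) = n * w b := by
  induction n with
  | zero => rw [pow_zero, a5_one w hw]; simp
  | succ n ih =>
    rw [pow_succ, hw.mul _ _ (pow_ne_zero _ hb) hb, ih]
    push_cast
    ring

theorem p_A5 : S_A5 := by
  rintro k K _ _ _ B res w hw ⟨f, hf, hf0⟩ ⟨b, hb⟩
  have hb0 : (b : K) ≠ 0 := by
    intro h
    rw [h, hw.zero] at hb
    omega
  refine ⟨f * b ^ ((w f).toNat + 1), ?_, ?_⟩
  · rw [map_mul, hf, zero_mul]
  · have e : ((f * b ^ ((w f).toNat + 1) : B) : K) = (f : K) * (b : K) ^ ((w f).toNat + 1) := by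
      push_cast
      ring
    rw [e, hw.mul _ _ hf0 (pow_ne_zero _ hb0), a5_pow w hw _ hb0]
    have h1 : w (f : K) ≤ ((w f).toNat : ℤ) := Int.self_le_toNat _
    have h2 : ((((w f).toNat + 1 : ℕ) : ℤ)) * w (b : K) ≤ (((w f).toNat + 1 : ℕ) : ℤ) * (-1) :=
      mul_le_mul_of_nonneg_left (by omega) (by positivity)
    push_cast at h2 ⊢
    linarith

end Pool.Agent.F2W
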