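import Pool.Agent.Lib.MP_305fdd_al.F2.W.Stm2

/-!
# MP_305fdd_al, F_2, section W, piece D
-/

set_option autoImplicit false

namespace Pool.Agent.F2W

open Pool.Agent.F2Ch Polynomial Pool.Agent.F2 Pool.Agent.F2RF

private theorem d_pow {K : Type} [Field K] (w : K → ℤ) (c : K → ℝ) (I Tr : Set K)
    (hw : ∀ x y, x ≠ 0 → y ≠ 0 → w (x * y) = w x + w y)
    (hc : ∀ x y, x ≠ 0 → y ≠ 0 → c (x * y) = c x + c y)
    (hI : ∀ x ∈ I, x ≠ 0) (hT : ∀ x ∈ Tr, x ≠ 0) (hII : ∀ x ∈ I, ∀ y ∈ I, x * y ∈ I)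
    (hIT : ∀ x ∈ I, ∀ y ∈ Tr, x * y ∈ I) (x y : K) (hx : x ∈ I) (hy : y ∈ I ∪ Tr)
    (a b : ℕ) : x ^ (a + 1) * y ^ b ∈ I ∧
      w (x ^ (a + 1) * y ^ b) = ((a : ℤ) + 1) * w x + (b : ℤ) * w y ∧
      c (x ^ (a + 1) * y ^ b) = ((a : ℝ) + 1) * c x + (b : ℝ) * c y := by
  have hx0 := hI x hx
  have hy0 : y ≠ 0 := by
    rcases hy with hy | hy
    · exact hI y hy
    · exact hT y hy
  induction b with
  | zero =>
    induction a with
    | zero => simp [hx]
    | succ a ih =>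
      obtain ⟨h1, h2, h3⟩ := ih
      have hne := hI _ h1
      have he : x ^ (a + 1 + 1) * y ^ 0 = (x ^ (a + 1) * y ^ 0) * x := by ring
      rw [he]
      refine ⟨hII _ h1 _ hx, ?_, ?_⟩
      · rw [hw _ _ hne hx0, h2]; push_cast; ring
      · rw [hc _ _ hne hx0, h3]; push_cast; ring
  | succ b ih =>
    obtain ⟨h1, h2, h3⟩ := ih
    have hne := hI _ h1
    have he : x ^ (a + 1) * y ^ (b + 1) = (x ^ (a + 1) * y ^ b) * y := by ring
    rw [he]
    refine ⟨?_, ?_, ?_⟩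
    · rcases hy with hy | hy
      · exact hII _ h1 _ hy
      · exact hIT _ h1 _ hy
    · rw [hw _ _ hne hy0, h2]; push_cast; ring
    · rw [hc _ _ hne hy0, h3]; push_cast; ring

private theorem d_mix {K : Type} [Field K] (w : K → ℤ) (c : K → ℝ) (I Tr : Set K)
    (hw : ∀ x y, x ≠ 0 → y ≠ 0 → w (x * y) = w x + w y)
    (hc : ∀ x y, x ≠ 0 → y ≠ 0 → c (x * y) = c x + c y)
    (hI : ∀ x ∈ I, x ≠ 0) (hT : ∀ x ∈ Tr, x ≠ 0) (hII : ∀ x ∈ I, ∀ y ∈ I, x * y ∈ I)
    (hIT : ∀ x ∈ I, ∀ y ∈ Tr, x * y ∈ I) (x y : K) (hx : x ∈ I) (hy : y ∈ I ∪ Tr)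
    (hx1 : 0 < w x) (hy1 : w y < 0) :
    ∃ z ∈ I, w z = 0 ∧ c z = (-(w y : ℝ)) * c x + (w x : ℝ) * c y := by
  obtain ⟨n, hn⟩ : ∃ n : ℕ, w x = n := ⟨(w x).toNat, by omega⟩
  obtain ⟨m, hm⟩ : ∃ m : ℕ, w y = -((m : ℤ) + 1) := ⟨(-(w y) - 1).toNat, by omega⟩
  obtain ⟨h1, h2, h3⟩ := d_pow w c I Tr hw hc hI hT hII hIT x y hx hy m n
  refine ⟨_, h1, ?_, ?_⟩
  · rw [h2, hn, hm]; ring
  · rw [h3, hn, hm]; push_cast; ring

theorem p_D : S_D := by
  intro K _ w c γ I Tr hγ hw hc hcγ hI hT hII hIT hTr hne hpos hneg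
  obtain ⟨xp, hxp, hxp1⟩ := hpos
  obtain ⟨xn, hxn, hxn1⟩ := hneg
  obtain ⟨z0, hz0, hwz0, -⟩ := d_mix w c I Tr hw hc hI hT hII hIT xp xn hxp (Or.inl hxn) hxp1 hxn1
  have hsign : ∀ x ∈ I, ∀ y ∈ I, w x = 0 → w y = 0 → c x < 0 → 0 < c y → False := by
    intro x hx y hy hwx hwy hcx hcy
    obtain ⟨i, hi⟩ := hcγ x
    obtain ⟨j, hj⟩ := hcγ y
    have hi0 : i < 0 := by
      have h : (i : ℝ) < 0 := by
        by_contra hcon
        push Not at hcon
        have := mul_nonneg hcon hγ.le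
        linarith
      exact_mod_cast h
    have hj0 : 0 < j := by
      have h : (0 : ℝ) < j := by
        by_contra hcon
        push Not at hcon
        have := mul_nonpos_of_nonpos_of_nonneg hcon hγ.le
        linarith
      exact_mod_cast h
    obtain ⟨m, hm⟩ : ∃ m : ℕ, j = (m : ℤ) + 1 := ⟨(j - 1).toNat, by omega⟩
    obtain ⟨n, hn⟩ : ∃ n : ℕ, i = -(n : ℤ) := ⟨(-i).toNat, by omega⟩
    obtain ⟨h1, h2, h3⟩ := d_pow w c I Tr hw hc hI hT hII hIT x y hx (Or.inl hy) m n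
    refine hne _ h1 ?_ ?_
    · rw [h2, hwx, hwy]; ring
    · rw [h3, hi, hj, hm, hn]; push_cast; ring
  have hcases : (∀ x ∈ I, w x = 0 → c x < 0) ∨ (∀ x ∈ I, w x = 0 → 0 < c x) := by
    rcases lt_or_gt_of_ne (hne z0 hz0 hwz0) with h | h
    · left
      intro x hx hwx
      rcases lt_or_gt_of_ne (hne x hx hwx) with h' | h'
      · exact h'
      · exact (hsign z0 hz0 x hx hwz0 hwx h h').elim
    · right
      intro x hx hwx
      rcases lt_or_gt_of_ne (hne x hx hwx) with h' | h'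
      · exact (hsign x hx z0 hz0 hwx hwz0 h' h).elim
      · exact h'
  rcases hcases with hS | hS
  · left
    refine ⟨hS, ?_⟩
    set A : Set ℝ := {r | ∃ x ∈ I, 0 < w x ∧ r = c x / (w x : ℝ)} with hA
    have hAne : A.Nonempty := ⟨_, xp, hxp, hxp1, rfl⟩
    have hub : ∀ y ∈ I ∪ Tr, w y < 0 → ∀ r ∈ A, r ≤ c y / (w y : ℝ) := by
      rintro y hy hy1 r ⟨x, hx, hx1, rfl⟩
      obtain ⟨z, hz, hwz, hcz⟩ := d_mix w c I Tr hw hc hI hT hII hIT x y hx hy hx1 hy1
      have h1 := hS z hz hwz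
      rw [hcz] at h1
      have hx2 : (0 : ℝ) < (w x : ℝ) := by exact_mod_cast hx1
      have hy2 : (w y : ℝ) < 0 := by exact_mod_cast hy1
      rw [div_le_iff₀ hx2, div_mul_eq_mul_div, le_div_iff_of_neg hy2]
      linarith
    have hbdd : BddAbove A := ⟨_, hub xn (Or.inl hxn) hxn1⟩
    refine ⟨-sSup A, ?_⟩
    intro x hx
    rw [neg_neg]
    rcases lt_trichotomy (w x) 0 with h | h | h
    · have h1 : sSup A ≤ c x / (w x : ℝ) := csSup_le hAne (hub x hx h)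
      have h2 : (w x : ℝ) < 0 := by exact_mod_cast h
      rw [le_div_iff_of_neg h2] at h1
      exact h1
    · rw [h]
      push_cast
      rw [mul_zero]
      rcases hx with hx | hx
      · exact (hS x hx h).le
      · exact (hTr x hx).2 h
    · have hxI : x ∈ I := by
        rcases hx with hx | hx
        · exact hx
        · have := (hTr x hx).1
          omega
      have h1 : c x / (w x : ℝ) ≤ sSup A := le_csSup hbdd ⟨x, hxI, h, rfl⟩
      have h2 : (0 : ℝ) < (w x : ℝ) := by exact_mod_cast h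
      rw [div_le_iff₀ h2] at h1
      exact h1
  · right
    refine ⟨hS, ?_⟩
    set A : Set ℝ := {r | ∃ x ∈ I, 0 < w x ∧ r = c x / (w x : ℝ)} with hA
    have hAne : A.Nonempty := ⟨_, xp, hxp, hxp1, rfl⟩
    have hlb : ∀ y ∈ I ∪ Tr, w y < 0 → ∀ r ∈ A, c y / (w y : ℝ) ≤ r := by
      rintro y hy hy1 r ⟨x, hx, hx1, rfl⟩
      obtain ⟨z, hz, hwz, hcz⟩ := d_mix w c I Tr hw hc hI hT hII hIT x y hx hy hx1 hy1
      have h1 := hS z hz hwz
      rw [hcz] at h1
      have hx2 : (0 : ℝ) < (w x : ℝ) := by exact_mod_cast hx1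
      have hy2 : (w y : ℝ) < 0 := by exact_mod_cast hy1
      rw [le_div_iff₀ hx2, div_mul_eq_mul_div, div_le_iff_of_neg hy2]
      linarith
    have hbdd : BddBelow A := ⟨_, hlb xn (Or.inl hxn) hxn1⟩
    refine ⟨sInf A, ?_⟩
    intro x hx
    rcases lt_trichotomy (w x) 0 with h | h | h
    · have h1 : c x / (w x : ℝ) ≤ sInf A := le_csInf hAne (hlb x hx h)
      have h2 : (w x : ℝ) < 0 := by exact_mod_cast h
      rw [div_le_iff_of_neg h2] at h1
      exact h1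
    · rw [h]
      push_cast
      rw [mul_zero]
      rcases hx with hx | hx
      · exact (hS x hx h).le
      · by_contra hcon
        push Not at hcon
        obtain ⟨n, hn⟩ := exists_nat_gt (c z0 / (-c x))
        obtain ⟨h1, h2, h3⟩ := d_pow w c I Tr hw hc hI hT hII hIT z0 x hz0 (Or.inr hx) 0 n
        have h4 := hS _ h1 (by rw [h2, hwz0, h]; ring)
        rw [h3] at h4
        rw [div_lt_iff₀ (by linarith)] at hn
        push_cast at h4
        linarith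
    · have hxI : x ∈ I := by
        rcases hx with hx | hx
        · exact hx
        · have := (hTr x hx).1
          omega
      have h1 : sInf A ≤ c x / (w x : ℝ) := csInf_le hbdd ⟨x, hxI, h, rfl⟩
      have h2 : (0 : ℝ) < (w x : ℝ) := by exact_mod_cast h
      rw [le_div_iff₀ h2] at h1
      exact h1

end Pool.Agent.F2W
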