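import Pool.Agent.Lib.MP_305fdd_al.F2.W.Stm

set_option autoImplicit false

namespace Pool.Agent.F2W

open Pool.Agent.F2Ch Polynomial

section

variable {M : Type} [Field M] {v : M → ℤ}

private theorem l1_one (hv : IsV v) : v 1 = 0 := by
  have h := hv.mul 1 1 one_ne_zero one_ne_zero
  rw [mul_one] at h
  omega

private theorem l1_inv (hv : IsV v) (a : M) (ha : a ≠ 0) : v a⁻¹ = - v a := by
  have h := hv.mul a a⁻¹ ha (inv_ne_zero ha)
  rw [mul_inv_cancel₀ ha, l1_one hv] at h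
  omega

private theorem l1_pow (hv : IsV v) (a : M) (ha : a ≠ 0) (n : ℕ) : v (a ^ n) = n * v a := by
  induction n with
  | zero => rw [pow_zero, l1_one hv]; simp
  | succ n ih =>
    rw [pow_succ, hv.mul _ _ (pow_ne_zero n ha) ha, ih]
    push_cast
    ring

private theorem l1_zpow (hv : IsV v) (a : M) (ha : a ≠ 0) (n : ℤ) : v (a ^ n) = n * v a := by
  obtain ⟨m, rfl | rfl⟩ := n.eq_nat_or_neg
  · rw [zpow_natCast, l1_pow hv a ha]
  · rw [zpow_neg, zpow_natCast, l1_inv hv _ (pow_ne_zero m ha), l1_pow hv a ha]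
    ring

end

theorem p_L1 : S_L1 := by
  intro p hp M _ φ hφ hφ1 v hv ⟨u, hu, hvu⟩ J ⟨y1, hy1, hy10⟩ hmul hstab hone
  have hφ0 : φ 0 = 0 := by
    have h := hφ.add 0 0
    rw [add_zero] at h
    exact left_eq_add.1 h
  have hpos : ∀ y ∈ J, y ≠ 0 → 0 < v y := by
    intro y hy hy0
    by_contra hcon
    apply hone
    have h := hmul y⁻¹ y (Or.inr (by rw [l1_inv hv y hy0]; omega)) hy
    rwa [inv_mul_cancel₀ hy0] at h
  have hex : ∃ n : ℕ, ∃ y ∈ J, y ≠ 0 ∧ v y = n := by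
    have h := hpos y1 hy1 hy10
    exact ⟨(v y1).toNat, y1, hy1, hy10, by omega⟩
  classical
  obtain ⟨y0, hy0J, hy0, hvy0⟩ := Nat.find_spec hex
  set e := Nat.find hex with he
  have hmin : ∀ y ∈ J, y ≠ 0 → (e : ℤ) ≤ v y := by
    intro y hy hy'
    have h := hpos y hy hy'
    have h2 : e ≤ (v y).toNat := Nat.find_min' hex ⟨y, hy, hy', by omega⟩
    omega
  have hmem : ∀ y, y ≠ 0 → (e : ℤ) ≤ v y → y ∈ J := by
    intro y hy hvy
    have h := hmul (y * y0⁻¹) y0 (Or.inr (by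
      rw [hv.mul _ _ hy (inv_ne_zero hy0), l1_inv hv y0 hy0, hvy0]; omega)) hy0J
    rwa [mul_assoc, inv_mul_cancel₀ hy0, mul_one] at h
  have he1 : 1 ≤ e := by
    have := hpos y0 hy0J hy0
    omega
  have hp2 : 2 ≤ p := hp.out.two_le
  have hee : e = 1 := by
    by_contra hne
    have he2 : 2 ≤ e := by omega
    have hb0 : u ^ (e - 1) ≠ 0 := pow_ne_zero _ hu
    have hvb : v (u ^ (e - 1)) = ((e - 1 : ℕ) : ℤ) := by
      rw [l1_pow hv u hu, hvu, mul_one]
    have hbp : (u ^ (e - 1)) ^ p ∈ J := by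
      apply hmem _ (pow_ne_zero p hb0)
      rw [l1_pow hv _ hb0, hvb]
      have h1 : (2 : ℤ) * ((e - 1 : ℕ) : ℤ) ≤ (p : ℤ) * ((e - 1 : ℕ) : ℤ) :=
        mul_le_mul_of_nonneg_right (by exact_mod_cast hp2) (by omega)
      omega
    have hb := hstab _ hbp
    have h2 : φ ((u ^ (e - 1)) ^ p) = u ^ (e - 1) := by
      have := hφ.pow_mul (u ^ (e - 1)) 1
      rw [mul_one, hφ1, mul_one] at this
      exact this
    rw [h2] at hb
    have h3 := hmin _ hb hb0
    rw [hvb] at h3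
    omega
  have hJ : ∀ y, y ∈ J ↔ Gt v 0 y := by
    intro y
    constructor
    · intro hy
      by_cases hy0' : y = 0
      · exact Or.inl hy0'
      · exact Or.inr (hpos y hy hy0')
    · rintro (rfl | hy)
      · exact J.zero_mem
      · by_cases hy0' : y = 0
        · rw [hy0']; exact J.zero_mem
        · exact hmem y hy0' (by omega)
  refine ⟨hJ, ?_⟩
  intro f hf
  have hf0 : f ≠ 0 := by
    rintro rfl
    exact hf hφ0
  have hp0 : (0 : ℤ) < p := by exact_mod_cast hp.out.pos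
  set q := (v f - 1) / (p : ℤ) with hq
  have hdm : (p : ℤ) * q + (v f - 1) % (p : ℤ) = v f - 1 := Int.mul_ediv_add_emod _ _
  have hr0 : 0 ≤ (v f - 1) % (p : ℤ) := Int.emod_nonneg _ (by omega)
  have hr1 : (v f - 1) % (p : ℤ) < p := Int.emod_lt_of_pos _ hp0
  set r := (v f - 1) % (p : ℤ) with hr
  have hw0 : u ^ (-q) ≠ 0 := zpow_ne_zero _ hu
  have hvw : v (u ^ (-q)) = -q := by rw [l1_zpow hv u hu, hvu, mul_one]
  have hvf' : v ((u ^ (-q)) ^ p * f) = r + 1 := by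
    rw [hv.mul _ _ (pow_ne_zero p hw0) hf0, l1_pow hv _ hw0, hvw]
    linear_combination -hdm
  have hmem' : (u ^ (-q)) ^ p * f ∈ J := by
    rw [hJ]
    right
    rw [hvf']
    omega
  have h1 := hstab _ hmem'
  rw [hφ.pow_mul, hJ] at h1
  rcases h1 with h1 | h1
  · exact absurd h1 (mul_ne_zero hw0 hf)
  · rw [hv.mul _ _ hw0 hf, hvw] at h1
    rw [nsmul_eq_mul]
    have h2 : (p : ℤ) * (q + 1) ≤ (p : ℤ) * v (φ f) :=
      mul_le_mul_of_nonneg_left (by omega) hp0.le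
    have h3 : (p : ℤ) * (q + 1) = p * q + p := by ring
    omega

end Pool.Agent.F2W
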