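import Pool.Agent.Lib.MP_305fdd_al.F2.W.Stm

set_option autoImplicit false

namespace Pool.Agent.F2W

open Pool.Agent.F2Ch Polynomial

section
variable {k M : Type} [Field k] [Field M] [Algebra k M] {v : M → ℤ}

theorem l10_one (hv : IsV v) : v 1 = 0 := by
  have h := hv.mul 1 1 one_ne_zero one_ne_zero
  rw [mul_one] at h
  omega

theorem l10_ge_add (hv : IsV v) {x y : M} (hx : Ge v 0 x) (hy : Ge v 0 y) : Ge v 0 (x + y) := by
  by_cases h : x + y = 0
  · exact Or.inl h
  · by_cases hx0 : x = 0
    · rw [hx0, zero_add]; exact hy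
    · by_cases hy0 : y = 0
      · rw [hy0, add_zero]; exact hx
      · exact Or.inr (le_trans (le_min (hx.resolve_left hx0) (hy.resolve_left hy0))
          (hv.add x y hx0 hy0 h))

theorem l10_ge_mul (hv : IsV v) {x y : M} (hx : Ge v 0 x) (hy : Ge v 0 y) : Ge v 0 (x * y) := by
  by_cases hx0 : x = 0
  · left; rw [hx0, zero_mul]
  · by_cases hy0 : y = 0
    · left; rw [hy0, mul_zero]
    · right
      rw [hv.mul x y hx0 hy0]
      exact add_nonneg (hx.resolve_left hx0) (hy.resolve_left hy0)

theorem l10_gt_mul (hv : IsV v) {x y : M} (hx : Ge v 0 x) (hy : Ge v 0 y)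
    (h : Gt v 0 (x * y)) : Gt v 0 x ∨ Gt v 0 y := by
  by_cases hx0 : x = 0
  · exact Or.inl (Or.inl hx0)
  · by_cases hy0 : y = 0
    · exact Or.inr (Or.inl hy0)
    · have h1 := h.resolve_left (mul_ne_zero hx0 hy0)
      rw [hv.mul x y hx0 hy0] at h1
      have h2 := hx.resolve_left hx0
      have h3 := hy.resolve_left hy0
      by_cases h4 : 0 < v x
      · exact Or.inl (Or.inr h4)
      · right; right; omega

theorem l10_alg (hT : Triv k v) (c : k) : Ge v 0 (algebraMap k M c) := by
  right
  rw [hT c]

theorem l10_aeval (hv : IsV v) (hT : Triv k v) {f : M} (hf : Ge v 0 f) (P : k[X]) :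
    Ge v 0 (aeval f P) := by
  induction P using Polynomial.induction_on with
  | C a => rw [aeval_C]; exact l10_alg hT a
  | add p q hp hq => rw [map_add]; exact l10_ge_add hv hp hq
  | monomial n a h =>
    rw [pow_succ, ← mul_assoc, map_mul, aeval_X]
    exact l10_ge_mul hv h hf

theorem l10_split [IsAlgClosed k] (hv : IsV v) (hT : Triv k v) {f : M} (hf : Ge v 0 f) (n : ℕ) :
    ∀ P : k[X], P ≠ 0 → P.natDegree ≤ n → Gt v 0 (aeval f P) →
      ∃ c : k, Gt v 0 (f - algebraMap k M c) := by
  induction n with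
  | zero =>
    intro P hP hn h
    have h1 : P = C (P.coeff 0) := eq_C_of_natDegree_le_zero hn
    rw [h1, aeval_C] at h
    have h2 : P.coeff 0 ≠ 0 := by
      intro h3
      rw [h3, C_0] at h1
      exact hP h1
    rcases h with h | h
    · exact absurd ((map_eq_zero _).1 h) h2
    · rw [hT] at h
      exact absurd h (lt_irrefl _)
  | succ n ih =>
    intro P hP hn h
    by_cases hd : P.natDegree ≤ n
    · exact ih P hP hd h
    · have hdeg : P.degree ≠ 0 := by
        intro h1
        have h2 : P.natDegree = 0 := natDegree_eq_of_degree_eq_some (by rw [h1]; rfl)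
        omega
      obtain ⟨c, hc⟩ := IsAlgClosed.exists_root P hdeg
      obtain ⟨Q, hQ⟩ := dvd_iff_isRoot.2 hc
      have hQ0 : Q ≠ 0 := by
        rintro rfl
        rw [mul_zero] at hQ
        exact hP hQ
      have hXc : (X - C c : k[X]) ≠ 0 := X_sub_C_ne_zero c
      have h1 : aeval f P = (f - algebraMap k M c) * aeval f Q := by
        rw [hQ, map_mul, map_sub, aeval_X, aeval_C]
      have h2 : Ge v 0 (f - algebraMap k M c) := by
        have h3 := l10_aeval hv hT hf (X - C c)
        rwa [map_sub, aeval_X, aeval_C] at h3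
      rw [h1] at h
      rcases l10_gt_mul hv h2 (l10_aeval hv hT hf Q) h with h3 | h3
      · exact ⟨c, h3⟩
      · refine ih Q hQ0 ?_ h3
        have h4 : P.natDegree = (X - C c).natDegree + Q.natDegree := by
          rw [hQ, natDegree_mul hXc hQ0]
        rw [natDegree_X_sub_C] at h4
        omega

theorem l10_divX {A : Subalgebra k M} {u : M} (hu : u ≠ 0) (n : ℕ) :
    ∀ q : A[X], q ≠ 0 → q.natDegree ≤ n → aeval u q = 0 →
      ∃ q' : A[X], q'.coeff 0 ≠ 0 ∧ aeval u q' = 0 := by
  induction n with
  | zero =>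
    intro q hq hn h
    refine ⟨q, ?_, h⟩
    intro h1
    have h2 : q = C (q.coeff 0) := eq_C_of_natDegree_le_zero hn
    rw [h1, C_0] at h2
    exact hq h2
  | succ n ih =>
    intro q hq hn h
    by_cases h0 : q.coeff 0 = 0
    · have h1 : divX q * X = q := by
        have h2 := divX_mul_X_add q
        rwa [h0, C_0, add_zero] at h2
      have h2 : divX q ≠ 0 := by
        intro h3
        rw [h3, zero_mul] at h1
        exact hq h1.symm
      refine ih (divX q) h2 ?_ ?_
      · rw [natDegree_divX_eq_natDegree_tsub_one]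
        omega
      · rw [← h1, map_mul, aeval_X] at h
        exact (mul_eq_zero.1 h).resolve_right hu
    · exact ⟨q, h0, h⟩

theorem l10_aevalA (hv : IsV v) {A : Subalgebra k M} (hA : ∀ a ∈ A, Ge v 0 a) {u : M}
    (hu : Ge v 0 u) (q : A[X]) : Ge v 0 (aeval u q) := by
  induction q using Polynomial.induction_on with
  | C a => rw [aeval_C]; exact hA _ a.2
  | add p q hp hq => rw [map_add]; exact l10_ge_add hv hp hq
  | monomial n a h =>
    rw [pow_succ, ← mul_assoc, map_mul, aeval_X]
    exact l10_ge_mul hv h hu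

end

theorem p_L10 : S_L10 := by
  intro k M _ _ _ _ htr v hv hT hu f hf
  obtain ⟨u, hu0, hu1⟩ := hu
  by_cases hft : Transcendental k f
  · have hind : AlgebraicIndependent k (fun _ : Unit => f) :=
      (algebraicIndependent_unique_type_iff (x := fun _ : Unit => f)).2 hft
    have hb : IsTranscendenceBasis k (fun _ : Unit => f) :=
      hind.isTranscendenceBasis_of_trdeg_le_of_finite (by rw [htr]; simp)
    have halg := hb.isAlgebraic
    rw [Set.range_const] at halg
    obtain ⟨q, hq0, hq⟩ := halg.isAlgebraic u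
    obtain ⟨q', hq'0, hq'⟩ := l10_divX hu0 q.natDegree q hq0 le_rfl hq
    have hA : ∀ a ∈ Algebra.adjoin k {f}, Ge v 0 a := by
      intro a ha
      rw [Algebra.adjoin_singleton_eq_range_aeval] at ha
      obtain ⟨P, rfl⟩ := ha
      exact l10_aeval hv hT hf P
    have h1 : aeval u (divX q') * u + ((q'.coeff 0 : Algebra.adjoin k {f}) : M) = 0 := by
      have h2 := congrArg (aeval u) (divX_mul_X_add q')
      rw [map_add, map_mul, aeval_X, aeval_C, hq'] at h2
      exact h2
    have hge : Ge v 0 (aeval u (divX q')) :=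
      l10_aevalA hv hA (Or.inr (by rw [hu1]; norm_num)) _
    have h3 : ((q'.coeff 0 : Algebra.adjoin k {f}) : M) = aeval u (divX q') * (-u) := by
      rw [mul_neg]
      exact eq_neg_of_add_eq_zero_right h1
    have hnu : v (-u) = 1 := by
      have h4 : v (-1 : M) = 0 := by
        have h5 := hT (-1)
        rwa [map_neg, map_one] at h5
      rw [← neg_one_mul, hv.mul _ _ (by simp) hu0, h4, hu1]
      norm_num
    have hgt : Gt v 0 ((q'.coeff 0 : Algebra.adjoin k {f}) : M) := by
      rw [h3]
      by_cases h4 : aeval u (divX q') = 0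
      · left; rw [h4, zero_mul]
      · right
        rw [hv.mul _ _ h4 (neg_ne_zero.2 hu0), hnu]
        have := hge.resolve_left h4
        omega
    have hmem : ((q'.coeff 0 : Algebra.adjoin k {f}) : M) ∈ (aeval f : k[X] →ₐ[k] M).range := by
      rw [← Algebra.adjoin_singleton_eq_range_aeval]
      exact (q'.coeff 0).2
    obtain ⟨P, hP⟩ := hmem
    have hP' : aeval f P = ((q'.coeff 0 : Algebra.adjoin k {f}) : M) := hP
    have hP0 : P ≠ 0 := by
      rintro rfl
      rw [map_zero] at hP'
      exact hq'0 (Subtype.ext hP'.symm)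
    rw [← hP'] at hgt
    exact l10_split hv hT hf P.natDegree P hP0 le_rfl hgt
  · rw [Transcendental, not_not] at hft
    obtain ⟨P, hP0, hP⟩ := hft
    exact l10_split hv hT hf P.natDegree P hP0 le_rfl (Or.inl hP)

end Pool.Agent.F2W

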