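import Pool.Agent.Lib.MP_305fdd_al.F2.W.Stm

/-! MP_305fdd_al, F_2, section W: piece L11 -/

set_option autoImplicit false

namespace Pool.Agent.F2W

open Pool.Agent.F2Ch Polynomial

section basics

variable {M : Type} [Field M]

theorem l11_val_one {v : M → ℤ} (hv : IsV v) : v 1 = 0 := by
  have h := hv.mul 1 1 one_ne_zero one_ne_zero
  rw [one_mul] at h
  omega

theorem l11_val_inv {v : M → ℤ} (hv : IsV v) {x : M} (hx : x ≠ 0) : v x⁻¹ = - v x := by
  have h := hv.mul x x⁻¹ hx (inv_ne_zero hx)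
  rw [mul_inv_cancel₀ hx, l11_val_one hv] at h
  omega

theorem l11_val_neg {v : M → ℤ} (hv : IsV v) (x : M) : v (-x) = v x := by
  by_cases hx : x = 0
  · subst hx; rw [neg_zero]
  have h1 := hv.mul (-1) (-1) (neg_ne_zero.mpr one_ne_zero) (neg_ne_zero.mpr one_ne_zero)
  rw [neg_one_mul, neg_neg, l11_val_one hv] at h1
  have h2 := hv.mul (-1) x (neg_ne_zero.mpr one_ne_zero) hx
  rw [neg_one_mul] at h2
  omega

theorem l11_val_pow {v : M → ℤ} (hv : IsV v) {x : M} (hx : x ≠ 0) (n : ℕ) :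
    v (x ^ n) = n * v x := by
  induction n with
  | zero => simp [l11_val_one hv]
  | succ n ih =>
    rw [pow_succ, hv.mul _ _ (pow_ne_zero _ hx) hx, ih]
    push_cast
    ring

theorem l11_val_zpow {v : M → ℤ} (hv : IsV v) {x : M} (hx : x ≠ 0) (n : ℤ) :
    v (x ^ n) = n * v x := by
  obtain ⟨m, rfl | rfl⟩ := n.eq_nat_or_neg
  · rw [zpow_natCast, l11_val_pow hv hx]
  · rw [zpow_neg, zpow_natCast, l11_val_inv hv (pow_ne_zero _ hx), l11_val_pow hv hx]
    ring

theorem l11_ge_mul {v : M → ℤ} (hv : IsV v) {x y : M} (hx : Ge v 0 x) (hy : Ge v 0 y) :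
    Ge v 0 (x * y) := by
  rcases hx with hx | hx
  · left; rw [hx, zero_mul]
  rcases hy with hy | hy
  · left; rw [hy, mul_zero]
  by_cases h0 : x * y = 0
  · left; exact h0
  right
  rw [hv.mul _ _ (left_ne_zero_of_mul h0) (right_ne_zero_of_mul h0)]
  omega

theorem l11_gt_mul {v : M → ℤ} (hv : IsV v) {x y : M} (hx : Ge v 0 x) (hy : Gt v 0 y) :
    Gt v 0 (x * y) := by
  rcases hx with hx | hx
  · left; rw [hx, zero_mul]
  rcases hy with hy | hy
  · left; rw [hy, mul_zero]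
  by_cases h0 : x * y = 0
  · left; exact h0
  right
  rw [hv.mul _ _ (left_ne_zero_of_mul h0) (right_ne_zero_of_mul h0)]
  omega

theorem l11_ge_add {v : M → ℤ} (hv : IsV v) {x y : M} (hx : Ge v 0 x) (hy : Ge v 0 y) :
    Ge v 0 (x + y) := by
  by_cases h0 : x + y = 0
  · left; exact h0
  by_cases hx0 : x = 0
  · rw [hx0, zero_add]; exact hy
  by_cases hy0 : y = 0
  · rw [hy0, add_zero]; exact hx
  right
  have h1 := hx.resolve_left hx0
  have h2 := hy.resolve_left hy0
  exact le_trans (le_min h1 h2) (hv.add x y hx0 hy0 h0)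

theorem l11_gt_add {v : M → ℤ} (hv : IsV v) {x y : M} (hx : Gt v 0 x) (hy : Gt v 0 y) :
    Gt v 0 (x + y) := by
  by_cases h0 : x + y = 0
  · left; exact h0
  by_cases hx0 : x = 0
  · rw [hx0, zero_add]; exact hy
  by_cases hy0 : y = 0
  · rw [hy0, add_zero]; exact hx
  right
  have h1 := hx.resolve_left hx0
  have h2 := hy.resolve_left hy0
  exact lt_of_lt_of_le (lt_min h1 h2) (hv.add x y hx0 hy0 h0)

/-- two normalised valuations with comparable valuation rings are equal -/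
theorem l11_eqv {v v' : M → ℤ} (hv : IsV v) (hv' : IsV v') (hu : ∃ u, u ≠ 0 ∧ v u = 1)
    (hu' : ∃ u, u ≠ 0 ∧ v' u = 1) (h : ∀ f, Ge v 0 f → Ge v' 0 f) : v' = v := by
  obtain ⟨u, hu0, hu1⟩ := hu
  obtain ⟨u', hu0', hu1'⟩ := hu'
  have hz : ∀ f, f ≠ 0 → v f = 0 → v' f = 0 := by
    intro f hf hf0
    have h1 := (h f (Or.inr hf0.ge)).resolve_left hf
    have h2 := (h f⁻¹ (Or.inr (by rw [l11_val_inv hv hf]; omega))).resolve_left
      (inv_ne_zero hf)
    rw [l11_val_inv hv' hf] at h2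
    omega
  have hmul : ∀ f, f ≠ 0 → v' f = v f * v' u := by
    intro f hf
    have hw : u ^ (v f) ≠ 0 := zpow_ne_zero _ hu0
    have h1 : v (f * (u ^ (v f))⁻¹) = 0 := by
      rw [hv.mul _ _ hf (inv_ne_zero hw), l11_val_inv hv hw, l11_val_zpow hv hu0, hu1]
      ring
    have h2 := hz _ (mul_ne_zero hf (inv_ne_zero hw)) h1
    rw [hv'.mul _ _ hf (inv_ne_zero hw), l11_val_inv hv' hw, l11_val_zpow hv' hu0] at h2
    linarith
  have hpos : 0 ≤ v' u := (h u (Or.inr (by omega))).resolve_left hu0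
  have h1 := hmul u' hu0'
  rw [hu1'] at h1
  have h2 : v' u = 1 := by
    rcases Int.eq_one_or_neg_one_of_mul_eq_one' h1.symm with ⟨_, h⟩ | ⟨_, h⟩
    · exact h
    · omega
  funext f
  by_cases hf : f = 0
  · rw [hf, hv.zero, hv'.zero]
  · rw [hmul f hf, h2, mul_one]

/-- integral elements over `k[z]` have nonnegative value -/
theorem l11_ge_poly {k : Type} [Field k] [Algebra k M] {v : M → ℤ} (hv : IsV v) (ht : Triv k v)
    {z : M} (hz : Ge v 0 z) (Q : k[X]) : Ge v 0 (aeval z Q) := by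
  induction Q using Polynomial.induction_on' with
  | add a b ha hb => rw [map_add]; exact l11_ge_add hv ha hb
  | monomial n a =>
    rw [aeval_monomial]
    have h1 : Ge v 0 (algebraMap k M a) := Or.inr (ht a).ge
    have h2 : ∀ n : ℕ, Ge v 0 (z ^ n) := by
      intro n
      induction n with
      | zero => rw [pow_zero]; exact Or.inr (l11_val_one hv).ge
      | succ n ih => rw [pow_succ]; exact l11_ge_mul hv ih hz
    exact l11_ge_mul hv h1 (h2 n)

theorem l11_gt_pow {v : M → ℤ} (hv : IsV v) {b : M} (hb : Gt v 0 b) {n : ℕ} (hn : n ≠ 0) :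
    Gt v 0 (b ^ n) := by
  obtain ⟨m, rfl⟩ := Nat.exists_eq_succ_of_ne_zero hn
  clear hn
  induction m with
  | zero => simpa using hb
  | succ m ih =>
    rw [pow_succ]
    refine l11_gt_mul hv ?_ hb
    rcases ih with h | h
    · exact Or.inl h
    · exact Or.inr h.le

theorem l11_ge_int {R : Type} [CommRing R] (i : R →+* M) {v : M → ℤ} (hv : IsV v)
    (hi : ∀ r, Ge v 0 (i r)) {a : M} (ha : i.IsIntegralElem a) : Ge v 0 a := by
  obtain ⟨P, hP, hPa⟩ := ha
  by_contra hc
  have ha0 : a ≠ 0 := fun h => hc (Or.inl h)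
  have hva : v a < 0 := by
    by_contra h
    exact hc (Or.inr (not_lt.mp h))
  have hb : Gt v 0 a⁻¹ := Or.inr (by rw [l11_val_inv hv ha0]; omega)
  rw [eval₂_eq_sum_range, Finset.sum_range_succ, hP.coeff_natDegree, map_one, one_mul] at hPa
  have h2 : Gt v 0 (∑ j ∈ Finset.range P.natDegree, i (P.coeff j) * (a⁻¹) ^ (P.natDegree - j)) := by
    have : ∀ s : Finset ℕ, (∀ j ∈ s, j < P.natDegree) →
        Gt v 0 (∑ j ∈ s, i (P.coeff j) * (a⁻¹) ^ (P.natDegree - j)) := by
      intro s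
      induction s using Finset.induction_on with
      | empty => intro _; exact Or.inl (by simp)
      | insert j s hj ih =>
        intro hs
        rw [Finset.sum_insert hj]
        refine l11_gt_add hv (l11_gt_mul hv (hi _) (l11_gt_pow hv hb ?_))
          (ih fun j' hj' => hs j' (Finset.mem_insert_of_mem hj'))
        have := hs j (Finset.mem_insert_self j s)
        omega
    exact this _ fun j hj => Finset.mem_range.mp hj
  have h3 : (∑ j ∈ Finset.range P.natDegree, i (P.coeff j) * (a⁻¹) ^ (P.natDegree - j)) + 1 = 0 := by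
    have h4 : (a⁻¹) ^ P.natDegree * ((∑ j ∈ Finset.range P.natDegree, i (P.coeff j) * a ^ j)
        + a ^ P.natDegree) = 0 := by rw [hPa, mul_zero]
    rw [mul_add, Finset.mul_sum, inv_pow, inv_mul_cancel₀ (pow_ne_zero _ ha0)] at h4
    rw [← h4]
    congr 1
    refine Finset.sum_congr rfl fun j hj => ?_
    have hj' := Finset.mem_range.mp hj
    rw [show (a ^ P.natDegree)⁻¹ = (a⁻¹) ^ (P.natDegree - j) * (a⁻¹) ^ j by
      rw [← pow_add, Nat.sub_add_cancel hj'.le, inv_pow]]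
    rw [show (a⁻¹) ^ (P.natDegree - j) * (a⁻¹) ^ j * (i (P.coeff j) * a ^ j) =
      i (P.coeff j) * (a⁻¹) ^ (P.natDegree - j) * ((a⁻¹) ^ j * a ^ j) by ring,
      ← mul_pow, inv_mul_cancel₀ ha0, one_pow, mul_one]
  rw [eq_neg_of_add_eq_zero_left h3] at h2
  rcases h2 with h | h
  · exact one_ne_zero (neg_eq_zero.mp h)
  · rw [l11_val_neg hv, l11_val_one hv] at h
    exact lt_irrefl _ h

end basics

section pack

variable (p : ℕ) [Fact p.Prime] (k E M : Type) [Field k] [CharP k p] [Field E] [Algebra k E]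
  [Field M] [Algebra E M] [Algebra k M] [IsScalarTower k E M] [FiniteDimensional E M]
  [Algebra.IsSeparable E M]

theorem l11_pack (hL5 : S_L5) (z : E) (hz : Transcendental k z)
    (hgen : ∀ f : E, ∃ a b : k[X], aeval z b ≠ 0 ∧ f * aeval z b = aeval z a)
    (T : M →ₗ[E] E) (hT : T ≠ 0) (φ : M → M) (hφ : IsPinv p φ) (φE : E → E)
    (hcomm : ∀ y, φE (T y) = T (φ y))
    (hφE : ∀ Q : k[X], ∃ Q' : k[X], (∀ i, Q'.coeff i ^ p = Q.coeff (p * i)) ∧
      φE (aeval z Q) = aeval z Q') :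
    ∃ (A : Type) (_ : CommRing A) (_ : IsDedekindDomain A) (_ : Algebra A M)
      (_ : IsFractionRing A M) (J : Submodule A M),
      (∀ a : M, (∃ a' : A, algebraMap A M a' = a) ↔
        ((aeval (algebraMap E M z) : k[X] →ₐ[k] M) : k[X] →+* M).IsIntegralElem a) ∧
      J ≠ ⊥ ∧ J.FG ∧ (∀ y ∈ J, φ y ∈ J) ∧
      ∀ y, y ∈ J ↔ ∀ a : A, ∃ Q : k[X], T (y * algebraMap A M a) = aeval z (X * Q) := by
  letI : Algebra k[X] E := ((aeval z : k[X] →ₐ[k] E) : k[X] →+* E).toAlgebra
  letI : Algebra k[X] M := ((aeval (algebraMap E M z) : k[X] →ₐ[k] M) : k[X] →+* M).toAlgebra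
  have hE : ∀ Q : k[X], algebraMap k[X] E Q = aeval z Q := fun Q => rfl
  have hM : ∀ Q : k[X], algebraMap k[X] M Q = aeval (algebraMap E M z) Q := fun Q => rfl
  haveI : IsScalarTower k[X] E M := IsScalarTower.of_algebraMap_eq fun Q => by
    rw [hM, hE, aeval_algebraMap_apply]
  have hinj : Function.Injective (algebraMap k[X] E) := by
    intro a b hab
    by_contra hne
    refine hz ⟨a - b, sub_ne_zero.mpr hne, ?_⟩
    rw [map_sub, sub_eq_zero]
    exact hab
  haveI : IsFractionRing k[X] E := by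
    refine ⟨?_, ?_, ?_⟩
    · intro y
      have : algebraMap k[X] E y ≠ 0 := fun h => nonZeroDivisors.ne_zero y.2 (hinj (by
        rw [h, map_zero]))
      exact isUnit_iff_ne_zero.mpr this
    · intro f
      obtain ⟨a, b, hb, hab⟩ := hgen f
      refine ⟨⟨a, ⟨b, mem_nonZeroDivisors_of_ne_zero ?_⟩⟩, hab⟩
      rintro rfl
      exact hb (map_zero _)
    · intro a b hab
      exact ⟨1, by simpa using hinj hab⟩
  haveI : IsDedekindDomain (integralClosure k[X] M) := integralClosure.isDedekindDomain k[X] E M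
  haveI : IsFractionRing (integralClosure k[X] M) M :=
    integralClosure.isFractionRing_of_finite_extension E M
  let J : Submodule (integralClosure k[X] M) M :=
    { carrier := {y | ∀ a : integralClosure k[X] M, ∃ r : k[X], T (y * a) =
        algebraMap k[X] E (X * r)}
      zero_mem' := fun a => ⟨0, by rw [zero_mul, map_zero, mul_zero, map_zero]⟩
      add_mem' := by
        intro y y' hy hy' a
        obtain ⟨r, hr⟩ := hy a
        obtain ⟨r', hr'⟩ := hy' a
        exact ⟨r + r', by rw [add_mul, map_add, hr, hr', mul_add, map_add]⟩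
      smul_mem' := by
        intro c y hy a
        obtain ⟨r, hr⟩ := hy (c * a)
        refine ⟨r, ?_⟩
        rw [← hr]
        congr 1
        rw [Algebra.smul_def]
        push_cast
        change (c : M) * y * a = _
        ring }
  have hJ : ∀ y, y ∈ J ↔ ∀ a : integralClosure k[X] M, ∃ r : k[X], T (y * a) =
      algebraMap k[X] E (X * r) := fun y => Iff.rfl
  obtain ⟨hJ0, hJfg⟩ := hL5 k[X] E M T hT X X_ne_zero J hJ
  refine ⟨integralClosure k[X] M, inferInstance, inferInstance, inferInstance, inferInstance, J,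
    ?_, hJ0, hJfg, ?_, hJ⟩
  · intro a
    constructor
    · rintro ⟨a', rfl⟩
      exact a'.2
    · intro ha
      exact ⟨⟨a, ha⟩, rfl⟩
  · intro y hy a
    obtain ⟨r, hr⟩ := hy (a ^ p)
    obtain ⟨Q', hQ', hQ''⟩ := hφE (X * r)
    have h0 : Q'.coeff 0 = 0 := by
      have := hQ' 0
      rw [mul_zero, mul_coeff_zero, coeff_X_zero, zero_mul] at this
      exact pow_eq_zero_iff (Fact.out : p.Prime).ne_zero |>.mp this
    refine ⟨Q'.divX, ?_⟩
    have h2 : φ y * (a : M) = φ ((a : M) ^ p * y) := by rw [hφ.pow_mul, mul_comm]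
    rw [h2, ← hcomm]
    have h3 : T ((a : M) ^ p * y) = aeval z (X * r) := by
      rw [← hE, ← hr]
      congr 1
      push_cast
      ring
    rw [h3, hQ'', hE]
    congr 1
    have := Q'.divX_mul_X_add
    rw [h0, C_0, add_zero] at this
    rw [mul_comm, this]

end pack

section fin

variable (p : ℕ) [Fact p.Prime] (k E M : Type) [Field k] [CharP k p] [Field E] [Algebra k E]
  [Field M] [Algebra E M] [Algebra k M] [IsScalarTower k E M] [FiniteDimensional E M]
  [Algebra.IsSeparable E M]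

theorem l11_isInt_const (z : M) (c : k) :
    ((aeval z : k[X] →ₐ[k] M) : k[X] →+* M).IsIntegralElem (algebraMap k M c) := by
  refine ⟨X - C (C c), monic_X_sub_C _, ?_⟩
  rw [eval₂_sub, eval₂_X, eval₂_C]
  simp

theorem l11_isInt_self (z : M) :
    ((aeval z : k[X] →ₐ[k] M) : k[X] →+* M).IsIntegralElem z := by
  refine ⟨X - C X, monic_X_sub_C _, ?_⟩
  rw [eval₂_sub, eval₂_X, eval₂_C]
  simp

theorem l11_triv {v : M → ℤ} (hv : IsV v) (h : ∀ c : k, Ge v 0 (algebraMap k M c)) : Triv k v := by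
  intro c
  by_cases hc : c = 0
  · rw [hc, map_zero, hv.zero]
  have hc' : algebraMap k M c ≠ 0 := fun h0 => hc ((map_eq_zero _).mp h0)
  have h1 := (h c).resolve_left hc'
  have h2 := (h c⁻¹).resolve_left (by rw [map_inv₀]; exact inv_ne_zero hc')
  rw [map_inv₀, l11_val_inv hv hc'] at h2
  omega

/-- the final contradiction -/
theorem l11_end (hL2 : S_L2) (hL4 : S_L4) (hL5 : S_L5) (z : E) (hz : Transcendental k z)
    (hgen : ∀ f : E, ∃ a b : k[X], aeval z b ≠ 0 ∧ f * aeval z b = aeval z a)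
    (T : M →ₗ[E] E) (hT : T ≠ 0) (φ : M → M) (hφ : IsPinv p φ) (hφ1 : φ 1 = 1) (φE : E → E)
    (hcomm : ∀ y, φE (T y) = T (φ y))
    (hφE : ∀ Q : k[X], ∃ Q' : k[X], (∀ i, Q'.coeff i ^ p = Q.coeff (p * i)) ∧
      φE (aeval z Q) = aeval z Q')
    (v : M → ℤ) (hv : IsV v) (htr : Triv k v) (hu : ∃ u, u ≠ 0 ∧ v u = 1)
    (hvc : Compat p φ v) (hvz : 0 < v (algebraMap E M z))
    (h1J : ∀ a : M, ((aeval (algebraMap E M z) : k[X] →ₐ[k] M) : k[X] →+* M).IsIntegralElem a →
      ∃ Q : k[X], T a = aeval z (X * Q)) : False := by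
  obtain ⟨A, iA1, iA2, iA3, iA4, J, hA, hJ0, hJfg, hJφ, hJ⟩ :=
    l11_pack p k E M hL5 z hz hgen T hT φ hφ φE hcomm hφE
  have hz0 : z ≠ 0 := by
    rintro rfl
    rw [map_zero, hv.zero] at hvz
    exact lt_irrefl _ hvz
  have hzM0 : algebraMap E M z ≠ 0 := fun h => hz0 ((map_eq_zero _).mp h)
  have hgeA : ∀ a : A, Ge v 0 (algebraMap A M a) := fun a =>
    l11_ge_int _ hv (fun r => l11_ge_poly hv htr (Or.inr hvz.le) r) ((hA _).mp ⟨a, rfl⟩)
  let P : Ideal A :=
    { carrier := {a | Gt v 0 (algebraMap A M a)}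
      zero_mem' := Or.inl (map_zero _)
      add_mem' := by
        intro a b ha hb
        change Gt v 0 (algebraMap A M (a + b))
        rw [map_add]
        exact l11_gt_add hv ha hb
      smul_mem' := by
        intro c a ha
        change Gt v 0 (algebraMap A M (c * a))
        rw [map_mul]
        exact l11_gt_mul hv (hgeA c) ha }
  have hP : ∀ a : A, Gt v 0 (algebraMap A M a) ↔ a ∈ P := fun a => Iff.rfl
  have hPprime : P.IsPrime := by
    constructor
    · rw [Ideal.ne_top_iff_one, ← hP, map_one]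
      rintro (h | h)
      · exact one_ne_zero h
      · rw [l11_val_one hv] at h
        exact lt_irrefl _ h
    · intro a b hab
      rw [← hP, map_mul] at hab
      by_contra hc
      push Not at hc
      rw [← hP, ← hP] at hc
      obtain ⟨ha, hb⟩ := hc
      have ha0 : algebraMap A M a ≠ 0 := fun h => ha (Or.inl h)
      have hb0 : algebraMap A M b ≠ 0 := fun h => hb (Or.inl h)
      have hva : v (algebraMap A M a) ≤ 0 := not_lt.mp fun h => ha (Or.inr h)
      have hvb : v (algebraMap A M b) ≤ 0 := not_lt.mp fun h => hb (Or.inr h)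
      rcases hab with h | h
      · exact mul_ne_zero ha0 hb0 h
      · rw [hv.mul _ _ ha0 hb0] at h
        omega
  obtain ⟨zA, hzA⟩ := (hA _).mpr (l11_isInt_self k M (algebraMap E M z))
  have hzP : zA ∈ P := by
    rw [← hP, hzA]
    exact Or.inr hvz
  have hPbot : P ≠ ⊥ := by
    intro h
    rw [h, Ideal.mem_bot] at hzP
    rw [hzP, map_zero] at hzA
    exact hzM0 hzA.symm
  obtain ⟨w, hw, hwu, hwge, hwgt⟩ := hL2 A M P hPprime hPbot
  have hwv : v = w := by
    refine l11_eqv hw hv hwu hu ?_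
    intro f hf
    obtain ⟨s, a, hs, hsa⟩ := (hwge f).mp hf
    have hs1 : ¬ Gt v 0 (algebraMap A M s) := hs
    have hs0 : algebraMap A M s ≠ 0 := fun h => hs1 (Or.inl h)
    have hvs : v (algebraMap A M s) = 0 := by
      have h1 := (hgeA s).resolve_left hs0
      have h2 : v (algebraMap A M s) ≤ 0 := not_lt.mp fun h => hs1 (Or.inr h)
      omega
    by_cases hf0 : f = 0
    · exact Or.inl hf0
    have ha := hgeA a
    rw [← hsa] at ha
    have h3 := ha.resolve_left (mul_ne_zero hs0 hf0)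
    rw [hv.mul _ _ hs0 hf0, hvs, zero_add] at h3
    exact Or.inr h3
  have h1J' : (1 : M) ∈ J := by
    rw [hJ]
    intro a
    rw [one_mul]
    exact h1J _ ((hA _).mp ⟨a, rfl⟩)
  obtain ⟨y, hy, hyP, hyφ⟩ := hL4 p A M φ hφ hφ1 J hJfg hJφ h1J' P hPprime hPbot v hv hu
    (by rw [hwv]; exact hwge) hP hvc
  rw [hJ] at hy
  push Not at hy
  obtain ⟨a, ha⟩ := hy
  have hTz : ∀ m : M, T (algebraMap E M z * m) = z * T m := fun m => by
    rw [← Algebra.smul_def, map_smul, smul_eq_mul]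
  obtain ⟨Q, hQ⟩ := (hJ _).mp (hyP zA hzP) a
  have hQ1 : T (y * algebraMap A M a) = aeval z Q := by
    have h2 : zA • y * algebraMap A M a = algebraMap E M z * (y * algebraMap A M a) := by
      rw [Algebra.smul_def, hzA, mul_assoc]
    rw [h2, hTz, (show aeval z (X * Q) = z * aeval z Q by rw [map_mul, aeval_X])] at hQ
    exact mul_left_cancel₀ hz0 hQ
  have hc0 : Q.coeff 0 ≠ 0 := by
    intro h0
    refine ha Q.divX ?_
    rw [hQ1]
    congr 1
    have := Q.divX_mul_X_add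
    rw [h0, C_0, add_zero] at this
    rw [mul_comm, this]
  obtain ⟨cA, hcA⟩ := (hA _).mpr (l11_isInt_const k M (algebraMap E M z) (Q.coeff 0)⁻¹)
  obtain ⟨R, hR⟩ := (hJ _).mp (hyφ (cA * a)) 1
  rw [map_one, mul_one, ← hcomm] at hR
  have h3 : T ((cA * a) • y) = aeval z (C (Q.coeff 0)⁻¹ * Q) := by
    have h4 : (cA * a) • y = algebraMap E M (algebraMap k E (Q.coeff 0)⁻¹) *
        (y * algebraMap A M a) := by
      rw [Algebra.smul_def, map_mul, hcA, ← IsScalarTower.algebraMap_apply]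
      ring
    rw [h4, ← Algebra.smul_def, map_smul, smul_eq_mul, hQ1, map_mul, aeval_C]
  rw [h3] at hR
  obtain ⟨Q', hQ', hQ''⟩ := hφE (C (Q.coeff 0)⁻¹ * Q)
  rw [hQ''] at hR
  have hinj : Q' = X * R := by
    by_contra hne
    refine hz ⟨Q' - X * R, sub_ne_zero.mpr hne, ?_⟩
    rw [map_sub, hR, sub_self]
  have h5 := hQ' 0
  rw [hinj, mul_coeff_zero, coeff_X_zero, zero_mul, zero_pow (Fact.out : p.Prime).ne_zero,
    mul_zero, coeff_C_mul, inv_mul_cancel₀ hc0] at h5
  exact zero_ne_one h5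

end fin

section main

theorem l11_rev {k E : Type} [Field k] [Field E] [Algebra k E] (x : E) (hx : x ≠ 0) (Q : k[X]) :
    aeval x⁻¹ Q.reverse * x ^ Q.natDegree = aeval x Q := by
  have := invertibleOfNonzero hx
  have h := Polynomial.eval₂_reverse_mul_pow (algebraMap k E) x Q
  rw [invOf_eq_inv] at h
  exact h

theorem l11_rev' {k E : Type} [Field k] [Field E] [Algebra k E] (x : E) (hx : x ≠ 0) (Q : k[X]) :
    aeval x Q.reverse = aeval x⁻¹ Q * x ^ Q.natDegree := by
  have h := l11_rev x⁻¹ (inv_ne_zero hx) Q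
  rw [inv_inv] at h
  rw [← h, mul_assoc, ← mul_pow, inv_mul_cancel₀ hx, one_pow, mul_one]

theorem l11_gen_inv {k E : Type} [Field k] [Field E] [Algebra k E] (x : E) (hx : x ≠ 0)
    (hgen : ∀ f : E, ∃ a b : k[X], aeval x b ≠ 0 ∧ f * aeval x b = aeval x a) :
    ∀ f : E, ∃ a b : k[X], aeval x⁻¹ b ≠ 0 ∧ f * aeval x⁻¹ b = aeval x⁻¹ a := by
  intro f
  obtain ⟨a, b, hb, hab⟩ := hgen f
  have hb1 : aeval x⁻¹ b.reverse ≠ 0 := by
    intro h
    rw [← l11_rev x hx, h, zero_mul] at hb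
    exact hb rfl
  refine ⟨a.reverse * X ^ b.natDegree, b.reverse * X ^ a.natDegree, ?_, ?_⟩
  · rw [map_mul, map_pow, aeval_X]
    exact mul_ne_zero hb1 (pow_ne_zero _ (inv_ne_zero hx))
  · rw [map_mul, map_pow, aeval_X, map_mul, map_pow, aeval_X]
    rw [← l11_rev x hx, ← l11_rev x hx a] at hab
    have h1 : f * (aeval x⁻¹ b.reverse * x⁻¹ ^ a.natDegree) =
        (f * (aeval x⁻¹ b.reverse * x ^ b.natDegree)) * (x⁻¹ ^ a.natDegree * x⁻¹ ^ b.natDegree) := by
      have : x ^ b.natDegree * x⁻¹ ^ b.natDegree = 1 := by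
        rw [← mul_pow, mul_inv_cancel₀ hx, one_pow]
      linear_combination (-(f * aeval x⁻¹ b.reverse * x⁻¹ ^ a.natDegree)) * this
    rw [h1, hab]
    have : x ^ a.natDegree * x⁻¹ ^ a.natDegree = 1 := by
      rw [← mul_pow, mul_inv_cancel₀ hx, one_pow]
    linear_combination (aeval x⁻¹ a.reverse * x⁻¹ ^ b.natDegree) * this

theorem l11_zero {k E : Type} [Field k] [Field E] [Algebra k E] (x : E) (hx : Transcendental k x)
    (P Q : k[X]) (h : aeval x P = aeval x⁻¹ (X * Q)) : aeval x P = 0 := by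
  have hx0 : x ≠ 0 := by
    rintro rfl
    exact hx (isAlgebraic_zero)
  by_cases hQ : Q = 0
  · rw [h, hQ, mul_zero, map_zero]
  have h1 := l11_rev' x hx0 (X * Q)
  rw [← h] at h1
  have h2 : (X * Q).reverse = P * X ^ (X * Q).natDegree := by
    by_contra hne
    refine hx ⟨(X * Q).reverse - P * X ^ (X * Q).natDegree, sub_ne_zero.mpr hne, ?_⟩
    rw [map_sub, h1, map_mul, map_pow, aeval_X, sub_self]
  have h3 : P = 0 := by
    by_contra hP
    have h4 : (X * Q).reverse.natDegree = P.natDegree + (X * Q).natDegree := by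
      rw [h2, natDegree_mul_X_pow _ hP]
    have h5 : (X * Q).reverse = Q.reverse := by
      rw [mul_comm, reverse_mul_X]
    have h6 : Q.reverse.natDegree ≤ Q.natDegree := reverse_natDegree_le Q
    rw [h5, natDegree_X_mul hQ] at h4
    omega
  rw [h3, map_zero]

theorem p_L11 (hL2 : S_L2) (hL3 : S_L3) (hL4 : S_L4) (hL5 : S_L5) (hL6 : S_L6) (hL7 : S_L7)
    (hL8 : S_L8) (hL9 : S_L9) (hL10 : S_L10) : S_L11 := by
  intro p _ k M _ _ _ _ _ n t hfg htd y ρ0 hρ0 φ hφ hφ1 hform v hv htr hu hvc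
  by_contra hno
  have heq : ∀ v' : M → ℤ, IsV v' → Triv k v' → (∃ u, u ≠ 0 ∧ v' u = 1) → Compat p φ v' →
      v' = v := by
    intro v' hv' ht' hu' hc'
    refine l11_eqv hv hv' hu hu' fun f hf => ?_
    by_contra hc
    exact hno ⟨v', hv', ht', hu', hc', f, hf, hc⟩
  obtain ⟨x, ρ, hx0, hvx, hρ⟩ := hL9 p M v hv hu y ρ0 hρ0
  obtain ⟨g, hg, hgf⟩ := hform x ρ hρ
  haveI : PerfectRing k p := inferInstance
  obtain ⟨hxt, hfin, hsep⟩ := hL7 p k M n t hfg htd x ρ hρ
  let E := IntermediateField.adjoin k {x}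
  have hxE : x ∈ E := IntermediateField.mem_adjoin_simple_self k x
  let xE : E := ⟨x, hxE⟩
  have hxEx : algebraMap E M xE = x := rfl
  have hxE0 : xE ≠ 0 := by
    intro h
    exact hx0 (by rw [← hxEx, h, map_zero])
  have hxEt : Transcendental k xE := by
    intro h
    exact hxt (by rw [← hxEx]; exact h.algebraMap)
  have hgen : ∀ f : E, ∃ a b : k[X], aeval xE b ≠ 0 ∧ f * aeval xE b = aeval xE a := by
    intro f
    obtain ⟨a, b, hab⟩ := (IntermediateField.mem_adjoin_simple_iff k (f : M)).mp f.2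
    have hcoe : ∀ Q : k[X], ((aeval xE Q : E) : M) = aeval x Q := fun Q => by
      rw [← hxEx]
      exact (aeval_algebraMap_apply M xE Q).symm
    by_cases hb : aeval x b = 0
    · refine ⟨0, 1, by simp, ?_⟩
      rw [hb, div_zero] at hab
      have : f = 0 := Subtype.ext hab
      rw [this]; simp
    · refine ⟨a, b, fun h => hb (by rw [← hcoe, h]; rfl), ?_⟩
      apply Subtype.ext
      change (f : M) * ((aeval xE b : E) : M) = ((aeval xE a : E) : M)
      rw [hcoe, hcoe, hab, div_mul_cancel₀ _ hb]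
  haveI : CharP E p := charP_of_injective_algebraMap (algebraMap k E).injective p
  obtain ⟨ρE, hρE, hρQ⟩ := hL6 p k E xE hxEt hgen
  let T : M →ₗ[E] E := (Algebra.trace E M) ∘ₗ LinearMap.mulLeft E g
  have hTdef : ∀ m, T m = Algebra.trace E M (g * m) := fun m => rfl
  have hT : T ≠ 0 := by
    intro h
    refine Algebra.trace_ne_zero E M (LinearMap.ext fun m => ?_)
    have := hTdef (g⁻¹ * m)
    rw [h, ← mul_assoc, mul_inv_cancel₀ hg, one_mul] at this
    exact this.symm
  have hcomm : ∀ m, ρE j0 (T m) = T (φ m) := by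
    intro m
    rw [hTdef, hTdef, hL8 p E M xE ρE ρ hρE hρ, hgf, ← mul_assoc, mul_inv_cancel₀ hg, one_mul]
  have h1 : ∀ Q : k[X], ∃ Q' : k[X], (∀ i, Q'.coeff i ^ p = Q.coeff (p * i)) ∧
      ρE j0 (aeval xE Q) = aeval xE Q' := fun Q => by
    obtain ⟨Q', hQ', h1, h2⟩ := hρQ Q
    exact ⟨Q', hQ', h1⟩
  have h2 : ∀ Q : k[X], ∃ Q' : k[X], (∀ i, Q'.coeff i ^ p = Q.coeff (p * i)) ∧
      ρE j0 (aeval xE⁻¹ Q) = aeval xE⁻¹ Q' := fun Q => by
    obtain ⟨Q', hQ', h1, h2⟩ := hρQ Q
    exact ⟨Q', hQ', h2⟩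
  -- every `b` positive at `v` and integral over `k[x]` is in `J`
  have hmain : ∀ b : M, ((aeval x : k[X] →ₐ[k] M) : k[X] →+* M).IsIntegralElem b → Gt v 0 b →
      ∀ a : M, ((aeval x : k[X] →ₐ[k] M) : k[X] →+* M).IsIntegralElem a →
        ∃ Q : k[X], T (b * a) = aeval xE (X * Q) := by
    intro b hb hvb a ha
    obtain ⟨A, iA1, iA2, iA3, iA4, J, hA, hJ0, hJfg, hJφ, hJ⟩ :=
      l11_pack p k E M hL5 xE hxEt hgen T hT φ hφ (ρE j0) hcomm h1
    obtain ⟨bA, rfl⟩ := (hA b).mpr hb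
    obtain ⟨aA, rfl⟩ := (hA a).mpr ha
    refine (hJ _).mp (hL3 p A M φ hφ hφ1 J hJ0 hJφ bA ?_) aA
    intro v' hv' hu' hge hc'
    have ht' : Triv k v' := l11_triv k M hv' fun c => by
      obtain ⟨cA, hcA⟩ := (hA _).mpr (l11_isInt_const k M (algebraMap E M xE) c)
      rw [← hcA]
      exact hge cA
    rw [heq v' hv' ht' hu' hc']
    exact hvb
  have hT1a : ∃ Q : k[X], T 1 = aeval xE Q := by
    obtain ⟨Q, hQ⟩ := hmain x (l11_isInt_self k M x) (Or.inr hvx) 1 (by
      have := l11_isInt_const k M x (1 : k)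
      rwa [map_one] at this)
    refine ⟨Q, ?_⟩
    rw [mul_one, map_mul, aeval_X] at hQ
    have h3 : T x = xE * T 1 := by
      rw [← smul_eq_mul, ← map_smul, Algebra.smul_def, mul_one, hxEx]
    rw [h3] at hQ
    exact mul_left_cancel₀ hxE0 hQ
  have hT1b : ∃ Q : k[X], T 1 = aeval xE⁻¹ (X * Q) := by
    have hxt' : Transcendental k xE⁻¹ := by
      intro h
      have := h.inv
      rw [inv_inv] at this
      exact hxEt this
    obtain ⟨A, iA1, iA2, iA3, iA4, J, hA, hJ0, hJfg, hJφ, hJ⟩ :=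
      l11_pack p k E M hL5 xE⁻¹ hxt' (l11_gen_inv xE hxE0 hgen) T hT φ hφ (ρE j0) hcomm h2
    have h3 : algebraMap A M 1 ∈ J := by
      refine hL3 p A M φ hφ hφ1 J hJ0 hJφ 1 ?_
      intro v' hv' hu' hge hc'
      have ht' : Triv k v' := l11_triv k M hv' fun c => by
        obtain ⟨cA, hcA⟩ := (hA _).mpr (l11_isInt_const k M (algebraMap E M xE⁻¹) c)
        rw [← hcA]
        exact hge cA
      have h4 := heq v' hv' ht' hu' hc'
      obtain ⟨zA, hzA⟩ := (hA _).mpr (l11_isInt_self k M (algebraMap E M xE⁻¹))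
      have h5 := hge zA
      rw [hzA, map_inv₀, hxEx, h4] at h5
      rcases h5 with h5 | h5
      · exact absurd h5 (inv_ne_zero hx0)
      · rw [l11_val_inv hv hx0] at h5
        omega
    obtain ⟨Q, hQ⟩ := (hJ _).mp h3 1
    rw [map_one, mul_one] at hQ
    exact ⟨Q, hQ⟩
  obtain ⟨Q1, hQ1⟩ := hT1a
  obtain ⟨Q2, hQ2⟩ := hT1b
  have hT1 : T 1 = 0 := by
    rw [hQ1]
    exact l11_zero xE hxEt Q1 Q2 (by rw [← hQ1, hQ2])
  refine l11_end p k E M hL2 hL4 hL5 xE hxEt hgen T hT φ hφ hφ1 (ρE j0) hcomm h1 v hv htr hu hvc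
    hvx ?_
  intro a ha
  have hge : Ge v 0 a := l11_ge_int _ hv (fun r => l11_ge_poly hv htr (Or.inr hvx.le) r) ha
  obtain ⟨c, hc⟩ := hL10 k M htd v hv htr hu a hge
  have hint : ((aeval x : k[X] →ₐ[k] M) : k[X] →+* M).IsIntegralElem (a - algebraMap k M c) :=
    RingHom.IsIntegralElem.sub _ ha (l11_isInt_const k M x c)
  obtain ⟨Q, hQ⟩ := hmain _ hint hc 1 (by
      have := l11_isInt_const k M x (1 : k)
      rwa [map_one] at this)
  refine ⟨Q, ?_⟩
  rw [← hQ, mul_one, map_sub]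
  have h3 : T (algebraMap k M c) = 0 := by
    have : algebraMap k M c = (algebraMap k E c) • (1 : M) := by
      rw [Algebra.smul_def, mul_one, ← IsScalarTower.algebraMap_apply]
    rw [this, map_smul, hT1, smul_zero]
  rw [h3, sub_zero]

end main

end Pool.Agent.F2W
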