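import Pool.Agent.Lib.MP_305fdd_al.F2.W.Stm

/-!
# MP_305fdd_al, F_2, section W : piece L2
-/

set_option autoImplicit false

namespace Pool.Agent.F2W

open Pool.Agent.F2Ch Polynomial IsDedekindDomain

private theorem l2_log_le {x y : WithZero (Multiplicative ℤ)} (hx : x ≠ 0) (hy : y ≠ 0) :
    WithZero.log x ≤ WithZero.log y ↔ x ≤ y := WithZero.log_le_log hx hy

private theorem l2_log_nonpos {x : WithZero (Multiplicative ℤ)} (hx : x ≠ 0) :
    0 ≤ -WithZero.log x ↔ x ≤ 1 := by
  rw [← l2_log_le hx one_ne_zero, WithZero.log_one]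
  exact ⟨fun h => by linarith, fun h => by linarith⟩

private theorem l2_log_neg {x : WithZero (Multiplicative ℤ)} (hx : x ≠ 0) :
    0 < -WithZero.log x ↔ x < 1 := by
  rw [← not_le, ← not_le, ← l2_log_le one_ne_zero hx, WithZero.log_one]
  exact ⟨fun h h' => h (by linarith), fun h h' => h (by linarith)⟩

theorem p_L2 : S_L2 := by
  intro A M _ _ _ _ _ P hP hP0
  let v₀ : HeightOneSpectrum A := ⟨P, hP, hP0⟩
  have hne : ∀ y : M, y ≠ 0 → v₀.valuation M y ≠ 0 := fun y hy =>
    (Valuation.ne_zero_iff _).mpr hy
  refine ⟨fun y => -WithZero.log (v₀.valuation M y), ⟨by simp, ?_, ?_⟩, ?_, ?_, ?_⟩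
  · intro x y hx hy
    show -WithZero.log (v₀.valuation M (x * y)) =
      -WithZero.log (v₀.valuation M x) + -WithZero.log (v₀.valuation M y)
    rw [map_mul, WithZero.log_mul (hne x hx) (hne y hy)]
    ring
  · intro x y hx hy hxy
    show min (-WithZero.log (v₀.valuation M x)) (-WithZero.log (v₀.valuation M y)) ≤
      -WithZero.log (v₀.valuation M (x + y))
    rcases le_max_iff.mp ((v₀.valuation M).map_add x y) with h | h
    · exact (min_le_left _ _).trans (neg_le_neg ((l2_log_le (hne _ hxy) (hne x hx)).mpr h))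
    · exact (min_le_right _ _).trans (neg_le_neg ((l2_log_le (hne _ hxy) (hne y hy)).mpr h))
  · obtain ⟨u, hu⟩ := v₀.valuation_exists_uniformizer M
    refine ⟨u, ?_, ?_⟩
    · rintro rfl
      rw [map_zero] at hu
      exact WithZero.exp_ne_zero hu.symm
    · show -WithZero.log (v₀.valuation M u) = 1
      rw [hu, WithZero.log_exp]
      norm_num
  · intro y
    have key : Ge (fun y => -WithZero.log (v₀.valuation M y)) 0 y ↔ v₀.valuation M y ≤ 1 := by
      by_cases hy : y = 0
      · subst hy
        exact ⟨fun _ => by rw [map_zero]; exact zero_le, fun _ => Or.inl rfl⟩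
      · constructor
        · rintro (h | h)
          · exact absurd h hy
          · exact (l2_log_nonpos (hne y hy)).mp h
        · intro h
          exact Or.inr ((l2_log_nonpos (hne y hy)).mpr h)
    rw [key]
    constructor
    · intro h
      obtain ⟨n, d, hnd⟩ := v₀.exists_primeCompl_mul_eq_of_integer y h
      exact ⟨d, n, d.2, by rw [mul_comm]; exact hnd⟩
    · rintro ⟨s, a, hs, hsa⟩
      have h1 : v₀.valuation M (algebraMap A M s) = 1 := v₀.valuation_eq_one_iff_notMem.mpr hs
      have h2 : v₀.valuation M (algebraMap A M s * y) ≤ 1 := by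
        rw [hsa]; exact v₀.valuation_le_one a
      rwa [map_mul, h1, one_mul] at h2
  · intro a
    rw [show a ∈ P ↔ v₀.valuation M (algebraMap A M a) < 1 from
      (v₀.valuation_lt_one_iff_mem a).symm]
    by_cases ha : algebraMap A M a = 0
    · rw [ha, map_zero]
      exact ⟨fun _ => zero_lt_one, fun _ => Or.inl rfl⟩
    · constructor
      · rintro (h | h)
        · exact absurd h ha
        · exact (l2_log_neg (hne _ ha)).mp h
      · intro h
        exact Or.inr ((l2_log_neg (hne _ ha)).mpr h)

end Pool.Agent.F2W
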