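import Pool.Agent.Lib.MP_305fdd_al.F2.W.Stm

/-!
# MP_305fdd_al, F_2, section W: [F2W L3]
-/

set_option autoImplicit false

namespace Pool.Agent.F2W

open Pool.Agent.F2Ch Polynomial

/-- the localisation of `J` at `P` -/
private def l3_J {A M : Type} [CommRing A] [AddCommGroup M] [Module A M] (P : Ideal A)
    (hP : P.IsPrime) (J : Submodule A M) : AddSubgroup M where
  carrier := {y | ∃ s : A, s ∉ P ∧ s • y ∈ J}
  zero_mem' := ⟨1, (Ideal.ne_top_iff_one P).mp hP.ne_top, by rw [smul_zero]; exact zero_mem J⟩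
  add_mem' := by
    rintro y z ⟨s, hs, hy⟩ ⟨t, ht, hz⟩
    refine ⟨s * t, fun h => (hP.mem_or_mem h).elim hs ht, ?_⟩
    have e : (s * t) • (y + z) = t • (s • y) + s • (t • z) := by
      rw [smul_add, smul_smul, smul_smul, mul_comm t s]
    rw [e]
    exact add_mem (J.smul_mem _ hy) (J.smul_mem _ hz)
  neg_mem' := by
    rintro y ⟨s, hs, hy⟩
    exact ⟨s, hs, by rw [smul_neg]; exact neg_mem hy⟩

theorem p_L3 (hL1 : S_L1) (hL2 : S_L2) : S_L3 := by
  intro p _ A M _ _ _ _ _ φ hφ h1 J hJ hst x hx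
  by_contra hxJ
  set I : Ideal A := J.comap (LinearMap.toSpanSingleton A M (algebraMap A M x)) with hI
  have hmI : ∀ s : A, s ∈ I ↔ s • algebraMap A M x ∈ J := by
    intro s
    rw [hI, Submodule.mem_comap, LinearMap.toSpanSingleton_apply]
  have hIt : I ≠ ⊤ := by
    intro h
    apply hxJ
    have h2 : (1 : A) ∈ I := by rw [h]; trivial
    rw [hmI, one_smul] at h2
    exact h2
  obtain ⟨P, hPm, hIP⟩ := Ideal.exists_le_maximal I hIt
  have hP := hPm.isPrime
  obtain ⟨y, hyJ, hy0⟩ := Submodule.exists_mem_ne_zero_of_ne_bot hJ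
  have hP0 : P ≠ ⊥ := by
    obtain ⟨a, b, hb, hab⟩ := IsFractionRing.div_surjective (A := A) y
    have hb0 : algebraMap A M b ≠ 0 :=
      IsFractionRing.to_map_ne_zero_of_mem_nonZeroDivisors hb
    have e1 : b • y = algebraMap A M a := by
      rw [Algebra.smul_def, ← hab]
      field_simp
    have ha0 : a ≠ 0 := by
      rintro rfl
      apply hy0
      rw [← hab, map_zero, zero_div]
    have ha : algebraMap A M a ∈ J := by
      rw [← e1]
      exact J.smul_mem _ hyJ
    have haI : a ∈ I := by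
      rw [hmI]
      have e2 : a • algebraMap A M x = x • algebraMap A M a := by
        rw [Algebra.smul_def, Algebra.smul_def, mul_comm]
      rw [e2]
      exact J.smul_mem _ ha
    rintro rfl
    exact ha0 ((Submodule.mem_bot A).mp (hIP haI))
  obtain ⟨v, hv, hu, hGe, hGt⟩ := hL2 A M P hP hP0
  have hone : (1 : A) ∉ P := (Ideal.ne_top_iff_one P).mp hP.ne_top
  have hA : ∀ a y, Ge v 0 a → y ∈ l3_J P hP J → a * y ∈ l3_J P hP J := by
    rintro a z ha ⟨s, hs, hz⟩
    obtain ⟨t, b, ht, htb⟩ := (hGe a).mp ha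
    refine ⟨s * t, fun h => (hP.mem_or_mem h).elim hs ht, ?_⟩
    have e : (s * t) • (a * z) = b • (s • z) := by
      rw [Algebra.smul_def, Algebra.smul_def, Algebra.smul_def, map_mul, ← htb]
      ring
    rw [e]
    exact J.smul_mem _ hz
  have hB : ∀ y ∈ l3_J P hP J, φ y ∈ l3_J P hP J := by
    rintro z ⟨s, hs, hz⟩
    refine ⟨s, hs, ?_⟩
    have e : (algebraMap A M s) ^ p * z = (s ^ (p - 1)) • (s • z) := by
      have hp : p = (p - 1) + 1 := (Nat.succ_pred_prime Fact.out).symm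
      rw [smul_smul, ← pow_succ, ← hp, Algebra.smul_def, map_pow]
    have h2 : φ ((algebraMap A M s) ^ p * z) ∈ J := by
      rw [e]
      exact hst _ (J.smul_mem _ hz)
    rw [hφ.pow_mul] at h2
    rw [Algebra.smul_def]
    exact h2
  have hC : (1 : M) ∉ l3_J P hP J := by
    rintro ⟨s, hs, hsJ⟩
    apply hs
    apply hIP
    rw [hmI]
    have e : s • algebraMap A M x = x • (s • (1 : M)) := by
      rw [Algebra.smul_def, Algebra.smul_def, Algebra.smul_def]
      ring
    rw [e]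
    exact J.smul_mem _ hsJ
  obtain ⟨hmem, hcomp⟩ := hL1 p M φ hφ h1 v hv hu (l3_J P hP J)
    ⟨y, ⟨1, hone, by rw [one_smul]; exact hyJ⟩, hy0⟩ hA hB hC
  have hxv := hx v hv hu (fun a => (hGe _).mpr ⟨1, a, hone, by rw [map_one, one_mul]⟩) hcomp
  obtain ⟨s, hs, hsJ⟩ := (hmem _).mpr hxv
  exact hs (hIP ((hmI s).mpr hsJ))

end Pool.Agent.F2W
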