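import Pool.Agent.Lib.MP_305fdd_al.F2.W.Stm

set_option autoImplicit false

/-!
# MP_305fdd_al, F_2, section W, piece [F2W L4]
-/

namespace Pool.Agent.F2W

open Pool.Agent.F2Ch Polynomial

section
variable {A M : Type} [CommRing A] [Field M] [Algebra A M]

/-- localisation of the module `J` at the prime `P` -/
private def l4_loc (P : Ideal A) (J : Submodule A M) : Set M := {z | ∃ s, s ∉ P ∧ s • z ∈ J}

private lemma l4_zero {P : Ideal A} (hP : P.IsPrime) (J : Submodule A M) :
    (0 : M) ∈ l4_loc P J :=
  ⟨1, fun h => hP.ne_top ((Ideal.eq_top_iff_one P).2 h), by rw [smul_zero]; exact J.zero_mem⟩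

private lemma l4_of_mem {P : Ideal A} (hP : P.IsPrime) (J : Submodule A M) {z : M} (hz : z ∈ J) :
    z ∈ l4_loc P J :=
  ⟨1, fun h => hP.ne_top ((Ideal.eq_top_iff_one P).2 h), by rw [one_smul]; exact hz⟩

private lemma l4_mul {P : Ideal A} (hP : P.IsPrime) (J : Submodule A M) {v : M → ℤ}
    (hv : ∀ y, Ge v 0 y ↔ ∃ s a : A, s ∉ P ∧ algebraMap A M s * y = algebraMap A M a)
    {y z : M} (hy : Ge v 0 y) (hz : z ∈ l4_loc P J) : y * z ∈ l4_loc P J := by
  obtain ⟨t, a, ht, hta⟩ := (hv y).1 hy
  obtain ⟨s, hs, hsz⟩ := hz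
  refine ⟨s * t, fun h => (hP.mem_or_mem h).elim hs ht, ?_⟩
  have e : (s * t) • (y * z) = a • (s • z) := by
    rw [Algebra.smul_def, Algebra.smul_def, Algebra.smul_def, ← hta, map_mul]
    ring
  rw [e]
  exact J.smul_mem a hsz

/-- finitely many elements of the localisation have a common denominator -/
private lemma l4_common {P : Ideal A} (hP : P.IsPrime) (J : Submodule A M) (y : M)
    (C : Finset A) (hC : ∀ c ∈ C, c • y ∈ l4_loc P J) :
    ∃ s, s ∉ P ∧ ∀ c ∈ C, c • (s • y) ∈ J := by
  classical
  induction C using Finset.induction_on with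
  | empty => exact ⟨1, fun h => hP.ne_top ((Ideal.eq_top_iff_one P).2 h), by simp⟩
  | insert c C _ ih =>
    obtain ⟨s, hs, hsC⟩ := ih fun c hc => hC c (Finset.mem_insert_of_mem hc)
    obtain ⟨t, ht, htc⟩ := hC c (Finset.mem_insert_self c C)
    refine ⟨s * t, fun h => (hP.mem_or_mem h).elim hs ht, fun d hd => ?_⟩
    rcases Finset.mem_insert.1 hd with h | h
    · rw [h]
      have e : c • ((s * t) • y) = s • (t • (c • y)) := by
        simp only [smul_smul]
        congr 1
        ring
      rw [e]
      exact J.smul_mem s htc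
    · have e : d • ((s * t) • y) = t • (d • (s • y)) := by
        simp only [smul_smul]
        congr 1
        ring
      rw [e]
      exact J.smul_mem t (hsC d h)

end

theorem p_L4 : S_L4 := by
  intro p _ A M _ _ _ _ _ φ hφ _ J hJ hJφ h1J P hP hP0 v hv hu hGe hGt hc
  obtain ⟨u, hu0, hu1⟩ := hu
  have hone : (1 : A) ∉ P := fun h => hP.ne_top ((Ideal.eq_top_iff_one P).2 h)
  have hA : ∀ a : A, Ge v 0 (algebraMap A M a) := fun a =>
    (hGe _).2 ⟨1, a, hone, by rw [map_one, one_mul]⟩
  have hs0 : ∀ s : A, s ∉ P → algebraMap A M s ≠ 0 ∧ v (algebraMap A M s) = 0 := by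
    intro s hs
    have h1 := hA s
    have h2 : ¬ Gt v 0 (algebraMap A M s) := fun h => hs ((hGt s).1 h)
    unfold Gt at h2
    push Not at h2
    unfold Ge at h1
    rcases h1 with h1 | h1
    · exact absurd h1 h2.1
    · exact ⟨h2.1, le_antisymm h2.2 h1⟩
  -- value of a product, in the form used
  have hsmul : ∀ (s : A) (z : M), s ∉ P → z ≠ 0 → v (s • z) = v z ∧ s • z ≠ 0 := by
    intro s z hs hz
    rw [Algebra.smul_def]
    obtain ⟨h1, h2⟩ := hs0 s hs
    exact ⟨by rw [hv.mul _ _ h1 hz, h2, zero_add], mul_ne_zero h1 hz⟩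
  -- lower bound on `J`
  obtain ⟨S, hS⟩ := hJ
  obtain ⟨c, hc0⟩ : ∃ c : ℤ, ∀ z ∈ S, c ≤ v z := by
    refine ⟨-(∑ z ∈ S, |v z|), fun z hz => ?_⟩
    have h1 : |v z| ≤ ∑ z ∈ S, |v z| :=
      Finset.single_le_sum (f := fun z => |v z|) (fun i _ => abs_nonneg _) hz
    have h2 := neg_abs_le (v z)
    omega
  have hlow : ∀ z ∈ J, Ge v c z := by
    intro z hz
    rw [← hS] at hz
    refine Submodule.span_induction (p := fun z _ => Ge v c z) ?_ ?_ ?_ ?_ hz
    · intro z hz
      exact Or.inr (hc0 z hz)
    · exact Or.inl rfl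
    · intro a b _ _ ha hb
      rcases ha with ha | ha
      · rw [ha, zero_add]; exact hb
      rcases hb with hb | hb
      · rw [hb, add_zero]; exact Or.inr ha
      rcases eq_or_ne a 0 with h | h
      · rw [h, zero_add]; exact Or.inr hb
      rcases eq_or_ne b 0 with h' | h'
      · rw [h', add_zero]; exact Or.inr ha
      rcases eq_or_ne (a + b) 0 with h'' | h''
      · exact Or.inl h''
      · exact Or.inr (le_trans (le_min ha hb) (hv.add a b h h' h''))
    · intro a z _ hz
      rcases eq_or_ne z 0 with h | h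
      · left; rw [h, smul_zero]
      rcases eq_or_ne (algebraMap A M a) 0 with h' | h'
      · left; rw [Algebra.smul_def, h', zero_mul]
      right
      rw [Algebra.smul_def, hv.mul _ _ h' h]
      have h1 := (hA a).resolve_left h'
      have h2 := hz.resolve_left h
      omega
  have hlow' : ∀ z ∈ l4_loc P J, z ≠ 0 → c ≤ v z := by
    rintro z ⟨s, hs, hsz⟩ hz
    obtain ⟨h1, h2⟩ := hsmul s z hs hz
    have h3 := (hlow _ hsz).resolve_left h2
    rwa [h1] at h3
  -- the least value
  have hv1 : v 1 = 0 := by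
    have := (hs0 1 hone).2
    rwa [map_one] at this
  obtain ⟨m, ⟨z0, hz0J, hz00, hz0m⟩, hm⟩ := Int.exists_least_of_bdd
    (P := fun n : ℤ => ∃ z ∈ l4_loc P J, z ≠ 0 ∧ v z = n)
    ⟨c, by rintro n ⟨z, hz, hz0, rfl⟩; exact hlow' z hz hz0⟩
    ⟨0, 1, l4_of_mem hP J h1J, one_ne_zero, hv1⟩
  have hm0 : m ≤ 0 := hm 0 ⟨1, l4_of_mem hP J h1J, one_ne_zero, hv1⟩
  have hJ1 : ∀ z ∈ l4_loc P J, z ≠ 0 → m ≤ v z := fun z hz hz0 => hm _ ⟨z, hz, hz0, rfl⟩
  have hJ2 : ∀ z, Ge v m z → z ∈ l4_loc P J := by
    intro z hz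
    rcases eq_or_ne z 0 with h | h
    · rw [h]; exact l4_zero hP J
    have h1 := hz.resolve_left h
    have h2 : z = z / z0 * z0 := (div_mul_cancel₀ z hz00).symm
    rw [h2]
    refine l4_mul hP J hGe ?_ hz0J
    right
    have h3 : v (z / z0) + v z0 = v z := by
      rw [← hv.mul _ _ (div_ne_zero h hz00) hz00, ← h2]
    omega
  -- the element `y1`
  have hy10 : z0 / u ≠ 0 := div_ne_zero hz00 hu0
  have hy1 : v (z0 / u) = m - 1 := by
    have h3 : v (z0 / u) + v u = v z0 := by
      rw [← hv.mul _ _ hy10 hu0, div_mul_cancel₀ z0 hu0]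
    omega
  have hfg : P.FG := (isNoetherianRing_iff_ideal_fg A).1 inferInstance P
  obtain ⟨C, hC⟩ := hfg
  have hPy1 : ∀ b ∈ P, b • (z0 / u) ∈ l4_loc P J := by
    intro b hb
    refine hJ2 _ ?_
    rcases eq_or_ne (algebraMap A M b) 0 with h | h
    · left; rw [Algebra.smul_def, h, zero_mul]
    · right
      have h1 := ((hGt b).2 hb).resolve_left h
      rw [Algebra.smul_def, hv.mul _ _ h hy10, hy1]
      omega
  obtain ⟨s, hs, hsC⟩ := l4_common hP J (z0 / u) C fun b hb =>
    hPy1 b (hC ▸ Ideal.subset_span hb)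
  set y := s • (z0 / u) with hydef
  obtain ⟨hvy, hy0⟩ := hsmul s (z0 / u) hs hy10
  rw [← hydef] at hvy hy0
  rw [hy1] at hvy
  have hPy : ∀ b ∈ P, b • y ∈ J := by
    intro b hb
    rw [← hC] at hb
    refine Submodule.span_induction (p := fun b _ => b • y ∈ J) ?_ ?_ ?_ ?_ hb
    · intro b hb; exact hsC b hb
    · show (0 : A) • y ∈ J
      rw [zero_smul]; exact J.zero_mem
    · intro a b _ _ ha hb
      show (a + b) • y ∈ J
      rw [add_smul]; exact J.add_mem ha hb
    · intro a b _ hb
      show (a • b) • y ∈ J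
      rw [smul_assoc]; exact J.smul_mem a hb
  refine ⟨y, ?_, hPy, ?_⟩
  · intro hyJ
    have := hJ1 y (l4_of_mem hP J hyJ) hy0
    omega
  · intro a
    set z := a • y with hz
    have hPz : ∀ b ∈ P, b • z ∈ J := by
      intro b hb
      have e : b • z = a • (b • y) := smul_comm b a y
      rw [e]
      exact J.smul_mem a (hPy b hb)
    have hvz : Ge v (m - 1) z := by
      rcases eq_or_ne (algebraMap A M a) 0 with h | h
      · left; rw [hz, Algebra.smul_def, h, zero_mul]
      · right
        have h1 := (hA a).resolve_left h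
        rw [hz, Algebra.smul_def, hv.mul _ _ h hy0]
        omega
    -- the ideal of the `s` with `s φ z ∈ J`
    let I : Ideal A :=
      { carrier := {t | t • φ z ∈ J}
        zero_mem' := by
          show (0 : A) • φ z ∈ J
          rw [zero_smul]; exact J.zero_mem
        add_mem' := by
          intro a b ha hb
          show (a + b) • φ z ∈ J
          rw [add_smul]; exact J.add_mem ha hb
        smul_mem' := by
          intro a b hb
          show (a • b) • φ z ∈ J
          rw [smul_assoc]; exact J.smul_mem a hb }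
    have hImem : ∀ t, t ∈ I ↔ t • φ z ∈ J := fun t => Iff.rfl
    have hI : I = ⊤ := by
      by_contra hne
      obtain ⟨Q, hQ, hIQ⟩ := Ideal.exists_le_maximal I hne
      rcases eq_or_ne Q P with h | h
      · -- `Q = P`
        have hmem : φ z ∈ l4_loc P J := by
          refine hJ2 _ ?_
          rcases eq_or_ne (φ z) 0 with h0 | h0
          · exact Or.inl h0
          · right
            have hz0 : z ≠ 0 := by
              intro hz0
              apply h0
              rw [hz0]
              have := hφ.add 0 0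
              rw [add_zero] at this
              exact left_eq_add.mp this
            have h1 := hc z h0
            have h2 := hvz.resolve_left hz0
            by_contra hlt
            push Not at hlt
            have hp2 : (2 : ℤ) ≤ (p : ℤ) := by
              exact_mod_cast (Fact.out : p.Prime).two_le
            rw [nsmul_eq_mul] at h1
            have h3 : (p : ℤ) * v (φ z) ≤ 2 * v (φ z) :=
              mul_le_mul_of_nonpos_right hp2 (by omega)
            omega
        obtain ⟨t, ht, htJ⟩ := hmem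
        exact ht (h ▸ hIQ ((hImem t).2 htJ))
      · have hPmax : P.IsMaximal := hP.isMaximal hP0
        obtain ⟨b, hbP, hbQ⟩ : ∃ b ∈ P, b ∉ Q := by
          by_contra hcon
          push Not at hcon
          exact h ((hPmax.eq_of_le hQ.ne_top hcon).symm)
        apply hbQ
        apply hIQ
        rw [hImem]
        have hp1 : p = (p - 1) + 1 := by
          have := (Fact.out : p.Prime).pos
          omega
        have e1 : (algebraMap A M b) ^ p * z = b ^ (p - 1) • (b • z) := by
          rw [Algebra.smul_def, Algebra.smul_def, map_pow, ← mul_assoc, ← pow_succ, ← hp1]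
        have e2 : φ ((algebraMap A M b) ^ p * z) = b • φ z := by
          rw [hφ.pow_mul, Algebra.smul_def]
        rw [← e2, e1]
        exact hJφ _ (J.smul_mem _ (hPz b hbP))
    have h1 : (1 : A) ∈ I := by rw [hI]; trivial
    rw [hImem, one_smul] at h1
    exact h1

end Pool.Agent.F2W
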