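import Pool.Agent.Lib.MP_305fdd_al.F2.W.Stm

set_option autoImplicit false

namespace Pool.Agent.F2W

open Pool.Agent.F2Ch Polynomial

open scoped nonZeroDivisors in
private theorem l5_ne {R E M : Type} [CommRing R] [IsDedekindDomain R] [Field E] [Algebra R E]
    [IsFractionRing R E] [Field M] [Algebra E M] [Algebra R M] [IsScalarTower R E M]
    [FiniteDimensional E M] [Algebra.IsSeparable E M] (T : M →ₗ[E] E) (x0 : R) (hx0 : x0 ≠ 0) :
    ∃ y : M, y ≠ 0 ∧ ∀ a : integralClosure R M, ∃ r : R, T (y * a) = algebraMap R E (x0 * r) := by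
  classical
  have hfin : Module.Finite R (integralClosure R M) :=
    IsIntegralClosure.finite R E M (integralClosure R M)
  obtain ⟨s, hs⟩ := hfin.fg_top
  obtain ⟨d, hd⟩ := IsLocalization.exist_integer_multiples_of_finset (R⁰)
    (Finset.image (fun a : integralClosure R M => T (a : M)) s)
  have hd0 : (d : R) ≠ 0 := nonZeroDivisors.coe_ne_zero d
  have key : ∀ a : integralClosure R M, ∃ r : R, (d : R) • T (a : M) = algebraMap R E r := by
    intro a
    have ha : a ∈ Submodule.span R (s : Set (integralClosure R M)) := by rw [hs]; trivial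
    induction ha using Submodule.span_induction with
    | mem x hx =>
      obtain ⟨r, hr⟩ := hd (T (x : M)) (Finset.mem_image_of_mem _ hx)
      exact ⟨r, hr.symm⟩
    | zero => exact ⟨0, by simp⟩
    | add x y _ _ hx hy =>
      obtain ⟨r, hr⟩ := hx
      obtain ⟨r', hr'⟩ := hy
      refine ⟨r + r', ?_⟩
      rw [Subalgebra.coe_add, map_add, smul_add, hr, hr', map_add]
    | smul t x _ hx =>
      obtain ⟨r, hr⟩ := hx
      refine ⟨t * r, ?_⟩
      have e : ((t • x : integralClosure R M) : M) = algebraMap R E t • (x : M) := by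
        rw [algebraMap_smul]
        rfl
      rw [e, map_smul, algebraMap_smul, smul_comm, hr, map_mul, Algebra.smul_def]
  have hinj : Function.Injective (algebraMap R M) := by
    rw [IsScalarTower.algebraMap_eq R E M]
    exact (algebraMap E M).injective.comp (IsFractionRing.injective R E)
  refine ⟨algebraMap R M (x0 * d), ?_, fun a => ?_⟩
  · rw [Ne, map_eq_zero_iff _ hinj]
    exact mul_ne_zero hx0 hd0
  · obtain ⟨r, hr⟩ := key a
    refine ⟨r, ?_⟩
    have e : algebraMap R M (x0 * d) * (a : M) = algebraMap R E (x0 * d) • (a : M) := by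
      rw [Algebra.smul_def, ← IsScalarTower.algebraMap_apply]
    rw [e, map_smul, smul_eq_mul, map_mul, mul_assoc, ← smul_eq_mul (algebraMap R E (d : R)),
      algebraMap_smul, hr, map_mul]

theorem p_L5 : S_L5 := by
  intro R E M _ _ _ _ _ _ _ _ _ _ _ T hT x0 hx0 J hJ
  constructor
  · obtain ⟨y, hy0, hy⟩ := l5_ne (R := R) T x0 hx0
    intro hbot
    have h1 : y ∈ J := (hJ y).2 hy
    rw [hbot, Submodule.mem_bot] at h1
    exact hy0 h1
  · obtain ⟨s, b, hb⟩ := FiniteDimensional.exists_is_basis_integral R E M
    let Ψ : M →ₗ[R] (s → E) := LinearMap.pi fun i =>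
      (T.restrictScalars R).comp (LinearMap.mulRight R (b i))
    have hΨ : ∀ y i, Ψ y i = T (y * b i) := fun y i => rfl
    let ι : (s → R) →ₗ[R] (s → E) := LinearMap.pi fun i =>
      (Algebra.linearMap R E).comp (LinearMap.proj i)
    have hι : ∀ f i, ι f i = algebraMap R E (f i) := fun f i => rfl
    have hnoeth : IsNoetherian R (LinearMap.range ι) :=
      isNoetherian_of_surjective ι.rangeRestrict ι.range_rangeRestrict
    have hmem : ∀ y : J.restrictScalars R, Ψ y ∈ LinearMap.range ι := by
      intro y
      have hy : ∀ i : s, ∃ r : R, T ((y : M) * b i) = algebraMap R E (x0 * r) := fun i =>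
        (hJ (y : M)).1 y.2 ⟨b i, hb i⟩
      choose r hr using hy
      refine ⟨fun i => x0 * r i, ?_⟩
      funext i
      rw [hι, hΨ, hr]
    let Φ : (J.restrictScalars R) →ₗ[R] LinearMap.range ι :=
      LinearMap.codRestrict (LinearMap.range ι) (Ψ.comp (J.restrictScalars R).subtype) hmem
    have hΦ : Function.Injective Φ := by
      rw [← LinearMap.ker_eq_bot, LinearMap.ker_eq_bot']
      intro y hy
      have h1 : ∀ i, T ((y : M) * b i) = 0 := by
        intro i
        have h2 := congrArg (fun z : LinearMap.range ι => (z : s → E) i) hy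
        exact h2
      by_contra hy0
      have hy1 : (y : M) ≠ 0 := fun h => hy0 (Subtype.ext h)
      apply hT
      have h3 : T.comp (LinearMap.mulLeft E (y : M)) = 0 := by
        apply b.ext
        intro i
        exact h1 i
      ext m
      have h4 := congrArg (fun f : M →ₗ[E] E => f ((y : M)⁻¹ * m)) h3
      simpa [mul_inv_cancel_left₀ hy1] using h4
    have hN : IsNoetherian R (J.restrictScalars R) := isNoetherian_of_injective Φ hΦ
    exact Submodule.FG.of_restrictScalars R (isNoetherian_submodule.1 hN _ le_rfl)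

end Pool.Agent.F2W
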