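import Pool.Agent.Lib.MP_305fdd_al.F2.W.Stm

set_option autoImplicit false

namespace Pool.Agent.F2W

open Pool.Agent.F2Ch Polynomial

section poly

variable {p : ℕ} [hp : Fact p.Prime] {k : Type} [Field k] [CharP k p] [PerfectRing k p]

private noncomputable def l6_c (p : ℕ) [Fact p.Prime] {k : Type} [Field k] [CharP k p]
    [PerfectRing k p] (i : ℕ) (Q : k[X]) : k[X] :=
  ∑ n ∈ Finset.range (Q.natDegree + 1), monomial n ((frobeniusEquiv k p).symm (Q.coeff (p * n + i)))

omit hp in
private lemma l6_coeff [Fact p.Prime] (i : ℕ) (Q : k[X]) (n : ℕ) :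
    (l6_c p i Q).coeff n = (frobeniusEquiv k p).symm (Q.coeff (p * n + i)) := by
  rw [l6_c, finsetSum_coeff]
  simp only [coeff_monomial]
  rw [Finset.sum_ite_eq']
  split_ifs with h
  · rfl
  · have h1 : Q.coeff (p * n + i) = 0 := by
      apply coeff_eq_zero_of_natDegree_lt
      have h2 : n ≤ p * n := Nat.le_mul_of_pos_left n (Fact.out : p.Prime).pos
      rw [Finset.mem_range] at h
      omega
    rw [h1, map_zero]

private lemma l6_coeff_pow (i : ℕ) (Q : k[X]) (n : ℕ) :
    (l6_c p i Q).coeff n ^ p = Q.coeff (p * n + i) := by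
  rw [l6_coeff, frobeniusEquiv_symm_pow_p]

omit [PerfectRing k p] in
private lemma l6_pow_coeff (f : k[X]) (m : ℕ) :
    (f ^ p).coeff m = if p ∣ m then f.coeff (m / p) ^ p else 0 := by
  rw [← map_frobenius_expand, coeff_map, coeff_expand hp.out.pos]
  split_ifs with h
  · rw [frobenius_def]
  · rw [map_zero]

omit [PerfectRing k p] in
private lemma l6_sum_coeff (A : ℕ → k[X]) (m : ℕ) :
    (∑ i ∈ Finset.range p, (A i) ^ p * X ^ i : k[X]).coeff m = (A (m % p)).coeff (m / p) ^ p := by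
  have hp0 := hp.out.pos
  rw [finsetSum_coeff]
  simp only [coeff_mul_X_pow', l6_pow_coeff]
  rw [Finset.sum_eq_single (m % p)]
  · rw [if_pos (Nat.mod_le m p), if_pos (Nat.dvd_sub_mod m)]
    congr 2
    have h := Nat.div_add_mod m p
    have h1 : m - m % p = p * (m / p) := by omega
    rw [h1, Nat.mul_div_cancel_left _ hp0]
  · intro i hi hne
    rw [Finset.mem_range] at hi
    split_ifs with h1 h2
    · exfalso
      apply hne
      obtain ⟨c, hc⟩ := h2
      have h3 : m = i + p * c := by omega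
      rw [h3, Nat.add_mul_mod_self_left, Nat.mod_eq_of_lt hi]
    · rfl
    · rfl
  · intro h
    exact absurd (Finset.mem_range.mpr (Nat.mod_lt m hp0)) h

private lemma l6_dec (Q : k[X]) : ∑ i ∈ Finset.range p, (l6_c p i Q) ^ p * X ^ i = Q := by
  ext m
  rw [l6_sum_coeff, l6_coeff_pow, Nat.div_add_mod]

omit [PerfectRing k p] in
private lemma l6_ind (A : ℕ → k[X]) (h : ∑ i ∈ Finset.range p, (A i) ^ p * X ^ i = (0 : k[X]))
    (i : ℕ) (hi : i < p) : A i = 0 := by
  have hp0 := hp.out.pos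
  ext n
  have h1 := congrArg (fun q : k[X] => q.coeff (p * n + i)) h
  simp only [l6_sum_coeff, coeff_zero] at h1
  rw [Nat.mul_add_mod, Nat.mod_eq_of_lt hi, Nat.mul_add_div hp0, Nat.div_eq_of_lt hi, add_zero] at h1
  rw [coeff_zero]
  exact pow_eq_zero_iff hp0.ne' |>.mp h1

end poly

section field

variable {p : ℕ} [hp : Fact p.Prime] {k E : Type} [Field k] [CharP k p] [PerfectRing k p] [Field E]
  [Algebra k E] {x : E}

omit hp in
private lemma l6_exist [Fact p.Prime] (hgen : ∀ f : E, ∃ a b : k[X], aeval x b ≠ 0 ∧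
    f * aeval x b = aeval x a) (f : E) : ∃ a : ℕ → E, ∑ i ∈ Finset.range p, a i ^ p * x ^ i = f := by
  obtain ⟨A, B, hB, hAB⟩ := hgen f
  refine ⟨fun i => aeval x (l6_c p i (A * B ^ (p - 1))) / aeval x B, ?_⟩
  have h1 := congrArg (aeval x) (l6_dec (p := p) (A * B ^ (p - 1)))
  simp only [map_sum, map_mul, map_pow, aeval_X] at h1
  have h2 : ∀ i ∈ Finset.range p, (aeval x (l6_c p i (A * B ^ (p - 1))) / aeval x B) ^ p * x ^ i =
      (aeval x (l6_c p i (A * B ^ (p - 1))) ^ p * x ^ i) / (aeval x B) ^ p := by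
    intro i _
    rw [div_pow]
    ring
  rw [Finset.sum_congr rfl h2, ← Finset.sum_div, h1, ← hAB]
  have hp1 : p = p - 1 + 1 := by have := (Fact.out : p.Prime).pos; omega
  rw [div_eq_iff (pow_ne_zero _ hB), mul_assoc]
  congr 1
  conv_rhs => rw [hp1]
  rw [pow_succ']

omit [PerfectRing k p] in
private lemma l6_inj (hx : Transcendental k x) (hgen : ∀ f : E, ∃ a b : k[X], aeval x b ≠ 0 ∧
    f * aeval x b = aeval x a) (a : ℕ → E) (h : ∑ i ∈ Finset.range p, a i ^ p * x ^ i = 0) (i : ℕ)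
    (hi : i < p) : a i = 0 := by
  choose A0 B0 hB0 hA0 using fun i => hgen (a i)
  have hB : aeval x (∏ j ∈ Finset.range p, B0 j) ≠ 0 := by
    rw [map_prod]
    exact Finset.prod_ne_zero_iff.mpr fun j _ => hB0 j
  have hA : ∀ j ∈ Finset.range p, a j * aeval x (∏ j ∈ Finset.range p, B0 j) =
      aeval x (A0 j * ∏ l ∈ (Finset.range p).erase j, B0 l) := by
    intro j hj
    rw [← Finset.mul_prod_erase _ _ hj, map_mul, map_mul, ← hA0 j]
    ring
  have h1 : aeval x (∑ j ∈ Finset.range p,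
      (A0 j * ∏ l ∈ (Finset.range p).erase j, B0 l) ^ p * X ^ j) = 0 := by
    rw [map_sum]
    have h2 : ∀ j ∈ Finset.range p, aeval x ((A0 j * ∏ l ∈ (Finset.range p).erase j, B0 l) ^ p *
        X ^ j) = (a j ^ p * x ^ j) * (aeval x (∏ j ∈ Finset.range p, B0 j)) ^ p := by
      intro j hj
      rw [map_mul, map_pow, ← hA j hj, map_pow, aeval_X, mul_pow]
      ring
    rw [Finset.sum_congr rfl h2, ← Finset.sum_mul, h, zero_mul]
  have h2 : ∑ j ∈ Finset.range p, (A0 j * ∏ l ∈ (Finset.range p).erase j, B0 l) ^ p * X ^ j =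
      (0 : k[X]) := by
    apply transcendental_iff_injective.mp hx
    rw [h1, map_zero]
  have h3 := l6_ind (fun j => A0 j * ∏ l ∈ (Finset.range p).erase j, B0 l) h2 i hi
  have h4 := hA i (Finset.mem_range.mpr hi)
  rw [h3, map_zero] at h4
  exact (mul_eq_zero.mp h4).resolve_right hB

end field

theorem p_L6 : S_L6 := by
  intro p hp k E _ _ _ _ _ x hx hgen
  have : CharP E p := charP_of_injective_algebraMap (algebraMap k E).injective p
  have hp0 := hp.out.pos
  have hx0 : x ≠ 0 := by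
    rintro rfl
    exact hx isAlgebraic_zero
  -- sums over the index type
  have hsum : ∀ a : (Fin 1 → Fin p) → E, ∑ j, a j ^ p * monY (p := p) (fun _ : Fin 1 => x) j =
      ∑ i ∈ Finset.range p, (if h : i < p then a fun _ => ⟨i, h⟩ else 0) ^ p * x ^ i := by
    intro a
    rw [← Fin.sum_univ_eq_sum_range
      (fun i => (if h : i < p then a fun _ => ⟨i, h⟩ else 0) ^ p * x ^ i) p]
    refine Fintype.sum_equiv (Equiv.funUnique (Fin 1) (Fin p)) _ _ fun j => ?_
    have hj : (fun _ : Fin 1 => (⟨(j 0 : ℕ), (j 0).2⟩ : Fin p)) = j := by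
      funext l
      rw [Subsingleton.elim l 0]
    simp only [Equiv.funUnique_apply, Fin.default_eq_zero, monY, Finset.univ_unique,
      Finset.prod_singleton, Fin.is_lt, dite_true]
    rw [show (fun _ : Fin 1 => (⟨((j 0 : Fin p) : ℕ), (j 0).2⟩ : Fin p)) = j from hj]
  have hex : ∀ f : E, ∃ a : (Fin 1 → Fin p) → E,
      ∑ j, a j ^ p * monY (p := p) (fun _ : Fin 1 => x) j = f := by
    intro f
    obtain ⟨a, ha⟩ := l6_exist (p := p) hgen f
    refine ⟨fun j => a (j 0 : ℕ), ?_⟩
    rw [hsum, ← ha]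
    refine Finset.sum_congr rfl fun i hi => ?_
    rw [Finset.mem_range] at hi
    simp only [hi, dite_true]
  have hinj : ∀ a b : (Fin 1 → Fin p) → E,
      ∑ j, a j ^ p * monY (p := p) (fun _ : Fin 1 => x) j =
        ∑ j, b j ^ p * monY (p := p) (fun _ : Fin 1 => x) j → a = b := by
    intro a b hab
    have h1 : ∑ j, (a j - b j) ^ p * monY (p := p) (fun _ : Fin 1 => x) j = 0 := by
      simp only [sub_pow_char, sub_mul, Finset.sum_sub_distrib]
      rw [hab, sub_self]
    have h2 := hsum fun j => a j - b j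
    rw [h1] at h2
    funext j
    have h3 := l6_inj hx hgen _ h2.symm (j 0 : ℕ) (j 0).2
    simp only [Fin.is_lt, dite_true] at h3
    have hj : (fun _ : Fin 1 => (⟨(j 0 : ℕ), (j 0).2⟩ : Fin p)) = j := by
      funext l
      rw [Subsingleton.elim l 0]
    rw [hj] at h3
    exact sub_eq_zero.mp h3
  choose ρ hρ using hex
  have hun : ∀ (a : (Fin 1 → Fin p) → E) (f : E),
      ∑ j, a j ^ p * monY (p := p) (fun _ : Fin 1 => x) j = f → ρ f = a := by
    intro a f h
    apply hinj
    rw [hρ, h]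
  refine ⟨fun j f => ρ f j, ⟨fun f => hρ f, fun a i => congrFun (hun a _ rfl) i⟩, ?_⟩
  intro Q
  refine ⟨l6_c p 0 Q, fun i => by rw [l6_coeff_pow, add_zero], ?_, ?_⟩
  · have h1 : ρ (aeval x Q) = fun j => aeval x (l6_c p (j 0 : ℕ) Q) := by
      apply hun
      rw [hsum]
      have h2 := congrArg (aeval x) (l6_dec (p := p) Q)
      simp only [map_sum, map_mul, map_pow, aeval_X] at h2
      rw [← h2]
      refine Finset.sum_congr rfl fun i hi => ?_
      rw [Finset.mem_range] at hi
      simp only [hi, dite_true]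
    exact congrFun h1 j0
  · have h1 : ρ (aeval x⁻¹ Q) = fun j => if (j 0 : ℕ) = 0 then aeval x⁻¹ (l6_c p 0 Q) else
        aeval x⁻¹ (l6_c p (p - (j 0 : ℕ)) Q) * x⁻¹ := by
      apply hun
      rw [hsum]
      have h2 := congrArg (aeval x⁻¹) (l6_dec (p := p) Q)
      simp only [map_sum, map_mul, map_pow, aeval_X] at h2
      rw [← h2]
      obtain ⟨q, rfl⟩ : ∃ q, p = q + 1 := ⟨p - 1, by omega⟩
      rw [Finset.sum_range_succ', Finset.sum_range_succ' (fun i => (aeval x⁻¹ (l6_c (q + 1) i Q)) ^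
        (q + 1) * x⁻¹ ^ i)]
      congr 1
      · rw [← Finset.sum_range_reflect (fun i => (aeval x⁻¹ (l6_c (q + 1) (i + 1) Q)) ^ (q + 1) *
          x⁻¹ ^ (i + 1))]
        refine Finset.sum_congr rfl fun i hi => ?_
        rw [Finset.mem_range] at hi
        have e1 : i + 1 < q + 1 := by omega
        have e2 : q - 1 - i + 1 = q + 1 - (i + 1) := by omega
        simp only [e1, dite_true, Nat.add_eq_zero_iff, one_ne_zero, and_false, if_false]
        rw [e2, mul_pow, mul_assoc]
        congr 1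
        have e3 : x⁻¹ ^ (q + 1) = x⁻¹ ^ (q + 1 - (i + 1)) * x⁻¹ ^ (i + 1) := by
          rw [← pow_add]
          congr 1
          omega
        rw [e3, mul_assoc, inv_pow x (i + 1), inv_mul_cancel₀ (pow_ne_zero _ hx0), mul_one]
      · simp
    exact congrFun h1 j0

end Pool.Agent.F2W
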