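import Pool.Agent.Lib.MP_305fdd_al.F2.W.Stm

/-!
# MP_305fdd_al, F_2 project, section W: piece [F2W L7]
-/

set_option autoImplicit false

namespace Pool.Agent.F2W

open Pool.Agent.F2Ch Polynomial

section
variable {p : ℕ} [Fact p.Prime] {k M : Type} [Field k] [CharP k p] [PerfectRing k p] [Field M]
  [Algebra k M] [CharP M p]

private theorem l7_root {x : M} (hx : IsAlgebraic k x) : ∃ a : M, a ^ p = x := by
  have : PerfectField k := PerfectRing.toPerfectField k p
  have h1 : PerfectField (algebraicClosure k M) := Algebra.IsAlgebraic.perfectField k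
  have : CharP (algebraicClosure k M) p :=
    RingHom.charP (algebraMap (algebraicClosure k M) M)
      (algebraMap (algebraicClosure k M) M).injective p
  have : PerfectRing (algebraicClosure k M) p := PerfectField.toPerfectRing p
  obtain ⟨a, ha⟩ := surjective_frobenius (algebraicClosure k M) p
    ⟨x, mem_algebraicClosure_iff.mpr hx⟩
  exact ⟨a, congrArg Subtype.val ha⟩

private theorem l7_tr {x : M} {ρ : (Fin 1 → Fin p) → M → M}
    (hρ : IsPB p (monY (p := p) fun _ : Fin 1 => x) ρ) : Transcendental k x := by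
  classical
  intro hx
  obtain ⟨a, ha⟩ := l7_root (p := p) hx
  have hp := (Fact.out : p.Prime).one_lt
  obtain ⟨i0, hi0⟩ : ∃ i0 : Fin 1 → Fin p, i0 = fun _ => ⟨0, by omega⟩ := ⟨_, rfl⟩
  obtain ⟨i1, hi1⟩ : ∃ i1 : Fin 1 → Fin p, i1 = fun _ => ⟨1, hp⟩ := ⟨_, rfl⟩
  have hne : i1 ≠ i0 := by
    intro h
    have := congrArg (fun f => ((f 0 : Fin p) : ℕ)) h
    simp [hi0, hi1] at this
  have m0 : monY (p := p) (fun _ : Fin 1 => x) i0 = 1 := by simp [monY, hi0]
  have m1 : monY (p := p) (fun _ : Fin 1 => x) i1 = x := by simp [monY, hi1]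
  have hp0 : p ≠ 0 := by omega
  have s0 : ∑ j, (if j = i0 then a else 0) ^ p * monY (p := p) (fun _ : Fin 1 => x) j = x := by
    rw [Finset.sum_eq_single i0]
    · rw [if_pos rfl, m0, mul_one, ha]
    · intro b _ hb
      rw [if_neg hb, zero_pow hp0, zero_mul]
    · simp
  have s1 : ∑ j, (if j = i1 then (1 : M) else 0) ^ p *
      monY (p := p) (fun _ : Fin 1 => x) j = x := by
    rw [Finset.sum_eq_single i1]
    · rw [if_pos rfl, m1, one_pow, one_mul]
    · intro b _ hb
      rw [if_neg hb, zero_pow hp0, zero_mul]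
    · simp
  have u0 := hρ.uniq (fun j => if j = i0 then a else 0) i1
  have u1 := hρ.uniq (fun j => if j = i1 then 1 else 0) i1
  rw [s0, if_neg hne] at u0
  rw [s1, if_pos rfl, u0] at u1
  exact zero_ne_one u1

private theorem l7_adjoin {n : ℕ} {t : Fin n → M} (ht : FracGen k t) (T : Subfield M)
    (hE : ∀ c : k, algebraMap k M c ∈ T) (hT : ∀ i, t i ∈ T) :
    ∀ f : M, f ∈ T := by
  have h1 : ∀ q : MvPolynomial (Fin n) k, MvPolynomial.aeval t q ∈ T := by
    intro q
    induction q using MvPolynomial.induction_on with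
    | C a =>
      rw [MvPolynomial.aeval_C]
      exact hE a
    | add p q hp hq =>
      rw [map_add]
      exact T.add_mem hp hq
    | mul_X p i hp =>
      rw [map_mul, MvPolynomial.aeval_X]
      exact T.mul_mem hp (hT i)
  intro f
  obtain ⟨a, b, hb, hf⟩ := ht f
  have h2 : f = MvPolynomial.aeval t a * (MvPolynomial.aeval t b)⁻¹ := by
    rw [← hf, mul_inv_cancel_right₀ hb]
  rw [h2]
  exact T.mul_mem (h1 a) (T.inv_mem (h1 b))

end

theorem p_L7 : S_L7 := by
  intro p _ k M _ _ _ _ _ n t ht htr x ρ hρ
  have hcM : CharP M p := charP_of_injective_algebraMap (algebraMap k M).injective p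
  have hx : Transcendental k x := l7_tr hρ
  -- algebraic over `k(x)`
  have hai : AlgebraicIndependent k (fun _ : Unit => x) :=
    algebraicIndependent_unique_type_iff.mpr hx
  have htb : IsTranscendenceBasis k (fun _ : Unit => x) :=
    hai.isTranscendenceBasis_of_trdeg_le_of_finite (by rw [htr]; simp)
  have halg0 := htb.isAlgebraic_field
  rw [Set.range_const] at halg0
  obtain ⟨E, hE⟩ : ∃ E : IntermediateField k M, E = IntermediateField.adjoin k {x} := ⟨_, rfl⟩
  rw [← hE] at halg0 ⊢
  have hxE : x ∈ E := by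
    rw [hE]
    exact IntermediateField.mem_adjoin_simple_self k x
  have halg : Algebra.IsAlgebraic E M := halg0
  -- finite
  have hfin0 : FiniteDimensional E (IntermediateField.adjoin E (Set.range t)) := by
    apply IntermediateField.finiteDimensional_adjoin
    intro y _
    exact (halg.isAlgebraic y).isIntegral
  have htop : IntermediateField.adjoin E (Set.range t) = ⊤ := by
    rw [eq_top_iff]
    intro f _
    refine l7_adjoin ht (IntermediateField.adjoin E (Set.range t)).toSubfield ?_ ?_ f
    · intro c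
      exact (IntermediateField.adjoin E (Set.range t)).algebraMap_mem (algebraMap k E c)
    · intro i
      exact IntermediateField.subset_adjoin E _ ⟨i, rfl⟩
  have hfin : FiniteDimensional E M := by
    rw [htop] at hfin0
    exact (IntermediateField.topEquiv (F := E) (E := M)).toLinearEquiv.finiteDimensional
  refine ⟨hx, hfin, ?_⟩
  -- separable
  rw [← separableClosure.eq_top_iff, eq_top_iff]
  obtain ⟨S, hS⟩ : ∃ S : IntermediateField E M, S = separableClosure E M := ⟨_, rfl⟩
  have hpi : IsPurelyInseparable S M := by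
    rw [hS]
    infer_instance
  have hcS : CharP S p := RingHom.charP (algebraMap S M) (algebraMap S M).injective p
  have hpow : ∀ y : M, ∃ m : ℕ, y ^ p ^ m ∈ S := by
    intro y
    obtain ⟨m, z, hz⟩ := IsPurelyInseparable.pow_mem S p y
    exact ⟨m, by rw [← hz]; exact z.2⟩
  choose m hm using hpow
  have hmono : ∀ (y : M) (a b : ℕ), a ≤ b → y ^ p ^ a ∈ S → y ^ p ^ b ∈ S := by
    intro y a b hab hy
    obtain ⟨c, rfl⟩ := Nat.exists_eq_add_of_le hab
    rw [pow_add, pow_mul]
    exact pow_mem hy _
  have hN : ∃ N : ℕ, ∀ y : M, y ^ p ^ N ∈ S := by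
    refine ⟨Finset.univ.sup fun i => m (t i), ?_⟩
    have h2 := l7_adjoin ht (S.toSubfield.comap
      (iterateFrobenius M p (Finset.univ.sup fun i => m (t i)))) ?_ ?_
    · intro y
      exact h2 y
    · intro c
      rw [Subfield.mem_comap, iterateFrobenius_def]
      have h3 : algebraMap k M c ∈ S := S.algebraMap_mem (algebraMap k E c)
      exact pow_mem h3 _
    · intro i
      rw [Subfield.mem_comap, iterateFrobenius_def]
      exact hmono _ _ _ (Finset.le_sup (f := fun i => m (t i)) (Finset.mem_univ i)) (hm (t i))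
  have hxS : x ∈ S := S.algebraMap_mem (⟨x, hxE⟩ : E)
  have hall : ∀ N : ℕ, (∀ y : M, y ^ p ^ N ∈ S) → ∀ y : M, y ∈ S := by
    intro N
    induction N with
    | zero =>
      intro h y
      simpa using h y
    | succ N ih =>
      intro h
      apply ih
      intro y
      have h3 := hρ.repr y
      rw [← h3, sum_pow_char_pow]
      refine S.sum_mem fun j _ => ?_
      rw [mul_pow, ← pow_mul, ← pow_succ']
      refine S.mul_mem (h _) (pow_mem ?_ _)
      unfold monY
      exact S.prod_mem fun i _ => pow_mem hxS _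
  obtain ⟨N, hN⟩ := hN
  intro y _
  rw [← hS]
  exact hall N hN y

end Pool.Agent.F2W
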