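import Pool.Agent.Lib.MP_305fdd_al.F2.W.Stm

set_option autoImplicit false

namespace Pool.Agent.F2W

open Pool.Agent.F2Ch Polynomial

private theorem l9_mon {p : ℕ} {M : Type} [Field M] (y : Fin 1 → M) (j : Fin 1 → Fin p) :
    monY (p := p) y j = y 0 ^ (j 0 : ℕ) := by
  unfold monY
  rw [Fin.prod_univ_one]

private theorem l9_one {M : Type} [Field M] {v : M → ℤ} (hv : IsV v) : v 1 = 0 := by
  have h := hv.mul 1 1 one_ne_zero one_ne_zero
  rw [mul_one] at h
  omega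

private theorem l9_pow {M : Type} [Field M] {v : M → ℤ} (hv : IsV v) {u : M} (hu : u ≠ 0)
    (hu1 : v u = 1) (n : ℕ) : v (u ^ n) = n := by
  induction n with
  | zero =>
    rw [pow_zero, l9_one hv]
    rfl
  | succ n ih =>
    rw [pow_succ, hv.mul _ _ (pow_ne_zero n hu) hu, ih, hu1]
    push_cast
    ring

theorem p_L9 : S_L9 := by
  intro p hp M _ v hv hex y ρ hρ
  obtain ⟨u, hu, hu1⟩ := hex
  have hp0 : p ≠ 0 := hp.out.ne_zero
  have hρ0 : ∀ j, ρ j 0 = 0 := by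
    intro j
    have h := hρ.uniq (fun _ => 0) j
    rw [Finset.sum_eq_zero fun i _ => by rw [zero_pow hp0, zero_mul]] at h
    exact h
  have hy : y 0 ≠ 0 := by
    intro hy
    have h := hρ.uniq (Pi.single (fun _ => ⟨1, hp.out.one_lt⟩) 1) (fun _ => ⟨1, hp.out.one_lt⟩)
    rw [Pi.single_eq_same, Finset.sum_eq_zero, hρ0] at h
    · exact zero_ne_one h
    · intro j _
      by_cases hj : j = fun _ => ⟨1, hp.out.one_lt⟩
      · rw [hj, l9_mon, hy]
        simp
      · rw [Pi.single_eq_of_ne hj, zero_pow hp0, zero_mul]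
  set N : ℕ := (v (y 0)).natAbs + 1 with hN
  have hval : v (y 0 * u ^ (p * N)) = v (y 0) + p * N := by
    rw [hv.mul _ _ hy (pow_ne_zero _ hu), l9_pow hv hu hu1]
    push_cast
    ring
  refine ⟨y 0 * u ^ (p * N), fun j f => (u ^ (N * (j 0 : ℕ)))⁻¹ * ρ j f,
    mul_ne_zero hy (pow_ne_zero _ hu), ?_, ?_, ?_⟩
  · rw [hval]
    have h1 : (N : ℤ) ≤ p * N := by
      have h2 : (1 : ℤ) ≤ p := by exact_mod_cast hp.out.one_le
      nlinarith [Int.natCast_nonneg N]
    have h3 : (N : ℤ) = |v (y 0)| + 1 := by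
      rw [hN]
      push_cast
      rfl
    have h4 := neg_abs_le (v (y 0))
    linarith
  · intro f
    refine Eq.trans (Finset.sum_congr rfl fun j _ => ?_) (hρ.repr f)
    rw [l9_mon, l9_mon]
    have h1 : u ^ (N * (j 0 : ℕ)) ≠ 0 := pow_ne_zero _ hu
    have h2 : (u ^ (p * N)) ^ (j 0 : ℕ) = (u ^ (N * (j 0 : ℕ))) ^ p := by
      rw [← pow_mul, ← pow_mul]
      congr 1
      ring
    rw [mul_pow, mul_pow, h2, inv_pow]
    field_simp
  · intro a i
    have h1 : ∑ j, a j ^ p * monY (p := p) (fun _ : Fin 1 => y 0 * u ^ (p * N)) j =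
        ∑ j, (a j * u ^ (N * (j 0 : ℕ))) ^ p * monY (p := p) y j := by
      refine Finset.sum_congr rfl fun j _ => ?_
      rw [l9_mon, l9_mon]
      have h2 : (u ^ (p * N)) ^ (j 0 : ℕ) = (u ^ (N * (j 0 : ℕ))) ^ p := by
        rw [← pow_mul, ← pow_mul]
        congr 1
        ring
      rw [mul_pow, mul_pow, h2]
      ring
    have h3 := hρ.uniq (fun j => a j * u ^ (N * (j 0 : ℕ))) i
    rw [h1, h3]
    have h4 : u ^ (N * (i 0 : ℕ)) ≠ 0 := pow_ne_zero _ hu
    field_simp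

end Pool.Agent.F2W
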