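import Pool.Agent.Lib.MP_305fdd_al.F2.W.Stm2

set_option autoImplicit false

namespace Pool.Agent.F2W

open Pool.Agent.F2Ch Polynomial Pool.Agent.F2 Pool.Agent.F2RF

section
variable {k K Γ : Type} [Field k] [Field K] [Algebra k K] [AddCommGroup Γ] [LinearOrder Γ]
  [IsOrderedAddMonoid Γ] {v : K → Γ}

theorem z1_ge_add (hv : IsV v) {x y : K} (hx : Ge v 0 x) (hy : Ge v 0 y) : Ge v 0 (x + y) := by
  by_cases hxy : x + y = 0
  · exact Or.inl hxy
  by_cases hx0 : x = 0
  · subst hx0
    simpa using hy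
  by_cases hy0 : y = 0
  · subst hy0
    simpa using hx
  have h1 : 0 ≤ v x := hx.resolve_left hx0
  have h2 : 0 ≤ v y := hy.resolve_left hy0
  exact Or.inr ((le_min h1 h2).trans (hv.add x y hx0 hy0 hxy))

theorem z1_ge_mul (hv : IsV v) {x y : K} (hx : Ge v 0 x) (hy : Ge v 0 y) : Ge v 0 (x * y) := by
  by_cases hx0 : x = 0
  · exact Or.inl (by rw [hx0, zero_mul])
  by_cases hy0 : y = 0
  · exact Or.inl (by rw [hy0, mul_zero])
  have h1 : 0 ≤ v x := hx.resolve_left hx0
  have h2 : 0 ≤ v y := hy.resolve_left hy0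
  exact Or.inr (by rw [hv.mul x y hx0 hy0]; exact add_nonneg h1 h2)

theorem z1_gt_mul (hv : IsV v) {x y : K} (hx : Gt v 0 x) (hy : Ge v 0 y) : Gt v 0 (x * y) := by
  by_cases hx0 : x = 0
  · exact Or.inl (by rw [hx0, zero_mul])
  by_cases hy0 : y = 0
  · exact Or.inl (by rw [hy0, mul_zero])
  have h1 : 0 < v x := hx.resolve_left hx0
  have h2 : 0 ≤ v y := hy.resolve_left hy0
  exact Or.inr (by rw [hv.mul x y hx0 hy0]; exact add_pos_of_pos_of_nonneg h1 h2)

theorem z1_ge_aeval (hv : IsV v) (htriv : Triv k v) {t : K} (ht : Ge v 0 t) (P : k[X]) :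
    Ge v 0 (aeval t P) := by
  induction P using Polynomial.induction_on with
  | C a => exact Or.inr (by rw [aeval_C, htriv])
  | add f g hf hg =>
    rw [map_add]
    exact z1_ge_add hv hf hg
  | monomial n a h =>
    rw [pow_succ, ← mul_assoc, map_mul, aeval_X]
    exact z1_ge_mul hv h ht

theorem z1_pow (hv : IsV v) {x : K} (hx : x ≠ 0) (n : ℕ) : v (x ^ n) = n • v x := by
  induction n with
  | zero =>
    have h1 := hv.mul 1 1 one_ne_zero one_ne_zero
    rw [mul_one] at h1
    have h2 : v 1 = 0 := by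
      have := h1
      rwa [eq_comm, add_eq_left] at this
    rw [pow_zero, zero_nsmul, h2]
  | succ n ih =>
    rw [pow_succ, hv.mul _ _ (pow_ne_zero n hx) hx, ih, succ_nsmul]

theorem z1_ct {p : ℕ} [hp : Fact p.Prime] {B : Subalgebra k K} {res : B →ₐ[k] Lau k} {φ : K → K}
    (hF : Fra p k B res φ) (hv : IsV v) (htriv : Triv k v) (hc : Compat p φ v) (f : B)
    (hf : Gt v 0 (f : K)) : ct (res f) = 0 := by
  have hφ0 : φ 0 = 0 := by
    have := hF.pinv.add 0 0
    rw [add_zero] at this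
    exact (add_eq_left (a := φ 0)).mp this.symm
  have hφ : ∀ g, Gt v 0 g → Gt v 0 (φ g) := by
    intro g hg
    by_cases hg0 : g = 0
    · exact Or.inl (by rw [hg0, hφ0])
    by_cases hφg : φ g = 0
    · exact Or.inl hφg
    · have h1 : 0 < v g := hg.resolve_left hg0
      have h2 := hc g hφg
      refine Or.inr (lt_of_not_ge fun h3 => ?_)
      exact absurd (h1.trans_le h2) (not_lt.mpr (nsmul_nonpos h3 p))
  have hit : ∀ N, Gt v 0 (φ^[N] (f : K)) := by
    intro N
    induction N with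
    | zero => exact hf
    | succ N ih =>
      rw [Function.iterate_succ_apply']
      exact hφ _ ih
  obtain ⟨N, hN⟩ := hF.tau f
  have h1 := hN N le_rfl
  have hpN : p ^ N ≠ 0 := pow_ne_zero _ hp.out.ne_zero
  rcases hit N with h0 | hpos
  · rw [h0, zero_pow hpN] at h1
    exact (map_eq_zero_iff _ (algebraMap k K).injective).mp h1.symm
  · have hne : φ^[N] (f : K) ≠ 0 := by
      intro h0
      rw [h0, hv.zero] at hpos
      exact lt_irrefl _ hpos
    have h2 := z1_pow hv hne (p ^ N)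
    rw [h1, htriv] at h2
    have h3 : 0 < (p ^ N) • v (φ^[N] (f : K)) := nsmul_pos hpos hpN
    rw [← h2] at h3
    exact absurd h3 (lt_irrefl _)

end

/-- [F2W Z1] -/
theorem p_Z1 (hZ0 : S_Z0) : S_Z1 := by
  intro p hp hp2 k K Γ _ _ _ _ _ _ _ B res φ hF v hv htriv hcomp t c hc hres ht P hP
  have h2 : (2 : k) ≠ 0 := by
    intro h
    have h1 : ((2 : ℕ) : k) = 0 := by exact_mod_cast h
    rw [CharP.cast_eq_zero_iff k p] at h1
    exact hp2 ((Nat.prime_dvd_prime_iff_eq hp.out Nat.prime_two).mp h1)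
  by_contra hcon
  have hge := z1_ge_aeval hv htriv ht P
  have hgt : Gt v 0 (aeval (t : K) P) := by
    by_cases h0 : aeval (t : K) P = 0
    · exact Or.inl h0
    · right
      have h1 : 0 ≤ v (aeval (t : K) P) := hge.resolve_left h0
      refine lt_of_le_of_ne h1 fun h => hcon ⟨h0, h.symm⟩
  obtain ⟨Q, hQ⟩ := hZ0 k h2 c hc P hP
  have h3 : Gt v 0 ((aeval t (P * Q) : B) : K) := by
    have h4 : ((aeval t (P * Q) : B) : K) = aeval (t : K) P * aeval (t : K) Q := by
      rw [← map_mul]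
      exact (Polynomial.aeval_algHom_apply B.val t (P * Q)).symm
    rw [h4]
    exact z1_gt_mul hv hgt (z1_ge_aeval hv htriv ht Q)
  have h5 := z1_ct hF hv htriv hcomp _ h3
  rw [← Polynomial.aeval_algHom_apply, hres] at h5
  exact hQ h5

end Pool.Agent.F2W
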