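import Pool.Agent.Lib.MP_305fdd_al.F2.W.Stm4
import Pool.Agent.Lib.MP_305fdd_al.F2.W.Z1

/-!
# MP_305fdd_al, F_2, section W: a compatible valuation which is nonnegative on `B` is `ord_R`
-/

set_option autoImplicit false

namespace Pool.Agent.F2W

open Pool.Agent.F2Ch Polynomial Pool.Agent.F2 Pool.Agent.F2RF

section
variable {K Γ : Type} [Field K] [AddCommGroup Γ] [LinearOrder Γ]
  [IsOrderedAddMonoid Γ] {v : K → Γ}

private theorem o1_one (hv : IsV v) : v 1 = 0 := by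
  have h1 := hv.mul 1 1 one_ne_zero one_ne_zero
  rw [mul_one] at h1
  exact (add_eq_left.1 h1.symm)

private theorem o1_zpow (hv : IsV v) {x : K} (hx : x ≠ 0) (n : ℤ) : v (x ^ n) = n • v x := by
  have hpow : ∀ m : ℕ, v (x ^ m) = m • v x := by
    intro m
    induction m with
    | zero => rw [pow_zero, zero_nsmul, o1_one hv]
    | succ m ih => rw [pow_succ, hv.mul _ _ (pow_ne_zero m hx) hx, ih, succ_nsmul]
  obtain ⟨k, rfl | rfl⟩ := n.eq_nat_or_neg
  · rw [zpow_natCast, natCast_zsmul, hpow]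
  · have h1 : x ^ (-(k : ℤ)) * x ^ k = 1 := by
      rw [zpow_neg, zpow_natCast, inv_mul_cancel₀ (pow_ne_zero _ hx)]
    have h2 := hv.mul (x ^ (-(k : ℤ))) (x ^ k) (zpow_ne_zero _ hx) (pow_ne_zero _ hx)
    rw [h1, o1_one hv, hpow] at h2
    rw [neg_zsmul, natCast_zsmul]
    exact eq_neg_of_add_eq_zero_left h2.symm

end

/-- [F2W O1] -/
theorem p_O1 (hZ5 : S_Z5) : S_O1 := by
  intro p hp hp2 k K Γ _ _ _ _ _ _ _ B res φ hF hsy hee κ0 hκ hord v hv htriv hcomp hne hge
  have h2 : (2 : k) ≠ 0 := by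
    intro h
    have h1 : ((2 : ℕ) : k) = 0 := by exact_mod_cast h
    rw [CharP.cast_eq_zero_iff k p] at h1
    exact hp2 ((Nat.prime_dvd_prime_iff_eq hp.out Nat.prime_two).mp h1)
  -- elements of positive value restrict to zero
  have hA : ∀ f : B, Gt v 0 (f : K) → res f = 0 := by
    intro f hf
    by_contra hres
    obtain ⟨m, hm⟩ := hZ5 k h2 (res f) (hsy f) hres
    obtain ⟨g, hg⟩ := hee m
    apply hm
    rw [← hg, ← map_mul]
    refine z1_ct hF hv htriv hcomp (f * g) ?_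
    have := z1_gt_mul hv hf (hge g)
    exact this
  have hB : ∀ a : B, res a ≠ 0 → (a : K) ≠ 0 ∧ v (a : K) = 0 := by
    intro a ha
    have ha0 : (a : K) ≠ 0 := by
      intro h
      apply ha
      have : a = 0 := Subtype.ext h
      rw [this, map_zero]
    refine ⟨ha0, ?_⟩
    have h3 : 0 ≤ v (a : K) := (hge a).resolve_left ha0
    refine le_antisymm ?_ h3
    refine le_of_not_gt fun h4 => ha (hA a (Or.inr h4))
  have hval : ∀ (f : K) (n : ℤ) (a b : B), f ≠ 0 → res a ≠ 0 → res b ≠ 0 → (κ0 : K) ≠ 0 →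
      f * b = (κ0 : K) ^ n * a → v f = n • v κ0 := by
    intro f n a b hf ha hb hκ0 h
    obtain ⟨ha0, hva⟩ := hB a ha
    obtain ⟨hb0, hvb⟩ := hB b hb
    have h3 := congrArg v h
    rw [hv.mul _ _ hf hb0, hv.mul _ _ (zpow_ne_zero n hκ0) ha0, hva, hvb, o1_zpow hv hκ0, add_zero,
      add_zero] at h3
    exact h3
  -- there is an element of `B` of positive value
  obtain ⟨g, hg⟩ : ∃ g : B, 0 < v (g : K) := by
    obtain ⟨f, hf⟩ := hne
    have hf0 : f ≠ 0 := by
      rintro rfl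
      exact hf hv.zero
    obtain ⟨a, b, hb0, hab⟩ := hF.gen f
    have ha0 : (a : K) ≠ 0 := by
      rw [← hab]
      exact mul_ne_zero hf0 hb0
    have h3 := congrArg v hab
    rw [hv.mul _ _ hf0 hb0] at h3
    have h4 : 0 ≤ v (a : K) := (hge a).resolve_left ha0
    have h5 : 0 ≤ v (b : K) := (hge b).resolve_left hb0
    rcases h4.lt_or_eq with h6 | h6
    · exact ⟨a, h6⟩
    · rcases h5.lt_or_eq with h7 | h7
      · exact ⟨b, h7⟩
      · rw [← h6, ← h7, add_zero] at h3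
        exact absurd h3 hf
  have hg0 : (g : K) ≠ 0 := by
    intro h
    rw [h, hv.zero] at hg
    exact lt_irrefl _ hg
  obtain ⟨n, a, b, ha, hb, hab⟩ := hord g hg0
  obtain ⟨ha0, hva⟩ := hB a ha
  obtain ⟨hb0, hvb⟩ := hB b hb
  have hn : n ≠ 0 := by
    rintro rfl
    rw [zpow_zero, one_mul] at hab
    have h3 := congrArg v hab
    rw [hv.mul _ _ hg0 hb0, hva, hvb, add_zero] at h3
    rw [h3] at hg
    exact lt_irrefl _ hg
  have hκ0 : (κ0 : K) ≠ 0 := by
    intro h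
    rw [h, zero_zpow n hn, zero_mul] at hab
    exact mul_ne_zero hg0 hb0 hab
  have hpos : 0 < v (κ0 : K) := by
    have h3 : 0 ≤ v (κ0 : K) := (hge κ0).resolve_left hκ0
    refine lt_of_le_of_ne h3 fun h4 => ?_
    have h5 := hval g n a b hg0 ha hb hκ0 hab
    rw [← h4, smul_zero] at h5
    rw [h5] at hg
    exact lt_irrefl _ hg
  exact ⟨hpos, fun f m a' b' hf ha' hb' h => hval f m a' b' hf ha' hb' hκ0 h⟩

end Pool.Agent.F2W
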