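import Pool.Agent.Lib.MP_305fdd_al.F2.W.Stm4
import Pool.Agent.Lib.MP_305fdd_al.F2.W.Z1

/-!
# MP_305fdd_al, F_2, section W: piece O2
-/

set_option autoImplicit false

namespace Pool.Agent.F2W

open Pool.Agent.F2Ch Polynomial Pool.Agent.F2 Pool.Agent.F2RF

private theorem o2_sq (k : Type) [Field k] (c : ℤ × ℤ) :
    ee k c * ee k c = AddMonoidAlgebra.single (c + c) 1 + AddMonoidAlgebra.single (-(c + c)) 1 +
      AddMonoidAlgebra.single 0 2 := by
  have h2 : (AddMonoidAlgebra.single (0 : ℤ × ℤ) (2 : k)) =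
      AddMonoidAlgebra.single 0 1 + AddMonoidAlgebra.single 0 1 := by
    rw [← AddMonoidAlgebra.single_add, one_add_one_eq_two]
  unfold ee
  rw [mul_add, add_mul, add_mul, AddMonoidAlgebra.single_mul_single,
    AddMonoidAlgebra.single_mul_single, AddMonoidAlgebra.single_mul_single,
    AddMonoidAlgebra.single_mul_single, one_mul, neg_add_cancel, add_neg_cancel, h2, neg_add]
  abel

private theorem o2_ct (k : Type) [Field k] (h2 : (2 : k) ≠ 0) (c : ℤ × ℤ) :
    ct (ee k c * ee k c) ≠ 0 := by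
  rw [o2_sq]
  unfold ct
  by_cases hc : c = 0
  · subst hc
    have h4 : (1 : k) + 1 + 2 = 2 * 2 := by norm_num
    simp only [AddMonoidAlgebra.coeff_add, Finsupp.coe_add, Pi.add_apply,
      AddMonoidAlgebra.coeff_single, add_zero, neg_zero, Finsupp.single_eq_same]
    rw [h4]
    exact mul_ne_zero h2 h2
  · have h3 : c + c ≠ 0 := by
      intro h
      apply hc
      have h5 : c.1 + c.1 = 0 := congrArg Prod.fst h
      have h6 : c.2 + c.2 = 0 := congrArg Prod.snd h
      exact Prod.ext (show c.1 = 0 by omega) (show c.2 = 0 by omega)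
    have h4 : -(c + c) ≠ 0 := neg_ne_zero.2 h3
    simp only [AddMonoidAlgebra.coeff_add, Finsupp.coe_add, Pi.add_apply,
      AddMonoidAlgebra.coeff_single, Finsupp.single_eq_same]
    rw [Finsupp.single_eq_of_ne h3.symm, Finsupp.single_eq_of_ne h4.symm, zero_add, zero_add]
    exact h2

/-- [F2W O2] -/
theorem p_O2 : S_O2 := by
  intro p hp hp2 k K Γ _ _ _ _ _ _ _ B res φ hF v hv htriv hcomp
  have h2 : (2 : k) ≠ 0 := by
    intro h
    have h1 : ((2 : ℕ) : k) = 0 := by exact_mod_cast h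
    rw [CharP.cast_eq_zero_iff k p] at h1
    exact hp2 ((Nat.prime_dvd_prime_iff_eq hp.out Nat.prime_two).mp h1)
  refine ⟨fun f hf => z1_ct hF hv htriv hcomp f hf, fun t c ht => ?_⟩
  have h3 : ct (res (t * t)) ≠ 0 := by
    rw [map_mul, ht]
    exact o2_ct k h2 c
  have key : ¬ Gt v 0 (t : K) := by
    intro h
    have hge : Ge v 0 (t : K) := h.imp id le_of_lt
    exact h3 (z1_ct hF hv htriv hcomp (t * t) (z1_gt_mul hv h hge))
  refine ⟨fun h => key (Or.inl h), ?_⟩
  by_contra h
  exact key (Or.inr (not_le.1 h))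

end Pool.Agent.F2W
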