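import Pool.Agent.Lib.MP_305fdd_al.F2.W.Stm3

/-!
# MP_305fdd_al, F_2, section W: piece Q
-/

set_option autoImplicit false

namespace Pool.Agent.F2W

open Pool.Agent.F2Ch Polynomial Pool.Agent.F2 Pool.Agent.F2RF

section

variable {κ : Type} [Field κ] {v : κ → ℤ}

private theorem q_one (hv : IsV v) : v 1 = 0 := by
  have := hv.mul 1 1 one_ne_zero one_ne_zero
  rw [mul_one] at this
  linarith

private theorem q_neg (hv : IsV v) (x : κ) : v (-x) = v x := by
  by_cases hx : x = 0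
  · rw [hx, neg_zero]
  · have h1 := hv.mul (-1) (-1) (neg_ne_zero.2 one_ne_zero) (neg_ne_zero.2 one_ne_zero)
    rw [neg_mul_neg, mul_one, q_one hv] at h1
    have h2 := hv.mul (-1) x (neg_ne_zero.2 one_ne_zero) hx
    rw [neg_one_mul] at h2
    linarith

private theorem q_strict (hv : IsV v) (x y : κ) (hx : x ≠ 0) (h : y = 0 ∨ v x < v y) :
    x + y ≠ 0 ∧ v (x + y) = v x := by
  rcases h with rfl | h
  · rw [add_zero]
    exact ⟨hx, rfl⟩
  · by_cases hy : y = 0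
    · rw [hy, add_zero]
      exact ⟨hx, rfl⟩
    · have h0 : x + y ≠ 0 := by
        intro h0
        have h1 : y = -x := by
          rw [← add_eq_zero_iff_eq_neg, add_comm]
          exact h0
        rw [h1, q_neg hv] at h
        exact lt_irrefl _ h
      refine ⟨h0, ?_⟩
      have h1 := hv.add x y hx hy h0
      rw [min_eq_left h.le] at h1
      apply le_antisymm _ h1
      by_contra hcon
      push Not at hcon
      have h2 := hv.add (x + y) (-y) h0 (neg_ne_zero.2 hy) (by rw [add_neg_cancel_right]; exact hx)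
      rw [add_neg_cancel_right, q_neg hv] at h2
      have h3 : v x < min (v (x + y)) (v y) := lt_min hcon h
      exact absurd h2 (not_le.2 h3)

private theorem q_ge_add (hv : IsV v) (x y : κ) (hx : Ge v 0 x) (hy : Ge v 0 y) : Ge v 0 (x + y) := by
  rcases hx with rfl | hx
  · rw [zero_add]; exact hy
  rcases hy with rfl | hy
  · rw [add_zero]; exact Or.inr hx
  by_cases hx0 : x = 0
  · rw [hx0, zero_add]; exact Or.inr hy
  by_cases hy0 : y = 0
  · rw [hy0, add_zero]; exact Or.inr hx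
  by_cases h0 : x + y = 0
  · exact Or.inl h0
  · exact Or.inr ((le_min hx hy).trans (hv.add x y hx0 hy0 h0))

private theorem q_ge_mul (hv : IsV v) (x y : κ) (hx : Ge v 0 x) (hy : Ge v 0 y) : Ge v 0 (x * y) := by
  by_cases hx0 : x = 0
  · left; rw [hx0, zero_mul]
  by_cases hy0 : y = 0
  · left; rw [hy0, mul_zero]
  right
  rw [hv.mul x y hx0 hy0]
  have h1 := hx.resolve_left hx0
  have h2 := hy.resolve_left hy0
  linarith

end

private theorem q_es (k : Type) [Field k] (c : ℤ × ℤ) (n : ℤ) :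
    es k ((n + 2) • c) = es k c * es k ((n + 1) • c) - es k (n • c) := by
  apply Subtype.ext
  simp only [es, Subalgebra.coe_mul, AddSubgroupClass.coe_sub, ee]
  have e1 : (AddMonoidAlgebra.single c 1 * AddMonoidAlgebra.single ((n + 1) • c) 1 : Lau k) =
      AddMonoidAlgebra.single ((n + 2) • c) 1 := by
    rw [AddMonoidAlgebra.single_mul_single, one_mul]
    congr 1
    module
  have e2 : (AddMonoidAlgebra.single (-c) 1 * AddMonoidAlgebra.single ((n + 1) • c) 1 : Lau k) =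
      AddMonoidAlgebra.single (n • c) 1 := by
    rw [AddMonoidAlgebra.single_mul_single, one_mul]
    congr 1
    module
  have e3 : (AddMonoidAlgebra.single c 1 * AddMonoidAlgebra.single (-((n + 1) • c)) 1 : Lau k) =
      AddMonoidAlgebra.single (-(n • c)) 1 := by
    rw [AddMonoidAlgebra.single_mul_single, one_mul]
    congr 1
    module
  have e4 : (AddMonoidAlgebra.single (-c) 1 * AddMonoidAlgebra.single (-((n + 1) • c)) 1 : Lau k) =
      AddMonoidAlgebra.single (-((n + 2) • c)) 1 := by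
    rw [AddMonoidAlgebra.single_mul_single, one_mul]
    congr 1
    module
  rw [add_mul, mul_add, mul_add, e1, e2, e3, e4]
  ring

private theorem q_es0 (k : Type) [Field k] : es k 0 = 2 := by
  apply Subtype.ext
  simp only [es, ee, neg_zero]
  rw [← one_add_one_eq_two]
  rfl

/-- Chebyshev polynomials -/
private theorem q_cheb (k κ : Type) [Field k] [Field κ] [Algebra k κ] (j : Sy k →ₐ[k] κ) (c : ℤ × ℤ)
    (n : ℕ) : aeval (j (es k c)) (Chebyshev.C k n) = j (es k ((n : ℤ) • c)) := by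
  induction n using Nat.twoStepInduction with
  | zero =>
    rw [Nat.cast_zero, Chebyshev.C_zero, zero_smul, q_es0, map_ofNat, map_ofNat]
  | one =>
    rw [Nat.cast_one, Chebyshev.C_one, one_smul, aeval_X]
  | more n h1 h2 =>
    have e : ((n + 2 : ℕ) : ℤ) = (n : ℤ) + 2 := by push_cast; ring
    rw [Nat.cast_succ] at h2
    rw [e, Chebyshev.C_add_two, map_sub, map_mul, aeval_X, h1, h2, q_es, map_sub, map_mul]

/-- the value at `e a` if `x` has a pole -/
private theorem q_pole (k κ : Type) [Field k] [Field κ] [Algebra k κ] (j : Sy k →ₐ[k] κ) (c : ℤ × ℤ)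
    (v : κ → ℤ) (hv : IsV v) (h2 : v 2 = 0) (hx : v (j (es k c)) < 0) (n : ℕ) :
    (j (es k (((n + 1 : ℕ) : ℤ) • c)) ≠ 0 ∧ v (j (es k (((n + 1 : ℕ) : ℤ) • c))) =
      (n + 1) * v (j (es k c))) ∧
    (n : ℤ) * v (j (es k c)) ≤ v (j (es k ((n : ℤ) • c))) := by
  have hx0 : j (es k c) ≠ 0 := by
    intro h0
    rw [h0, hv.zero] at hx
    exact lt_irrefl _ hx
  induction n with
  | zero =>
    refine ⟨⟨?_, ?_⟩, ?_⟩
    · simpa using hx0
    · simp
    · rw [Nat.cast_zero, zero_smul, q_es0, map_ofNat, h2, zero_mul]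
  | succ n ih =>
    obtain ⟨⟨h3, h4⟩, h5⟩ := ih
    have e : (((n + 1 + 1 : ℕ) : ℤ)) = (n : ℤ) + 2 := by push_cast; ring
    have e' : (((n + 1 : ℕ) : ℤ)) = (n : ℤ) + 1 := by push_cast; ring
    have hm := hv.mul _ _ hx0 h3
    have key := q_strict hv (j (es k c) * j (es k (((n + 1 : ℕ) : ℤ) • c))) (-(j (es k ((n : ℤ) • c))))
      (mul_ne_zero hx0 h3) (Or.inr (by rw [q_neg hv, hm, h4]; nlinarith))
    have e2 : j (es k (((n + 1 + 1 : ℕ) : ℤ) • c)) =
        j (es k c) * j (es k (((n + 1 : ℕ) : ℤ) • c)) + -(j (es k ((n : ℤ) • c))) := by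
      rw [e, q_es, map_sub, map_mul, e', sub_eq_add_neg]
    refine ⟨⟨?_, ?_⟩, ?_⟩
    · rw [e2]; exact key.1
    · rw [e2, key.2, hm, h4]
      push_cast
      ring
    · rw [h4]
      push_cast
      exact le_rfl

private theorem q_main (hZ0 : S_Z0) (p : ℕ) [Fact p.Prime] (hp : p ≠ 2) (k κ : Type) [Field k]
    [CharP k p] [Field κ] [Algebra k κ] (j : Sy k →ₐ[k] κ) (hj : Function.Injective j) (v : κ → ℤ)
    (hP : Plc k v) (c : ℤ × ℤ) (n : ℕ) (hc : ((n + 1 : ℕ) : ℤ) • c ≠ 0)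
    (h : ∀ P : k[X], P ≠ 0 → v (aeval (j (es k (((n + 1 : ℕ) : ℤ) • c))) P) = 0) :
    ∀ P : k[X], P ≠ 0 → v (aeval (j (es k c)) P) = 0 := by
  have hv := hP.isv
  have h2k : (2 : k) ≠ 0 := by
    have : ((2 : ℕ) : k) ≠ 0 := by
      intro h0
      rw [CharP.cast_eq_zero_iff k p] at h0
      exact hp ((Nat.prime_dvd_prime_iff_eq Fact.out Nat.prime_two).1 h0)
    exact_mod_cast this
  have h2 : v 2 = 0 := by
    have := hP.triv 2
    rwa [map_ofNat] at this
  have htr : ∀ c : ℤ × ℤ, c ≠ 0 → ∀ P : k[X], P ≠ 0 → aeval (j (es k c)) P ≠ 0 := by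
    intro c hc P hP h0
    obtain ⟨Q, hQ⟩ := hZ0 k h2k c hc P hP
    apply hQ
    rw [aeval_algHom_apply] at h0
    have h1 : aeval (es k c) P = 0 := hj (by rw [h0, map_zero])
    have h3 : aeval (ee k c) P = 0 := by
      have h4 := congrArg (Sy k).val h1
      rw [← aeval_algHom_apply, map_zero] at h4
      exact h4
    rw [map_mul, h3, zero_mul]
    rfl
  have hc0 : c ≠ 0 := by
    intro h0
    rw [h0, smul_zero] at hc
    exact hc rfl
  have hx : Ge v 0 (j (es k c)) := by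
    by_contra hcon
    have h3 : v (j (es k c)) < 0 := by
      by_contra h4
      exact hcon (Or.inr (not_lt.1 h4))
    have h5 := (q_pole k κ j c v hv h2 h3 n).1.2
    have h6 := h X X_ne_zero
    rw [aeval_X] at h6
    rw [h6] at h5
    have : (0 : ℤ) < n + 1 := by positivity
    nlinarith
  have hge : ∀ P : k[X], Ge v 0 (aeval (j (es k c)) P) := by
    intro P
    induction P using Polynomial.induction_on with
    | C a => rw [aeval_C]; right; rw [hP.triv]
    | add p q hp hq => rw [map_add]; exact q_ge_add hv _ _ hp hq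
    | monomial m a ih =>
      rw [pow_succ, ← mul_assoc, map_mul, aeval_X]
      exact q_ge_mul hv _ _ ih hx
  intro P hP0
  have hfin : Module.Finite k (AdjoinRoot P) := (AdjoinRoot.powerBasis hP0).finite
  obtain ⟨Q, hQm, hQ⟩ := Algebra.IsIntegral.isIntegral (R := k) (AdjoinRoot.mk P (Chebyshev.C k (n + 1 : ℕ)))
  rw [← aeval_def] at hQ
  have hdvd : P ∣ Q.comp (Chebyshev.C k (n + 1 : ℕ)) := by
    rw [← AdjoinRoot.mk_eq_zero, ← hQ]
    have e1 : (AdjoinRoot.mk P) (Chebyshev.C k (n + 1 : ℕ)) =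
        AdjoinRoot.mkₐ P (Chebyshev.C k (n + 1 : ℕ)) := rfl
    rw [e1, aeval_algHom_apply, Polynomial.comp_eq_aeval]
    rfl
  obtain ⟨S, hS⟩ := hdvd
  have e2 : aeval (j (es k (((n + 1 : ℕ) : ℤ) • c))) Q = aeval (j (es k c)) P * aeval (j (es k c)) S := by
    rw [← map_mul, ← hS, aeval_comp, q_cheb]
  have hQ0 := h Q hQm.ne_zero
  have hQne := htr _ hc Q hQm.ne_zero
  rw [e2] at hQ0 hQne
  have n1 := left_ne_zero_of_mul hQne
  have n2 := right_ne_zero_of_mul hQne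
  rw [hv.mul _ _ n1 n2] at hQ0
  have g1 := (hge P).resolve_left n1
  have g2 := (hge S).resolve_left n2
  linarith

/-- [F2W Q] -/
theorem p_Q (hQ1 : S_Q1) (hQ2 : S_Q2) (hZ0 : S_Z0) : S_Q := by
  intro p _ hp k κ _ _ _ _ _ j φ hT v₁ v₂ hP1 hC1 hP2 hC2 a ha h1 h2
  -- the basis
  obtain ⟨n, hn⟩ : ∃ n : ℕ, ((n + 1 : ℕ) : ℤ) = (Int.gcd a.1 a.2 : ℤ) := by
    have h0 : Int.gcd a.1 a.2 ≠ 0 := by
      intro h0
      rw [Int.gcd_eq_zero_iff] at h0
      exact ha (Prod.ext h0.1 h0.2)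
    exact ⟨Int.gcd a.1 a.2 - 1, by omega⟩
  obtain ⟨α, hα⟩ : (Int.gcd a.1 a.2 : ℤ) ∣ a.1 := Int.gcd_dvd_left ..
  obtain ⟨β, hβ⟩ : (Int.gcd a.1 a.2 : ℤ) ∣ a.2 := Int.gcd_dvd_right ..
  have hbez := Int.gcd_eq_gcd_ab a.1 a.2
  obtain ⟨s, hs⟩ : ∃ s, s = Int.gcdA a.1 a.2 := ⟨_, rfl⟩
  obtain ⟨t, ht⟩ : ∃ t, t = Int.gcdB a.1 a.2 := ⟨_, rfl⟩
  have hg0 : (Int.gcd a.1 a.2 : ℤ) ≠ 0 := by rw [← hn]; positivity
  have hdet : α * s + β * t = 1 := by
    rw [← hs, ← ht] at hbez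
    have : (Int.gcd a.1 a.2 : ℤ) * (α * s + β * t) = (Int.gcd a.1 a.2 : ℤ) * 1 := by
      rw [mul_one]
      calc (Int.gcd a.1 a.2 : ℤ) * (α * s + β * t) =
          ((Int.gcd a.1 a.2 : ℤ) * α) * s + ((Int.gcd a.1 a.2 : ℤ) * β) * t := by ring
        _ = (Int.gcd a.1 a.2 : ℤ) := by rw [← hα, ← hβ]; exact hbez.symm
    exact mul_left_cancel₀ hg0 this
  have hbas : ∀ c : ℤ × ℤ, ∃ m : ℤ × ℤ, c = m.1 • (α, β) + m.2 • (-t, s) := by
    intro c
    refine ⟨(c.1 * s + c.2 * t, α * c.2 - β * c.1), ?_⟩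
    ext
    · simp only [Prod.fst_add, Prod.smul_fst, smul_eq_mul]
      linear_combination -c.1 * hdet
    · simp only [Prod.snd_add, Prod.smul_snd, smul_eq_mul]
      linear_combination -c.2 * hdet
  have hae : a = ((n + 1 : ℕ) : ℤ) • ((α, β) : ℤ × ℤ) := by
    rw [hn]
    exact Prod.ext hα hβ
  rw [hae] at h1 h2 ha
  have g1 := q_main hZ0 p hp k κ j hT.inj v₁ hP1 (α, β) n ha h1
  have g2 := q_main hZ0 p hp k κ j hT.inj v₂ hP2 (α, β) n ha h2
  have p1 := hQ1 p hp k κ j φ hT v₁ hP1 hC1 (α, β) (-t, s) hbas g1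
  have p2 := hQ1 p hp k κ j φ hT v₂ hP2 hC2 (α, β) (-t, s) hbas g2
  obtain ⟨d, hd⟩ := hQ2 p hp k κ j (α, β) (-t, s) hbas hT.inj
  obtain ⟨m1, d1⟩ := hd v₁ hP1.isv hP1.triv g1 p1
  obtain ⟨m2, d2⟩ := hd v₂ hP2.isv hP2.triv g2 p2
  have key : ∀ f : κ, ∃ D : ℤ, v₁ f = D * v₁ (j (es k (-t, s))) ∧ v₂ f = D * v₂ (j (es k (-t, s))) := by
    intro f
    by_cases hf : f = 0
    · exact ⟨0, by rw [hf, hP1.isv.zero, zero_mul], by rw [hf, hP2.isv.zero, zero_mul]⟩
    · obtain ⟨x, y, hy, hxy⟩ := hT.gen f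
      have hx : j x ≠ 0 := by rw [← hxy]; exact mul_ne_zero hf hy
      have hx' : x ≠ 0 := by rintro rfl; exact hx (map_zero j)
      have hy' : y ≠ 0 := by rintro rfl; exact hy (map_zero j)
      have e1 := hP1.isv.mul f (j y) hf hy
      have e2 := hP2.isv.mul f (j y) hf hy
      rw [hxy, d1 x hx', d1 y hy'] at e1
      rw [hxy, d2 x hx', d2 y hy'] at e2
      exact ⟨d x - d y, by rw [sub_mul]; linarith, by rw [sub_mul]; linarith⟩
  have one : ∀ D m : ℤ, m < 0 → 1 = D * m → m = -1 := by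
    intro D m hm h
    have h3 : m ∣ 1 := ⟨D, by rw [mul_comm]; exact h⟩
    rcases Int.isUnit_iff.1 (isUnit_of_dvd_one h3) with h4 | h4
    · rw [h4] at hm; norm_num at hm
    · exact h4
  obtain ⟨π₁, -, hπ₁⟩ := hP1.unif
  obtain ⟨π₂, -, hπ₂⟩ := hP2.unif
  obtain ⟨D1, k1, -⟩ := key π₁
  obtain ⟨D2, -, k2⟩ := key π₂
  rw [hπ₁] at k1
  rw [hπ₂] at k2
  have u1 := one _ _ m1 k1
  have u2 := one _ _ m2 k2
  funext f
  obtain ⟨D, l1, l2⟩ := key f
  rw [l1, l2, u1, u2]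

end Pool.Agent.F2W
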