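import Pool.Agent.Lib.MP_305fdd_al.F2.W.Stm3

/-!
# MP_305fdd_al, F_2, section W: piece Q1 (helper4)
-/

set_option autoImplicit false

namespace Pool.Agent.F2W

open Pool.Agent.F2Ch Pool.Agent.F2 Pool.Agent.F2RF Polynomial

private theorem q1_ee_coeff {k : Type} [Field k] (c m : ℤ × ℤ) :
    (ee k c).coeff m = (if c = m then 1 else 0) + (if -c = m then 1 else 0) := by
  classical
  unfold ee
  rw [AddMonoidAlgebra.coeff_add, Finsupp.add_apply, AddMonoidAlgebra.coeff_single,
    AddMonoidAlgebra.coeff_single, Finsupp.single_apply, Finsupp.single_apply]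

/-- elements of `Sy` are symmetric -/
private theorem q1_sym {k : Type} [Field k] (f : Sy k) (m : ℤ × ℤ) :
    (f : Lau k).coeff (-m) = (f : Lau k).coeff m := by
  let ι : Lau k →ₐ[k] Lau k :=
    (AddMonoidAlgebra.domCongr k k (AddEquiv.neg (ℤ × ℤ))).toAlgHom
  have h1 : ∀ g : Lau k, ∀ n, (ι g).coeff n = g.coeff (-n) := by
    intro g n
    show ((AddMonoidAlgebra.domCongr k k (AddEquiv.neg (ℤ × ℤ))) g).coeff n = _
    rw [AddMonoidAlgebra.coeff_domCongr]
    rfl
  have h2 : Sy k ≤ AlgHom.equalizer ι (AlgHom.id k (Lau k)) := by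
    unfold Sy
    rw [Algebra.adjoin_le_iff]
    rintro _ ⟨c, rfl⟩
    show ι (ee k c) = ee k c
    rw [← AddMonoidAlgebra.coeff_inj]
    ext n
    rw [h1, q1_ee_coeff, q1_ee_coeff, add_comm]
    congr 1
    · congr 1
      rw [neg_inj]
    · congr 1
      exact propext neg_eq_iff_eq_neg.symm
  have h3 : ι (f : Lau k) = f := h2 f.2
  rw [← h1, h3]

/-- the expansion of a symmetric Laurent polynomial -/
private theorem q1_exp {k : Type} [Field k] (h2 : (2 : k) ≠ 0) (f : Sy k) :
    f = ∑ m ∈ (f : Lau k).coeff.support, ((f : Lau k).coeff m / 2) • es k m := by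
  classical
  apply Subtype.ext
  rw [AddSubmonoidClass.coe_finsetSum]
  rw [← AddMonoidAlgebra.coeff_inj]
  ext n
  rw [AddMonoidAlgebra.coeff_sum, Finsupp.finsetSum_apply]
  have h3 : ∀ m, (((((f : Lau k).coeff m / 2) • es k m : Sy k) : Lau k)).coeff n =
      (f : Lau k).coeff m / 2 * ((if m = n then 1 else 0) + (if -m = n then 1 else 0)) := by
    intro m
    show (((f : Lau k).coeff m / 2) • ee k m).coeff n = _
    rw [AddMonoidAlgebra.coeff_smul, Finsupp.smul_apply, q1_ee_coeff, smul_eq_mul]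
  simp only [h3, mul_add, mul_ite, mul_one, mul_zero, Finset.sum_add_distrib, Finset.sum_ite_eq']
  have h4 : ∀ m : ℤ × ℤ, (-m = n) = (m = -n) := fun m => propext neg_eq_iff_eq_neg
  simp only [h4, Finset.sum_ite_eq', Finsupp.mem_support_iff, q1_sym]
  split_ifs with h5
  · field_simp
    ring
  · push Not at h5
    rw [h5]
    simp

private theorem q1_sub {k : Type} [Field k] (h2 : (2 : k) ≠ 0) (P : Sy k → Prop)
    (h0 : P 0) (hadd : ∀ f g, P f → P g → P (f + g)) (hsmul : ∀ (c : k) f, P f → P (c • f))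
    (f : Sy k) (he : ∀ m, (f : Lau k).coeff m ≠ 0 → P (es k m)) : P f := by
  classical
  rw [q1_exp h2 f]
  have : ∀ S : Finset (ℤ × ℤ), S ⊆ (f : Lau k).coeff.support →
      P (∑ m ∈ S, ((f : Lau k).coeff m / 2) • es k m) := by
    intro S
    induction S using Finset.induction_on with
    | empty => intro _; rw [Finset.sum_empty]; exact h0
    | insert m S hm ih =>
      intro hS
      rw [Finset.sum_insert hm]
      exact hadd _ _ (hsmul _ _ (he m (Finsupp.mem_support_iff.1
        (hS (Finset.mem_insert_self _ _))))) (ih ((Finset.subset_insert _ _).trans hS))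
  exact this _ (Finset.Subset.refl _)

/-- `ee (n a)` is a polynomial in `ee a` -/
private theorem q1_cheb {k : Type} [Field k] (a : ℤ × ℤ) (n : ℕ) :
    ∃ P : k[X], aeval (es k a) P = es k ((n : ℤ) • a) := by
  have hmul : ∀ c d : ℤ × ℤ, ee k c * ee k d = ee k (c + d) + ee k (c - d) := by
    intro c d
    unfold ee
    rw [add_mul, mul_add, mul_add, AddMonoidAlgebra.single_mul_single,
      AddMonoidAlgebra.single_mul_single, AddMonoidAlgebra.single_mul_single,
      AddMonoidAlgebra.single_mul_single, mul_one, ← sub_eq_add_neg, neg_add_eq_sub,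
      ← neg_add, ← neg_sub c d]
    abel
  have key : ∀ n : ℕ, (∃ P : k[X], aeval (es k a) P = es k ((n : ℤ) • a)) ∧
      ∃ P : k[X], aeval (es k a) P = es k (((n + 1 : ℕ) : ℤ) • a) := by
    intro n
    induction n with
    | zero =>
      refine ⟨⟨C 2, ?_⟩, ⟨X, ?_⟩⟩
      · apply Subtype.ext
        show ((aeval (es k a) (C 2) : Sy k) : Lau k) = ee k (((0 : ℕ) : ℤ) • a)
        rw [aeval_C]
        show algebraMap k (Lau k) 2 = _
        rw [Nat.cast_zero, zero_smul]
        unfold ee
        rw [neg_zero, ← AddMonoidAlgebra.one_def, map_ofNat]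
        norm_num
      · rw [aeval_X, zero_add, Nat.cast_one, one_smul]
    | succ n ih =>
      obtain ⟨⟨P, hP⟩, ⟨Q, hQ⟩⟩ := ih
      refine ⟨⟨Q, hQ⟩, ⟨Q * X - P, ?_⟩⟩
      rw [map_sub, map_mul, aeval_X, hP, hQ]
      apply Subtype.ext
      show ee k (((n + 1 : ℕ) : ℤ) • a) * ee k a - ee k ((n : ℤ) • a) =
        ee k (((n + 1 + 1 : ℕ) : ℤ) • a)
      rw [hmul]
      have e1 : ((n + 1 : ℕ) : ℤ) • a + a = ((n + 1 + 1 : ℕ) : ℤ) • a := by
        push_cast
        rw [add_smul (((n : ℤ) + 1)) 1 a, one_smul]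
      have e2 : ((n + 1 : ℕ) : ℤ) • a - a = (n : ℤ) • a := by
        push_cast
        rw [add_smul, one_smul, add_sub_cancel_right]
      rw [e1, e2, add_sub_cancel_right]
  exact (key n).1

private theorem q1_neg {k : Type} [Field k] (c : ℤ × ℤ) : es k (-c) = es k c := by
  apply Subtype.ext
  show ee k (-c) = ee k c
  unfold ee
  rw [neg_neg, add_comm]

/-- the height function -/
private theorem q1_ht (a b : ℤ × ℤ) (hab : ∀ c : ℤ × ℤ, ∃ m : ℤ × ℤ, c = m.1 • a + m.2 • b) :
    ∃ ht : ℤ × ℤ →+ ℤ, ∀ c, ht c = 0 → ∃ n : ℤ, c = n • a := by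
  obtain ⟨m, hm⟩ := hab (1, 0)
  obtain ⟨n, hn⟩ := hab (0, 1)
  -- the determinant
  have e1 : (1 : ℤ) = m.1 * a.1 + m.2 * b.1 := congrArg Prod.fst hm
  have e2 : (0 : ℤ) = m.1 * a.2 + m.2 * b.2 := congrArg Prod.snd hm
  have e3 : (0 : ℤ) = n.1 * a.1 + n.2 * b.1 := congrArg Prod.fst hn
  have e4 : (1 : ℤ) = n.1 * a.2 + n.2 * b.2 := congrArg Prod.snd hn
  let ht : ℤ × ℤ →+ ℤ :=
    { toFun := fun c => a.1 * c.2 - a.2 * c.1
      map_zero' := by simp
      map_add' := fun c d => by
        show a.1 * (c.2 + d.2) - a.2 * (c.1 + d.1) = _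
        ring }
  refine ⟨ht, fun c hc => ?_⟩
  obtain ⟨l, hl⟩ := hab c
  have hc' : a.1 * c.2 - a.2 * c.1 = 0 := hc
  have f1 : c.1 = l.1 * a.1 + l.2 * b.1 := congrArg Prod.fst hl
  have f2 : c.2 = l.1 * a.2 + l.2 * b.2 := congrArg Prod.snd hl
  have f3 : l.2 * (a.1 * b.2 - a.2 * b.1) = 0 := by
    rw [f1, f2] at hc'
    linear_combination hc'
  have f4 : (m.1 * n.2 - m.2 * n.1) * (a.1 * b.2 - a.2 * b.1) = 1 := by
    linear_combination (-(n.1 * a.2 + n.2 * b.2)) * e1 + (n.1 * a.1 + n.2 * b.1) * e2 -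
      e4
  have f5 : l.2 = 0 := by
    rcases mul_eq_zero.1 f3 with h | h
    · exact h
    · rw [h, mul_zero] at f4
      exact absurd f4 zero_ne_one
  exact ⟨l.1, by rw [hl, f5, zero_smul, add_zero]⟩

/-- the toric map on symmetric Laurent polynomials -/
private theorem q1_phi (p : ℕ) [Fact p.Prime] (hp2 : p ≠ 2) (k κ : Type) [Field k] [CharP k p]
    [PerfectRing k p] [Field κ] [Algebra k κ] (j : Sy k →ₐ[k] κ) (φ : κ → κ)
    (hT : TorR p k j φ) (f : Sy k) :
    ∃ g : Sy k, φ (j f) = j g ∧ ∀ n, (g : Lau k).coeff n ^ p = (f : Lau k).coeff ((p : ℤ) • n) := by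
  classical
  have hp : p.Prime := Fact.out
  have h2 : (2 : k) ≠ 0 := by
    intro h
    have h3 : ((2 : ℕ) : k) = 0 := by exact_mod_cast h
    rw [CharP.cast_eq_zero_iff k p] at h3
    exact hp2 ((Nat.prime_dvd_prime_iff_eq hp Nat.prime_two).1 h3)
  have hφ0 : φ 0 = 0 := by
    have := hT.pinv.add 0 0
    rw [add_zero] at this
    exact left_eq_add.1 this
  refine q1_sub h2 (fun f => ∃ g : Sy k, φ (j f) = j g ∧
    ∀ n, (g : Lau k).coeff n ^ p = (f : Lau k).coeff ((p : ℤ) • n)) ?_ ?_ ?_ f ?_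
  · refine ⟨0, by rw [map_zero, hφ0], fun n => ?_⟩
    show (0 : k) ^ p = 0
    exact zero_pow hp.ne_zero
  · rintro f1 f2 ⟨g1, h11, h12⟩ ⟨g2, h21, h22⟩
    refine ⟨g1 + g2, by rw [map_add, hT.pinv.add, h11, h21, map_add], fun n => ?_⟩
    show ((g1 : Lau k).coeff n + (g2 : Lau k).coeff n) ^ p =
      (f1 : Lau k).coeff _ + (f2 : Lau k).coeff _
    rw [add_pow_char, h12, h22]
  · rintro c f1 ⟨g1, h11, h12⟩
    obtain ⟨d, hd⟩ := (PerfectRing.bijective_frobenius (R := k) (p := p)).2 c
    have hd' : d ^ p = c := hd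
    subst hd'
    refine ⟨d • g1, ?_, fun n => ?_⟩
    · rw [map_smul, map_smul, ← h11, Algebra.smul_def, Algebra.smul_def, map_pow,
        hT.pinv.pow_mul]
    · show (d * (g1 : Lau k).coeff n) ^ p = d ^ p * (f1 : Lau k).coeff _
      rw [mul_pow, h12]
  · intro m _
    by_cases hm : ∃ d, m = (p : ℤ) • d
    · obtain ⟨d, rfl⟩ := hm
      refine ⟨es k d, hT.tor d, fun n => ?_⟩
      show (ee k d).coeff n ^ p = (ee k ((p : ℤ) • d)).coeff ((p : ℤ) • n)
      have hpz : (p : ℤ) ≠ 0 := by exact_mod_cast hp.ne_zero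
      have hi : ∀ x y : ℤ × ℤ, ((p : ℤ) • x = (p : ℤ) • y) = (x = y) := fun x y =>
        propext (smul_right_inj hpz)
      rw [q1_ee_coeff, q1_ee_coeff, add_pow_char, ← smul_neg]
      simp only [hi]
      congr 1 <;> split_ifs <;> simp [hp.ne_zero]
    · push Not at hm
      refine ⟨0, by rw [hT.tor0 m hm, map_zero], fun n => ?_⟩
      show (0 : k) ^ p = (ee k m).coeff ((p : ℤ) • n)
      rw [q1_ee_coeff, if_neg (hm n), if_neg, add_zero, zero_pow hp.ne_zero]
      intro h
      apply hm (-n)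
      rw [smul_neg, ← h, neg_neg]

theorem p_Q1 : S_Q1 := by
  intro p _ hp2 k κ _ _ _ _ _ j φ hT v hv hC a b hab hP
  classical
  have hp : p.Prime := Fact.out
  have hp3 : 3 ≤ p := by
    have := hp.two_le
    omega
  have h2 : (2 : k) ≠ 0 := by
    intro h
    have h3 : ((2 : ℕ) : k) = 0 := by exact_mod_cast h
    rw [CharP.cast_eq_zero_iff k p] at h3
    exact hp2 ((Nat.prime_dvd_prime_iff_eq hp Nat.prime_two).1 h3)
  by_contra hcon
  push Not at hcon
  obtain ⟨ht, hht⟩ := q1_ht a b hab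
  have hj : ∀ f : Sy k, f ≠ 0 → j f ≠ 0 := fun f hf => (map_ne_zero_iff j hT.inj).2 hf
  -- the descent
  have key : ∀ d : ℕ, ∀ f : Sy k, f ≠ 0 →
      (∀ m, (f : Lau k).coeff m ≠ 0 → (ht m).natAbs ≤ d) → v (j f) ≤ 0 := by
    intro d
    induction d with
    | zero =>
      intro f hf hd
      obtain ⟨P, hPf⟩ : ∃ P : k[X], aeval (es k a) P = f := by
        refine q1_sub h2 (fun f => ∃ P : k[X], aeval (es k a) P = f) ⟨0, map_zero _⟩ ?_ ?_ f ?_
        · rintro f1 f2 ⟨P1, rfl⟩ ⟨P2, rfl⟩
          exact ⟨P1 + P2, map_add _ _ _⟩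
        · rintro c f1 ⟨P1, rfl⟩
          exact ⟨c • P1, map_smul _ _ _⟩
        · intro m hm
          have h3 : ht m = 0 := Int.natAbs_eq_zero.1 (Nat.le_zero.1 (hd m hm))
          obtain ⟨n, rfl⟩ := hht m h3
          obtain ⟨l, rfl | rfl⟩ := n.eq_nat_or_neg
          · exact q1_cheb a l
          · rw [neg_smul, q1_neg]
            exact q1_cheb a l
      have hP0 : P ≠ 0 := by
        rintro rfl
        rw [map_zero] at hPf
        exact hf hPf.symm
      have h3 := hP P hP0
      have h4 : aeval (j (es k a)) P = j f := by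
        rw [← hPf, ← aeval_algHom_apply]
      rw [h4] at h3
      exact h3.le
    | succ d ih =>
      intro f hf hd
      by_contra hpos
      push Not at hpos
      by_cases hd' : ∀ m, (f : Lau k).coeff m ≠ 0 → (ht m).natAbs ≤ d
      · exact absurd (ih f hf hd') (not_le.2 hpos)
      push Not at hd'
      obtain ⟨c, hc, -⟩ := hd'
      have hg0 : ((es k c * f : Sy k) : Lau k).coeff 0 = 2 * (f : Lau k).coeff c := by
        show (ee k c * (f : Lau k)).coeff 0 = _
        unfold ee
        rw [add_mul, AddMonoidAlgebra.coeff_add, Finsupp.add_apply,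
          AddMonoidAlgebra.coeff_single_mul_apply, AddMonoidAlgebra.coeff_single_mul_apply,
          one_mul, one_mul, neg_neg, add_zero, add_zero, q1_sym, two_mul]
      have hgd : ∀ m, ((es k c * f : Sy k) : Lau k).coeff m ≠ 0 → (ht m).natAbs ≤ 2 * (d + 1) := by
        intro m hm
        have h3 : (ee k c * (f : Lau k)).coeff m =
            (f : Lau k).coeff (-c + m) + (f : Lau k).coeff (c + m) := by
          unfold ee
          rw [add_mul, AddMonoidAlgebra.coeff_add, Finsupp.add_apply,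
            AddMonoidAlgebra.coeff_single_mul_apply, AddMonoidAlgebra.coeff_single_mul_apply,
            one_mul, one_mul, neg_neg]
        have h4 : (f : Lau k).coeff (-c + m) ≠ 0 ∨ (f : Lau k).coeff (c + m) ≠ 0 := by
          by_contra h5
          push Not at h5
          apply hm
          show (ee k c * (f : Lau k)).coeff m = 0
          rw [h3, h5.1, h5.2, add_zero]
        have h6 := hd c hc
        rcases h4 with h4 | h4
        · have h5 := hd _ h4
          rw [map_add, map_neg] at h5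
          omega
        · have h5 := hd _ h4
          rw [map_add] at h5
          omega
      have hg : es k c * f ≠ 0 := by
        intro h
        rw [h] at hg0
        have h3 : (0 : k) = 2 * (f : Lau k).coeff c := hg0
        exact mul_ne_zero h2 hc h3.symm
      obtain ⟨g', hg'1, hg'2⟩ := q1_phi p hp2 k κ j φ hT (es k c * f)
      have hg'0 : g' ≠ 0 := by
        rintro rfl
        have h3 := hg'2 0
        rw [smul_zero, hg0] at h3
        have h4 : (0 : k) ^ p = 2 * (f : Lau k).coeff c := h3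
        rw [zero_pow hp.ne_zero] at h4
        exact mul_ne_zero h2 hc h4.symm
      have hg'd : ∀ m, (g' : Lau k).coeff m ≠ 0 → (ht m).natAbs ≤ d := by
        intro m hm
        have h3 : ((es k c * f : Sy k) : Lau k).coeff ((p : ℤ) • m) ≠ 0 := by
          rw [← hg'2]
          exact pow_ne_zero _ hm
        have h4 := hgd _ h3
        rw [map_zsmul, smul_eq_mul, Int.natAbs_mul, Int.natAbs_natCast] at h4
        by_contra h5
        push Not at h5
        have h6 : 3 * (d + 1) ≤ p * (ht m).natAbs := Nat.mul_le_mul hp3 h5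
        omega
      have h3 := ih g' hg'0 hg'd
      -- values
      have h4 : v (j (es k c * f)) = v (j (es k c)) + v (j f) := by
        rw [map_mul]
        refine hv.isv.mul _ _ (fun h => hj _ hg ?_) (hj f hf)
        rw [map_mul, h, zero_mul]
      have h5 : 0 ≤ v (j (es k c)) := by
        apply hcon
        intro h
        apply hj _ hg
        rw [map_mul, h, zero_mul]
      have h6 : v (j (es k c * f)) ≤ p • v (φ (j (es k c * f))) := by
        apply hC
        rw [hg'1]
        exact hj _ hg'0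
      rw [hg'1, h4] at h6
      have h7 : p • v (j g') ≤ 0 := by
        rw [nsmul_eq_mul]
        exact mul_nonpos_of_nonneg_of_nonpos (by positivity) h3
      linarith
  have hzero : ∀ f : Sy k, f ≠ 0 → v (j f) = 0 := by
    intro f hf
    exact le_antisymm (key ((f : Lau k).coeff.support.sup fun m => (ht m).natAbs) f hf
      (fun m hm => Finset.le_sup (f := fun m => (ht m).natAbs) (Finsupp.mem_support_iff.2 hm)))
      (hcon f (hj f hf))
  obtain ⟨π, hπ, hvπ⟩ := hv.unif
  obtain ⟨x, y, hy, hxy⟩ := hT.gen π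
  have hy0 : y ≠ 0 := by
    rintro rfl
    exact hy (map_zero j)
  have hx0 : x ≠ 0 := by
    rintro rfl
    rw [map_zero] at hxy
    exact mul_ne_zero hπ hy hxy
  have h3 := hv.isv.mul π (j y) hπ hy
  rw [hxy, hzero x hx0, hzero y hy0, hvπ] at h3
  norm_num at h3

end Pool.Agent.F2W
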