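import Pool.Agent.Lib.MP_305fdd_al.F2.W.Stm3

/-! [F2W Q2]: the value at a place of the reducible locus is determined. -/

set_option autoImplicit false

namespace Pool.Agent.F2W

open Pool.Agent.F2Ch Polynomial Pool.Agent.F2 Pool.Agent.F2RF

/-! ## valuations with values in the integers -/

section val

variable {κ : Type} [Field κ] {v : κ → ℤ}

private theorem q2_one (hv : IsV v) : v 1 = 0 := by
  have := hv.mul 1 1 one_ne_zero one_ne_zero
  rw [mul_one] at this
  linarith

private theorem q2_neg1 (hv : IsV v) : v (-1) = 0 := by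
  have := hv.mul (-1) (-1) (by simp) (by simp)
  rw [neg_mul_neg, mul_one, q2_one hv] at this
  linarith

private theorem q2_neg (hv : IsV v) (f : κ) : v (-f) = v f := by
  by_cases h : f = 0
  · simp [h]
  · rw [← neg_one_mul, hv.mul _ _ (by simp) h, q2_neg1 hv, zero_add]

private theorem q2_ge_add (hv : IsV v) {c : ℤ} {f g : κ} (hf : Ge v c f) (hg : Ge v c g) :
    Ge v c (f + g) := by
  by_cases h0 : f + g = 0
  · exact Or.inl h0
  rcases hf with rfl | hf
  · rw [zero_add]
    exact hg
  rcases hg with rfl | hg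
  · rw [add_zero]
    exact Or.inr hf
  by_cases hf0 : f = 0
  · rw [hf0, zero_add]
    exact Or.inr hg
  by_cases hg0 : g = 0
  · rw [hg0, add_zero]
    exact Or.inr hf
  exact Or.inr ((le_min hf hg).trans (hv.add f g hf0 hg0 h0))

private theorem q2_ge_mul (hv : IsV v) {c d : ℤ} {f g : κ} (hf : Ge v c f) (hg : Ge v d g) :
    Ge v (c + d) (f * g) := by
  by_cases hf0 : f = 0
  · exact Or.inl (by rw [hf0, zero_mul])
  by_cases hg0 : g = 0
  · exact Or.inl (by rw [hg0, mul_zero])
  rcases hf with hf | hf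
  · exact absurd hf hf0
  rcases hg with hg | hg
  · exact absurd hg hg0
  exact Or.inr (by rw [hv.mul f g hf0 hg0]; exact add_le_add hf hg)

private theorem q2_ge_neg (hv : IsV v) {c : ℤ} {f : κ} (hf : Ge v c f) : Ge v c (-f) := by
  rcases hf with hf | hf
  · exact Or.inl (by rw [hf, neg_zero])
  · exact Or.inr (by rw [q2_neg hv]; exact hf)

private theorem q2_ge_le {c d : ℤ} {f : κ} (h : d ≤ c) (hf : Ge v c f) : Ge v d f :=
  hf.imp id fun h' => h.trans h'

private theorem q2_ge_sum (hv : IsV v) {c : ℤ} {ι : Type} (S : Finset ι) (f : ι → κ)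
    (h : ∀ i ∈ S, Ge v c (f i)) : Ge v c (∑ i ∈ S, f i) := by
  classical
  induction S using Finset.induction_on with
  | empty => exact Or.inl (by simp)
  | insert i S hi ih =>
    rw [Finset.sum_insert hi]
    exact q2_ge_add hv (h i (Finset.mem_insert_self _ _))
      (ih fun j hj => h j (Finset.mem_insert_of_mem hj))

private theorem q2_pow (hv : IsV v) {f : κ} (hf : f ≠ 0) (n : ℕ) : v (f ^ n) = n * v f := by
  induction n with
  | zero => simp [q2_one hv]
  | succ n ih =>
    rw [pow_succ, hv.mul _ _ (pow_ne_zero _ hf) hf, ih]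
    push_cast
    ring

private theorem q2_dom (hv : IsV v) {f g : κ} (hf : f ≠ 0) (hg : Ge v (v f + 1) g) :
    f + g ≠ 0 ∧ v (f + g) = v f := by
  by_cases hg0 : g = 0
  · rw [hg0, add_zero]
    exact ⟨hf, rfl⟩
  rcases hg with hg | hg
  · exact absurd hg hg0
  have h1 : f + g ≠ 0 := by
    intro h
    have h2 : g = -f := by linear_combination h
    rw [h2, q2_neg hv] at hg
    linarith
  refine ⟨h1, ?_⟩
  have h2 := hv.add f g hf hg0 h1
  have h3 := hv.add (f + g) (-g) h1 (neg_ne_zero.mpr hg0) (by simpa using hf)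
  rw [add_neg_cancel_right, q2_neg hv] at h3
  rcases min_choice (v f) (v g) with h4 | h4 <;> rcases min_choice (v (f + g)) (v g) with h5 | h5 <;>
    rw [h4] at h2 <;> rw [h5] at h3 <;> omega

end val

/-! ## an identity of polynomials -/

private theorem q2_sq {k : Type} [Field k] (h2 : (2 : k) ≠ 0) (P Q : k[X])
    (h : P ^ 2 + X * P * Q + Q ^ 2 = 0) : Q = 0 := by
  by_contra hQ
  have h4 : (4 : k) ≠ 0 := by
    have : (4 : k) = 2 * 2 := by norm_num
    rw [this]
    exact mul_ne_zero h2 h2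
  have e1 : (2 * P + X * Q) * (2 * P + X * Q) = (X - C 2) * ((X + C 2) * (Q * Q)) := by
    have e2 : (C 2 : k[X]) = 2 := rfl
    rw [e2]
    linear_combination 4 * h
  have hX1 : (X - C 2 : k[X]) ≠ 0 := X_sub_C_ne_zero 2
  have hX2 : (X + C 2 : k[X]) ≠ 0 := X_add_C_ne_zero 2
  have hne : (X - C 2) * ((X + C 2) * (Q * Q)) ≠ 0 :=
    mul_ne_zero hX1 (mul_ne_zero hX2 (mul_ne_zero hQ hQ))
  have e3 := congrArg (rootMultiplicity 2) e1
  rw [rootMultiplicity_mul (by rw [e1]; exact hne), rootMultiplicity_mul hne,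
    rootMultiplicity_mul (right_ne_zero_of_mul hne), rootMultiplicity_mul (mul_ne_zero hQ hQ),
    rootMultiplicity_X_sub_C_self, rootMultiplicity_eq_zero (p := X + C 2) (x := 2) (by
      rw [IsRoot, eval_add, eval_X, eval_C]
      norm_num
      exact h4)] at e3
  omega

/-! ## generation -/

section gen

variable {k κ : Type} [Field k] [Field κ] [Algebra k κ]

/-- the evaluation of polynomials in two variables -/
private noncomputable def q2_E (x y : κ) : k[X][X] →+* κ :=
  eval₂RingHom (aeval x : k[X] →ₐ[k] κ).toRingHom y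

private theorem q2_E_X (x y : κ) : q2_E (k := k) x y X = y := by
  simp [q2_E]

private theorem q2_E_C (x y : κ) (P : k[X]) : q2_E (k := k) x y (C P) = aeval x P := by
  simp [q2_E]

private theorem q2_E_sum (x y : κ) (P : k[X][X]) (n : ℕ) (hn : P.natDegree < n) :
    q2_E (k := k) x y P = ∑ i ∈ Finset.range n, aeval x (P.coeff i) * y ^ i := by
  rw [q2_E, coe_eval₂RingHom, eval₂_eq_sum_range' _ hn]
  rfl

/-- the algebra of the elements `P + z Q` -/
private noncomputable def q2_T (x y z : κ) (hz : z ^ 2 = x * y * z - x ^ 2 - y ^ 2 + 4) :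
    Subalgebra k κ where
  carrier := {f | ∃ P Q : k[X][X], f = q2_E (k := k) x y P + z * q2_E (k := k) x y Q}
  mul_mem' := by
    rintro _ _ ⟨P, Q, rfl⟩ ⟨P', Q', rfl⟩
    refine ⟨P * P' + (4 - C X ^ 2 - X ^ 2) * (Q * Q'), P * Q' + P' * Q + C X * X * (Q * Q'), ?_⟩
    simp only [map_add, map_mul, map_sub, map_pow, q2_E_X, q2_E_C, aeval_X, map_ofNat]
    linear_combination q2_E (k := k) x y Q * q2_E (k := k) x y Q' * hz
  add_mem' := by
    rintro _ _ ⟨P, Q, rfl⟩ ⟨P', Q', rfl⟩
    refine ⟨P + P', Q + Q', ?_⟩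
    simp only [map_add]
    ring
  algebraMap_mem' := fun r => ⟨C (C r), 0, by simp [q2_E_C]⟩

private theorem q2_ee (c d : ℤ × ℤ) : es k c * es k d = es k (c + d) + es k (c - d) := by
  apply Subtype.ext
  change ee k c * ee k d = ee k (c + d) + ee k (c - d)
  simp only [ee, add_mul, mul_add, AddMonoidAlgebra.single_mul_single, mul_one]
  have h1 : c + -d = c - d := (sub_eq_add_neg c d).symm
  have h2 : -c + d = -(c - d) := by abel
  have h3 : -c + -d = -(c + d) := by abel
  rw [h1, h2, h3]
  abel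

private theorem q2_e0 : es k (0 : ℤ × ℤ) = 2 := by
  apply Subtype.ext
  change ee k 0 = 2
  rw [ee, neg_zero, ← AddMonoidAlgebra.one_def]
  norm_num

private theorem q2_line (T : Subalgebra k κ) (j : Sy k →ₐ[k] κ) (c d : ℤ × ℤ)
    (hd : j (es k d) ∈ T) (h0 : j (es k c) ∈ T) (h1 : j (es k (c + d)) ∈ T) (n : ℤ) :
    j (es k (c + n • d)) ∈ T := by
  have step : ∀ e : ℤ × ℤ, j (es k e) ∈ T → j (es k (e - d)) ∈ T → j (es k (e + d)) ∈ T := by
    intro e h2 h3
    have h4 : j (es k (e + d)) = j (es k e) * j (es k d) - j (es k (e - d)) := by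
      rw [← map_mul, q2_ee, map_add]
      ring
    rw [h4]
    exact T.sub_mem (T.mul_mem h2 hd) h3
  have step' : ∀ e : ℤ × ℤ, j (es k e) ∈ T → j (es k (e + d)) ∈ T → j (es k (e - d)) ∈ T := by
    intro e h2 h3
    have h4 : j (es k (e - d)) = j (es k e) * j (es k d) - j (es k (e + d)) := by
      rw [← map_mul, q2_ee, map_add]
      ring
    rw [h4]
    exact T.sub_mem (T.mul_mem h2 hd) h3
  have key : ∀ n : ℤ, j (es k (c + n • d)) ∈ T ∧ j (es k (c + (n + 1) • d)) ∈ T := by
    intro n
    induction n using Int.induction_on with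
    | zero => simpa using ⟨h0, h1⟩
    | succ i ih =>
      refine ⟨ih.2, ?_⟩
      have h5 : c + ((i : ℤ) + 1 + 1) • d = (c + ((i : ℤ) + 1) • d) + d := by module
      rw [h5]
      refine step _ ih.2 ?_
      have h6 : c + ((i : ℤ) + 1) • d - d = c + (i : ℤ) • d := by module
      rw [h6]
      exact ih.1
    | pred i ih =>
      have h5 : c + (-(i : ℤ) - 1) • d = (c + (-(i : ℤ)) • d) - d := by module
      have h6 : c + (-(i : ℤ) - 1 + 1) • d = c + (-(i : ℤ)) • d := by module
      rw [h6]
      refine ⟨?_, ih.1⟩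
      rw [h5]
      refine step' _ ih.1 ?_
      have h7 : c + (-(i : ℤ)) • d + d = c + (-(i : ℤ) + 1) • d := by module
      rw [h7]
      exact ih.2
  exact (key n).1

private theorem q2_gen (j : Sy k →ₐ[k] κ) (a b : ℤ × ℤ)
    (hab : ∀ c : ℤ × ℤ, ∃ m : ℤ × ℤ, c = m.1 • a + m.2 • b) (T : Subalgebra k κ)
    (ha : j (es k a) ∈ T) (hb : j (es k b) ∈ T) (hc : j (es k (a + b)) ∈ T) (f : Sy k) :
    j f ∈ T := by
  have h2 : j (es k 0) ∈ T := by
    rw [q2_e0, map_ofNat]
    exact ofNat_mem T 2
  have hes : ∀ c : ℤ × ℤ, j (es k c) ∈ T := by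
    intro c
    obtain ⟨m, rfl⟩ := hab c
    have e1 : ∀ n : ℤ, j (es k (n • a)) ∈ T := fun n => by
      have := q2_line T j 0 a ha h2 (by rwa [zero_add]) n
      rwa [zero_add] at this
    have e2 : ∀ n : ℤ, j (es k (n • a + b)) ∈ T := fun n => by
      have := q2_line T j b a ha hb (by rwa [add_comm]) n
      rwa [add_comm] at this
    exact q2_line T j (m.1 • a) b hb (e1 _) (e2 _) m.2
  obtain ⟨f, hf⟩ := f
  induction hf using Algebra.adjoin_induction with
  | mem f hf =>
    obtain ⟨c, rfl⟩ := hf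
    exact hes c
  | algebraMap r =>
    have : j ⟨algebraMap k (Lau k) r, Subalgebra.algebraMap_mem _ r⟩ = algebraMap k κ r :=
      j.commutes r
    rw [this]
    exact T.algebraMap_mem r
  | add f g hf hg h1 h2 =>
    have : j ⟨f + g, Subalgebra.add_mem _ hf hg⟩ = j ⟨f, hf⟩ + j ⟨g, hg⟩ := by
      rw [← map_add]
      rfl
    rw [this]
    exact T.add_mem h1 h2
  | mul f g hf hg h1 h2 =>
    have : j ⟨f * g, Subalgebra.mul_mem _ hf hg⟩ = j ⟨f, hf⟩ * j ⟨g, hg⟩ := by
      rw [← map_mul]
      rfl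
    rw [this]
    exact T.mul_mem h1 h2

private theorem q2_rel (a b : ℤ × ℤ) : es k (a + b) ^ 2 =
    es k a * es k b * es k (a + b) - es k a ^ 2 - es k b ^ 2 + 4 := by
  have h1 := q2_ee (k := k) (a + b) (a + b)
  have h2 := q2_ee (k := k) a a
  have h3 := q2_ee (k := k) b b
  have h4 := q2_ee (k := k) a b
  have h5 := q2_ee (k := k) (a + b) (a - b)
  rw [sub_self, q2_e0] at h1 h2 h3
  have e1 : a + b + (a - b) = a + a := by abel
  have e2 : a + b - (a - b) = b + b := by abel
  rw [e1, e2] at h5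
  linear_combination h2 + h3 - es k (a + b) * h4 - h5

end gen

theorem p_Q2 (hZ0 : S_Z0) : S_Q2 := by
  intro p hp hp2 k κ _ _ _ _ j a b hab hinj
  have h2 : (2 : k) ≠ 0 := by
    intro h
    have h3 : ((2 : ℕ) : k) = 0 := by exact_mod_cast h
    rw [CharP.cast_eq_zero_iff k p] at h3
    exact hp2 ((Nat.prime_dvd_prime_iff_eq hp.out Nat.prime_two).mp h3)
  have ha0 : a ≠ 0 := by
    rintro rfl
    obtain ⟨m, hm⟩ := hab (1, 0)
    obtain ⟨n, hn⟩ := hab (0, 1)
    have m1 := congrArg Prod.fst hm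
    have m2 := congrArg Prod.snd hm
    have n1 := congrArg Prod.fst hn
    have n2 := congrArg Prod.snd hn
    simp at m1 m2 n1 n2
    rcases m2 with m2 | m2
    · rw [m2] at m1
      simp at m1
    · rw [m2] at n2
      simp at n2
  set x := j (es k a) with hx
  set y := j (es k b) with hy
  set z := j (es k (a + b)) with hz
  have hxtr : ∀ P : k[X], P ≠ 0 → aeval x P ≠ 0 := by
    intro P hP h0
    obtain ⟨Q, hQ⟩ := hZ0 k h2 a ha0 P hP
    apply hQ
    have h3 : aeval (es k a) P = 0 := by
      apply hinj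
      rw [map_zero, ← h0, hx, aeval_algHom_apply]
    have h4 : aeval (ee k a) P = 0 := by
      have h5 := congrArg (Sy k).val h3
      rw [← aeval_algHom_apply, map_zero] at h5
      exact h5
    rw [map_mul, h4, zero_mul]
    rfl
  have hzz : z ^ 2 = x * y * z - x ^ 2 - y ^ 2 + 4 := by
    have := congrArg j (q2_rel (k := k) a b)
    simpa only [map_add, map_sub, map_mul, map_pow, map_ofNat] using this
  have hmem : ∀ f : Sy k, ∃ P Q : k[X][X], j f = q2_E (k := k) x y P + z * q2_E (k := k) x y Q :=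
    fun f => q2_gen j a b hab (q2_T x y z hzz) ⟨C X, 0, by simp [q2_E_C, hx]⟩
      ⟨X, 0, by simp [q2_E_X, hy]⟩ ⟨0, 1, by simp [hz]⟩ f
  choose P Q hPQ using hmem
  refine ⟨fun f => max (P f).natDegree (X * Q f).natDegree, fun v hv htriv hvx hpole => ?_⟩
  have hP0 : ∀ R : k[X], Ge v 0 (aeval x R) := by
    intro R
    by_cases hR : R = 0
    · exact Or.inl (by rw [hR, map_zero])
    · exact Or.inr (hvx R hR).ge
  have hx0 : Ge v 0 x := by simpa using hP0 X
  have hc : ∀ n : ℕ, Ge v 0 ((n : ℕ) : κ) := fun n => by simpa using hP0 ((n : ℕ) : k[X])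
  have hx2 : Ge v 0 (x ^ 2 - 4) := by
    have h5 := hP0 (X ^ 2 - 4)
    rwa [map_sub, map_pow, aeval_X, map_ofNat] at h5
  have h1' : Ge v 0 (1 : κ) := by simpa using hc 1
  -- (1)
  have hvy : v y < 0 := by
    by_contra hvy
    have hy0 : Ge v 0 y := Or.inr (not_lt.mp hvy)
    have hz0 : Ge v 0 z := by
      by_contra hz0
      have hzne : z ≠ 0 := fun h => hz0 (Or.inl h)
      have hzlt : v z < 0 := by
        by_contra h
        exact hz0 (Or.inr (not_lt.mp h))
      have hg : Ge v (v (z ^ 2) + 1) (-(x * y * z) + (x ^ 2 - 4 + y * y)) := by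
        rw [q2_pow hv hzne]
        refine q2_ge_add hv ?_ ?_
        · refine q2_ge_neg hv (q2_ge_le ?_ (q2_ge_mul hv (q2_ge_mul hv hx0 hy0)
            (Or.inr (le_refl (v z)))))
          push_cast
          omega
        · refine q2_ge_le ?_ (q2_ge_add hv hx2 (q2_ge_mul hv hy0 hy0))
          push_cast
          omega
      apply (q2_dom hv (pow_ne_zero 2 hzne) hg).1
      rw [hzz]
      ring
    have hE : ∀ R : k[X][X], Ge v 0 (q2_E (k := k) x y R) := by
      intro R
      rw [q2_E_sum x y R _ (Nat.lt_succ_self _)]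
      refine q2_ge_sum hv _ _ fun i _ => ?_
      have h5 : Ge v 0 (y ^ i) := by
        by_cases hy1 : y = 0
        · rcases Nat.eq_zero_or_pos i with rfl | hi
          · simpa using h1'
          · exact Or.inl (by rw [hy1, zero_pow hi.ne'])
        · refine Or.inr ?_
          rw [q2_pow hv hy1]
          exact mul_nonneg (Nat.cast_nonneg _) (not_lt.mp hvy)
      simpa using q2_ge_mul hv (hP0 (R.coeff i)) h5
    obtain ⟨f, hf0, hf⟩ := hpole
    have h6 : Ge v 0 (j f) := by
      rw [hPQ f]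
      refine q2_ge_add hv (hE _) ?_
      simpa using q2_ge_mul hv hz0 (hE (Q f))
    rcases h6 with h6 | h6
    · exact hf0 h6
    · omega
  have hyne : y ≠ 0 := by
    intro h
    rw [h, hv.zero] at hvy
    exact lt_irrefl _ hvy
  have hvyi : v (y⁻¹) = - v y := by
    have h5 := hv.mul y y⁻¹ hyne (inv_ne_zero hyne)
    rw [mul_inv_cancel₀ hyne, q2_one hv] at h5
    linarith
  -- (2)
  set r := z * y⁻¹ with hr
  have hzr : z = r * y := by
    rw [hr, mul_assoc, inv_mul_cancel₀ hyne, mul_one]
  set δ := r ^ 2 - x * r + 1 with hδ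
  have hδ' : δ = -(x ^ 2 - 4) * (y⁻¹ * y⁻¹) := by
    have h5 : δ * (y * y) = -(x ^ 2 - 4) := by
      rw [hδ]
      have h6 : (r * y) ^ 2 = x * y * (r * y) - x ^ 2 - y ^ 2 + 4 := by rw [← hzr, hzz]
      linear_combination h6
    rw [← h5]
    field_simp
  have hδ1 : Ge v 2 δ := by
    rw [hδ']
    have h5 : Ge v (-v y) y⁻¹ := Or.inr hvyi.ge
    refine q2_ge_le ?_ (q2_ge_mul hv (q2_ge_neg hv hx2) (q2_ge_mul hv h5 h5))
    omega
  have hr0 : Ge v 0 r := by
    by_contra hr0
    have hrne : r ≠ 0 := fun h => hr0 (Or.inl h)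
    have hrlt : v r < 0 := by
      by_contra h
      exact hr0 (Or.inr (not_lt.mp h))
    have hg : Ge v (v (r ^ 2) + 1) (-(x * r) + (1 + -δ)) := by
      rw [q2_pow hv hrne]
      refine q2_ge_add hv ?_ (q2_ge_add hv ?_ ?_)
      · refine q2_ge_neg hv (q2_ge_le ?_ (q2_ge_mul hv hx0 (Or.inr (le_refl (v r)))))
        push_cast
        omega
      · refine q2_ge_le ?_ h1'
        push_cast
        omega
      · refine q2_ge_le ?_ (q2_ge_neg hv hδ1)
        push_cast
        omega
    apply (q2_dom hv (pow_ne_zero 2 hrne) hg).1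
    rw [hδ]
    ring
  -- (3)
  have key3 : ∀ R S : k[X], (R ≠ 0 ∨ S ≠ 0) →
      aeval x R + r * aeval x S ≠ 0 ∧ v (aeval x R + r * aeval x S) = 0 := by
    intro R S hRS
    set c := aeval x R + r * aeval x S with hcdef
    have hc0 : Ge v 0 c := by
      refine q2_ge_add hv (hP0 R) ?_
      simpa using q2_ge_mul hv hr0 (hP0 S)
    by_contra hcon
    have hc1 : Ge v 1 c := by
      rcases hc0 with h5 | h5
      · exact Or.inl h5
      · by_cases h6 : c = 0
        · exact Or.inl h6
        · refine Or.inr ?_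
          have : v c ≠ 0 := fun h7 => hcon ⟨h6, h7⟩
          omega
    have hS : S = 0 := by
      apply q2_sq h2 R S
      by_contra hne
      have h5 := hvx _ hne
      have h6 : aeval x (R ^ 2 + X * R * S + S ^ 2) =
          c * (aeval x R + (x + -r) * aeval x S) + δ * (aeval x S * aeval x S) := by
        rw [hcdef, hδ]
        simp only [map_add, map_mul, map_pow, aeval_X]
        ring
      have h7 : Ge v 1 (aeval x (R ^ 2 + X * R * S + S ^ 2)) := by
        rw [h6]
        refine q2_ge_add hv ?_ ?_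
        · have h8 : Ge v 0 (aeval x R + (x + -r) * aeval x S) := by
            refine q2_ge_add hv (hP0 R) ?_
            simpa using q2_ge_mul hv (q2_ge_add hv hx0 (q2_ge_neg hv hr0)) (hP0 S)
          simpa using q2_ge_mul hv hc1 h8
        · refine q2_ge_le (by norm_num) (q2_ge_mul hv hδ1 (q2_ge_mul hv (hP0 S) (hP0 S)))
      rcases h7 with h7 | h7
      · exact hxtr _ hne h7
      · rw [h5] at h7
        omega
    have hR : R ≠ 0 := by
      rcases hRS with h | h
      · exact h
      · exact absurd hS h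
    apply hcon
    rw [hcdef, hS, map_zero, mul_zero, add_zero]
    exact ⟨hxtr R hR, hvx R hR⟩
  -- (4)
  refine ⟨hvy, fun f hf => ?_⟩
  have hjf : j f ≠ 0 := by
    intro h
    exact hf (hinj (by rw [h, map_zero]))
  set d := max (P f).natDegree (X * Q f).natDegree with hd
  have e1 : j f = ∑ i ∈ Finset.range (d + 1),
      (aeval x ((P f).coeff i) + r * aeval x ((X * Q f).coeff i)) * y ^ i := by
    have e2 : j f = q2_E (k := k) x y (P f) + r * q2_E (k := k) x y (X * Q f) := by
      rw [hPQ f, hzr, map_mul, q2_E_X]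
      ring
    rw [e2, q2_E_sum x y (P f) (d + 1) (by omega), q2_E_sum x y (X * Q f) (d + 1) (by omega),
      Finset.mul_sum, ← Finset.sum_add_distrib]
    exact Finset.sum_congr rfl fun i _ => by ring
  have hPQne : P f ≠ 0 ∨ X * Q f ≠ 0 := by
    by_contra hcon
    push Not at hcon
    apply hjf
    rw [e1, hcon.1, hcon.2]
    simp
  have htop : (P f).coeff d ≠ 0 ∨ (X * Q f).coeff d ≠ 0 := by
    rcases le_total (P f).natDegree (X * Q f).natDegree with h5 | h5
    · rw [max_eq_right h5] at hd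
      by_cases h6 : X * Q f = 0
      · left
        have h7 : P f ≠ 0 := by
          rcases hPQne with h | h
          · exact h
          · exact absurd h6 h
        have h8 : d = (P f).natDegree := by
          rw [h6, natDegree_zero] at h5 hd
          omega
        rw [h8]
        exact leadingCoeff_ne_zero.mpr h7
      · right
        rw [hd]
        exact leadingCoeff_ne_zero.mpr h6
    · rw [max_eq_left h5] at hd
      by_cases h6 : P f = 0
      · right
        have h7 : X * Q f ≠ 0 := by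
          rcases hPQne with h | h
          · exact absurd h6 h
          · exact h
        have h8 : d = (X * Q f).natDegree := by
          rw [h6, natDegree_zero] at h5 hd
          omega
        rw [h8]
        exact leadingCoeff_ne_zero.mpr h7
      · left
        rw [hd]
        exact leadingCoeff_ne_zero.mpr h6
  obtain ⟨hcd, hcd'⟩ := key3 _ _ htop
  have hyd : y ^ d ≠ 0 := pow_ne_zero _ hyne
  have hvd : v ((aeval x ((P f).coeff d) + r * aeval x ((X * Q f).coeff d)) * y ^ d) =
      d * v y := by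
    rw [hv.mul _ _ hcd hyd, hcd', q2_pow hv hyne, zero_add]
  rw [e1, Finset.sum_range_succ, add_comm]
  rw [(q2_dom hv (mul_ne_zero hcd hyd) ?_).2, hvd]
  rw [hvd]
  refine q2_ge_sum hv _ _ fun i hi => ?_
  have hi' : i < d := Finset.mem_range.mp hi
  have h5 : Ge v 0 (aeval x ((P f).coeff i) + r * aeval x ((X * Q f).coeff i)) := by
    refine q2_ge_add hv (hP0 _) ?_
    simpa using q2_ge_mul hv hr0 (hP0 ((X * Q f).coeff i))
  have h6 : Ge v (i * v y) (y ^ i) := Or.inr (q2_pow hv hyne i).ge
  refine q2_ge_le ?_ (q2_ge_mul hv h5 h6)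
  have h7 : (i : ℤ) + 1 ≤ d := by exact_mod_cast hi'
  nlinarith

end Pool.Agent.F2W
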