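import Pool.Agent.Lib.MP_305fdd_al.F2.W.Stm2

/-!
# MP_305fdd_al, F_2, section W: piece R1
-/

set_option autoImplicit false

namespace Pool.Agent.F2W

open Pool.Agent.F2Ch Polynomial Pool.Agent.F2 Pool.Agent.F2RF

private theorem r1_mono {κ1 : Type} [Field κ1] (a : κ1[X]) (N : ℕ) (h : a ∣ X ^ N) :
    ∃ (c : κ1) (i : ℕ), c ≠ 0 ∧ a = C c * X ^ i := by
  obtain ⟨i, -, hi⟩ := (dvd_prime_pow Polynomial.prime_X N).1 h
  obtain ⟨u, hu⟩ := hi.symm
  obtain ⟨c, hc, hcu⟩ := Polynomial.isUnit_iff.1 u.isUnit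
  refine ⟨c, i, hc.ne_zero, ?_⟩
  rw [hcu, ← hu, mul_comm]

theorem p_R1 : S_R1 := by
  classical
  intro κ1 κ _ _ _ y hy hgen Ψ N P hΨ hP
  obtain ⟨a0, b0, hb0, hab0⟩ := hgen Ψ
  have hinj : Function.Injective (aeval y : κ1[X] →ₐ[κ1] κ) := transcendental_iff_injective.1 hy
  have hb0' : b0 ≠ 0 := by
    rintro rfl
    simp at hb0
  -- coprime numerator and denominator
  obtain ⟨a, b, hb, hcop, hab⟩ : ∃ a b : κ1[X], b ≠ 0 ∧ IsCoprime a b ∧
      Ψ * aeval y b = aeval y a := by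
    have hg : EuclideanDomain.gcd a0 b0 ≠ 0 := by
      intro h
      exact hb0' (EuclideanDomain.gcd_eq_zero_iff.1 h).2
    obtain ⟨a, ha⟩ := EuclideanDomain.gcd_dvd_left a0 b0
    obtain ⟨b, hb⟩ := EuclideanDomain.gcd_dvd_right a0 b0
    refine ⟨a, b, ?_, ?_, ?_⟩
    · rintro rfl
      rw [mul_zero] at hb
      exact hb0' hb
    · have h1 := EuclideanDomain.gcd_eq_gcd_ab a0 b0
      refine ⟨EuclideanDomain.gcdA a0 b0, EuclideanDomain.gcdB a0 b0, ?_⟩
      apply mul_left_cancel₀ hg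
      calc EuclideanDomain.gcd a0 b0 *
            (EuclideanDomain.gcdA a0 b0 * a + EuclideanDomain.gcdB a0 b0 * b)
          = (EuclideanDomain.gcd a0 b0 * a) * EuclideanDomain.gcdA a0 b0 +
            (EuclideanDomain.gcd a0 b0 * b) * EuclideanDomain.gcdB a0 b0 := by ring
        _ = EuclideanDomain.gcd a0 b0 * 1 := by rw [← ha, ← hb, ← h1, mul_one]
    · have hgy : aeval y (EuclideanDomain.gcd a0 b0) ≠ 0 := by
        intro h
        exact hg (hinj (by rw [h, map_zero]))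
      apply mul_left_cancel₀ hgy
      have h2 : aeval y a0 = aeval y (EuclideanDomain.gcd a0 b0) * aeval y a := by
        rw [← map_mul, ← ha]
      have h3 : aeval y b0 = aeval y (EuclideanDomain.gcd a0 b0) * aeval y b := by
        rw [← map_mul, ← hb]
      rw [← h2, ← hab0, h3]
      ring
  have hby : aeval y b ≠ 0 := by
    intro h
    exact hb (hinj (by rw [h, map_zero]))
  have hay : aeval y a ≠ 0 := by
    rw [← hab]
    exact mul_ne_zero hΨ hby
  have hΨ' : Ψ = aeval y a / aeval y b := by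
    rw [← hab]
    field_simp
  have key : (a ^ 2 + b ^ 2) * X ^ N = P * (a * b) := by
    apply hinj
    simp only [map_mul, map_add, map_pow, aeval_X]
    rw [← hP, hΨ']
    field_simp
  have hdvd : a * b ∣ X ^ N := by
    have h1 : IsCoprime a (a ^ 2 + b ^ 2) := by
      rw [pow_two a]
      exact (IsCoprime.mul_add_left_right (hcop.pow_right (n := 2)) a)
    have h2 : IsCoprime b (a ^ 2 + b ^ 2) := by
      rw [pow_two b, add_comm]
      exact (IsCoprime.mul_add_left_right (hcop.symm.pow_right (n := 2)) b)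
    have h3 : IsCoprime (a * b) (a ^ 2 + b ^ 2) := h1.mul_left h2
    refine h3.dvd_of_dvd_mul_left ?_
    rw [key]
    exact dvd_mul_left _ _
  obtain ⟨c, i, hc, ha⟩ := r1_mono a N (dvd_trans (dvd_mul_right a b) hdvd)
  obtain ⟨d, j, hd, hb'⟩ := r1_mono b N (dvd_trans (dvd_mul_left b a) hdvd)
  have hy0 : y ≠ 0 := by
    rintro rfl
    exact hy (isAlgebraic_zero)
  refine ⟨c / d, (i : ℤ) - j, div_ne_zero hc hd, ?_⟩
  rw [hΨ', ha, hb', zpow_sub₀ hy0, map_div₀]
  simp only [map_mul, map_pow, aeval_X, aeval_C, zpow_natCast]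
  have hd' : algebraMap κ1 κ d ≠ 0 := by
    rw [Ne, map_eq_zero]
    exact hd
  field_simp

end Pool.Agent.F2W
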