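import Pool.Agent.Lib.MP_305fdd_al.F2.W.Stm3

/-!
# MP_305fdd_al, F_2, section W: piece [F2W R10]

The residue field of a rational point of a three-dimensional chart is `k(y1, y2)`.
-/

set_option autoImplicit false

namespace Pool.Agent.F2W

open Pool.Agent.F2Ch Polynomial Pool.Agent.F2 Pool.Agent.F2RF

/-! ### The lattice of the exponents of weight zero -/

lemma r10_basis (u : Fin 3 → ℤ) (hu : u ≠ 0) :
    ∃ m1 m2 : Fin 3 → ℤ, wt u m1 = 0 ∧ wt u m2 = 0 ∧
      (∀ m, wt u m = 0 → ∃ a b : ℤ, m = a • m1 + b • m2) ∧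
      (∀ a b : ℤ, a • m1 + b • m2 = 0 → a = 0 ∧ b = 0) := by
  classical
  let f : (Fin 3 → ℤ) →ₗ[ℤ] ℤ := Fintype.linearCombination ℤ u
  have hf : ∀ m, f m = wt u m := fun m => by
    simp [f, Fintype.linearCombination_apply, wt]
  have hr : LinearMap.range f ≠ ⊥ := by
    intro h
    rw [LinearMap.range_eq_bot] at h
    apply hu
    funext i
    have h1 : f (Pi.single i 1) = 0 := by rw [h]; rfl
    rw [hf] at h1
    simpa [wt, Pi.single_apply, ite_smul] using h1
  have h1 : Module.finrank ℤ (LinearMap.range f) = 1 := by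
    have hI : Module.finrank ℤ (LinearMap.range f) ≤ Module.finrank ℤ ℤ :=
      Submodule.finrank_le _
    rw [Module.finrank_self] at hI
    have h0 : Module.finrank ℤ (LinearMap.range f) ≠ 0 := by
      intro h0
      exact hr ((Submodule.finrank_eq_zero).1 h0)
    omega
  have h2 : Module.finrank ℤ (LinearMap.ker f) = 2 := by
    have h3 := Submodule.finrank_quotient_add_finrank (LinearMap.ker f)
    rw [f.quotKerEquivRange.finrank_eq, h1] at h3
    simp at h3
    omega
  let b := Module.finBasisOfFinrankEq ℤ (LinearMap.ker f) h2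
  refine ⟨(b 0 : Fin 3 → ℤ), (b 1 : Fin 3 → ℤ), ?_, ?_, ?_, ?_⟩
  · rw [← hf]; exact (b 0).2
  · rw [← hf]; exact (b 1).2
  · intro m hm
    have hm' : m ∈ LinearMap.ker f := by rw [LinearMap.mem_ker, hf]; exact hm
    refine ⟨b.repr ⟨m, hm'⟩ 0, b.repr ⟨m, hm'⟩ 1, ?_⟩
    have h3 := b.sum_repr ⟨m, hm'⟩
    rw [Fin.sum_univ_two] at h3
    exact (congrArg Subtype.val h3).symm
  · intro a c h
    have h3 := b.linearIndependent
    rw [Fintype.linearIndependent_iff] at h3
    have h4 := h3 ![a, c] (by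
      rw [Fin.sum_univ_two]
      apply Subtype.ext
      simpa using h)
    exact ⟨h4 0, h4 1⟩

lemma r10_wt_smul (u : Fin 3 → ℤ) (p : ℤ) (m : Fin 3 → ℤ) : wt u (p • m) = p * wt u m := by
  simp [wt, Finset.mul_sum, mul_assoc]

/-- divisibility of an exponent of weight zero -/
lemma r10_dvd (p : ℕ) [Fact p.Prime] (u m1 m2 : Fin 3 → ℤ)  (h1 : wt u m1 = 0) (h2 : wt u m2 = 0)
    (hg : ∀ m, wt u m = 0 → ∃ a b : ℤ, m = a • m1 + b • m2)
    (hi : ∀ a b : ℤ, a • m1 + b • m2 = 0 → a = 0 ∧ b = 0) (a b : ℤ)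
    (h : ∃ m' : Fin 3 → ℤ, a • m1 + b • m2 = (p : ℤ) • m') : (p : ℤ) ∣ a ∧ (p : ℤ) ∣ b := by
  obtain ⟨m', h⟩ := h
  have hp : (p : ℤ) ≠ 0 := by exact_mod_cast (Fact.out : p.Prime).ne_zero
  have hw : wt u m' = 0 := by
    have h3 : wt u ((p : ℤ) • m') = 0 := by
      rw [← h]
      have : wt u (a • m1 + b • m2) = a * wt u m1 + b * wt u m2 := by
        simp only [wt, Pi.add_apply, Pi.smul_apply, smul_eq_mul, Finset.mul_sum]
        rw [← Finset.sum_add_distrib]
        refine Finset.sum_congr rfl fun i _ => ?_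
        ring
      rw [this, h1, h2]; ring
    rw [r10_wt_smul] at h3
    exact (mul_eq_zero.1 h3).resolve_left hp
  obtain ⟨a', b', h'⟩ := hg m' hw
  have h4 := hi (a - p * a') (b - p * b') (by
    rw [sub_smul, sub_smul, mul_smul, mul_smul]
    rw [h', smul_add] at h
    have : a • m1 - (p : ℤ) • a' • m1 + (b • m2 - (p : ℤ) • b' • m2) =
      (a • m1 + b • m2) - ((p : ℤ) • a' • m1 + (p : ℤ) • b' • m2) := by abel
    rw [this, h, sub_self])
  exact ⟨⟨a', by linarith [h4.1]⟩, ⟨b', by linarith [h4.2]⟩⟩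

/-! ### The polynomials in two monomials -/

section T
variable {k κ : Type} [Field k] [Field κ] [Algebra k κ] (m1 m2 : Fin 3 → ℤ)

/-- polynomials in the two monomials `X ^ m1`, `X ^ m2` -/
noncomputable def r10_T : MvPolynomial (Fin 2) k →+* AddMonoidAlgebra κ (Fin 3 → ℤ) :=
  MvPolynomial.eval₂Hom ((AddMonoidAlgebra.singleZeroRingHom).comp (algebraMap k κ))
    ![AddMonoidAlgebra.single m1 1, AddMonoidAlgebra.single m2 1]

lemma r10_T_monomial (s : Fin 2 →₀ ℕ) (c : k) :
    r10_T (κ := κ) m1 m2 (MvPolynomial.monomial s c) =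
      AddMonoidAlgebra.single (s 0 • m1 + s 1 • m2) (algebraMap k κ c) := by
  rw [r10_T, MvPolynomial.coe_eval₂Hom, MvPolynomial.eval₂_monomial]
  rw [Finsupp.prod_fintype _ _ (fun i => pow_zero _), Fin.prod_univ_two]
  simp [AddMonoidAlgebra.single_pow, AddMonoidAlgebra.single_mul_single]

lemma r10_T_coeff (hi : ∀ a b : ℤ, a • m1 + b • m2 = 0 → a = 0 ∧ b = 0)
    (P : MvPolynomial (Fin 2) k) (s : Fin 2 →₀ ℕ) :
    (r10_T (κ := κ) m1 m2 P).coeff (s 0 • m1 + s 1 • m2) = algebraMap k κ (P.coeff s) := by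
  classical
  conv_lhs => rw [P.as_sum, map_sum, AddMonoidAlgebra.coeff_sum, Finsupp.finsetSum_apply]
  have hinj : ∀ s' : Fin 2 →₀ ℕ, s' 0 • m1 + s' 1 • m2 = s 0 • m1 + s 1 • m2 → s' = s := by
    intro s' h
    have h1 := hi ((s' 0 : ℤ) - s 0) ((s' 1 : ℤ) - s 1) (by
      rw [sub_smul, sub_smul]
      simp only [natCast_zsmul]
      have : s' 0 • m1 - s 0 • m1 + (s' 1 • m2 - s 1 • m2) =
        (s' 0 • m1 + s' 1 • m2) - (s 0 • m1 + s 1 • m2) := by abel
      rw [this, h, sub_self])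
    ext i
    fin_cases i
    · simpa using (by linarith [h1.1] : (s' 0 : ℤ) = s 0)
    · simpa using (by linarith [h1.2] : (s' 1 : ℤ) = s 1)
  rw [Finset.sum_eq_single s]
  · rw [r10_T_monomial]; simp
  · intro s' _ hs'
    rw [r10_T_monomial, AddMonoidAlgebra.coeff_single, Finsupp.single_apply, if_neg]
    exact fun h => hs' (hinj s' h)
  · intro hs
    rw [MvPolynomial.notMem_support_iff.1 hs]; simp

lemma r10_T_inj (hi : ∀ a b : ℤ, a • m1 + b • m2 = 0 → a = 0 ∧ b = 0) :
    Function.Injective (r10_T (k := k) (κ := κ) m1 m2) := by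
  rw [injective_iff_map_eq_zero]
  intro P hP
  ext s
  have h := r10_T_coeff (κ := κ) m1 m2 hi P s
  rw [hP] at h
  simpa using h.symm

/-- Laurent polynomials with exponents of weight zero -/
lemma r10_clear (u : Fin 3 → ℤ) (hk : Function.Surjective (algebraMap k κ))
    (hg : ∀ m, wt u m = 0 → ∃ a b : ℤ, m = a • m1 + b • m2)
    (a : AddMonoidAlgebra κ (Fin 3 → ℤ)) (ha : ∀ m, a.coeff m ≠ 0 → wt u m = 0) :
    ∃ (N N' : ℕ) (P : MvPolynomial (Fin 2) k),
      a * r10_T (k := k) m1 m2 (MvPolynomial.X 0 ^ N * MvPolynomial.X 1 ^ N') =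
        r10_T m1 m2 P := by
  classical
  have key : ∀ s : Finset (Fin 3 → ℤ), (∀ m ∈ s, wt u m = 0) →
      ∃ (N N' : ℕ) (P : MvPolynomial (Fin 2) k),
      (∑ m ∈ s, AddMonoidAlgebra.single m (a.coeff m)) *
        r10_T (k := k) m1 m2 (MvPolynomial.X 0 ^ N * MvPolynomial.X 1 ^ N') = r10_T m1 m2 P := by
    intro s
    induction s using Finset.induction_on with
    | empty => intro _; exact ⟨0, 0, 0, by simp⟩
    | insert m s hm ih =>
      intro hs
      obtain ⟨N, N', P, hP⟩ := ih fun m' hm' => hs m' (Finset.mem_insert_of_mem hm')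
      obtain ⟨α, β, hαβ⟩ := hg m (hs m (Finset.mem_insert_self _ _))
      obtain ⟨c, hc⟩ := hk (a.coeff m)
      have h1 : AddMonoidAlgebra.single m (a.coeff m) *
          r10_T (k := k) m1 m2 (MvPolynomial.X 0 ^ α.natAbs * MvPolynomial.X 1 ^ β.natAbs) =
          r10_T m1 m2 (MvPolynomial.monomial (Finsupp.single 0 (α + α.natAbs).toNat +
            Finsupp.single 1 (β + β.natAbs).toNat) c) := by
        rw [r10_T_monomial, MvPolynomial.X_pow_eq_monomial, MvPolynomial.X_pow_eq_monomial,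
          MvPolynomial.monomial_mul, r10_T_monomial, AddMonoidAlgebra.single_mul_single, hc]
        simp only [Finsupp.add_apply, Finsupp.single_apply]
        simp only [if_pos, Fin.isValue, one_ne_zero, if_false, zero_ne_one, add_zero, zero_add,
          mul_one, map_one]
        congr 1
        have e1 : (((α + α.natAbs).toNat : ℕ) : ℤ) = α + α.natAbs := by omega
        have e2 : (((β + β.natAbs).toNat : ℕ) : ℤ) = β + β.natAbs := by omega
        rw [← natCast_zsmul m1 (α + α.natAbs).toNat, ← natCast_zsmul m2 (β + β.natAbs).toNat, e1,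
          e2, hαβ, add_smul, add_smul, natCast_zsmul, natCast_zsmul]
        abel
      refine ⟨N + α.natAbs, N' + β.natAbs, P * (MvPolynomial.X 0 ^ α.natAbs *
        MvPolynomial.X 1 ^ β.natAbs) + MvPolynomial.monomial (Finsupp.single 0
          (α + α.natAbs).toNat + Finsupp.single 1 (β + β.natAbs).toNat) c *
          (MvPolynomial.X 0 ^ N * MvPolynomial.X 1 ^ N'), ?_⟩
      rw [map_add, map_mul _ P, map_mul _ (MvPolynomial.monomial _ c), ← hP, ← h1,
        Finset.sum_insert hm, pow_add, pow_add]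
      simp only [map_mul]
      ring
  obtain ⟨N, N', P, hP⟩ := key a.coeff.support fun m hm => ha m (Finsupp.mem_support_iff.1 hm)
  refine ⟨N, N', P, ?_⟩
  rw [← hP]
  congr 1
  exact (AddMonoidAlgebra.sum_coeff_single a).symm

end T

/-! ### The subfield `k(y1)` -/

section K
variable {k κ' : Type} [Field k] [Field κ'] [Algebra k κ']

/-- evaluation at `y1, y2` in two steps -/
lemma r10_aeval (κ1 : IntermediateField k κ') (y1 : κ1) (y2 : κ') (P : MvPolynomial (Fin 2) k) :
    aeval y2 (MvPolynomial.aeval ![(C y1 : κ1[X]), X] P) =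
      MvPolynomial.aeval ![(y1 : κ'), y2] P := by
  have h : (((aeval y2 : κ1[X] →ₐ[κ1] κ').restrictScalars k).comp
      (MvPolynomial.aeval ![(C y1 : κ1[X]), X])) = MvPolynomial.aeval ![(y1 : κ'), y2] := by
    ext i
    fin_cases i
    · simp
    · simp
  exact congrArg (fun g => g P) h

/-- The restriction of a `p⁻¹`-linear map to a simple extension. -/
lemma r10_restr (p : ℕ) [Fact p.Prime] (φ' : κ' → κ') (hφ : IsPinv p φ') (φ0 : k → k)
    (h0 : ∀ c, φ' (algebraMap k κ' c) = algebraMap k κ' (φ0 c)) (y : κ')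
    (hz : ∀ (c : k) (n : ℕ), ¬ p ∣ n → φ' (algebraMap k κ' c * y ^ n) = 0)
    (x : κ') (hx : x ∈ IntermediateField.adjoin k {y}) :
    φ' x ∈ IntermediateField.adjoin k {y} := by
  have hφ0 : φ' 0 = 0 := by
    have h := hφ.add 0 0
    simpa using h
  have hym : y ∈ IntermediateField.adjoin k {y} := IntermediateField.mem_adjoin_simple_self k y
  have hae : ∀ f : k[X], aeval y f ∈ IntermediateField.adjoin k {y} := fun f => by
    have := (aeval (⟨y, hym⟩ : IntermediateField.adjoin k {y}) f).2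
    convert this using 1
    have h2 := Polynomial.aeval_algebraMap_apply κ' (⟨y, hym⟩ : IntermediateField.adjoin k {y}) f
    exact h2
  have hpol : ∀ f : k[X], φ' (aeval y f) ∈ IntermediateField.adjoin k {y} := by
    intro f
    induction f using Polynomial.induction_on' with
    | add f g hf hg => rw [map_add, hφ.add]; exact add_mem hf hg
    | monomial n c =>
      rw [aeval_monomial]
      by_cases hn : p ∣ n
      · obtain ⟨q, rfl⟩ := hn
        have : algebraMap k κ' c * y ^ (p * q) = (y ^ q) ^ p * algebraMap k κ' c := by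
          rw [← pow_mul, mul_comm q p, mul_comm]
        rw [this, hφ.pow_mul, h0]
        exact mul_mem (pow_mem hym _) (IntermediateField.algebraMap_mem _ _)
      · rw [hz c n hn]; exact zero_mem _
  rw [IntermediateField.mem_adjoin_simple_iff] at hx
  obtain ⟨r, s, rfl⟩ := hx
  by_cases hs : aeval y s = 0
  · rw [hs, div_zero, hφ0]; exact zero_mem _
  · have hp : 1 ≤ p := (Fact.out : p.Prime).one_lt.le
    have : aeval y r / aeval y s = ((aeval y s)⁻¹) ^ p * aeval y (r * s ^ (p - 1)) := by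
      rw [map_mul, map_pow]
      obtain ⟨q, rfl⟩ : ∃ q, p = q + 1 := ⟨p - 1, by omega⟩
      rw [Nat.add_sub_cancel, pow_succ, inv_pow]
      field_simp
    rw [this, hφ.pow_mul]
    exact mul_mem (inv_mem (hae s)) (hpol _)

/-- the vanishing statement for coefficients in `k(y)` -/
lemma r10_van (p : ℕ) [Fact p.Prime] (φ' : κ' → κ') (hφ : IsPinv p φ') (y Y : κ')
    (hz : ∀ (c : k) (n : ℕ), φ' (algebraMap k κ' c * y ^ n * Y) = 0)
    (x : κ') (hx : x ∈ IntermediateField.adjoin k {y}) : φ' (x * Y) = 0 := by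
  have hφ0 : φ' 0 = 0 := by
    have h := hφ.add 0 0
    simpa using h
  have hpol : ∀ f : k[X], φ' (aeval y f * Y) = 0 := by
    intro f
    induction f using Polynomial.induction_on' with
    | add f g hf hg => rw [map_add, add_mul, hφ.add, hf, hg, add_zero]
    | monomial n c => rw [aeval_monomial]; exact hz c n
  rw [IntermediateField.mem_adjoin_simple_iff] at hx
  obtain ⟨r, s, rfl⟩ := hx
  by_cases hs : aeval y s = 0
  · rw [hs, div_zero, zero_mul, hφ0]
  · have hp : 1 ≤ p := (Fact.out : p.Prime).one_lt.le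
    have : aeval y r / aeval y s * Y = ((aeval y s)⁻¹) ^ p * (aeval y (r * s ^ (p - 1)) * Y) := by
      rw [map_mul, map_pow]
      obtain ⟨q, rfl⟩ : ∃ q, p = q + 1 := ⟨p - 1, by omega⟩
      rw [Nat.add_sub_cancel, pow_succ, inv_pow]
      field_simp
    rw [this, hφ.pow_mul, hpol, mul_zero]

end K

/-! ### Monomials in `LF` -/

section M
variable {κ : Type} [Field κ]

lemma r10_single_ne (m : Fin 3 → ℤ) (c : κ) (hc : c ≠ 0) :
    toLF (AddMonoidAlgebra.single m c) ≠ 0 := by
  rw [Ne, toLF, IsFractionRing.to_map_eq_zero_iff]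
  simpa using hc

lemma r10_zpow (m : Fin 3 → ℤ) (a : ℤ) :
    (toLF (AddMonoidAlgebra.single m (1 : κ))) ^ a = toLF (AddMonoidAlgebra.single (a • m) 1) := by
  have hn : ∀ (m : Fin 3 → ℤ) (n : ℕ), (toLF (AddMonoidAlgebra.single m (1 : κ))) ^ n =
      toLF (AddMonoidAlgebra.single (n • m) 1) := fun m n => by
    rw [toLF, toLF, ← map_pow, AddMonoidAlgebra.single_pow, one_pow]
  obtain ⟨n, rfl | rfl⟩ := a.eq_nat_or_neg
  · rw [zpow_natCast, hn, natCast_zsmul]
  · rw [zpow_neg, zpow_natCast, hn]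
    apply inv_eq_of_mul_eq_one_right
    rw [toLF, toLF, ← map_mul, AddMonoidAlgebra.single_mul_single]
    have : n • m + -(n : ℤ) • m = 0 := by rw [neg_smul, natCast_zsmul]; abel
    rw [this, one_mul]
    exact map_one _

end M

open scoped IntermediateField.algebraAdjoinAdjoin in
theorem p_R10 : S_R10 := by
  classical
  intro p _ k κ κ' _ _ _ _ _ _ φb Φ φ' u ι hu hk hφb hφb1 hΦ hφ' hφ'1 hιφ hιc hrange
  obtain ⟨m1, m2, hm1, hm2, hg, hi⟩ := r10_basis u hu
  have hp := (Fact.out : p.Prime)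
  have hφ'0 : φ' 0 = 0 := by
    have h := hφ'.add 0 0
    simpa using h
  have hιinj : Function.Injective ι := ι.injective
  -- the elements y1, y2
  have hex : ∀ m : Fin 3 → ℤ, wt u m = 0 → ∃ y : κ', ι y = toLF (AddMonoidAlgebra.single m 1) := by
    intro m hm
    refine (hrange _).2 ⟨AddMonoidAlgebra.single m 1, 1, one_ne_zero, ?_, ?_, ?_⟩
    · intro m' hm'
      rw [AddMonoidAlgebra.coeff_single, Finsupp.single_apply] at hm'
      by_cases h : m = m'
      · rw [← h]; exact hm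
      · rw [if_neg h] at hm'; exact absurd rfl hm'
    · intro m' hm'
      rw [AddMonoidAlgebra.one_def, AddMonoidAlgebra.coeff_single, Finsupp.single_apply] at hm'
      by_cases h : 0 = m'
      · rw [← h]; simp [wt]
      · rw [if_neg h] at hm'; exact absurd rfl hm'
    · rw [toLF, toLF, map_one, mul_one]
  obtain ⟨Y1, hY1⟩ := hex m1 hm1
  obtain ⟨Y2, hY2⟩ := hex m2 hm2
  have hY1ne : Y1 ≠ 0 := by
    rintro rfl
    rw [map_zero] at hY1
    exact r10_single_ne m1 (1 : κ) one_ne_zero hY1.symm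
  have hY2ne : Y2 ≠ 0 := by
    rintro rfl
    rw [map_zero] at hY2
    exact r10_single_ne m2 (1 : κ) one_ne_zero hY2.symm
  have hmon : ∀ (c : k) (a b : ℤ), ι (algebraMap k κ' c * (Y1 ^ a * Y2 ^ b)) =
      toLF (AddMonoidAlgebra.single (a • m1 + b • m2) (algebraMap k κ c)) := by
    intro c a b
    rw [map_mul, map_mul, map_zpow₀, map_zpow₀, hY1, hY2, r10_zpow, r10_zpow, hιc]
    rw [toLF, toLF, toLF, toLF, ← map_mul, ← map_mul, AddMonoidAlgebra.single_mul_single,
      AddMonoidAlgebra.single_mul_single]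
    simp
  -- polynomials
  have hpoly : ∀ P : MvPolynomial (Fin 2) k, ι (MvPolynomial.aeval ![Y1, Y2] P) =
      toLF (r10_T m1 m2 P) := by
    intro P
    induction P using MvPolynomial.induction_on'' with
    | C a =>
      rw [MvPolynomial.aeval_C, hιc, r10_T, MvPolynomial.coe_eval₂Hom, MvPolynomial.eval₂_C]
      rfl
    | monomial_add a b f _ _ h1 h2 =>
      rw [map_add, map_add, h2, h1, map_add, toLF, toLF, toLF, map_add]
    | mul_X q n h =>
      rw [map_mul, map_mul, h, map_mul, toLF, toLF, map_mul]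
      congr 1
      rw [MvPolynomial.aeval_X, r10_T, MvPolynomial.coe_eval₂Hom, MvPolynomial.eval₂_X]
      fin_cases n
      · exact hY1
      · exact hY2
  have hTinj := r10_T_inj (k := k) (κ := κ) m1 m2 hi
  have hpinj : ∀ P : MvPolynomial (Fin 2) k, MvPolynomial.aeval ![Y1, Y2] P = 0 → P = 0 := by
    intro P hP
    have h := hpoly P
    rw [hP, map_zero, eq_comm, toLF, IsFractionRing.to_map_eq_zero_iff] at h
    exact hTinj (by rw [h, map_zero])
  have hAI : AlgebraicIndependent k ![Y1, Y2] := by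
    rw [AlgebraicIndependent, injective_iff_map_eq_zero]
    exact hpinj
  -- the third property
  have hthird : ∀ (z : κ') (a : AddMonoidAlgebra κ (Fin 3 → ℤ)),
      (∀ m, a.coeff m ≠ 0 → wt u m = 0) → ι z = toLF a →
      ∃ (N N' : ℕ) (P : MvPolynomial (Fin 2) k),
        z * (Y1 ^ N * Y2 ^ N') = MvPolynomial.aeval ![Y1, Y2] P := by
    intro z a ha hz
    obtain ⟨N, N', P, hP⟩ := r10_clear m1 m2 u hk hg a ha
    refine ⟨N, N', P, hιinj ?_⟩
    have h1 : Y1 ^ N * Y2 ^ N' =
        MvPolynomial.aeval ![Y1, Y2] (MvPolynomial.X 0 ^ N * MvPolynomial.X 1 ^ N' :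
          MvPolynomial (Fin 2) k) := by
      simp
    rw [h1, map_mul, hpoly, hpoly, hz, ← hP, toLF, toLF, toLF, ← map_mul]
  -- κ' is generated by Y1, Y2
  have hgen : ∀ z : κ', ∃ P Q : MvPolynomial (Fin 2) k, MvPolynomial.aeval ![Y1, Y2] Q ≠ 0 ∧
      z * MvPolynomial.aeval ![Y1, Y2] Q = MvPolynomial.aeval ![Y1, Y2] P := by
    intro z
    obtain ⟨a, b, hb, ha0, hb0, hab⟩ := (hrange (ι z)).1 ⟨z, rfl⟩
    obtain ⟨N, N', P, hP⟩ := r10_clear m1 m2 u hk hg a ha0
    obtain ⟨M, M', Q, hQ⟩ := r10_clear m1 m2 u hk hg b hb0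
    have hQne : MvPolynomial.aeval ![Y1, Y2] Q ≠ 0 := by
      intro h
      have h1 := hpoly Q
      rw [h, map_zero, ← hQ, eq_comm, toLF, map_mul, mul_eq_zero] at h1
      rcases h1 with h1 | h1
      · exact hb ((IsFractionRing.to_map_eq_zero_iff).1 h1)
      · have h2 := hpoly (MvPolynomial.X 0 ^ M * MvPolynomial.X 1 ^ M')
        rw [toLF, h1, map_eq_zero] at h2
        have : Y1 ^ M * Y2 ^ M' = 0 := by simpa using h2
        exact (mul_ne_zero (pow_ne_zero _ hY1ne) (pow_ne_zero _ hY2ne)) this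
    refine ⟨P * (MvPolynomial.X 0 ^ M * MvPolynomial.X 1 ^ M'),
      Q * (MvPolynomial.X 0 ^ N * MvPolynomial.X 1 ^ N'), ?_, ?_⟩
    · rw [map_mul]
      refine mul_ne_zero hQne ?_
      simpa using ⟨fun h => absurd h hY1ne, fun h => absurd h hY2ne⟩
    · apply hιinj
      rw [map_mul, hpoly, hpoly, map_mul _ Q, map_mul _ P, ← hP, ← hQ]
      have e : toLF (b * r10_T (k := k) m1 m2 (MvPolynomial.X 0 ^ M * MvPolynomial.X 1 ^ M') *
          r10_T (k := k) m1 m2 (MvPolynomial.X 0 ^ N * MvPolynomial.X 1 ^ N')) =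
          toLF b * (toLF (r10_T (k := k) m1 m2 (MvPolynomial.X 0 ^ M * MvPolynomial.X 1 ^ M')) *
          toLF (r10_T (k := k) m1 m2 (MvPolynomial.X 0 ^ N * MvPolynomial.X 1 ^ N'))) := by
        rw [toLF, toLF, toLF, toLF, map_mul, map_mul, mul_assoc]
      rw [e, ← mul_assoc, hab]
      rw [toLF, toLF, toLF, toLF, ← map_mul, ← map_mul]
      congr 1
      ring
  -- φ0
  have hφ0ex : ∀ c : k, ∃ c' : k, algebraMap k κ c' = φb (algebraMap k κ c) := fun c => hk _
  choose φ0 hφ0 using hφ0ex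
  have h0 : ∀ c, φ' (algebraMap k κ' c) = algebraMap k κ' (φ0 c) := by
    intro c
    apply hιinj
    rw [hιφ, hιc, hιc, hφ0]
    have := hΦ.mul 0 (algebraMap k κ c)
    rwa [smul_zero] at this
  have hkinj : Function.Injective (algebraMap k κ') := (algebraMap k κ').injective
  have hφ0p : IsPinv p φ0 := by
    refine ⟨fun x y => hkinj ?_, fun a b => hkinj ?_⟩
    · rw [map_add, ← h0, ← h0, ← h0, map_add, hφ'.add]
    · rw [map_mul, ← h0, ← h0, map_mul, map_pow, hφ'.pow_mul]
  have hφ01 : φ0 1 = 1 := hkinj (by rw [← h0, map_one, hφ'1])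
  -- vanishing on monomials
  have hvan : ∀ (c : k) (a b : ℤ), ¬ ((p : ℤ) ∣ a ∧ (p : ℤ) ∣ b) →
      φ' (algebraMap k κ' c * (Y1 ^ a * Y2 ^ b)) = 0 := by
    intro c a b hab
    apply hιinj
    rw [hιφ, hmon, map_zero]
    exact hΦ.zero _ _ fun h => hab (r10_dvd p u m1 m2 hm1 hm2 hg hi a b h)
  have hvan1 : ∀ (c : k) (n : ℕ), ¬ p ∣ n → φ' (algebraMap k κ' c * Y1 ^ n) = 0 := by
    intro c n hn
    have := hvan c n 0 (fun h => hn (by exact_mod_cast h.1))
    rwa [zpow_zero, mul_one, zpow_natCast] at this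
  -- the field κ1
  set κ1 : IntermediateField k κ' := IntermediateField.adjoin k {Y1} with hκ1
  have hY1m : Y1 ∈ κ1 := IntermediateField.mem_adjoin_simple_self k Y1
  let y1 : κ1 := ⟨Y1, hY1m⟩
  have hrestr : ∀ x : κ1, φ' (x : κ') ∈ κ1 := fun x =>
    r10_restr p φ' hφ' φ0 h0 Y1 hvan1 x x.2
  let φ1 : κ1 → κ1 := fun x => ⟨φ' (x : κ'), hrestr x⟩
  have hφ1c : ∀ x : κ1, ((φ1 x : κ1) : κ') = φ' (x : κ') := fun x => rfl
  have hφ1p : IsPinv p φ1 := by
    refine ⟨fun x y => Subtype.ext ?_, fun a b => Subtype.ext ?_⟩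
    · simp only [φ1]; push_cast; exact hφ'.add _ _
    · simp only [φ1]; push_cast; exact hφ'.pow_mul _ _
  have hφ11 : φ1 1 = 1 := Subtype.ext (by rw [hφ1c]; push_cast; exact hφ'1)
  have hAI' : Transcendental k Y1 := by
    have h := hAI.transcendental 0
    simpa using h
  have htr1 : Transcendental k y1 := by
    intro h
    exact hAI' (by simpa using h.algebraMap (A := κ'))
  have htr2 : Transcendental κ1 Y2 := by
    have h := hAI.transcendental_adjoin (s := {0}) (i := 1) (by simp)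
    have h' : Transcendental (Algebra.adjoin k {Y1}) Y2 := by
      rw [Set.image_singleton] at h
      exact h
    intro hal
    exact h' (hal.restrictScalars (Algebra.adjoin k {Y1}))
  refine ⟨κ1, φ0, φ1, y1, Y2, ⟨htr1, ?_, hφ1p, hφ11, hφ0p, hφ01, ?_, ?_⟩,
    ⟨htr2, ?_, hφ', hφ'1, hφ1p, hφ11, ?_, ?_⟩, hthird⟩
  · intro f
    obtain ⟨r, s, hrs⟩ := (IntermediateField.mem_adjoin_simple_iff (F := k) (f : κ')).1 f.2
    have hval : ∀ q : k[X], ((aeval y1 q : κ1) : κ') = aeval Y1 q := fun q =>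
      (Polynomial.aeval_algebraMap_apply κ' y1 q).symm
    by_cases hs : aeval Y1 s = 0
    · refine ⟨0, 1, by simp, ?_⟩
      rw [hs, div_zero] at hrs
      have : f = 0 := Subtype.ext hrs
      rw [this]; simp
    · refine ⟨r, s, ?_, ?_⟩
      · intro h
        apply hs
        rw [← hval, h]; rfl
      · apply Subtype.ext
        push_cast
        rw [hval, hval, hrs, div_mul_cancel₀ _ hs]
  · intro a m
    apply Subtype.ext
    have e : (algebraMap k κ1 a * y1 ^ ((p : ℤ) * m)) = (y1 ^ m) ^ p * algebraMap k κ1 a := by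
      rw [mul_comm (p : ℤ) m, zpow_mul, zpow_natCast, mul_comm]
    rw [e, hφ1p.pow_mul]
    push_cast
    rw [hφ1c]
    have : ((algebraMap k κ1 a : κ1) : κ') = algebraMap k κ' a := rfl
    rw [this, h0, mul_comm]
  · intro a m hm
    apply Subtype.ext
    rw [hφ1c]
    have := hvan a m 0 (fun h => hm h.1)
    rw [zpow_zero, mul_one] at this
    push_cast
    exact this
  · intro z
    obtain ⟨P, Q, hQ, hPQ⟩ := hgen z
    refine ⟨MvPolynomial.aeval ![(C y1 : κ1[X]), X] P, MvPolynomial.aeval ![(C y1 : κ1[X]), X] Q,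
      ?_, ?_⟩
    · rw [r10_aeval]; exact hQ
    · rw [r10_aeval, r10_aeval]; exact hPQ
  · intro a m
    have e : (algebraMap κ1 κ' a * Y2 ^ ((p : ℤ) * m)) = (Y2 ^ m) ^ p * algebraMap κ1 κ' a := by
      rw [mul_comm (p : ℤ) m, zpow_mul, zpow_natCast, mul_comm]
    rw [e, hφ'.pow_mul, mul_comm]
    rfl
  · intro a m hm
    refine r10_van p φ' hφ' Y1 (Y2 ^ m) ?_ (a : κ') a.2
    intro c n
    have := hvan c n m (fun h => hm h.2)
    rwa [zpow_natCast, ← mul_assoc] at this

end Pool.Agent.F2W
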