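import Pool.Agent.Lib.MP_305fdd_al.F2.W.Stm3
import Pool.Agent.Lib.MP_305fdd_al.F2.RF.Stm

/-!
# MP_305fdd_al, F_2 project, section W: piece R11 (log type in the residue field of a chart)
-/

set_option autoImplicit false

namespace Pool.Agent.F2W

open Pool.Agent.F2Ch Polynomial Pool.Agent.F2 Pool.Agent.F2RF

theorem p_R11 (hB4 : Pool.Agent.F2Ch.S_B4) (hC5 : Pool.Agent.F2Ch.S_C5)
    (hC5b : Pool.Agent.F2Ch.S_C5b) (hC9 : Pool.Agent.F2Ch.S_C9) (hW6 : Pool.Agent.F2RF.S_W6) :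
    S_R11 := by
  intro p _ k K Γ κ _ _ _ _ _ _ _ _ _ _ n t ht r s htr φ hφ hφ1 hlog V hV x ex ac φb hvb hac
    htrκ hfg hφb hφb1 hres
  obtain ⟨n', t', ht'⟩ := hfg
  have : CharP K p := charP_of_injective_algebraMap (algebraMap k K).injective p
  have : CharP κ p := charP_of_injective_algebraMap (algebraMap k κ).injective p
  -- the residue field
  obtain ⟨d', b', ρ', hd', hb'⟩ := hB4 p k κ n' t' ht'
  have hds : d' = s := by
    have h1 : ((d' : ℕ) : Cardinal) = ((s : ℕ) : Cardinal) := by rw [← hd', htrκ]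
    exact_mod_cast h1
  subst hds
  obtain ⟨z, ρ, hz, hρ⟩ := hC5 p κ d' b' ρ' hb'
  -- lifts
  choose y hy0 hyV hyz using fun j => hac.surj (z j) (hz j)
  -- the field `K`
  obtain ⟨d, b, ρ0, hd, hb⟩ := hB4 p k K n t ht
  have hdr : d = r + d' := by
    have h1 : ((d : ℕ) : Cardinal) = ((r + d' : ℕ) : Cardinal) := by rw [← hd, htr]
    exact_mod_cast h1
  subst hdr
  have hρ' : IsPB p (monY (p := p) fun j => ac (y j)) ρ := by
    have h1 : (fun j => ac (y j)) = z := funext hyz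
    rw [h1]
    exact hρ
  obtain ⟨π, hF⟩ := hC5b p k K Γ κ V hV.isv hV.triv r d' x ex ac hvb hac y ρ hy0 hyV hρ'
    (Fin (p ^ (r + d'))) b ρ0 hb (by rw [Fintype.card_fin])
  obtain ⟨h, hh, hφh, hrest⟩ := hC9 p k K Γ κ V r d' x y ex ac π ρ hF φ hφ hφ1
  obtain ⟨hVh, φb', hφb', hφb'1, hφb'ρ, hres'⟩ := hrest hV.compat
  have hz0 : ∀ c, φb c = φb' c := by
    intro c
    by_cases hc : c = 0
    · have hb0 : ∀ ψ : κ → κ, IsPinv p ψ → ψ 0 = 0 := by
        intro ψ hψ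
        have h1 := hψ.add 0 0
        rw [add_zero] at h1
        exact (left_eq_add.1 h1)
      rw [hc, hb0 φb hφb, hb0 φb' hφb']
    · obtain ⟨f, hf0, hfV, hfc⟩ := hac.surj c hc
      have hge : Ge V 0 f := Or.inr hfV.ge
      have hl : lc V ac 0 f = c := by
        unfold lc
        rw [if_pos ⟨hf0, hfV⟩, hfc]
      rw [← hl, ← (hres f hge).2, (hres' f hge).2]
  refine ⟨hW6 p k K Γ κ V r d' x y ex ac π ρ hF φ h hφh φb (fun c => ?_) hlog, z, ρ, ⟨hz, hρ⟩⟩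
  rw [hz0, hφb'ρ]

end Pool.Agent.F2W
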