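import Pool.Agent.Lib.MP_305fdd_al.F2.W.Stm3

set_option autoImplicit false

namespace Pool.Agent.F2W

open Pool.Agent.F2Ch Polynomial Pool.Agent.F2 Pool.Agent.F2RF

theorem r12_part {Γ κ : Type} [AddCommGroup Γ] [LinearOrder Γ] [IsOrderedAddMonoid Γ] [Field κ]
    {r : ℕ} (u : Fin r → Γ) (c : Γ) (P : AddMonoidAlgebra κ (Fin r → ℤ)) (m : Fin r → ℤ)
    (h : (part u c P).coeff m ≠ 0) : wt u m = c := by
  classical
  by_contra hcon
  apply h
  simp only [part]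
  rw [AddMonoidAlgebra.coeff_ofCoeff]
  exact Finsupp.filter_apply_neg (fun m => wt u m = c) P.coeff hcon

theorem p_R12 (hR6 : S_R6) (hR7 : S_R7) (hR8 : S_R8) (hR9 : S_R9) (hR10 : S_R10) (hR11 : S_R11)
    (hX1 : Pool.Agent.F2Ch.S_X1) : S_R12 := by
  intro p _ k K κ' _ _ _ _ _ _ _ n t hfg htr φ hpinv hone hlog w hwZ hwn hReg r' x' ac' hac' φ'
    hpinv' hone' hres' q Ψ hq0 hwq hΨ htrans v hv hvcomp hvtriv
  obtain ⟨Γ, _, _, _, V, r, s, κ, _, _, x, ex, ac, φb, N, L, u, hVZ, hch, h2r, hrs, htrk,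
    ⟨n', t', hfg'⟩, hgood, hon⟩ := hReg
  have : CharP κ p := charP_of_injective_algebraMap (algebraMap k κ).injective p
  have : PerfectRing k p := PerfectField.toPerfectRing p
  have hΨ0 : Ψ ≠ 0 := by
    rintro rfl
    exact htrans (isAlgebraic_zero)
  -- the weight is not zero
  have hu : u ≠ 0 := by
    rintro rfl
    have h0 : ∀ b : MvPolynomial (Fin n) k, MvPolynomial.aeval t b ≠ 0 →
        w (MvPolynomial.aeval t b) = 0 := by
      intro b hb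
      obtain ⟨-, m, -, hm⟩ := hon.min b hb
      rw [hm, wt]
      simp
    obtain ⟨f, hf0, hf1⟩ := hwn
    obtain ⟨a, b, hb, hab⟩ := hfg f
    have h1 := hwZ.isv.mul f _ hf0 hb
    rw [hab, h0 b hb, hf1, h0 a (by rw [← hab]; exact mul_ne_zero hf0 hb)] at h1
    norm_num at h1
  obtain ⟨Φ, hΦ⟩ := hX1 p κ r φb hch.pinv
  obtain ⟨AC, hAC⟩ := hch.lform ℤ u w Φ hΦ hgood hon
  obtain ⟨ι, hι1, hι2, hι3, hι4⟩ := hR7 p k K κ κ' n r t φ x L Φ u w AC hAC hΦ.pinv hwZ.isv r' x'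
    ac' hac' φ' hres'
  have hΨL : ι (Ψ + Ψ⁻¹) = toLF (part u 0 (L (MvPolynomial.aeval t q))) := by
    rw [hΨ, hι1 _ hq0 hwq, hAC.eq q hq0, hwq]
  have hexp : ∀ m, (part u 0 (L (MvPolynomial.aeval t q))).coeff m ≠ 0 → wt u m = 0 :=
    fun m hm => r12_part u 0 _ m hm
  have hr : r = 2 ∨ r = 3 := by omega
  rcases hr with rfl | rfl
  · have hs : s = 1 := by omega
    subst hs
    obtain ⟨i, y, hi, htor, hpoly⟩ := hR8 p κ κ' φb Φ φ' u ι hu hch.pinv hch.one hΦ hpinv' hone'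
      hι3 hι4
    obtain ⟨N', P, hP⟩ := hpoly (Ψ + Ψ⁻¹) _ hexp hΨL
    obtain ⟨hlogb, z, ρ, hMB⟩ := hR11 p k K Γ κ n t hfg 2 1 (by rw [htr]; norm_num) φ hpinv hone
      hlog V hVZ x ex ac φb hch.vb hch.isac htrk ⟨n', t', hfg'⟩ hch.pinv hch.one hch.res
    let _ : Algebra κ κ' := i.toAlgebra
    have : IsScalarTower k κ κ' := IsScalarTower.of_algebraMap_eq fun c => by
      apply ι.injective
      change ι (algebraMap k κ' c) = ι (i (algebraMap k κ c))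
      rw [hι2, hi]
    refine hR6 p k κ κ' n' t' hfg' (by rw [htrk]; norm_num) z ρ hMB φb φ' y hlogb htor Ψ N' P hΨ0
      ?_ v hv hvcomp hvtriv
    rw [hP]
    rfl
  · have hs : s = 0 := by omega
    subst hs
    have halg : Algebra.IsAlgebraic k κ := trdeg_eq_zero_iff.1 (by rw [htrk]; norm_num)
    have hsurj : Function.Surjective (algebraMap k κ) :=
      (IsAlgClosed.algebraMap_bijective_of_isIntegral (k := k) (K := κ)).2
    obtain ⟨κ1, φ0, φ1, y1, y2, htor0, htor1, hpoly⟩ := hR10 p k κ κ' φb Φ φ' u ι hu hsurj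
      hch.pinv hch.one hΦ hpinv' hone' hι3 hι2 hι4
    obtain ⟨N1, N2, P, hP⟩ := hpoly (Ψ + Ψ⁻¹) _ hexp hΨL
    exact hR9 p k κ1 κ' φ0 φ1 φ' y1 y2 htor0 htor1 Ψ N1 N2 P htrans hP v hv.isv

end Pool.Agent.F2W
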