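import Pool.Agent.Lib.MP_305fdd_al.F2.W.Stm2

set_option autoImplicit false

namespace Pool.Agent.F2W

open Pool.Agent.F2Ch Polynomial Pool.Agent.F2 Pool.Agent.F2RF

section
variable {F : Type} [Field F] {w : F → ℤ}

private theorem r2_one (hw : IsV w) : w 1 = 0 := by
  have h := hw.mul 1 1 one_ne_zero one_ne_zero
  rw [mul_one] at h
  omega

private theorem r2_neg (hw : IsV w) (x : F) : w (-x) = w x := by
  by_cases hx : x = 0
  · rw [hx, neg_zero]
  · have h1 := hw.mul (-1) (-1) (neg_ne_zero.2 one_ne_zero) (neg_ne_zero.2 one_ne_zero)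
    rw [neg_one_mul, neg_neg, r2_one hw] at h1
    have h2 := hw.mul (-1) x (neg_ne_zero.2 one_ne_zero) hx
    rw [neg_one_mul] at h2
    omega

private theorem r2_add (hw : IsV w) {x r : F} (hx : x ≠ 0) (h : r = 0 ∨ w x < w r) :
    x + r ≠ 0 ∧ w (x + r) = w x := by
  by_cases hr : r = 0
  · rw [hr, add_zero]
    exact ⟨hx, rfl⟩
  · have hlt := h.resolve_left hr
    have hne : x + r ≠ 0 := by
      intro h0
      have : r = -x := eq_neg_of_add_eq_zero_right h0
      rw [this, r2_neg hw] at hlt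
      exact lt_irrefl _ hlt
    refine ⟨hne, le_antisymm ?_ ?_⟩
    · have h1 := hw.add (x + r) (-r) hne (neg_ne_zero.2 hr) (by simpa using hx)
      rw [r2_neg hw, add_neg_cancel_right] at h1
      rcases min_le_iff.1 h1 with h2 | h2
      · exact h2
      · exact absurd hlt (not_lt.2 h2)
    · have h1 := hw.add x r hx hr hne
      rwa [min_eq_left hlt.le] at h1

private theorem r2_sum (hw : IsV w) {ι : Type} (s : Finset ι) (f : ι → F) (c : ℤ)
    (h : ∀ i ∈ s, f i = 0 ∨ c ≤ w (f i)) : ∑ i ∈ s, f i = 0 ∨ c ≤ w (∑ i ∈ s, f i) := by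
  classical
  induction s using Finset.induction_on with
  | empty => left; simp
  | insert a s ha ih =>
    rw [Finset.sum_insert ha]
    have h1 := h a (Finset.mem_insert_self a s)
    have h2 := ih fun i hi => h i (Finset.mem_insert_of_mem hi)
    by_cases h0 : f a + ∑ i ∈ s, f i = 0
    · exact Or.inl h0
    · right
      by_cases ha0 : f a = 0
      · rw [ha0, zero_add] at h0 ⊢
        exact h2.resolve_left h0
      · by_cases hs0 : ∑ i ∈ s, f i = 0
        · rw [hs0, add_zero]
          exact h1.resolve_left ha0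
        · exact (le_min (h1.resolve_left ha0) (h2.resolve_left hs0)).trans
            (hw.add _ _ ha0 hs0 h0)

/-- `m` is the weighted minimum of the coefficients of `P` -/
private def r2_M (w : F → ℤ) (β : ℤ) (P : F[X]) (m : ℤ) : Prop :=
  (∀ j, P.coeff j ≠ 0 → m ≤ w (P.coeff j) + j * β) ∧
    ∃ j, P.coeff j ≠ 0 ∧ m = w (P.coeff j) + j * β

private theorem r2_ex (w : F → ℤ) (β : ℤ) {P : F[X]} (hP : P ≠ 0) : ∃ m, r2_M w β P m := by
  obtain ⟨j, hj, hmin⟩ := Finset.exists_min_image P.support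
    (fun j => w (P.coeff j) + j * β) (Polynomial.support_nonempty.2 hP)
  exact ⟨_, fun i hi => hmin i (Polynomial.mem_support_iff.2 hi), j,
    Polynomial.mem_support_iff.1 hj, rfl⟩

private theorem r2_uniq {β : ℤ} {P : F[X]} {m m' : ℤ} (h : r2_M w β P m) (h' : r2_M w β P m') :
    m = m' := by
  obtain ⟨j, hj, e⟩ := h.2
  obtain ⟨j', hj', e'⟩ := h'.2
  apply le_antisymm
  · rw [e']; exact h.1 j' hj'
  · rw [e]; exact h'.1 j hj

private theorem r2_term (hw : IsV w) {β : ℤ} {P Q : F[X]} {m n : ℤ} {i j : ℕ}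
    (hP : P.coeff i ≠ 0 → m ≤ w (P.coeff i) + i * β)
    (hQ : Q.coeff j ≠ 0 → n ≤ w (Q.coeff j) + j * β) :
    P.coeff i * Q.coeff j = 0 ∨ m + n - ((i + j : ℕ) : ℤ) * β ≤ w (P.coeff i * Q.coeff j) := by
  by_cases h1 : P.coeff i = 0
  · left; rw [h1, zero_mul]
  by_cases h2 : Q.coeff j = 0
  · left; rw [h2, mul_zero]
  right
  rw [hw.mul _ _ h1 h2]
  have := hP h1
  have := hQ h2
  push_cast
  linarith

private theorem r2_mul (hw : IsV w) {β : ℤ} {P Q : F[X]} {m n : ℤ} (hP : r2_M w β P m)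
    (hQ : r2_M w β Q n) : r2_M w β (P * Q) (m + n) := by
  classical
  constructor
  · intro k hk
    rw [Polynomial.coeff_mul] at hk ⊢
    have h := r2_sum hw (Finset.HasAntidiagonal.antidiagonal k) (fun x => P.coeff x.1 * Q.coeff x.2)
      (m + n - (k : ℤ) * β) (by
        rintro ⟨i, j⟩ hij
        have h1 := r2_term hw (i := i) (j := j) (hP.1 i) (hQ.1 j)
        rw [Finset.HasAntidiagonal.mem_antidiagonal.1 hij] at h1
        exact h1)
    have := h.resolve_left hk
    linarith
  · have hPe : ∃ i, P.coeff i ≠ 0 ∧ m = w (P.coeff i) + i * β := hP.2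
    have hQe : ∃ j, Q.coeff j ≠ 0 ∧ n = w (Q.coeff j) + j * β := hQ.2
    obtain ⟨hi0, hi1⟩ := Nat.find_spec hPe
    obtain ⟨hj0, hj1⟩ := Nat.find_spec hQe
    set i0 := Nat.find hPe with hi
    set j0 := Nat.find hQe with hj
    have hmem : (i0, j0) ∈ Finset.HasAntidiagonal.antidiagonal (i0 + j0) := by
      rw [Finset.HasAntidiagonal.mem_antidiagonal]
    have hmain : w (P.coeff i0 * Q.coeff j0) = m + n - ((i0 + j0 : ℕ) : ℤ) * β := by
      rw [hw.mul _ _ hi0 hj0]
      push_cast
      linarith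
    have hrest : ∑ x ∈ (Finset.HasAntidiagonal.antidiagonal (i0 + j0)).erase (i0, j0),
        P.coeff x.1 * Q.coeff x.2 = 0 ∨
        m + n - ((i0 + j0 : ℕ) : ℤ) * β + 1 ≤ w (∑ x ∈ (Finset.HasAntidiagonal.antidiagonal
          (i0 + j0)).erase (i0, j0), P.coeff (x : ℕ × ℕ).1 * Q.coeff x.2) := by
      refine r2_sum hw _ (fun x : ℕ × ℕ => P.coeff x.1 * Q.coeff x.2) _ ?_
      rintro ⟨i, j⟩ hij
      obtain ⟨hne, hmem'⟩ := Finset.mem_erase.1 hij
      have hsum : i + j = i0 + j0 := Finset.HasAntidiagonal.mem_antidiagonal.1 hmem'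
      have hcase : i < i0 ∨ j < j0 := by
        by_contra hcon
        push Not at hcon
        apply hne
        have h1 : i = i0 := by omega
        have h2 : j = j0 := by omega
        rw [h1, h2]
      rcases hcase with hlt | hlt
      · have h1 : P.coeff i ≠ 0 → m + 1 ≤ w (P.coeff i) + i * β := by
          intro h0
          have h2 := hP.1 i h0
          have h3 : m ≠ w (P.coeff i) + i * β := fun h4 => Nat.find_min hPe hlt ⟨h0, h4⟩
          omega
        have h4 := r2_term hw (i := i) (j := j) h1 (hQ.1 j)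
        rw [hsum] at h4
        rcases h4 with h4 | h4
        · exact Or.inl h4
        · right
          simp only
          linarith
      · have h1 : Q.coeff j ≠ 0 → n + 1 ≤ w (Q.coeff j) + j * β := by
          intro h0
          have h2 := hQ.1 j h0
          have h3 : n ≠ w (Q.coeff j) + j * β := fun h4 => Nat.find_min hQe hlt ⟨h0, h4⟩
          omega
        have h4 := r2_term hw (i := i) (j := j) (hP.1 i) h1
        rw [hsum] at h4
        rcases h4 with h4 | h4
        · exact Or.inl h4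
        · right
          simp only
          linarith
    refine ⟨i0 + j0, ?_⟩
    rw [Polynomial.coeff_mul, ← Finset.add_sum_erase _ _ hmem]
    have hfin := r2_add hw (mul_ne_zero hi0 hj0) (r := ∑ x ∈ (Finset.HasAntidiagonal.antidiagonal
      (i0 + j0)).erase (i0, j0), P.coeff x.1 * Q.coeff x.2) (hrest.imp id fun h => by
        rw [hmain]; linarith)
    refine ⟨hfin.1, ?_⟩
    simp only
    rw [hfin.2, hmain]
    ring

private theorem r2_addP (hw : IsV w) {β : ℤ} {P Q : F[X]} {m n l : ℤ} (hP : r2_M w β P m)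
    (hQ : r2_M w β Q n) (hl : r2_M w β (P + Q) l) : min m n ≤ l := by
  obtain ⟨j, hj, e⟩ := hl.2
  rw [Polynomial.coeff_add] at hj e
  rw [e]
  by_cases h1 : P.coeff j = 0
  · rw [h1, zero_add] at hj ⊢
    exact (min_le_right _ _).trans (hQ.1 j hj)
  by_cases h2 : Q.coeff j = 0
  · rw [h2, add_zero] at hj ⊢
    exact (min_le_left _ _).trans (hP.1 j hj)
  have h3 := hw.add _ _ h1 h2 hj
  have h4 := hP.1 j h1
  have h5 := hQ.1 j h2
  rcases min_le_iff.1 h3 with h | h
  · exact (min_le_left _ _).trans (by linarith)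
  · exact (min_le_right _ _).trans (by linarith)

end

private theorem r2_main (κ1 κ : Type) [Field κ1] [Field κ] [Algebra κ1 κ] (y : κ)
    (hy : Transcendental κ1 y)
    (hgen : ∀ f : κ, ∃ a b : κ1[X], aeval y b ≠ 0 ∧ f * aeval y b = aeval y a)
    (w : κ1 → ℤ) (hw : IsV w) (β : ℤ) : ∃ v : κ → ℤ, IsV v ∧
      (∀ a, a ≠ 0 → v (algebraMap κ1 κ a) = w a) ∧ v y = β ∧
      ∀ P : κ1[X], P ≠ 0 → r2_M w β P (v (aeval y P)) := by
  classical
  have hinj : Function.Injective (aeval y : κ1[X] →ₐ[κ1] κ) :=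
    transcendental_iff_injective.1 hy
  have h0 : ∀ P : κ1[X], aeval y P = 0 → P = 0 := fun P hP => hinj (by rw [hP, map_zero])
  have hn0 : ∀ P : κ1[X], P ≠ 0 → aeval y P ≠ 0 := fun P hP h => hP (h0 P h)
  choose A B hB hAB using hgen
  have hex : ∃ M : κ1[X] → ℤ, ∀ P, P ≠ 0 → r2_M w β P (M P) := by
    refine ⟨fun P => if h : P = 0 then 0 else (r2_ex w β h).choose, fun P hP => ?_⟩
    simp only [dif_neg hP]
    exact (r2_ex w β hP).choose_spec
  obtain ⟨M, hM⟩ := hex
  have hMmul : ∀ P Q, P ≠ 0 → Q ≠ 0 → M (P * Q) = M P + M Q := fun P Q hP hQ =>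
    r2_uniq (hM _ (mul_ne_zero hP hQ)) (r2_mul hw (hM P hP) (hM Q hQ))
  let v : κ → ℤ := fun f => if f = 0 then 0 else M (A f) - M (B f)
  have hv0 : v 0 = 0 := if_pos rfl
  have hvf : ∀ f, f ≠ 0 → ∀ a b : κ1[X], aeval y b ≠ 0 → f * aeval y b = aeval y a →
      v f = M a - M b := by
    intro f hf a b hb hab
    have hB0 : B f ≠ 0 := fun h => hB f (by rw [h, map_zero])
    have hb0 : b ≠ 0 := fun h => hb (by rw [h, map_zero])
    have hA0 : A f ≠ 0 := by
      intro h
      have h1 := hAB f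
      rw [h, map_zero] at h1
      exact (mul_ne_zero hf (hB f)) h1
    have ha0 : a ≠ 0 := by
      intro h
      rw [h, map_zero] at hab
      exact (mul_ne_zero hf hb) hab
    have hcross : A f * b = a * B f := by
      apply hinj
      rw [map_mul, map_mul, ← hAB f, ← hab]
      ring
    have h1 := congrArg M hcross
    rw [hMmul _ _ hA0 hb0, hMmul _ _ ha0 hB0] at h1
    change (if f = 0 then 0 else M (A f) - M (B f)) = _
    rw [if_neg hf]
    linarith
  have hM1 : M 1 = 0 := by
    have h1 := hMmul 1 1 one_ne_zero one_ne_zero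
    rw [mul_one] at h1
    omega
  have haev : ∀ P : κ1[X], P ≠ 0 → v (aeval y P) = M P := by
    intro P hP
    have h1 := hvf (aeval y P) (hn0 P hP) P 1 (by rw [map_one]; exact one_ne_zero)
      (by rw [map_one, mul_one])
    rw [h1, hM1, sub_zero]
  have hA' : ∀ f, f ≠ 0 → A f ≠ 0 := by
    intro f hf h
    have h1 := hAB f
    rw [h, map_zero] at h1
    exact (mul_ne_zero hf (hB f)) h1
  have hB' : ∀ f, B f ≠ 0 := fun f h => hB f (by rw [h, map_zero])
  refine ⟨v, ⟨hv0, ?_, ?_⟩, ?_, ?_, ?_⟩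
  · intro f g hf hg
    have h1 := hvf (f * g) (mul_ne_zero hf hg) (A f * A g) (B f * B g)
      (by rw [map_mul]; exact mul_ne_zero (hB f) (hB g))
      (by rw [map_mul, map_mul, ← hAB f, ← hAB g]; ring)
    rw [h1, hvf f hf _ _ (hB f) (hAB f), hvf g hg _ _ (hB g) (hAB g),
      hMmul _ _ (hA' f hf) (hA' g hg), hMmul _ _ (hB' f) (hB' g)]
    ring
  · intro f g hf hg hfg
    have hbb : aeval y (B f * B g) ≠ 0 := by
      rw [map_mul]; exact mul_ne_zero (hB f) (hB g)
    have h1 := hvf (f + g) hfg (A f * B g + A g * B f) (B f * B g) hbb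
      (by rw [map_add, map_mul, map_mul, map_mul, ← hAB f, ← hAB g]; ring)
    have h2 := hvf f hf (A f * B g) (B f * B g) hbb
      (by rw [map_mul, map_mul, ← hAB f]; ring)
    have h3 := hvf g hg (A g * B f) (B f * B g) hbb
      (by rw [map_mul, map_mul, ← hAB g]; ring)
    have hs0 : A f * B g + A g * B f ≠ 0 := by
      intro h
      apply mul_ne_zero hfg hbb
      have : (f + g) * aeval y (B f * B g) = aeval y (A f * B g + A g * B f) := by
        rw [map_add, map_mul, map_mul, map_mul, ← hAB f, ← hAB g]; ring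
      rw [this, h, map_zero]
    have h4 := r2_addP hw (hM _ (mul_ne_zero (hA' f hf) (hB' g)))
      (hM _ (mul_ne_zero (hA' g hg) (hB' f))) (hM _ hs0)
    rw [h1, h2, h3]
    rcases min_le_iff.1 h4 with h | h
    · exact (min_le_left _ _).trans (by linarith)
    · exact (min_le_right _ _).trans (by linarith)
  · intro a ha
    rw [← Polynomial.aeval_C y a, haev _ (Polynomial.C_ne_zero.2 ha)]
    refine r2_uniq (hM _ (Polynomial.C_ne_zero.2 ha)) ⟨?_, 0, ?_, ?_⟩
    · intro j hj
      have hj0 : j = 0 := by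
        by_contra h
        exact hj (Polynomial.coeff_C_of_ne_zero h)
      subst hj0
      simp
    · simpa using ha
    · simp
  · have hX : (X : κ1[X]) ≠ 0 := Polynomial.X_ne_zero
    have h1 := haev X hX
    rw [Polynomial.aeval_X] at h1
    rw [h1]
    refine r2_uniq (hM _ hX) ⟨?_, 1, ?_, ?_⟩
    · intro j hj
      have hj0 : j = 1 := by
        by_contra h
        exact hj (Polynomial.coeff_X_of_ne_one h)
      subst hj0
      simp [r2_one hw]
    · simp
    · simp [r2_one hw]
  · intro P hP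
    rw [haev P hP]
    exact hM P hP

theorem p_R2 : S_R2 := by
  intro κ1 κ _ _ _ y hy hgen v1 hv1 α β hα
  have hw : IsV (fun x => α * v1 x) := by
    refine ⟨?_, ?_, ?_⟩
    · simp [hv1.zero]
    · intro x z hx hz
      change α * v1 (x * z) = α * v1 x + α * v1 z
      rw [hv1.mul x z hx hz, mul_add]
    · intro x z hx hz hxz
      have h := hv1.add x z hx hz hxz
      change min (α * v1 x) (α * v1 z) ≤ α * v1 (x + z)
      rcases min_le_iff.1 h with h | h
      · exact (min_le_left _ _).trans (mul_le_mul_of_nonneg_left h hα.le)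
      · exact (min_le_right _ _).trans (mul_le_mul_of_nonneg_left h hα.le)
  obtain ⟨v, hv, h1, h2, h3⟩ := r2_main κ1 κ y hy hgen _ hw β
  exact ⟨v, hv, h1, h2, h3⟩

end Pool.Agent.F2W
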