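import Pool.Agent.Lib.MP_305fdd_al.F2.W.Stm2

set_option autoImplicit false

namespace Pool.Agent.F2W

open Pool.Agent.F2Ch Polynomial Pool.Agent.F2 Pool.Agent.F2RF

private theorem r4_pow {κ : Type} [Field κ] (v : κ → ℤ) (hv : IsV v) (h1 : v 1 = 0) (y : κ)
    (hy : y ≠ 0) (hvy : v y = 0) (n : ℕ) : v (y ^ n) = 0 := by
  induction n with
  | zero => rw [pow_zero, h1]
  | succ n ih => rw [pow_succ, hv.mul _ _ (pow_ne_zero n hy) hy, ih, hvy, add_zero]

private theorem r4_sum {κ : Type} [Field κ] {p : ℕ} (φ : κ → κ) (hφ : IsPinv p φ) {ι : Type}
    (s : Finset ι) (g : ι → κ) : φ (∑ i ∈ s, g i) = ∑ i ∈ s, φ (g i) := by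
  classical
  have h0 : φ 0 = 0 := by
    have h := hφ.add 0 0
    rw [add_zero] at h
    have h2 : φ 0 + 0 = φ 0 + φ 0 := by rw [add_zero]; exact h
    exact (add_left_cancel h2).symm
  induction s using Finset.induction_on with
  | empty => rw [Finset.sum_empty, Finset.sum_empty, h0]
  | insert a s ha ih => rw [Finset.sum_insert ha, Finset.sum_insert ha, hφ.add, ih]

theorem p_R4 : S_R4 := by
  intro p _ κ1 κ _ _ _ φ1 φ y hT v hv hC hv1 hvy
  have hp : p.Prime := Fact.out
  have hp0 : p ≠ 0 := hp.ne_zero
  have hp1 : 1 < p := hp.one_lt
  have hinj : Function.Injective (aeval y : κ1[X] →ₐ[κ1] κ) :=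
    transcendental_iff_injective.mp hT.tr
  have hne : ∀ P : κ1[X], P ≠ 0 → aeval y P ≠ 0 := by
    intro P hP h
    apply hP
    apply hinj
    rw [h, map_zero]
  have hy : y ≠ 0 := by
    intro h
    have h1 := hne X X_ne_zero
    rw [aeval_X] at h1
    exact h1 h
  have h1 : v 1 = 0 := by
    have := hv1 1
    rwa [map_one] at this
  have hpow := r4_pow v hv h1 y hy hvy
  have hterm : ∀ (a : κ1) (n : ℕ), φ (algebraMap κ1 κ a * y ^ n) =
      if p ∣ n then algebraMap κ1 κ (φ1 a) * y ^ (n / p) else 0 := by
    intro a n
    split_ifs with h
    · obtain ⟨m, rfl⟩ := h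
      rw [Nat.mul_div_cancel_left _ hp.pos]
      have h2 := hT.tor a (m : ℤ)
      have e1 : y ^ ((p : ℤ) * (m : ℤ)) = y ^ (p * m) := by
        rw [← Nat.cast_mul, zpow_natCast]
      rw [e1, zpow_natCast] at h2
      exact h2
    · have h2 := hT.tor0 a (n : ℤ) (by
        intro h3
        exact h (by exact_mod_cast h3))
      rw [zpow_natCast] at h2
      exact h2
  have key : ∀ d : ℕ, ∀ P : κ1[X], P ≠ 0 → P.natDegree = d → v (aeval y P) = 0 := by
    intro d
    induction d using Nat.strong_induction_on with
    | _ d ih =>
      intro P hP hd
      by_cases hc0 : P.coeff 0 = 0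
      · -- divide by X
        obtain ⟨R, hR⟩ := X_dvd_iff.mpr hc0
        have hR0 : R ≠ 0 := by
          rintro rfl
          rw [mul_zero] at hR
          exact hP hR
        have hdeg : R.natDegree < d := by
          rw [← hd, hR, natDegree_X_mul hR0]
          exact Nat.lt_succ_self _
        rw [hR, map_mul, aeval_X, hv.mul _ _ hy (hne R hR0), hvy, zero_add]
        exact ih _ hdeg R hR0 rfl
      · rcases Nat.eq_zero_or_pos d with hd0 | hdpos
        · rw [eq_C_of_natDegree_eq_zero (hd.trans hd0), aeval_C]
          exact hv1 _
        · -- the polynomial Q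
          set c := P.coeff 0 with hc
          let Q : κ1[X] := ∑ i ∈ Finset.range (P.natDegree + 1),
            if p ∣ i then C (φ1 (c⁻¹ * P.coeff i)) * X ^ (i / p) else 0
          have hz : algebraMap κ1 κ c⁻¹ * aeval y P =
              ∑ i ∈ Finset.range (P.natDegree + 1),
                algebraMap κ1 κ (c⁻¹ * P.coeff i) * y ^ i := by
            rw [aeval_eq_sum_range, Finset.mul_sum]
            refine Finset.sum_congr rfl fun i _ => ?_
            rw [Algebra.smul_def, map_mul]
            ring
          have hφz : φ (algebraMap κ1 κ c⁻¹ * aeval y P) = aeval y Q := by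
            rw [hz, r4_sum φ hT.pinv, map_sum]
            refine Finset.sum_congr rfl fun i _ => ?_
            rw [hterm]
            split_ifs with h
            · rw [map_mul, aeval_C, map_pow, aeval_X]
            · rw [map_zero]
          have hQ0 : Q.coeff 0 = 1 := by
            rw [finsetSum_coeff, Finset.sum_eq_single 0]
            · rw [if_pos (dvd_zero p), Nat.zero_div, pow_zero, mul_one, coeff_C_zero,
                inv_mul_cancel₀ hc0, hT.one1]
            · intro i _ hi
              split_ifs with h
              · rw [coeff_C_mul, coeff_X_pow, if_neg, mul_zero]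
                intro h3
                apply hi
                obtain ⟨m, rfl⟩ := h
                rw [Nat.mul_div_cancel_left _ hp.pos] at h3
                rw [← h3, mul_zero]
              · rw [coeff_zero]
            · intro h
              exact absurd (Finset.mem_range.mpr (Nat.succ_pos _)) h
          have hQne : Q ≠ 0 := by
            intro h
            rw [h, coeff_zero] at hQ0
            exact zero_ne_one hQ0
          have hQdeg : Q.natDegree < d := by
            have h2 : Q.natDegree ≤ d / p := by
              refine natDegree_sum_le_of_forall_le _ _ fun i hi => ?_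
              have hi' : i ≤ d := by
                rw [Finset.mem_range, hd] at hi
                omega
              split_ifs with h
              · exact (natDegree_C_mul_X_pow_le _ _).trans (Nat.div_le_div_right hi')
              · rw [natDegree_zero]
                exact Nat.zero_le _
            exact h2.trans_lt (Nat.div_lt_self hdpos hp1)
          have hvQ := ih _ hQdeg Q hQne rfl
          have hcz : algebraMap κ1 κ c⁻¹ ≠ 0 := by
            rw [Ne, map_eq_zero]
            exact inv_ne_zero hc0
          have hvz : v (algebraMap κ1 κ c⁻¹ * aeval y P) = v (aeval y P) := by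
            rw [hv.mul _ _ hcz (hne P hP), hv1, zero_add]
          have hle : v (aeval y P) ≤ 0 := by
            have h2 := hC (algebraMap κ1 κ c⁻¹ * aeval y P) (by rw [hφz]; exact hne Q hQne)
            rw [hφz, hvQ, hvz, smul_zero] at h2
            exact h2
          -- nonnegativity
          have hge : ∀ s : Finset ℕ, (∑ i ∈ s, algebraMap κ1 κ (P.coeff i) * y ^ i) = 0 ∨
              0 ≤ v (∑ i ∈ s, algebraMap κ1 κ (P.coeff i) * y ^ i) := by
            intro s
            induction s using Finset.induction_on with
            | empty => left; rw [Finset.sum_empty]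
            | insert a s has ihs =>
              rw [Finset.sum_insert has]
              by_cases ha : algebraMap κ1 κ (P.coeff a) * y ^ a = 0
              · rw [ha, zero_add]
                exact ihs
              · have hva : v (algebraMap κ1 κ (P.coeff a) * y ^ a) = 0 := by
                  rw [hv.mul _ _ (left_ne_zero_of_mul ha) (right_ne_zero_of_mul ha), hv1, hpow,
                    add_zero]
                rcases ihs with h2 | h2
                · rw [h2, add_zero, hva]
                  right; exact le_rfl
                · by_cases hs0 : (∑ i ∈ s, algebraMap κ1 κ (P.coeff i) * y ^ i) = 0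
                  · rw [hs0, add_zero, hva]
                    right; exact le_rfl
                  · by_cases hsum : algebraMap κ1 κ (P.coeff a) * y ^ a +
                        ∑ i ∈ s, algebraMap κ1 κ (P.coeff i) * y ^ i = 0
                    · left; exact hsum
                    · right
                      have h3 := hv.add _ _ ha hs0 hsum
                      rw [hva] at h3
                      exact (le_min le_rfl h2).trans h3
          have hP' : aeval y P = ∑ i ∈ Finset.range (P.natDegree + 1),
              algebraMap κ1 κ (P.coeff i) * y ^ i := by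
            rw [aeval_eq_sum_range]
            refine Finset.sum_congr rfl fun i _ => ?_
            rw [Algebra.smul_def]
          have hge' := hge (Finset.range (P.natDegree + 1))
          rw [← hP'] at hge'
          exact le_antisymm hle (hge'.resolve_left (hne P hP))
  intro f
  by_cases hf : f = 0
  · rw [hf, hv.zero]
  · obtain ⟨a, b, hb, hab⟩ := hT.gen f
    have hb0 : b ≠ 0 := by
      rintro rfl
      exact hb (map_zero _)
    have ha0 : a ≠ 0 := by
      rintro rfl
      rw [map_zero] at hab
      exact mul_ne_zero hf hb hab
    have h2 := hv.mul f _ hf hb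
    rw [hab, key _ a ha0 rfl, key _ b hb0 rfl, add_zero] at h2
    exact h2.symm

end Pool.Agent.F2W
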