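import Pool.Agent.Lib.MP_305fdd_al.F2.W.Stm2

/-!
# MP_305fdd_al, F_2, section W: [F2W R5], normalisation of a valuation
-/

set_option autoImplicit false

namespace Pool.Agent.F2W

open Pool.Agent.F2Ch Polynomial Pool.Agent.F2 Pool.Agent.F2RF

theorem r5_one {M : Type} [Field M] {v : M → ℤ} (hv : IsV v) : v 1 = 0 := by
  have h := hv.mul 1 1 one_ne_zero one_ne_zero
  rw [mul_one] at h
  omega

theorem r5_inv {M : Type} [Field M] {v : M → ℤ} (hv : IsV v) {f : M} (hf : f ≠ 0) :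
    v f⁻¹ = -v f := by
  have h := hv.mul f f⁻¹ hf (inv_ne_zero hf)
  rw [mul_inv_cancel₀ hf, r5_one hv] at h
  omega

theorem r5_gen {M : Type} [Field M] {v : M → ℤ} (hv : IsV v) (hne : ∃ f, v f ≠ 0) :
    ∃ e : ℤ, 0 < e ∧ (∀ f, e ∣ v f) ∧ ∃ u, u ≠ 0 ∧ v u = e := by
  let H : AddSubgroup ℤ :=
    { carrier := {n | ∃ f : M, f ≠ 0 ∧ v f = n}
      zero_mem' := ⟨1, one_ne_zero, r5_one hv⟩
      add_mem' := by
        rintro a b ⟨f, hf, rfl⟩ ⟨g, hg, rfl⟩
        exact ⟨f * g, mul_ne_zero hf hg, hv.mul f g hf hg⟩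
      neg_mem' := by
        rintro a ⟨f, hf, rfl⟩
        exact ⟨f⁻¹, inv_ne_zero hf, r5_inv hv hf⟩ }
  have hH : ∀ n, n ∈ H ↔ ∃ f : M, f ≠ 0 ∧ v f = n := fun n => Iff.rfl
  obtain ⟨a, ha⟩ := Int.subgroup_cyclic H
  have hdvd : ∀ n ∈ H, a ∣ n := by
    intro n hn
    rw [ha, AddSubgroup.mem_closure_singleton] at hn
    obtain ⟨m, hm⟩ := hn
    exact ⟨m, by rw [← hm, smul_eq_mul, mul_comm]⟩
  have haH : a ∈ H := by
    rw [ha]
    exact AddSubgroup.subset_closure rfl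
  have hall : ∀ f, a ∣ v f := by
    intro f
    by_cases hf : f = 0
    · rw [hf, hv.zero]
      exact dvd_zero a
    · exact hdvd _ ⟨f, hf, rfl⟩
  have ha0 : a ≠ 0 := by
    rintro rfl
    obtain ⟨f, hf⟩ := hne
    exact hf (zero_dvd_iff.1 (hall f))
  rcases lt_or_gt_of_ne ha0 with h | h
  · obtain ⟨u, hu, hu'⟩ := (hH _).1 (neg_mem haH)
    exact ⟨-a, by omega, fun f => (neg_dvd).2 (hall f), u, hu, hu'⟩
  · obtain ⟨u, hu, hu'⟩ := (hH _).1 haH
    exact ⟨a, h, hall, u, hu, hu'⟩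

theorem p_R5 : S_R5 := by
  intro p _ M _ φ v hv hne
  obtain ⟨e, he, hd, u, hu, hue⟩ := r5_gen hv hne
  choose v' hv' using hd
  refine ⟨v', e, he, ⟨?_, ?_, ?_⟩, ⟨u, hu, ?_⟩, hv', ?_⟩
  · have h := hv' 0
    rw [hv.zero] at h
    rcases mul_eq_zero.1 h.symm with h | h
    · omega
    · exact h
  · intro x y hx hy
    have h := hv.mul x y hx hy
    rw [hv', hv', hv', ← mul_add] at h
    exact mul_left_cancel₀ he.ne' h
  · intro x y hx hy hxy
    have h := hv.add x y hx hy hxy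
    rw [hv' (x + y), min_le_iff, hv' x, hv' y, mul_le_mul_iff_right₀ he,
      mul_le_mul_iff_right₀ he] at h
    exact min_le_iff.2 h
  · have h := hv' u
    rw [hue] at h
    have h1 : e * 1 = e * v' u := by rw [mul_one]; exact h
    exact (mul_left_cancel₀ he.ne' h1).symm
  · intro hc f hf
    have h := hc f hf
    rw [hv' f, hv' (φ f), ← mul_smul_comm, mul_le_mul_iff_right₀ he] at h
    exact h

end Pool.Agent.F2W
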