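import Pool.Agent.Lib.MP_305fdd_al.F2.W.Stm2
import Pool.Agent.Lib.MP_305fdd_al.F2.W.L11
import Pool.Agent.Lib.MP_305fdd_al.F2.RF.Stm

/-! MP_305fdd_al, F_2, section W: piece R6 -/

set_option autoImplicit false

namespace Pool.Agent.F2W

open Pool.Agent.F2Ch Polynomial Pool.Agent.F2 Pool.Agent.F2RF

theorem r6_ne {p : ℕ} [Fact p.Prime] {M : Type} [Field M] (x : M)
    (ρ : (Fin 1 → Fin p) → M → M) (h : IsPB p (monY (p := p) fun _ : Fin 1 => x) ρ) : x ≠ 0 := by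
  intro hx
  have h2 : 1 < p := (Fact.out : p.Prime).one_lt
  have hp : p ≠ 0 := (Fact.out : p.Prime).ne_zero
  let i : Fin 1 → Fin p := fun _ => ⟨1, h2⟩
  have h1 := h.uniq (Pi.single i 1) i
  have h0 := h.uniq 0 i
  rw [Pi.single_eq_same] at h1
  have e1 : ∑ j, (Pi.single i (1 : M) : (Fin 1 → Fin p) → M) j ^ p *
      monY (p := p) (fun _ : Fin 1 => x) j = 0 := by
    refine Finset.sum_eq_zero fun j _ => ?_
    by_cases hj : j = i
    · subst hj
      rw [Pi.single_eq_same, monY]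
      simp [i, hx]
    · rw [Pi.single_eq_of_ne hj, zero_pow hp, zero_mul]
  have e0 : ∑ j, (0 : (Fin 1 → Fin p) → M) j ^ p * monY (p := p) (fun _ : Fin 1 => x) j = 0 := by
    refine Finset.sum_eq_zero fun j _ => ?_
    rw [Pi.zero_apply, zero_pow hp, zero_mul]
  rw [e1] at h1
  rw [e0, h1] at h0
  exact one_ne_zero h0

theorem r6_inv {k κ : Type} [Field k] [Field κ] [Algebra k κ] (Ψ : κ) (hΨ : Ψ ≠ 0) (v : κ → ℤ)
    (hv : IsV v) (h : ∀ Q : k[X], Q ≠ 0 → v (aeval Ψ Q) = 0) :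
    ∀ Q : k[X], Q ≠ 0 → v (aeval Ψ⁻¹ Q) = 0 := by
  intro Q hQ
  by_cases h0 : aeval Ψ⁻¹ Q = 0
  · rw [h0, hv.zero]
  have h1 := l11_rev' Ψ hΨ Q
  have h2 := h Q.reverse (fun h => hQ (reverse_eq_zero.mp h))
  have h3 := h X X_ne_zero
  rw [aeval_X] at h3
  rw [h1, hv.mul _ _ h0 (pow_ne_zero _ hΨ), l11_val_pow hv hΨ, h3] at h2
  simpa using h2

theorem r6_core (hR2 : S_R2) (hR3 : S_R3) (hR4 : S_R4) (hR5 : S_R5)
    (hL11 : S_L11) (hW4 : Pool.Agent.F2RF.S_W4)
    (p : ℕ) [Fact p.Prime] (k κ1 κ : Type) [Field k] [IsAlgClosed k] [CharP k p] [Field κ1]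
    [Field κ] [Algebra k κ1] [Algebra k κ] [Algebra κ1 κ] [IsScalarTower k κ1 κ]
    (n : ℕ) (t : Fin n → κ1) (hfg : FracGen k t) (htd : Algebra.trdeg k κ1 = 1) (y1 : Fin 1 → κ1)
    (ρ : (Fin 1 → Fin p) → κ1 → κ1) (hMB : MB p y1 ρ) (φ1 : κ1 → κ1) (φ : κ → κ) (y : κ)
    (hlog : LogTy p φ1) (hT : Tor p κ1 φ1 φ y) (c : κ1) (hc : c ≠ 0) (m : ℕ) (v : κ → ℤ)
    (hv : Plc k v) (hvc : Compat p φ v)
    (htr : ∀ Q : k[X], Q ≠ 0 → v (aeval (algebraMap κ1 κ c * y ^ m) Q) = 0) :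
    ∃ v' : κ → ℤ, Plc k v' ∧ Compat p φ v' ∧
      (∀ Q : k[X], Q ≠ 0 → v' (aeval (algebraMap κ1 κ c * y ^ m) Q) = 0) ∧
      ∃ f, Ge v 0 f ∧ ¬ Ge v' 0 f := by
  have hy0 : y ≠ 0 := by
    intro h
    refine hT.tr ?_
    rw [h]
    exact isAlgebraic_zero
  have hinj : Function.Injective (algebraMap κ1 κ) := (algebraMap κ1 κ).injective
  have hne : ∀ a : κ1, a ≠ 0 → algebraMap κ1 κ a ≠ 0 := fun a ha h => ha ((map_eq_zero _).mp h)
  rcases Nat.eq_zero_or_pos m with hm | hm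
  · -- case `Ψ ∈ κ1`
    subst hm
    have hV0 : IsV (fun _ : κ1 => (0 : ℤ)) :=
      ⟨rfl, fun _ _ _ _ => by simp, fun _ _ _ _ _ => by simp⟩
    have hC0 : Compat p φ1 (fun _ : κ1 => (0 : ℤ)) := fun f _ => by simp
    have key : ∀ β : ℤ, (β = 1 ∨ β = -1) → ∃ v' : κ → ℤ, Plc k v' ∧ Compat p φ v' ∧
        (∀ Q : k[X], Q ≠ 0 → v' (aeval (algebraMap κ1 κ c * y ^ 0) Q) = 0) ∧ v' y = β := by
      intro β hβ
      obtain ⟨v', hv', h1, h2, h3⟩ := hR2 κ1 κ y hT.tr hT.gen _ hV0 1 β one_pos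
      have h4 := hR3 p κ1 κ φ1 φ y hT _ hV0 hC0 1 β one_pos v' hv' h3
      have h5 : ∀ a : κ1, v' (algebraMap κ1 κ a) = 0 := by
        intro a
        by_cases ha : a = 0
        · rw [ha, map_zero, hv'.zero]
        · rw [h1 a ha]; simp
      refine ⟨v', ⟨hv', ?_, ?_⟩, h4, ?_, h2⟩
      · intro a
        rw [IsScalarTower.algebraMap_apply k κ1 κ]
        exact h5 _
      · rcases hβ with rfl | rfl
        · exact ⟨y, hy0, h2⟩
        · exact ⟨y⁻¹, inv_ne_zero hy0, by rw [l11_val_inv hv' hy0, h2]; simp⟩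
      · intro Q _
        rw [pow_zero, mul_one, aeval_algebraMap_apply]
        exact h5 _
    by_cases hvy : 0 ≤ v y
    · obtain ⟨v', h1, h2, h3, h4⟩ := key (-1) (Or.inr rfl)
      refine ⟨v', h1, h2, h3, y, Or.inr hvy, ?_⟩
      rintro (h | h)
      · exact hy0 h
      · rw [h4] at h; omega
    · obtain ⟨v', h1, h2, h3, h4⟩ := key 1 (Or.inl rfl)
      refine ⟨v', h1, h2, h3, y⁻¹, Or.inr ?_, ?_⟩
      · rw [l11_val_inv hv.isv hy0]; omega
      · rintro (h | h)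
        · exact inv_ne_zero hy0 h
        · rw [l11_val_inv h1.isv hy0, h4] at h; omega
  · -- case `m > 0`
    let v1 : κ1 → ℤ := fun a => v (algebraMap κ1 κ a)
    have hv1 : IsV v1 := by
      refine ⟨?_, ?_, ?_⟩
      · change v (algebraMap κ1 κ 0) = 0
        rw [map_zero, hv.isv.zero]
      · intro a b ha hb
        change v (algebraMap κ1 κ (a * b)) = _
        rw [map_mul]
        exact hv.isv.mul _ _ (hne a ha) (hne b hb)
      · intro a b ha hb hab
        change _ ≤ v (algebraMap κ1 κ (a + b))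
        rw [map_add]
        refine hv.isv.add _ _ (hne a ha) (hne b hb) ?_
        rw [← map_add]
        exact hne _ hab
    have hφa : ∀ a : κ1, φ (algebraMap κ1 κ a) = algebraMap κ1 κ (φ1 a) := by
      intro a
      have := hT.tor a 0
      rwa [mul_zero, zpow_zero, mul_one, mul_one] at this
    have hc1 : Compat p φ1 v1 := by
      intro a ha
      have := hvc (algebraMap κ1 κ a) (by rw [hφa]; exact hne _ ha)
      rwa [hφa] at this
    have hvΨ : v1 c + m * v y = 0 := by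
      have := htr X X_ne_zero
      rw [aeval_X, hv.isv.mul _ _ (hne c hc) (pow_ne_zero _ hy0), l11_val_pow hv.isv hy0] at this
      exact this
    have hnt : ∃ a, v1 a ≠ 0 := by
      by_contra hno
      push Not at hno
      rw [hno c, zero_add] at hvΨ
      have hvy : v y = 0 := by
        rcases mul_eq_zero.mp hvΨ with h | h
        · exfalso; omega
        · exact h
      have h0 := hR4 p κ1 κ φ1 φ y hT v hv.isv hvc hno hvy
      obtain ⟨u, _, hu⟩ := hv.unif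
      rw [h0 u] at hu
      exact zero_ne_one hu
    obtain ⟨v1', e, he, hv1', hu1', hev, hcc⟩ := hR5 p κ1 φ1 v1 hv1 hnt
    haveI : CharP κ1 p := charP_of_injective_algebraMap (algebraMap k κ1).injective p
    have ht1' : Triv k v1' := by
      intro a
      have h1 : v1 (algebraMap k κ1 a) = 0 := by
        change v (algebraMap κ1 κ (algebraMap k κ1 a)) = 0
        rw [← IsScalarTower.algebraMap_apply k κ1 κ]
        exact hv.triv a
      rw [hev] at h1
      rcases mul_eq_zero.mp h1 with h | h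
      · omega
      · exact h
    obtain ⟨v2, hv2, ht2, hu2, hc2, a, ha1, ha2⟩ := hL11 p k κ1 n t hfg htd y1 ρ hMB.pb φ1
      hT.pinv1 hT.one1 (fun x ρ' hρ' => hW4 p κ1 φ1 hlog 1 (fun _ => x) ρ'
        ⟨fun _ => r6_ne x ρ' hρ', hρ'⟩) v1' hv1' ht1' hu1' (hcc hc1)
    have ha0 : a ≠ 0 := fun h => ha2 (Or.inl h)
    have hva : v2 a < 0 := by
      by_contra h
      exact ha2 (Or.inr (not_lt.mp h))
    have hm' : (0 : ℤ) < m := by exact_mod_cast hm
    obtain ⟨v'', hv'', h1, h2, h3⟩ := hR2 κ1 κ y hT.tr hT.gen v2 hv2 m (-(v2 c)) hm'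
    have h4 := hR3 p κ1 κ φ1 φ y hT v2 hv2 hc2 m (-(v2 c)) hm' v'' hv'' h3
    have h5 : v'' (algebraMap κ1 κ a) < 0 := by
      rw [h1 a ha0]
      exact mul_neg_of_pos_of_neg hm' hva
    obtain ⟨v', e', he', hv', hu', hev', hcc'⟩ := hR5 p κ φ v'' hv'' ⟨_, h5.ne⟩
    have hz : ∀ f, v'' f = 0 → v' f = 0 := by
      intro f hf
      rw [hev'] at hf
      rcases mul_eq_zero.mp hf with h | h
      · omega
      · exact h
    refine ⟨v', ⟨hv', ?_, hu'⟩, hcc' h4, ?_, algebraMap κ1 κ a, ?_, ?_⟩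
    · intro b
      refine hz _ ?_
      rw [IsScalarTower.algebraMap_apply k κ1 κ]
      by_cases hb : algebraMap k κ1 b = 0
      · rw [hb, map_zero, hv''.zero]
      · rw [h1 _ hb, ht2 b, mul_zero]
    · intro Q hQ
      refine hz _ ?_
      let P : κ1[X] := expand κ1 m ((Q.map (algebraMap k κ1)).comp (C c * X))
      have hPy : aeval y P = aeval (algebraMap κ1 κ c * y ^ m) Q := by
        rw [expand_aeval, aeval_comp, map_mul, aeval_C, aeval_X, aeval_map_algebraMap]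
      have hPc : ∀ j, P.coeff (j * m) = algebraMap k κ1 (Q.coeff j) * c ^ j := by
        intro j
        rw [coeff_expand_mul hm, comp_C_mul_X_coeff, coeff_map]
      have hP0 : P ≠ 0 := by
        intro h
        have h6 := hPc Q.natDegree
        rw [h, coeff_zero] at h6
        have h7 : algebraMap k κ1 (Q.coeff Q.natDegree) ≠ 0 := by
          intro h8
          rw [map_eq_zero] at h8
          exact hQ (leadingCoeff_eq_zero.mp h8)
        exact mul_ne_zero h7 (pow_ne_zero _ hc) h6.symm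
      obtain ⟨j, hj, hj'⟩ := (h3 P hP0).2
      rw [← hPy, hj']
      have hdvd : m ∣ j := by
        by_contra hnd
        rw [coeff_expand hm, if_neg hnd] at hj
        exact hj rfl
      obtain ⟨i, rfl⟩ := hdvd
      rw [mul_comm m i] at hj ⊢
      rw [hPc] at hj ⊢
      rw [hv2.mul _ _ (left_ne_zero_of_mul hj) (right_ne_zero_of_mul hj), ht2, zero_add,
        l11_val_pow hv2 hc]
      push_cast
      ring
    · right
      change 0 ≤ v1 a
      rw [hev]
      exact mul_nonneg he.le (ha1.resolve_left ha0)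
    · rintro (h | h)
      · exact hne a ha0 h
      · rw [hev'] at h5
        have := mul_nonneg he'.le h
        omega

theorem p_R6 (hR1 : S_R1) (hR2 : S_R2) (hR3 : S_R3) (hR4 : S_R4) (hR5 : S_R5) (hL11 : S_L11)
    (hW4 : Pool.Agent.F2RF.S_W4) : S_R6 := by
  intro p _ k κ1 κ _ _ _ _ _ _ _ _ _ n t hfg htd y1 ρ hMB φ1 φ y hlog hT Ψ N P hΨ hP v hv hvc htr
  obtain ⟨c, m, hc, hcm⟩ := hR1 κ1 κ y hT.tr hT.gen Ψ N P hΨ hP
  obtain ⟨m', hm' | hm'⟩ := m.eq_nat_or_neg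
  · rw [hm', zpow_natCast] at hcm
    subst hcm
    exact r6_core hR2 hR3 hR4 hR5 hL11 hW4 p k κ1 κ n t hfg htd y1 ρ hMB φ1 φ y hlog hT c hc m' v
      hv hvc htr
  · have h1 : Ψ⁻¹ = algebraMap κ1 κ c⁻¹ * y ^ m' := by
      rw [hcm, hm', mul_inv, zpow_neg, inv_inv, map_inv₀, zpow_natCast]
    have h2 := r6_inv Ψ hΨ v hv.isv htr
    rw [h1] at h2
    obtain ⟨v', h3, h4, h5, h6⟩ := r6_core hR2 hR3 hR4 hR5 hL11 hW4 p k κ1 κ n t hfg htd y1 ρ hMB
      φ1 φ y hlog hT c⁻¹ (inv_ne_zero hc) m' v hv hvc h2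
    refine ⟨v', h3, h4, ?_, h6⟩
    rw [← h1] at h5
    have := r6_inv Ψ⁻¹ (inv_ne_zero hΨ) v' h3.isv h5
    rwa [inv_inv] at this

end Pool.Agent.F2W
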