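import Pool.Agent.Lib.MP_305fdd_al.F2.W.Stm2

/-!
# MP_305fdd_al, F_2, section W, piece R7: the residue field of a point of a chart
-/

set_option autoImplicit false

namespace Pool.Agent.F2W

open Pool.Agent.F2Ch Polynomial Pool.Agent.F2 Pool.Agent.F2RF

noncomputable section

section

variable {K : Type} [Field K] {w : K → ℤ}

private theorem r7_one (hw : IsV w) : w 1 = 0 := by
  have h := hw.mul 1 1 one_ne_zero one_ne_zero
  rw [mul_one] at h
  omega

private theorem r7_neg_one (hw : IsV w) : w (-1) = 0 := by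
  have h := hw.mul (-1) (-1) (neg_ne_zero.2 one_ne_zero) (neg_ne_zero.2 one_ne_zero)
  rw [neg_mul_neg, one_mul, r7_one hw] at h
  omega

/-- the valuation ring -/
private def r7_O (hw : IsV w) : Subring K where
  carrier := {f | Ge w 0 f}
  mul_mem' := by
    rintro a b (ha | ha) (hb | hb)
    · left; rw [ha, zero_mul]
    · left; rw [ha, zero_mul]
    · left; rw [hb, mul_zero]
    · by_cases ha0 : a = 0
      · left; rw [ha0, zero_mul]
      by_cases hb0 : b = 0
      · left; rw [hb0, mul_zero]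
      right
      rw [hw.mul _ _ ha0 hb0]
      omega
  one_mem' := Or.inr (r7_one hw).ge
  add_mem' := by
    intro a b ha hb
    by_cases ha0 : a = 0
    · rw [ha0, zero_add]; exact hb
    by_cases hb0 : b = 0
    · rw [hb0, add_zero]; exact ha
    have ha' : 0 ≤ w a := ha.resolve_left ha0
    have hb' : 0 ≤ w b := hb.resolve_left hb0
    by_cases h0 : a + b = 0
    · exact Or.inl h0
    · exact Or.inr (le_trans (le_min ha' hb') (hw.add _ _ ha0 hb0 h0))
  zero_mem' := Or.inl rfl
  neg_mem' := by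
    rintro a (ha | ha)
    · left; rw [ha, neg_zero]
    · by_cases ha0 : a = 0
      · left; rw [ha0, neg_zero]
      right
      rw [← neg_one_mul, hw.mul _ _ (neg_ne_zero.2 one_ne_zero) ha0, r7_neg_one hw]
      omega

private theorem r7_mem (hw : IsV w) (f : K) : f ∈ r7_O hw ↔ Ge w 0 f := Iff.rfl

/-- the residue map of an angular component -/
private def r7_hom (hw : IsV w) {M : Type} [Field M] (A : K → M) (_h0 : A 0 = 0)
    (hne : ∀ f, f ≠ 0 → A f ≠ 0) (hmul : ∀ f g, A (f * g) = A f * A g)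
    (hadd : ∀ f g, Ge w 0 f → Ge w 0 g → lc w A 0 (f + g) = lc w A 0 f + lc w A 0 g) :
    r7_O hw →+* M where
  toFun f := lc w A 0 f
  map_one' := by
    have h1 : A 1 = 1 := by
      have h := hmul 1 1
      rw [mul_one] at h
      exact (mul_eq_left₀ (hne 1 one_ne_zero)).1 h.symm
    simp only [lc, OneMemClass.coe_one]
    rw [if_pos ⟨one_ne_zero, r7_one hw⟩, h1]
  map_mul' f g := by
    obtain ⟨f, hf⟩ := f
    obtain ⟨g, hg⟩ := g
    rw [r7_mem] at hf hg
    simp only [lc, MulMemClass.mk_mul_mk]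
    by_cases hf0 : f = 0
    · rw [if_neg (by rw [hf0]; simp), if_neg (by rw [hf0]; simp), zero_mul]
    by_cases hg0 : g = 0
    · rw [if_neg (by rw [hg0]; simp), if_neg (c := g ≠ 0 ∧ w g = 0) (by rw [hg0]; simp), mul_zero]
    have hf' : 0 ≤ w f := hf.resolve_left hf0
    have hg' : 0 ≤ w g := hg.resolve_left hg0
    have hfg := hw.mul _ _ hf0 hg0
    by_cases h1 : w f = 0
    · by_cases h2 : w g = 0
      · rw [if_pos ⟨mul_ne_zero hf0 hg0, by omega⟩, if_pos ⟨hf0, h1⟩, if_pos ⟨hg0, h2⟩, hmul]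
      · rw [if_neg (fun h => by have := h.2; omega), if_neg (c := g ≠ 0 ∧ w g = 0) (fun h => h2 h.2),
          mul_zero]
    · rw [if_neg (fun h => by have := h.2; omega), if_neg (c := f ≠ 0 ∧ w f = 0) (fun h => h1 h.2),
        zero_mul]
  map_zero' := by
    simp only [lc, ZeroMemClass.coe_zero]
    rw [if_neg (by simp)]
  map_add' f g := hadd _ _ f.2 g.2

private theorem r7_hom_zero (hw : IsV w) {M : Type} [Field M] (A : K → M) (h0 : A 0 = 0)
    (hne : ∀ f, f ≠ 0 → A f ≠ 0) (hmul : ∀ f g, A (f * g) = A f * A g)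
    (hadd : ∀ f g, Ge w 0 f → Ge w 0 g → lc w A 0 (f + g) = lc w A 0 f + lc w A 0 g)
    (f : r7_O hw) : r7_hom hw A h0 hne hmul hadd f = 0 ↔ ¬ ((f : K) ≠ 0 ∧ w f = 0) := by
  change lc w A 0 (f : K) = 0 ↔ _
  simp only [lc]
  by_cases h : (f : K) ≠ 0 ∧ w f = 0
  · rw [if_pos h]
    exact ⟨fun h' => absurd h' (hne _ h.1), fun h' => absurd h h'⟩
  · rw [if_neg h]
    exact ⟨fun _ => h, fun _ => rfl⟩

end

theorem p_R7 : S_R7 := by
  intro p _ k K κ κ' _ _ _ _ _ _ _ n r t φ x L Φ u w AC hL _ hw r' x' ac' hac φ' hφ'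
  let ρ' : r7_O hw →+* κ' := r7_hom hw ac' hac.zero hac.ne hac.mul (hac.add 0)
  let ρ : r7_O hw →+* LF κ r := r7_hom hw AC hL.zero hL.ne hL.mul (hL.add 0)
  have hρ' : ∀ f : r7_O hw, ρ' f = lc w ac' 0 (f : K) := fun _ => rfl
  have hρ : ∀ f : r7_O hw, ρ f = lc w AC 0 (f : K) := fun _ => rfl
  have hker : RingHom.ker ρ' ≤ RingHom.ker ρ := by
    intro f hf
    rw [RingHom.mem_ker] at hf ⊢
    rw [r7_hom_zero] at hf ⊢
    exact hf
  have hsurj : Function.Surjective ρ' := by
    intro c
    by_cases hc : c = 0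
    · exact ⟨0, by rw [map_zero, hc]⟩
    · obtain ⟨f, hf0, hf, hfc⟩ := hac.surj c hc
      refine ⟨⟨f, Or.inr hf.ge⟩, ?_⟩
      rw [hρ']
      simp only [lc]
      rw [if_pos ⟨hf0, hf⟩, hfc]
  let ι : κ' →+* LF κ r := RingHom.liftOfSurjective ρ' hsurj ⟨ρ, hker⟩
  have hι : ∀ f : r7_O hw, ι (ρ' f) = ρ f := fun f =>
    RingHom.liftOfRightInverse_comp_apply ρ' _ (Function.rightInverse_surjInv hsurj) ⟨ρ, hker⟩ f
  have hιac : ∀ f, f ≠ 0 → w f = 0 → ι (ac' f) = AC f := by
    intro f hf0 hf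
    have h1 := hι ⟨f, Or.inr hf.ge⟩
    rw [hρ', hρ] at h1
    simp only [lc] at h1
    rw [if_pos ⟨hf0, hf⟩, if_pos ⟨hf0, hf⟩] at h1
    exact h1
  refine ⟨ι, hιac, ?_, ?_, ?_⟩
  · intro c
    by_cases hc : c = 0
    · subst hc
      rw [map_zero, map_zero, map_zero, AddMonoidAlgebra.single_zero]
      exact (map_zero (algebraMap _ _)).symm
    · have hcK : algebraMap k K c ≠ 0 := by
        rw [Ne, FaithfulSMul.algebraMap_eq_zero_iff]; exact hc
      have hcκ : algebraMap k κ c ≠ 0 := by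
        rw [Ne, FaithfulSMul.algebraMap_eq_zero_iff]; exact hc
      have h1 := hL.eq (MvPolynomial.C c) (by rw [MvPolynomial.aeval_C]; exact hcK)
      rw [MvPolynomial.aeval_C, hL.alg] at h1
      have h2 := IsFractionRing.injective (AddMonoidAlgebra κ (Fin r → ℤ)) (LF κ r) h1
      have hw0 : w (algebraMap k K c) = 0 := by
        by_contra hne
        have h3 := congrArg (fun P => AddMonoidAlgebra.coeff P 0) h2
        simp only [part, AddMonoidAlgebra.coeff_ofCoeff, AddMonoidAlgebra.coeff_single,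
          Finsupp.single_eq_same] at h3
        rw [Finsupp.filter_apply_neg] at h3
        · exact hcκ h3
        · simp only [wt, Pi.zero_apply, zero_smul, Finset.sum_const_zero]
          exact fun h => hne h.symm
      rw [← hac.alg, hιac _ hcK hw0, hL.alg]
  · intro z
    obtain ⟨f, rfl⟩ := hsurj z
    have hf : Ge w 0 (f : K) := f.2
    obtain ⟨h1, h2⟩ := hφ' f hf
    have h3 := hL.phi 0 f (by rw [smul_zero]; exact hf)
    have h4 : φ' (ρ' f) = ρ' ⟨φ f, h1⟩ := by rw [hρ', hρ', h2]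
    rw [h4, hι, hι, hρ, hρ]
    have h5 := h3.2
    rw [smul_zero] at h5
    exact h5
  · intro z
    by_cases hz : z = 0
    · subst hz
      constructor
      · intro _
        refine ⟨0, AddMonoidAlgebra.single 0 1, ?_, ?_, ?_, ?_⟩
        · rw [Ne, AddMonoidAlgebra.single_eq_zero]; exact one_ne_zero
        · intro m hm
          exact absurd rfl hm
        · intro m hm
          have : m = 0 := by
            by_contra h
            apply hm
            rw [AddMonoidAlgebra.coeff_single, Finsupp.single_eq_of_ne h]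
          subst this
          simp [wt]
        · rw [zero_mul]
          exact (map_zero (algebraMap _ _)).symm
      · intro _
        exact ⟨0, map_zero _⟩
    · constructor
      · rintro ⟨z', hz'⟩
        have hz0 : z' ≠ 0 := by
          rintro rfl
          rw [map_zero] at hz'
          exact hz hz'.symm
        obtain ⟨f, hf0, hf, hfc⟩ := hac.surj z' hz0
        have h1 := (hL.range z).1 ⟨f, hf0, hf, by rw [← hιac f hf0 hf, hfc, hz']⟩
        exact h1.2
      · intro h
        obtain ⟨f, hf0, hf, hfz⟩ := (hL.range z).2 ⟨hz, h⟩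
        exact ⟨ac' f, by rw [hιac f hf0 hf, hfz]⟩

end

end Pool.Agent.F2W
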