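import Pool.Agent.Lib.MP_305fdd_al.F2.W.Stm3

/-!
# MP_305fdd_al, F_2, section W: the residue field of a rational point of a two-dimensional chart
-/

set_option autoImplicit false

namespace Pool.Agent.F2W

open Pool.Agent.F2Ch Polynomial Pool.Agent.F2 Pool.Agent.F2RF

/-- the Laurent polynomials in two variables -/
private abbrev R8A (κ : Type) [Field κ] : Type := AddMonoidAlgebra κ (Fin 2 → ℤ)

/-- the kernel of the weight is generated by `n0`; `l` is a coordinate on it -/
private theorem r8_ker (u : Fin 2 → ℤ) (hu : u ≠ 0) :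
    ∃ (n0 : Fin 2 → ℤ) (l : (Fin 2 → ℤ) →+ ℤ), l n0 = 1 ∧ wt u n0 = 0 ∧
      ∀ m, wt u m = 0 → m = l m • n0 := by
  have hg : (Int.gcd (u 0) (u 1) : ℤ) ≠ 0 := by
    intro h
    apply hu
    have h1 : u 0 = 0 ∧ u 1 = 0 := by
      rw [Nat.cast_eq_zero, Int.gcd_eq_zero_iff] at h
      exact h
    funext j
    fin_cases j
    · exact h1.1
    · exact h1.2
  obtain ⟨c, hc⟩ := Int.gcd_dvd_left (u 0) (u 1)
  obtain ⟨d, hd⟩ := Int.gcd_dvd_right (u 0) (u 1)
  have hbez := Int.gcd_eq_gcd_ab (u 0) (u 1)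
  set g : ℤ := (Int.gcd (u 0) (u 1) : ℤ) with hgdef
  set a := Int.gcdA (u 0) (u 1)
  set b := Int.gcdB (u 0) (u 1)
  have hab : c * a + d * b = 1 := by
    apply mul_left_cancel₀ hg
    rw [hc, hd] at hbez
    linear_combination -hbez
  have hwt : ∀ m : Fin 2 → ℤ, wt u m = m 0 * u 0 + m 1 * u 1 := by
    intro m
    simp [wt, Fin.sum_univ_two]
  refine ⟨![d, -c], ?_, ?_, ?_, ?_⟩
  · exact
      { toFun := fun m => m 0 * b - m 1 * a
        map_zero' := by simp
        map_add' := fun x y => by simp only [Pi.add_apply]; ring }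
  · change d * b - (-c) * a = 1
    linear_combination hab
  · rw [hwt, hc, hd]
    simp only [Matrix.cons_val_zero, Matrix.cons_val_one]
    ring
  · intro m hm
    rw [hwt, hc, hd] at hm
    have hm' : m 0 * c + m 1 * d = 0 := by
      apply mul_left_cancel₀ hg
      linear_combination hm
    funext j
    change m j = (m 0 * b - m 1 * a) • (![d, -c] : Fin 2 → ℤ) j
    fin_cases j
    · simp only [Fin.zero_eta, Matrix.cons_val_zero, smul_eq_mul]
      linear_combination a * hm' - m 0 * hab
    · simp only [Fin.mk_one, Matrix.cons_val_one, Matrix.cons_val_zero, smul_eq_mul]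
      linear_combination b * hm' - m 1 * hab

section
variable {κ : Type} [Field κ]

private theorem r8_mul (a b : R8A κ) : toLF (r := 2) (a * b) = toLF a * toLF b := map_mul _ a b

/-- the substitution of the monomial `X ^ n0` -/
private noncomputable def r8_E (n0 : Fin 2 → ℤ) : κ[X] →+* R8A κ :=
  Polynomial.eval₂RingHom AddMonoidAlgebra.singleZeroRingHom (AddMonoidAlgebra.single n0 1)

private theorem r8_E_monomial (n0 : Fin 2 → ℤ) (j : ℕ) (c : κ) :
    r8_E n0 (monomial j c) = AddMonoidAlgebra.single (j • n0) c := by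
  simp [r8_E, AddMonoidAlgebra.single_pow, AddMonoidAlgebra.single_mul_single]

private theorem r8_E_X (n0 : Fin 2 → ℤ) (N : ℕ) :
    r8_E n0 (X ^ N : κ[X]) = AddMonoidAlgebra.single (N • n0) 1 := by
  rw [← r8_E_monomial, Polynomial.monomial_one_right_eq_X_pow]

private theorem r8_E_coeff (n0 : Fin 2 → ℤ) (l : (Fin 2 → ℤ) →+ ℤ) (hl : l n0 = 1) (P : κ[X])
    (j : ℕ) : (r8_E n0 P).coeff (j • n0) = P.coeff j := by
  induction P using Polynomial.induction_on' with
  | add p q hp hq => rw [map_add, AddMonoidAlgebra.coeff_add, Finsupp.add_apply, hp, hq, coeff_add]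
  | monomial n a =>
    classical
    rw [r8_E_monomial, AddMonoidAlgebra.coeff_single, Finsupp.single_apply,
      Polynomial.coeff_monomial]
    have h : n • n0 = j • n0 ↔ n = j := by
      constructor
      · intro h
        have := congrArg l h
        rw [map_nsmul, map_nsmul, hl] at this
        simpa using this
      · rintro rfl; rfl
    simp only [h]

private theorem r8_E_inj (n0 : Fin 2 → ℤ) (l : (Fin 2 → ℤ) →+ ℤ) (hl : l n0 = 1) (P : κ[X])
    (h : r8_E n0 P = 0) : P = 0 := by
  ext j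
  rw [← r8_E_coeff n0 l hl, h]
  simp

/-- every Laurent polynomial with exponents of weight `0` is a polynomial in `X ^ n0` times a power -/
private theorem r8_poly (u n0 : Fin 2 → ℤ) (l : (Fin 2 → ℤ) →+ ℤ)
    (hl : ∀ m, wt u m = 0 → m = l m • n0) (a : R8A κ)
    (ha : ∀ m, a.coeff m ≠ 0 → wt u m = 0) :
    ∃ (N : ℕ) (P : κ[X]), a * AddMonoidAlgebra.single (N • n0) 1 = r8_E n0 P := by
  have hsum : a = ∑ m ∈ a.coeff.support, AddMonoidAlgebra.single m (a.coeff m) := by
    conv_lhs => rw [← AddMonoidAlgebra.sum_coeff_single a]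
    rfl
  rw [hsum]
  refine Finset.sum_induction (fun m => AddMonoidAlgebra.single m (a.coeff m))
    (fun z : R8A κ => ∃ (N : ℕ) (P : κ[X]),
      z * AddMonoidAlgebra.single (N • n0) 1 = r8_E n0 P) ?_ ?_ ?_
  · rintro z z' ⟨N, P, h⟩ ⟨N', P', h'⟩
    refine ⟨N + N', P * X ^ N' + P' * X ^ N, ?_⟩
    rw [map_add, map_mul, map_mul, ← h, ← h', r8_E_X, r8_E_X, add_mul, mul_assoc, mul_assoc,
      AddMonoidAlgebra.single_mul_single, AddMonoidAlgebra.single_mul_single, ← add_nsmul,
      ← add_nsmul, add_comm N' N, mul_one]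
  · exact ⟨0, 0, by simp⟩
  · intro m hm
    have h1 : m = l m • n0 := hl m (ha m (Finsupp.mem_support_iff.1 hm))
    refine ⟨(l m).natAbs, monomial (l m + (l m).natAbs).toNat (a.coeff m), ?_⟩
    rw [r8_E_monomial, AddMonoidAlgebra.single_mul_single, mul_one]
    congr 1
    rw [← natCast_zsmul, ← natCast_zsmul, Int.toNat_of_nonneg (by omega), add_zsmul, ← h1]

end

theorem p_R8 : S_R8 := by
  intro p _ κ κ' _ _ φb Φ φ' u ι hu hφb hφb1 hΦ hφ' hφ'1 hιφ hrange
  obtain ⟨n0, l, hl1, hn0, hker⟩ := r8_ker u hu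
  have hLF : Function.Injective (fun a : R8A κ => toLF (r := 2) a) :=
    IsFractionRing.injective (R8A κ) (LF κ 2)
  have hinj : Function.Injective ι := ι.injective
  have hwt0 : wt u (0 : Fin 2 → ℤ) = 0 := by simp [wt]
  have hone : ∀ m : Fin 2 → ℤ, (1 : R8A κ).coeff m ≠ 0 → wt u m = 0 := by
    intro m hm
    by_cases h : m = 0
    · rw [h, hwt0]
    · exact absurd (by rw [AddMonoidAlgebra.one_def]; simp [Ne.symm h]) hm
  have hsingle : ∀ (m : Fin 2 → ℤ) (c : κ), wt u m = 0 →
      ∃ z, ι z = toLF (AddMonoidAlgebra.single m c) := by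
    intro m c hm
    refine (hrange _).2 ⟨AddMonoidAlgebra.single m c, 1, one_ne_zero, ?_, hone, ?_⟩
    · intro m' hm'
      by_cases h : m' = m
      · rw [h, hm]
      · exact absurd (by simp [Ne.symm h]) hm'
    · rw [toLF, toLF, map_one, mul_one]
  choose i0 hi0 using fun c : κ => hsingle 0 c hwt0
  let i : κ →+* κ' :=
    { toFun := i0
      map_one' := hinj (by rw [hi0, map_one, ← AddMonoidAlgebra.one_def, toLF, map_one])
      map_mul' := fun a b => hinj (by
        rw [map_mul, hi0, hi0, hi0, toLF, toLF, toLF, ← map_mul,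
          AddMonoidAlgebra.single_mul_single, add_zero])
      map_zero' := hinj (by rw [hi0, map_zero, AddMonoidAlgebra.single_zero, toLF, map_zero])
      map_add' := fun a b => hinj (by
        rw [map_add, hi0, hi0, hi0, toLF, toLF, toLF, ← map_add, AddMonoidAlgebra.single_add]) }
  have hi : ∀ c, ι (i c) = toLF (AddMonoidAlgebra.single 0 c) := hi0
  obtain ⟨y, hy⟩ := hsingle n0 1 hn0
  -- powers of `y`
  have hypow : ∀ m : ℕ, ι (y ^ m) = toLF (AddMonoidAlgebra.single ((m : ℤ) • n0) 1) := by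
    intro m
    rw [map_pow, hy, toLF, ← map_pow, AddMonoidAlgebra.single_pow, one_pow, natCast_zsmul]
  have hy0 : y ≠ 0 := by
    rintro rfl
    rw [map_zero] at hy
    have h1 : toLF (r := 2) (0 : R8A κ) = toLF (AddMonoidAlgebra.single n0 1) := by
      rw [← hy, toLF, map_zero]
    exact one_ne_zero (AddMonoidAlgebra.single_eq_zero.1 (hLF h1).symm)
  have hzpow : ∀ m : ℤ, ι (y ^ m) = toLF (AddMonoidAlgebra.single (m • n0) 1) := by
    intro m
    obtain ⟨k, rfl | rfl⟩ := m.eq_nat_or_neg
    · rw [zpow_natCast, hypow]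
    · have h1 : ι (y ^ (-(k : ℤ))) * ι (y ^ k) = 1 := by
        rw [← map_mul, zpow_neg, zpow_natCast, inv_mul_cancel₀ (pow_ne_zero _ hy0), map_one]
      have h2 : toLF (AddMonoidAlgebra.single ((-(k : ℤ)) • n0) (1 : κ)) * ι (y ^ k) = 1 := by
        rw [hypow, toLF, toLF, ← map_mul, AddMonoidAlgebra.single_mul_single, mul_one,
          ← add_smul, neg_add_cancel, zero_smul, ← AddMonoidAlgebra.one_def, map_one]
      have h3 : ι (y ^ k) ≠ 0 := by
        intro h
        rw [h, mul_zero] at h1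
        exact zero_ne_one h1
      exact mul_right_cancel₀ h3 (h1.trans h2.symm)
  have hmon : ∀ (c : κ) (m : ℤ), ι (i c * y ^ m) = toLF (AddMonoidAlgebra.single (m • n0) c) := by
    intro c m
    rw [map_mul, hi, hzpow, toLF, toLF, ← map_mul, AddMonoidAlgebra.single_mul_single, mul_one,
      zero_add]
  -- polynomials in `y`
  have heval : ∀ P : κ[X], ι (P.eval₂ i y) = toLF (r8_E n0 P) := by
    intro P
    have h1 : toLF (r8_E n0 P) = eval₂ ((algebraMap (R8A κ) (LF κ 2)).comp
        AddMonoidAlgebra.singleZeroRingHom) (toLF (AddMonoidAlgebra.single n0 1)) P :=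
      Polynomial.hom_eval₂ P _ (algebraMap (R8A κ) (LF κ 2)) _
    rw [Polynomial.hom_eval₂, hy, h1]
    congr 1
    ext c
    exact hi c
  have hevalX : ∀ (P : κ[X]) (N : ℕ) (z : κ') (a : R8A κ), ι z = toLF a →
      a * AddMonoidAlgebra.single (N • n0) 1 = r8_E n0 P → z * y ^ N = P.eval₂ i y := by
    intro P N z a hz ha
    apply hinj
    rw [heval, ← ha, map_mul, hz, hypow, toLF, toLF, ← map_mul, natCast_zsmul]
  refine ⟨i, y, hi, ?_, ?_⟩
  · let := i.toAlgebra
    have haeval : ∀ P : κ[X], aeval y P = P.eval₂ i y := fun P => rfl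
    refine
      { tr := ?_
        gen := ?_
        pinv := hφ'
        one := hφ'1
        pinv1 := hφb
        one1 := hφb1
        tor := ?_
        tor0 := ?_ }
    · rw [transcendental_iff]
      intro P hP
      rw [haeval] at hP
      have h1 := heval P
      rw [hP, map_zero] at h1
      refine r8_E_inj n0 l hl1 P (hLF ?_)
      change toLF (r8_E n0 P) = toLF 0
      rw [← h1, toLF, map_zero]
    · intro f
      obtain ⟨a, b, hb0, ha, hb, hab⟩ := (hrange (ι f)).1 ⟨f, rfl⟩
      obtain ⟨N, P, hP⟩ := r8_poly u n0 l hker a ha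
      obtain ⟨M, Q, hQ⟩ := r8_poly u n0 l hker b hb
      have hQ0 : ι (Q.eval₂ i y) ≠ 0 := by
        rw [heval, ← hQ, toLF, map_mul]
        refine mul_ne_zero ?_ ?_
        · intro h
          exact hb0 (hLF (h.trans (map_zero _).symm))
        · intro h
          exact one_ne_zero (AddMonoidAlgebra.single_eq_zero.1 (hLF (h.trans (map_zero _).symm)))
      refine ⟨P * X ^ M, Q * X ^ N, ?_, ?_⟩
      · rw [map_mul, map_pow, aeval_X, haeval]
        refine mul_ne_zero ?_ (pow_ne_zero _ hy0)
        intro h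
        exact hQ0 (by rw [h, map_zero])
      · rw [map_mul, map_mul, map_pow, map_pow, aeval_X, haeval, haeval]
        apply hinj
        rw [map_mul, map_mul, map_mul, heval, heval, ← hP, ← hQ, hypow, hypow, natCast_zsmul,
          natCast_zsmul]
        rw [r8_mul, r8_mul, ← hab]
        ring
    · intro a m
      change φ' (i a * y ^ ((p : ℤ) * m)) = i (φb a) * y ^ m
      apply hinj
      rw [hιφ, hmon, hmon, mul_smul, hΦ.mul]
    · intro a m hm
      change φ' (i a * y ^ m) = 0
      apply hinj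
      rw [hιφ, hmon, map_zero, hΦ.zero]
      rintro ⟨m', hm'⟩
      apply hm
      have h1 := congrArg l hm'
      rw [map_zsmul, map_zsmul, hl1, smul_eq_mul, smul_eq_mul, mul_one] at h1
      exact ⟨l m', h1⟩
  · intro z a ha hz
    obtain ⟨N, P, hP⟩ := r8_poly u n0 l hker a ha
    exact ⟨N, P, hevalX P N z a hz hP⟩

end Pool.Agent.F2W
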