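import Pool.Agent.Lib.MP_305fdd_al.F2.W.Stm3

/-!
# MP_305fdd_al, F_2, section W, piece R9: a second direction on `k(y1, y2)`
-/

set_option autoImplicit false

namespace Pool.Agent.F2W

open Pool.Agent.F2Ch Polynomial Pool.Agent.F2 Pool.Agent.F2RF

private theorem r9_one {K : Type} [Field K] {v : K → ℤ} (hv : IsV v) : v 1 = 0 := by
  have h := hv.mul 1 1 one_ne_zero one_ne_zero
  rw [mul_one] at h
  omega

private theorem r9_inv {K : Type} [Field K] {v : K → ℤ} (hv : IsV v) (x : K) :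
    v x⁻¹ = - v x := by
  by_cases hx : x = 0
  · subst hx
    rw [inv_zero, hv.zero]
    rfl
  · have h := hv.mul x x⁻¹ hx (inv_ne_zero hx)
    rw [mul_inv_cancel₀ hx, r9_one hv] at h
    omega

private theorem r9_pow {K : Type} [Field K] {v : K → ℤ} (hv : IsV v) {x : K} (hx : x ≠ 0)
    (n : ℕ) : v (x ^ n) = n * v x := by
  induction n with
  | zero => simp [r9_one hv]
  | succ n ih =>
    rw [pow_succ, hv.mul _ _ (pow_ne_zero _ hx) hx, ih]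
    push_cast
    ring

private theorem r9_zpow {K : Type} [Field K] {v : K → ℤ} (hv : IsV v) {x : K} (hx : x ≠ 0)
    (n : ℤ) : v (x ^ n) = n * v x := by
  obtain ⟨m, rfl | rfl⟩ := n.eq_nat_or_neg
  · rw [zpow_natCast, r9_pow hv hx]
  · rw [zpow_neg, zpow_natCast, r9_inv hv, r9_pow hv hx]
    ring

/-- a polynomial in two variables as a polynomial in the second one -/
private theorem r9_poly {k κ1 κ : Type} [Field k] [Field κ1] [Field κ]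
    [Algebra k κ1] [Algebra k κ] [Algebra κ1 κ] [IsScalarTower k κ1 κ]
    (y1 : κ1) (y2 : κ) (P : MvPolynomial (Fin 2) k) :
    ∃ R : k[X][X], MvPolynomial.aeval ![algebraMap κ1 κ y1, y2] P =
      aeval y2 (R.map ((aeval y1 : k[X] →ₐ[k] κ1) : k[X] →+* κ1)) := by
  induction P using MvPolynomial.induction_on with
  | C c =>
    refine ⟨C (C c), ?_⟩
    simp [← IsScalarTower.algebraMap_apply]
  | add P Q hP hQ =>
    obtain ⟨R, hR⟩ := hP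
    obtain ⟨S, hS⟩ := hQ
    refine ⟨R + S, ?_⟩
    rw [map_add, hR, hS, Polynomial.map_add, map_add]
  | mul_X P i hP =>
    obtain ⟨R, hR⟩ := hP
    rw [map_mul, hR, MvPolynomial.aeval_X]
    match i with
    | 0 =>
      refine ⟨R * C X, ?_⟩
      simp
    | 1 =>
      refine ⟨R * X, ?_⟩
      simp

private theorem r9_claim (hR1 : S_R1) {k κ1 κ : Type} [Field k] [Field κ1] [Field κ]
    [Algebra k κ1] [Algebra k κ] [Algebra κ1 κ] [IsScalarTower k κ1 κ]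
    {y1 : κ1} {y2 : κ} (t1 : Transcendental k y1)
    (g1 : ∀ f : κ1, ∃ a b : k[X], aeval y1 b ≠ 0 ∧ f * aeval y1 b = aeval y1 a)
    (t2 : Transcendental κ1 y2)
    (g2 : ∀ f : κ, ∃ a b : κ1[X], aeval y2 b ≠ 0 ∧ f * aeval y2 b = aeval y2 a)
    (Ψ : κ) (N N' : ℕ) (P : MvPolynomial (Fin 2) k) (hΨ : Transcendental k Ψ)
    (h : (Ψ + Ψ⁻¹) * (algebraMap κ1 κ y1 ^ N * y2 ^ N') =
      MvPolynomial.aeval ![algebraMap κ1 κ y1, y2] P) :
    ∃ (c0 : k) (a b : ℤ), c0 ≠ 0 ∧ (a ≠ 0 ∨ b ≠ 0) ∧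
      Ψ = algebraMap k κ c0 * algebraMap κ1 κ y1 ^ a * y2 ^ b := by
  have hΨ0 : Ψ ≠ 0 := by
    rintro rfl
    exact hΨ isAlgebraic_zero
  have hy1 : y1 ≠ 0 := by
    rintro rfl
    exact t1 isAlgebraic_zero
  have hy2 : y2 ≠ 0 := by
    rintro rfl
    exact t2 isAlgebraic_zero
  have hY1 : algebraMap κ1 κ y1 ≠ 0 := by
    rw [Ne, map_eq_zero]
    exact hy1
  obtain ⟨R, hR⟩ := r9_poly y1 y2 P
  rw [hR] at h
  set P' : κ1[X] := R.map ((aeval y1 : k[X] →ₐ[k] κ1) : k[X] →+* κ1) with hP'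
  have h' : (Ψ + Ψ⁻¹) * y2 ^ N' = aeval y2 (C (y1 ^ N)⁻¹ * P') := by
    rw [map_mul, ← h, aeval_C, map_inv₀, map_pow]
    field_simp
  obtain ⟨c, b, hc, hb⟩ := hR1 κ1 κ y2 t2 g2 Ψ N' _ hΨ0 h'
  obtain ⟨e1, he1⟩ : ∃ e : ℕ, (e : ℤ) = N' + b.natAbs + b := ⟨(N' + b.natAbs + b).toNat, by omega⟩
  obtain ⟨e2, he2⟩ : ∃ e : ℕ, (e : ℤ) = N' + b.natAbs + (- b) :=
    ⟨(N' + b.natAbs + (- b)).toNat, by omega⟩
  have hC : algebraMap κ1 κ c ≠ 0 := by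
    rw [Ne, map_eq_zero]
    exact hc
  have hZ : y2 ^ b ≠ 0 := zpow_ne_zero _ hy2
  have hq1 : y2 ^ e1 = y2 ^ N' * y2 ^ b.natAbs * y2 ^ b := by
    rw [← zpow_natCast y2 e1, he1, zpow_add₀ hy2, zpow_add₀ hy2, zpow_natCast, zpow_natCast]
  have hq2 : y2 ^ e2 = y2 ^ N' * y2 ^ b.natAbs * (y2 ^ b)⁻¹ := by
    rw [← zpow_natCast y2 e2, he2, zpow_add₀ hy2, zpow_add₀ hy2, zpow_natCast, zpow_natCast,
      zpow_neg]
  have hid : C (c * y1 ^ N) * X ^ e1 + C (c⁻¹ * y1 ^ N) * X ^ e2 = X ^ b.natAbs * P' := by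
    apply transcendental_iff_injective.mp t2
    rw [map_mul (aeval y2) (X ^ b.natAbs) P', ← h, hb]
    simp only [map_add, map_mul, aeval_C, map_pow, aeval_X, hq1, hq2, map_inv₀, mul_inv]
    ring
  have hev := congrArg (eval 1) hid
  rw [eval_add, eval_mul, eval_mul, eval_mul, eval_C, eval_C, eval_pow, eval_pow, eval_pow,
    eval_X, one_pow, one_pow, one_pow, mul_one, mul_one, one_mul, hP', Polynomial.eval_one_map,
    ← add_mul] at hev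
  obtain ⟨c0, a, hc0, ha⟩ := hR1 k κ1 y1 t1 g1 c N (eval 1 R) hc hev
  have hfin : Ψ = algebraMap k κ c0 * algebraMap κ1 κ y1 ^ a * y2 ^ b := by
    rw [hb, ha, map_mul, map_zpow₀, ← IsScalarTower.algebraMap_apply]
  refine ⟨c0, a, b, hc0, ?_, hfin⟩
  by_contra hab
  push Not at hab
  rw [hab.1, hab.2, zpow_zero, zpow_zero, mul_one, mul_one] at hfin
  exact hΨ (hfin ▸ isAlgebraic_algebraMap c0)

/-- the monomial valuations of `k(y1, y2)` -/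
private theorem r9_val (hR2 : S_R2) (hR3 : S_R3) (p : ℕ) [Fact p.Prime] {k κ1 κ : Type}
    [Field k] [Field κ1] [Field κ] [Algebra k κ1] [Algebra k κ] [Algebra κ1 κ]
    [IsScalarTower k κ1 κ] {φ0 : k → k} {φ1 : κ1 → κ1} {φ : κ → κ} {y1 : κ1} {y2 : κ}
    (h1 : Tor p k φ0 φ1 y1) (h2 : Tor p κ1 φ1 φ y2) (β1 β2 : ℤ) :
    ∃ (v : κ1 → ℤ) (V : κ → ℤ), IsV v ∧ IsV V ∧ Compat p φ V ∧
      (∀ c : k, v (algebraMap k κ1 c) = 0) ∧ (∀ x, V (algebraMap κ1 κ x) = v x) ∧ v y1 = β1 ∧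
      V y2 = β2 ∧ (∀ P : k[X], P ≠ 0 → ∃ j, P.coeff j ≠ 0 ∧ v (aeval y1 P) = j * β1) ∧
      ∀ P : κ1[X], P ≠ 0 → ∃ j, P.coeff j ≠ 0 ∧ V (aeval y2 P) = v (P.coeff j) + j * β2 := by
  have hz : IsV (fun _ : k => (0 : ℤ)) := ⟨rfl, fun _ _ _ _ => by simp, fun _ _ _ _ _ => by simp⟩
  have hzc : Compat p φ0 (fun _ : k => (0 : ℤ)) := fun f _ => by simp
  obtain ⟨v, hv, hvc, hvy, hvm⟩ := hR2 k κ1 y1 h1.tr h1.gen _ hz 1 β1 one_pos
  have hvp := hR3 p k κ1 φ0 φ1 y1 h1 _ hz hzc 1 β1 one_pos v hv hvm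
  obtain ⟨V, hV, hVc, hVy, hVm⟩ := hR2 κ1 κ y2 h2.tr h2.gen v hv 1 β2 one_pos
  have hVp := hR3 p κ1 κ φ1 φ y2 h2 v hv hvp 1 β2 one_pos V hV hVm
  refine ⟨v, V, hv, hV, hVp, ?_, ?_, hvy, hVy, ?_, ?_⟩
  · intro c
    by_cases hc : c = 0
    · rw [hc, map_zero, hv.zero]
    · rw [hvc c hc, mul_zero]
  · intro x
    by_cases hx : x = 0
    · rw [hx, map_zero, hv.zero, hV.zero]
    · rw [hVc x hx, one_mul]
  · intro P hP
    obtain ⟨j, hj, hj'⟩ := (hvm P hP).2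
    exact ⟨j, hj, by rw [hj']; ring⟩
  · intro P hP
    obtain ⟨j, hj, hj'⟩ := (hVm P hP).2
    exact ⟨j, hj, by rw [hj', one_mul]⟩

/-- the case of a positive exponent -/
private theorem r9_pos {k κ1 κ : Type} [Field k] [Field κ1] [Field κ] [Algebra k κ1]
    [Algebra k κ] [Algebra κ1 κ] [IsScalarTower k κ1 κ] {y2 : κ} {v : κ1 → ℤ} {V : κ → ℤ}
    (hv : IsV v) (hV : IsV V) (hvk : ∀ c : k, v (algebraMap k κ1 c) = 0) {β2 : ℤ}
    (hVm : ∀ P : κ1[X], P ≠ 0 → ∃ j, P.coeff j ≠ 0 ∧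
      V (aeval y2 P) = v (P.coeff j) + j * β2) {c : κ1} (hc : c ≠ 0) {n : ℕ} (hn : 0 < n)
    (hw : v c + n * β2 = 0) (Q : k[X]) : V (aeval (algebraMap κ1 κ c * y2 ^ n) Q) = 0 := by
  set T : κ1[X] := expand κ1 n ((Q.map (algebraMap k κ1)).comp (C c * X)) with hT
  have hTe : aeval (algebraMap κ1 κ c * y2 ^ n) Q = aeval y2 T := by
    rw [hT, expand_aeval, aeval_comp, map_mul, aeval_C, aeval_X, aeval_map_algebraMap]
  rw [hTe]
  by_cases hT0 : T = 0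
  · rw [hT0, map_zero, hV.zero]
  · obtain ⟨j, hj, hj'⟩ := hVm T hT0
    rw [hj']
    rw [hT, coeff_expand hn] at hj ⊢
    by_cases hd : n ∣ j
    · rw [if_pos hd, comp_C_mul_X_coeff, coeff_map] at hj ⊢
      obtain ⟨i, rfl⟩ := hd
      rw [Nat.mul_div_cancel_left i hn] at hj ⊢
      rw [hv.mul _ _ (left_ne_zero_of_mul hj) (right_ne_zero_of_mul hj), hvk, r9_pow hv hc]
      push_cast
      linear_combination (i : ℤ) * hw
    · rw [if_neg hd] at hj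
      exact absurd rfl hj

/-- passing to the inverse -/
private theorem r9_rev {k κ : Type} [Field k] [Field κ] [Algebra k κ] {V : κ → ℤ} (hV : IsV V)
    {z : κ} (hz : z ≠ 0) (hz0 : V z = 0) (h : ∀ Q : k[X], V (aeval z⁻¹ Q) = 0) (Q : k[X]) :
    V (aeval z Q) = 0 := by
  let _ := invertibleOfNonzero hz
  have hq := eval₂_reverse_mul_pow (algebraMap k κ) z Q
  rw [invOf_eq_inv] at hq
  rw [aeval_def, ← hq]
  by_cases h0 : eval₂ (algebraMap k κ) z⁻¹ Q.reverse = 0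
  · rw [h0, zero_mul, hV.zero]
  · rw [hV.mul _ _ h0 (pow_ne_zero _ hz), r9_pow hV hz, hz0, mul_zero, add_zero]
    exact h Q.reverse

/-- a compatible valuation with `V y1 = β1`, `V y2 = β2`, trivial on `k(Ψ)` -/
private theorem r9_dir (hR2 : S_R2) (hR3 : S_R3) (p : ℕ) [Fact p.Prime] {k κ1 κ : Type}
    [Field k] [Field κ1] [Field κ] [Algebra k κ1] [Algebra k κ] [Algebra κ1 κ]
    [IsScalarTower k κ1 κ] {φ0 : k → k} {φ1 : κ1 → κ1} {φ : κ → κ} {y1 : κ1} {y2 : κ}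
    (h1 : Tor p k φ0 φ1 y1) (h2 : Tor p κ1 φ1 φ y2) {Ψ : κ} {c0 : k} (hc0 : c0 ≠ 0) {a b : ℤ}
    (hab : a ≠ 0 ∨ b ≠ 0) (hΨ : Ψ = algebraMap k κ c0 * algebraMap κ1 κ y1 ^ a * y2 ^ b)
    {β1 β2 : ℤ} (hβ : a * β1 + b * β2 = 0) :
    ∃ V : κ → ℤ, IsV V ∧ Triv k V ∧ Compat p φ V ∧ V (algebraMap κ1 κ y1) = β1 ∧ V y2 = β2 ∧
      ∀ Q : k[X], V (aeval Ψ Q) = 0 := by
  have hy1 : y1 ≠ 0 := by
    rintro rfl
    exact h1.tr isAlgebraic_zero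
  have hy2 : y2 ≠ 0 := by
    rintro rfl
    exact h2.tr isAlgebraic_zero
  obtain ⟨v, V, hv, hV, hVp, hvk, hVv, hvy, hVy, hvm, hVm⟩ := r9_val hR2 hR3 p h1 h2 β1 β2
  have htriv : Triv k V := by
    intro c
    rw [IsScalarTower.algebraMap_apply k κ1 κ, hVv, hvk]
  have hC0 : algebraMap k κ1 c0 ≠ 0 := by
    rw [Ne, map_eq_zero]
    exact hc0
  set c : κ1 := algebraMap k κ1 c0 * y1 ^ a with hcdef
  have hc : c ≠ 0 := mul_ne_zero hC0 (zpow_ne_zero _ hy1)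
  have hvc : v c = a * β1 := by
    rw [hcdef, hv.mul _ _ hC0 (zpow_ne_zero _ hy1), hvk, r9_zpow hv hy1, hvy, zero_add]
  have hC : algebraMap κ1 κ c ≠ 0 := by
    rw [Ne, map_eq_zero]
    exact hc
  have hΨc : Ψ = algebraMap κ1 κ c * y2 ^ b := by
    rw [hΨ, hcdef, map_mul, map_zpow₀, ← IsScalarTower.algebraMap_apply]
  have hΨ0 : Ψ ≠ 0 := by
    rw [hΨc]
    exact mul_ne_zero hC (zpow_ne_zero _ hy2)
  have hVΨ : V Ψ = 0 := by
    rw [hΨc, hV.mul _ _ hC (zpow_ne_zero _ hy2), hVv, hvc, r9_zpow hV hy2, hVy, hβ]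
  refine ⟨V, hV, htriv, hVp, by rw [hVv, hvy], hVy, ?_⟩
  rcases lt_trichotomy b 0 with hb | hb | hb
  · apply r9_rev hV hΨ0 hVΨ
    intro Q
    obtain ⟨n, hn⟩ : ∃ n : ℕ, (n : ℤ) = - b := ⟨(-b).toNat, by omega⟩
    have hinv : Ψ⁻¹ = algebraMap κ1 κ c⁻¹ * y2 ^ n := by
      rw [hΨc, mul_inv, map_inv₀, ← zpow_natCast y2 n, hn, zpow_neg]
    rw [hinv]
    refine r9_pos hv hV hvk hVm (inv_ne_zero hc) (by omega) ?_ Q
    rw [r9_inv hv, hvc, hn]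
    linear_combination - hβ
  · subst hb
    have ha : a ≠ 0 := by simpa using hab
    have hβ1 : β1 = 0 := by simpa [ha] using hβ
    intro Q
    have hQ : aeval Ψ Q = algebraMap κ1 κ (aeval c Q) := by
      rw [hΨc, zpow_zero, mul_one, aeval_algebraMap_apply]
    rw [hQ, hVv]
    obtain ⟨A, B, hB, hAB⟩ := h1.gen (aeval c Q)
    have hpol : ∀ P : k[X], v (aeval y1 P) = 0 := by
      intro P
      by_cases hP : P = 0
      · rw [hP, map_zero, hv.zero]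
      · obtain ⟨j, -, hj⟩ := hvm P hP
        rw [hj, hβ1, mul_zero]
    by_cases hcq : aeval c Q = 0
    · rw [hcq, hv.zero]
    · have h3 := hv.mul _ _ hcq hB
      rw [hAB, hpol, hpol, add_zero] at h3
      exact h3.symm
  · obtain ⟨n, hn⟩ : ∃ n : ℕ, (n : ℤ) = b := ⟨b.toNat, by omega⟩
    intro Q
    have hΨn : Ψ = algebraMap κ1 κ c * y2 ^ n := by
      rw [hΨc, ← zpow_natCast y2 n, hn]
    rw [hΨn]
    refine r9_pos hv hV hvk hVm hc (by omega) ?_ Q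
    rw [hvc, hn]
    exact hβ

/-- A direction different from `v`. -/
theorem p_R9 (hR1 : S_R1) (hR2 : S_R2) (hR3 : S_R3) (hR5 : S_R5) : S_R9 := by
  intro p _ k κ1 κ _ _ _ _ _ _ _ _ φ0 φ1 φ y1 y2 h1 h2 Ψ N N' P hΨ hP v hv
  obtain ⟨c0, a, b, hc0, hab, hΨeq⟩ :=
    r9_claim hR1 h1.tr h1.gen h2.tr h2.gen Ψ N N' P hΨ hP
  have hy1 : y1 ≠ 0 := by
    rintro rfl
    exact h1.tr isAlgebraic_zero
  have hy2 : y2 ≠ 0 := by
    rintro rfl
    exact h2.tr isAlgebraic_zero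
  have hY1 : algebraMap κ1 κ y1 ≠ 0 := by
    rw [Ne, map_eq_zero]
    exact hy1
  -- it suffices to find a compatible `V` without normalisation
  obtain ⟨V, hV, hVt, hVc, hVQ, f, hf0, hf, hVf⟩ : ∃ V : κ → ℤ, IsV V ∧ Triv k V ∧
      Compat p φ V ∧ (∀ Q : k[X], V (aeval Ψ Q) = 0) ∧ ∃ f, f ≠ 0 ∧ 0 ≤ v f ∧ V f < 0 := by
    obtain ⟨g, hg0, d, hd, hg⟩ : ∃ g : κ, g ≠ 0 ∧ ∃ d : ℤ, d ≠ 0 ∧ ∀ ε : ℤ, ∃ V : κ → ℤ,
        IsV V ∧ Triv k V ∧ Compat p φ V ∧ (∀ Q : k[X], V (aeval Ψ Q) = 0) ∧ V g = ε * d := by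
      by_cases hb : b = 0
      · refine ⟨y2, hy2, - a, by omega, fun ε => ?_⟩
        obtain ⟨V, hV, hVt, hVc, -, hV2, hVQ⟩ := r9_dir hR2 hR3 p h1 h2 hc0 hab hΨeq
          (β1 := ε * b) (β2 := ε * (- a)) (by ring)
        exact ⟨V, hV, hVt, hVc, hVQ, hV2⟩
      · refine ⟨algebraMap κ1 κ y1, hY1, b, hb, fun ε => ?_⟩
        obtain ⟨V, hV, hVt, hVc, hV1, -, hVQ⟩ := r9_dir hR2 hR3 p h1 h2 hc0 hab hΨeq
          (β1 := ε * b) (β2 := ε * (- a)) (by ring)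
        exact ⟨V, hV, hVt, hVc, hVQ, hV1⟩
    have hdd : 0 < d * d := mul_self_pos.mpr hd
    rcases le_or_gt 0 (v g) with hvg | hvg
    · obtain ⟨V, hV, hVt, hVc, hVQ, hVg⟩ := hg (- d)
      exact ⟨V, hV, hVt, hVc, hVQ, g, hg0, hvg, by rw [hVg]; linarith⟩
    · obtain ⟨V, hV, hVt, hVc, hVQ, hVg⟩ := hg d
      refine ⟨V, hV, hVt, hVc, hVQ, g⁻¹, inv_ne_zero hg0, ?_, ?_⟩
      · rw [r9_inv hv]
        omega
      · rw [r9_inv hV, hVg]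
        linarith
  obtain ⟨V', e, he, hV', hu, hVe, hcomp⟩ := hR5 p κ φ V hV ⟨f, by omega⟩
  have hz : ∀ x, V x = 0 → V' x = 0 := by
    intro x hx
    have h3 := hVe x
    rw [hx] at h3
    rcases mul_eq_zero.mp h3.symm with h4 | h4
    · omega
    · exact h4
  refine ⟨V', ⟨hV', fun c => hz _ (hVt c), hu⟩, hcomp hVc, fun Q _ => hz _ (hVQ Q), f,
    Or.inr hf, ?_⟩
  rintro (h0 | h0)
  · exact hf0 h0
  · have h3 := hVe f
    nlinarith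

end Pool.Agent.F2W
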