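import Pool.Agent.Lib.MP_305fdd_al.F2.W.Stm2

set_option autoImplicit false

namespace Pool.Agent.F2W

open Pool.Agent.F2Ch Polynomial Pool.Agent.F2 Pool.Agent.F2RF

private lemma z0_mul_ee (k : Type) [Field k] (c : ℤ × ℤ) (d : ℤ) :
    ee k c * ee k (d • c) = ee k ((d + 1) • c) + ee k ((d - 1) • c) := by
  simp only [ee, add_mul, mul_add, AddMonoidAlgebra.single_mul_single, mul_one, add_smul, sub_smul,
    one_smul]
  have e1 : c + d • c = d • c + c := add_comm _ _
  have e2 : c + -(d • c) = -(d • c - c) := by abel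
  have e3 : -c + d • c = d • c - c := by abel
  have e4 : -c + -(d • c) = -(d • c + c) := by abel
  rw [e1, e2, e3, e4]
  abel

private lemma z0_T (k : Type) [Field k] (c : ℤ × ℤ) (d : ℕ) :
    (∃ T : k[X], aeval (ee k c) T = ee k ((d : ℤ) • c)) ∧
      ∃ T : k[X], aeval (ee k c) T = ee k (((d + 1 : ℕ) : ℤ) • c) := by
  induction d with
  | zero =>
    refine ⟨⟨2, ?_⟩, ⟨X, ?_⟩⟩
    · simp only [map_ofNat, Nat.cast_zero, zero_smul, ee, neg_zero]
      rw [← AddMonoidAlgebra.one_def]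
      norm_num
    · simp
  | succ n ih =>
    obtain ⟨⟨T0, h0⟩, ⟨T1, h1⟩⟩ := ih
    refine ⟨⟨T1, h1⟩, ⟨X * T1 - T0, ?_⟩⟩
    rw [map_sub, map_mul, aeval_X, h0, h1, z0_mul_ee]
    have e1 : (((n + 1 : ℕ) : ℤ) - 1) = (n : ℤ) := by push_cast; ring
    have e2 : (((n + 1 : ℕ) : ℤ) + 1) = ((n + 1 + 1 : ℕ) : ℤ) := by push_cast; ring
    rw [e1, e2]
    abel

private lemma z0_step (k : Type) [Field k] (c : ℤ × ℤ) (F : Lau k) (m : ℤ) :
    (F * ee k c).coeff (m • c) = F.coeff ((m - 1) • c) + F.coeff ((m + 1) • c) := by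
  simp only [ee, mul_add, AddMonoidAlgebra.coeff_add, Finsupp.add_apply,
    AddMonoidAlgebra.coeff_mul_single_apply, mul_one]
  congr 2
  · simp only [sub_smul, one_smul]; abel
  · simp only [add_smul, one_smul]; abel

private lemma z0_zero {c : ℤ × ℤ} (hc : c ≠ 0) {m : ℤ} (hm : m ≠ 0) : m • c ≠ 0 := by
  intro h
  rcases smul_eq_zero.mp h with h | h
  · exact hm h
  · exact hc h

private lemma z0_pow (k : Type) [Field k] {c : ℤ × ℤ} (hc : c ≠ 0) (i : ℕ) :
    (∀ m : ℤ, (i : ℤ) < |m| → ((ee k c) ^ i).coeff (m • c) = 0) ∧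
      (∀ m : ℤ, (i : ℤ) = |m| → ((ee k c) ^ i).coeff (m • c) = 1) := by
  induction i with
  | zero =>
    refine ⟨fun m hm => ?_, fun m hm => ?_⟩
    · have hm0 : m ≠ 0 := by
        rintro rfl
        simp at hm
      rw [pow_zero, AddMonoidAlgebra.one_def, AddMonoidAlgebra.coeff_single,
        Finsupp.single_apply, if_neg (Ne.symm (z0_zero hc hm0))]
    · have hm0 : m = 0 := by
        have : |m| = 0 := by rw [← hm]; simp
        exact abs_eq_zero.mp this
      rw [pow_zero, AddMonoidAlgebra.one_def, AddMonoidAlgebra.coeff_single,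
        Finsupp.single_apply, hm0, if_pos (by simp)]
  | succ n ih =>
    refine ⟨fun m hm => ?_, fun m hm => ?_⟩
    · push_cast at hm
      rw [pow_succ, z0_step, ih.1 _ ?_, ih.1 _ ?_, add_zero]
      · rcases abs_cases m with ⟨h, h'⟩ | ⟨h, h'⟩ <;> rcases abs_cases (m + 1) with ⟨g, g'⟩ | ⟨g, g'⟩ <;>
          omega
      · rcases abs_cases m with ⟨h, h'⟩ | ⟨h, h'⟩ <;> rcases abs_cases (m - 1) with ⟨g, g'⟩ | ⟨g, g'⟩ <;>
          omega
    · push_cast at hm
      rw [pow_succ, z0_step]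
      rcases abs_cases m with ⟨h, h'⟩ | ⟨h, h'⟩
      · rw [ih.2 (m - 1) ?_, ih.1 (m + 1) ?_, add_zero]
        · rcases abs_cases (m + 1) with ⟨g, g'⟩ | ⟨g, g'⟩ <;> omega
        · rcases abs_cases (m - 1) with ⟨g, g'⟩ | ⟨g, g'⟩ <;> omega
      · rw [ih.1 (m - 1) ?_, ih.2 (m + 1) ?_, zero_add]
        · rcases abs_cases (m + 1) with ⟨g, g'⟩ | ⟨g, g'⟩ <;> omega
        · rcases abs_cases (m - 1) with ⟨g, g'⟩ | ⟨g, g'⟩ <;> omega

private lemma z0_coeff (k : Type) [Field k] {c : ℤ × ℤ} (hc : c ≠ 0) (P : k[X]) (m : ℤ)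
    (hm : (P.natDegree : ℤ) = |m|) :
    (aeval (ee k c) P).coeff (m • c) = P.coeff P.natDegree := by
  rw [aeval_eq_sum_range, AddMonoidAlgebra.coeff_sum, Finsupp.finsetSum_apply,
    Finset.sum_eq_single P.natDegree]
  · rw [AddMonoidAlgebra.coeff_smul_apply, (z0_pow k hc P.natDegree).2 m hm, smul_eq_mul, mul_one]
  · intro j hj hne
    have hj' : j < P.natDegree := by
      have := Finset.mem_range.mp hj
      omega
    rw [AddMonoidAlgebra.coeff_smul_apply, (z0_pow k hc j).1 m (by omega), smul_zero]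
  · intro h
    exact absurd (Finset.mem_range.mpr (Nat.lt_succ_self _)) h

theorem p_Z0 : S_Z0 := by
  intro k _ h2 c hc P hP
  have hlc : P.coeff P.natDegree ≠ 0 := by
    simpa using hP
  by_cases hd : P.natDegree = 0
  · refine ⟨1, ?_⟩
    have h := z0_coeff k hc P 0 (by simp [hd])
    rw [zero_smul] at h
    rw [mul_one, ct, h]
    exact hlc
  · obtain ⟨⟨T, hT⟩, -⟩ := z0_T k c P.natDegree
    refine ⟨T, ?_⟩
    have h1 := z0_coeff k hc P (P.natDegree : ℤ) (by simp)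
    have h2' := z0_coeff k hc P (-(P.natDegree : ℤ)) (by simp)
    have h3 : ct (aeval (ee k c) (P * T)) = 2 * P.coeff P.natDegree := by
      rw [map_mul, hT, ct, show ee k ((P.natDegree : ℤ) • c) = AddMonoidAlgebra.single ((P.natDegree : ℤ) • c) 1 +
        AddMonoidAlgebra.single (-((P.natDegree : ℤ) • c)) 1 from rfl, mul_add, AddMonoidAlgebra.coeff_add, Finsupp.add_apply,
        AddMonoidAlgebra.coeff_mul_single_apply, AddMonoidAlgebra.coeff_mul_single_apply]
      simp only [zero_add, neg_neg, mul_one]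
      rw [neg_smul] at h2'
      rw [h1, h2']
      ring
    rw [h3]
    exact mul_ne_zero h2 hlc

end Pool.Agent.F2W
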