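import Pool.Agent.Lib.MP_305fdd_al.F2.W.Stm2

/-!
# MP_305fdd_al, F_2, section W: piece [F2W Z2]
-/

set_option autoImplicit false

namespace Pool.Agent.F2W

open Pool.Agent.F2Ch Polynomial Pool.Agent.F2 Pool.Agent.F2RF

section
variable {K Γ : Type} [Field K] [AddCommGroup Γ] [LinearOrder Γ] [IsOrderedAddMonoid Γ] {v : K → Γ}

private theorem z2_one (hv : IsV v) : v 1 = 0 := by
  have h := hv.mul 1 1 one_ne_zero one_ne_zero
  rw [mul_one] at h
  exact left_eq_add.1 h

private theorem z2_pow (hv : IsV v) {x : K} (hx : x ≠ 0) (n : ℕ) : v (x ^ n) = n • v x := by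
  induction n with
  | zero => rw [pow_zero, z2_one hv, zero_nsmul]
  | succ n ih => rw [pow_succ, hv.mul _ _ (pow_ne_zero _ hx) hx, ih, succ_nsmul]

omit [IsOrderedAddMonoid Γ] in
private theorem z2_ge_add (hv : IsV v) {x y : K} (hx : Ge v 0 x) (hy : Ge v 0 y) :
    Ge v 0 (x + y) := by
  by_cases h0 : x = 0
  · rw [h0, zero_add]; exact hy
  by_cases h1 : y = 0
  · rw [h1, add_zero]; exact hx
  by_cases h2 : x + y = 0
  · exact Or.inl h2
  exact Or.inr ((le_min (hx.resolve_left h0) (hy.resolve_left h1)).trans (hv.add x y h0 h1 h2))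

private theorem z2_ge_mul (hv : IsV v) {x y : K} (hx : Ge v 0 x) (hy : Ge v 0 y) :
    Ge v 0 (x * y) := by
  by_cases h0 : x = 0
  · left; rw [h0, zero_mul]
  by_cases h1 : y = 0
  · left; rw [h1, mul_zero]
  right
  rw [hv.mul x y h0 h1]
  exact add_nonneg (hx.resolve_left h0) (hy.resolve_left h1)

private theorem z2_gt_mul (hv : IsV v) {x y : K} (hx : Gt v 0 x) (hy : Ge v 0 y) :
    Gt v 0 (x * y) := by
  by_cases h0 : x = 0
  · left; rw [h0, zero_mul]
  by_cases h1 : y = 0
  · left; rw [h1, mul_zero]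
  right
  rw [hv.mul x y h0 h1]
  exact add_pos_of_pos_of_nonneg (hx.resolve_left h0) (hy.resolve_left h1)

private theorem z2_ge_aeval {k : Type} [Field k] [Algebra k K] (hv : IsV v) (ht : Triv k v) {t : K}
    (h : Ge v 0 t) (Q : k[X]) : Ge v 0 (aeval t Q) := by
  induction Q using Polynomial.induction_on with
  | C a => rw [aeval_C]; exact Or.inr (ht a).ge
  | add p q hp hq => rw [map_add]; exact z2_ge_add hv hp hq
  | monomial n a ih =>
    rw [pow_succ, ← mul_assoc, map_mul, aeval_X]
    exact z2_ge_mul hv ih h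

/-- a power of a compatible operator keeps positivity -/
private theorem z2_iter {p : ℕ} {φ : K → K} (hφ0 : φ 0 = 0) (hc : Compat p φ v) {x : K}
    (hx : Gt v 0 x) (N : ℕ) : Gt v 0 (φ^[N] x) := by
  induction N with
  | zero => exact hx
  | succ N ih =>
    rw [Function.iterate_succ_apply']
    by_cases h0 : φ (φ^[N] x) = 0
    · exact Or.inl h0
    right
    have h1 : φ^[N] x ≠ 0 := by
      intro h
      rw [h] at h0
      exact h0 hφ0
    have h2 := ih.resolve_left h1
    have h3 := hc _ h0
    by_contra hle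
    rw [not_lt] at hle
    exact absurd (h2.trans_le (h3.trans (nsmul_nonpos hle p))) (lt_irrefl _)

end

/-- part (a) of the proof of Z1 -/
private theorem z2_ct {p : ℕ} [Fact p.Prime] {k K Γ : Type} [Field k] [Field K] [Algebra k K]
    [AddCommGroup Γ] [LinearOrder Γ] [IsOrderedAddMonoid Γ] {B : Subalgebra k K}
    {res : B →ₐ[k] Lau k} {φ : K → K} (hF : Fra p k B res φ) {v : K → Γ} (hv : IsV v)
    (ht : Triv k v) (hc : Compat p φ v) (g : B) (hg : Gt v 0 (g : K)) : ct (res g) = 0 := by
  obtain ⟨N0, hN0⟩ := hF.tau g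
  have h1 := hN0 N0 le_rfl
  by_contra hne
  have hφ0 : φ 0 = 0 := by
    have := hF.pinv.add 0 0
    rw [add_zero] at this
    exact left_eq_add.1 this
  have h2 := z2_iter hφ0 hc hg N0
  have h3 : algebraMap k K (ct (res g)) ≠ 0 := (_root_.map_ne_zero _).2 hne
  have hp : p ^ N0 ≠ 0 := pow_ne_zero _ (Fact.out : p.Prime).ne_zero
  have h4 : φ^[N0] (g : K) ≠ 0 := by
    intro h
    rw [h, zero_pow hp] at h1
    exact h3 h1.symm
  have h5 := congrArg v h1
  rw [ht, z2_pow hv h4] at h5
  have h6 := h2.resolve_left h4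
  exact absurd h5 (nsmul_pos h6 hp).ne'

private theorem z2_coeff {k : Type} [Field k] (R : MvPolynomial (Fin 2) k) (n : ℕ) :
    (MvPolynomial.aeval (R := k) ![(X : k[X]), 0] R).coeff n = R.coeff (Finsupp.single 0 n) := by
  induction R using MvPolynomial.induction_on' with
  | monomial s a =>
    rw [MvPolynomial.aeval_monomial, Finsupp.prod_fintype _ _ (fun i => pow_zero _), Fin.prod_univ_two,
      MvPolynomial.coeff_monomial]
    simp only [Matrix.cons_val_zero, Matrix.cons_val_one]
    by_cases h1 : s 1 = 0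
    · rw [h1, pow_zero, mul_one]
      change (C a * X ^ s 0).coeff n = _
      rw [coeff_C_mul_X_pow]
      have : (n = s 0) ↔ (s = Finsupp.single 0 n) := by
        constructor
        · rintro rfl
          ext i
          fin_cases i
          · simp
          · simp [h1]
        · intro h
          rw [h]
          simp
      simp only [this]
    · rw [zero_pow h1, mul_zero, mul_zero, coeff_zero, if_neg]
      intro h
      apply h1
      rw [h]
      simp
  | add p q hp hq => rw [map_add, coeff_add, hp, hq, MvPolynomial.coeff_add]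

/-- divide by the greatest power of the variable `1` -/
private theorem z2_fac {k : Type} [Field k] (P : MvPolynomial (Fin 2) k) (hP : P ≠ 0) :
    ∃ (m : ℕ) (P' : MvPolynomial (Fin 2) k), P = MvPolynomial.X 1 ^ m * P' ∧
      (MvPolynomial.aeval (R := k) ![(X : k[X]), 0] P') ≠ 0 := by
  obtain ⟨d, hd, hmin⟩ := P.support.exists_min_image (fun d => d 1) (MvPolynomial.support_nonempty.2 hP)
  have hfac : MvPolynomial.X 1 ^ (d 1) * (P.divMonomial (Finsupp.single 1 (d 1))) = P := by
    have h1 := MvPolynomial.divMonomial_add_modMonomial P (Finsupp.single 1 (d 1))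
    have h2 : P.modMonomial (Finsupp.single 1 (d 1)) = 0 := by
      ext s
      rw [MvPolynomial.coeff_zero]
      by_cases hs : Finsupp.single 1 (d 1) ≤ s
      · exact MvPolynomial.coeff_modMonomial_of_le P hs
      · rw [MvPolynomial.coeff_modMonomial_of_not_le P hs]
        by_contra hne
        apply hs
        rw [Finsupp.single_le_iff]
        exact hmin s (MvPolynomial.mem_support_iff.2 hne)
    rw [h2, add_zero] at h1
    rw [MvPolynomial.X_pow_eq_monomial]
    exact h1
  refine ⟨d 1, P.divMonomial (Finsupp.single 1 (d 1)), hfac.symm, ?_⟩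
  intro h0
  have h1 := congrArg (fun q : k[X] => q.coeff (d 0)) h0
  simp only [z2_coeff, MvPolynomial.coeff_divMonomial, coeff_zero] at h1
  have h2 : Finsupp.single 1 (d 1) + Finsupp.single 0 (d 0) = d := by
    ext i
    fin_cases i <;> simp
  rw [h2] at h1
  exact MvPolynomial.mem_support_iff.1 hd h1

theorem p_Z2 (hZ0 : S_Z0) : S_Z2 := by
  intro p _ hp2 k K Γ _ _ _ _ _ _ _ B res φ hF v hv ht hc t c hc0 hrt hgt htr f hf hgf
  by_contra hcon
  have hcon' : (f : K) ≠ 0 ∧ ¬ 0 < v (f : K) := by
    constructor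
    · intro h; exact hcon (Or.inl h)
    · intro h; exact hcon (Or.inr h)
  obtain ⟨hf0, hfv⟩ := hcon'
  have hfv0 : v (f : K) = 0 := le_antisymm (not_lt.1 hfv) (hgf.resolve_left hf0)
  obtain ⟨P, hP0, hP⟩ := htr (t : K) (f : K) hgt hgf
  obtain ⟨m, P', hfac, hP'⟩ := z2_fac P hP0
  have h2 : (2 : k) ≠ 0 := by
    intro h
    apply hp2
    have h3 : ((2 : ℕ) : k) = 0 := by exact_mod_cast h
    have h4 := (CharP.cast_eq_zero_iff k p 2).1 h3
    exact (Nat.prime_dvd_prime_iff_eq Fact.out Nat.prime_two).1 h4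
  obtain ⟨Q, hQ⟩ := hZ0 k h2 c hc0 _ hP'
  apply hQ
  -- the element of `B`
  have e1 : ((MvPolynomial.aeval ![t, f] P' : B) : K) = MvPolynomial.aeval ![(t : K), (f : K)] P' := by
    have h3 : (B.val.comp (MvPolynomial.aeval ![t, f])) = MvPolynomial.aeval ![(t : K), (f : K)] := by
      apply MvPolynomial.algHom_ext
      intro i
      rw [AlgHom.comp_apply, MvPolynomial.aeval_X, MvPolynomial.aeval_X]
      fin_cases i <;> rfl
    exact DFunLike.congr_fun h3 P'
  have e2 : ((aeval t Q : B) : K) = aeval (t : K) Q := by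
    have h3 : (B.val.comp (aeval t)) = aeval (t : K) := by
      apply Polynomial.algHom_ext
      rw [AlgHom.comp_apply, aeval_X, aeval_X]
      rfl
    exact DFunLike.congr_fun h3 Q
  have hg1 : Gt v 0 (MvPolynomial.aeval ![(t : K), (f : K)] P') := by
    rw [hfac, map_mul, map_pow, MvPolynomial.aeval_X] at hP
    have h4 : (![(t : K), (f : K)] 1) = (f : K) := rfl
    rw [h4] at hP
    by_cases h0 : MvPolynomial.aeval ![(t : K), (f : K)] P' = 0
    · exact Or.inl h0
    right
    have h5 := hP.resolve_left (mul_ne_zero (pow_ne_zero _ hf0) h0)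
    rw [hv.mul _ _ (pow_ne_zero _ hf0) h0, z2_pow hv hf0, hfv0, smul_zero, zero_add] at h5
    exact h5
  have hg2 : Gt v 0 ((MvPolynomial.aeval ![t, f] P' * aeval t Q : B) : K) := by
    rw [MulMemClass.coe_mul, e1, e2]
    exact z2_gt_mul hv hg1 (z2_ge_aeval hv ht hgt Q)
  have h6 := z2_ct hF hv ht hc _ hg2
  have e3 : res (MvPolynomial.aeval ![t, f] P') =
      aeval (ee k c) (MvPolynomial.aeval (R := k) ![(X : k[X]), 0] P') := by
    have h3 : (res.comp (MvPolynomial.aeval ![t, f])) =
        (aeval (ee k c)).comp (MvPolynomial.aeval (R := k) ![(X : k[X]), 0]) := by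
      apply MvPolynomial.algHom_ext
      intro i
      rw [AlgHom.comp_apply, AlgHom.comp_apply, MvPolynomial.aeval_X, MvPolynomial.aeval_X]
      fin_cases i
      · change res t = aeval (ee k c) (X : k[X])
        rw [aeval_X, hrt]
      · change res f = aeval (ee k c) (0 : k[X])
        rw [map_zero, hf]
    exact DFunLike.congr_fun h3 P'
  have e4 : res (aeval t Q) = aeval (ee k c) Q := by
    rw [← hrt, Polynomial.aeval_algHom_apply]
  rw [map_mul, e3, e4, ← map_mul] at h6
  exact h6

end Pool.Agent.F2W
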