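import Pool.Agent.Lib.MP_305fdd_al.F2.W.Stm2

/-!
# Proof of `S_Z3`
-/

set_option autoImplicit false

namespace Pool.Agent.F2W

open Pool.Agent.F2Ch Polynomial Pool.Agent.F2 Pool.Agent.F2RF

section

variable {K Γ : Type} [Field K] [AddCommGroup Γ] [LinearOrder Γ] [IsOrderedAddMonoid Γ]

private theorem z3_ge_add {v : K → Γ} (hv : IsV v) {f g : K} (hf : Ge v 0 f) (hg : Ge v 0 g) :
    Ge v 0 (f + g) := by
  by_cases h : f + g = 0
  · exact Or.inl h
  rcases hf with rfl | hf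
  · rw [zero_add]; exact hg
  rcases hg with rfl | hg
  · rw [add_zero]; exact Or.inr hf
  by_cases hf0 : f = 0
  · subst hf0; rw [zero_add]; exact Or.inr hg
  by_cases hg0 : g = 0
  · subst hg0; rw [add_zero]; exact Or.inr hf
  exact Or.inr ((le_min hf hg).trans (hv.add f g hf0 hg0 h))

private theorem z3_ge_mul {v : K → Γ} (hv : IsV v) {f g : K} (hf : Ge v 0 f) (hg : Ge v 0 g) :
    Ge v 0 (f * g) := by
  by_cases hf0 : f = 0
  · left; rw [hf0, zero_mul]
  by_cases hg0 : g = 0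
  · left; rw [hg0, mul_zero]
  right
  rw [hv.mul f g hf0 hg0]
  exact add_nonneg (hf.resolve_left hf0) (hg.resolve_left hg0)

variable {k κ : Type} [Field k] [Algebra k K] [Field κ] [Algebra k κ]

private theorem z3_lc_mul {v : K → Γ} (hv : IsV v) {r : ℕ} {x : Fin r → K} {ac : K → κ}
    (hac : IsAC k v x ac) {f g : K} (hf : Ge v 0 f) (hg : Ge v 0 g) :
    lc v ac 0 (f * g) = lc v ac 0 f * lc v ac 0 g := by
  unfold lc
  by_cases hf0 : f = 0
  · simp [hf0]
  by_cases hg0 : g = 0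
  · simp [hg0]
  have hf' := hf.resolve_left hf0
  have hg' := hg.resolve_left hg0
  by_cases hvf : v f = 0
  · by_cases hvg : v g = 0
    · rw [if_pos ⟨mul_ne_zero hf0 hg0, by rw [hv.mul f g hf0 hg0, hvf, hvg, add_zero]⟩,
        if_pos ⟨hf0, hvf⟩, if_pos ⟨hg0, hvg⟩, hac.mul]
    · rw [if_neg (c := g ≠ 0 ∧ v g = 0) (fun h => hvg h.2), mul_zero, if_neg]
      rintro ⟨-, h⟩
      rw [hv.mul f g hf0 hg0, hvf, zero_add] at h
      exact hvg h
  · rw [if_neg (c := f ≠ 0 ∧ v f = 0) (fun h => hvf h.2), zero_mul, if_neg]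
    rintro ⟨-, h⟩
    rw [hv.mul f g hf0 hg0] at h
    have h1 : 0 < v f := lt_of_le_of_ne hf' (Ne.symm hvf)
    have h2 : 0 < v f + v g := add_pos_of_pos_of_nonneg h1 hg'
    exact h2.ne' h

private theorem z3_lc_alg {v : K → Γ} (ht : Triv k v) {r : ℕ} {x : Fin r → K} {ac : K → κ}
    (hac : IsAC k v x ac) (c : k) : lc v ac 0 (algebraMap k K c) = algebraMap k κ c := by
  unfold lc
  by_cases hc : c = 0
  · simp [hc]
  · rw [if_pos ⟨by simpa using hc, ht c⟩, hac.alg]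

private theorem z3_poly {v : K → Γ} (hv : IsV v) (ht : Triv k v) {r : ℕ} {x : Fin r → K}
    {ac : K → κ} (hac : IsAC k v x ac) {f g : K} (hf : Ge v 0 f) (hg : Ge v 0 g)
    (P : MvPolynomial (Fin 2) k) : Ge v 0 (MvPolynomial.aeval ![f, g] P) ∧
      lc v ac 0 (MvPolynomial.aeval ![f, g] P) =
        MvPolynomial.aeval ![lc v ac 0 f, lc v ac 0 g] P := by
  induction P using MvPolynomial.induction_on with
  | C a =>
    rw [MvPolynomial.aeval_C, MvPolynomial.aeval_C]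
    exact ⟨Or.inr (ht a).ge, z3_lc_alg ht hac a⟩
  | add p q hp hq =>
    rw [map_add, map_add]
    refine ⟨z3_ge_add hv hp.1 hq.1, ?_⟩
    rw [hac.add 0 _ _ hp.1 hq.1, hp.2, hq.2]
  | mul_X p i hp =>
    rw [map_mul, map_mul, MvPolynomial.aeval_X, MvPolynomial.aeval_X]
    have hi : Ge v 0 ((![f, g] : Fin 2 → K) i) := by
      fin_cases i
      · exact hf
      · exact hg
    have hi2 : lc v ac 0 ((![f, g] : Fin 2 → K) i) =
        (![lc v ac 0 f, lc v ac 0 g] : Fin 2 → κ) i := by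
      fin_cases i <;> rfl
    refine ⟨z3_ge_mul hv hp.1 hi, ?_⟩
    rw [z3_lc_mul hv hac hp.1 hi, hp.2, hi2]

end

theorem p_Z3 : S_Z3 := by
  intro k K Γ κ _ _ _ _ _ _ _ _ v hv ht r x ac hac htr f g hf hg
  have hni : ¬ AlgebraicIndependent k (![lc v ac 0 f, lc v ac 0 g] : Fin 2 → κ) := by
    intro h
    have h1 := h.cardinalMk_le_trdeg
    rw [Cardinal.mk_fin] at h1
    have h2 := h1.trans htr
    norm_num at h2
  rw [algebraicIndependent_iff] at hni
  push Not at hni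
  obtain ⟨P, hP, hP0⟩ := hni
  refine ⟨P, hP0, ?_⟩
  obtain ⟨h1, h2⟩ := z3_poly hv ht hac hf hg P
  rw [hP] at h2
  by_cases hz : MvPolynomial.aeval ![f, g] P = 0
  · exact Or.inl hz
  right
  refine lt_of_le_of_ne (h1.resolve_left hz) fun h => ?_
  unfold lc at h2
  rw [if_pos ⟨hz, h.symm⟩] at h2
  exact hac.ne _ hz h2

end Pool.Agent.F2W
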