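import Pool.Agent.Lib.MP_305fdd_al.F2.W.Stm4

/-!
# MP_305fdd_al, F_2, section W: piece [F2W Z4]
-/

set_option autoImplicit false

namespace Pool.Agent.F2W

open Pool.Agent.F2Ch Polynomial Pool.Agent.F2 Pool.Agent.F2RF

section
variable (k : Type) [Field k]

private noncomputable def z4_M (σ : ℤ × ℤ →+ ℤ × ℤ) : Lau k →ₐ[k] Lau k :=
  AddMonoidAlgebra.mapDomainAlgHom k k σ

private theorem z4_coeff (σ : ℤ × ℤ →+ ℤ × ℤ) (hσ : Function.Injective σ)
    (F : Lau k) (x : ℤ × ℤ) : (z4_M k σ F).coeff (σ x) = F.coeff x := by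
  have h : (z4_M k σ F).coeff = Finsupp.mapDomain σ F.coeff := rfl
  rw [h]
  exact Finsupp.mapDomain_apply hσ _ _

private theorem z4_ee (σ : ℤ × ℤ →+ ℤ × ℤ) (x : ℤ × ℤ) :
    z4_M k σ (ee k x) = ee k (σ x) := by
  have hs : ∀ y : ℤ × ℤ, z4_M k σ (AddMonoidAlgebra.single y 1) =
      AddMonoidAlgebra.single (σ y) 1 := by
    intro y
    simp [z4_M]
  simp only [ee, map_add, hs, map_neg]

private theorem z4_step (F : Lau k) (c : ℤ × ℤ) (x : ℤ × ℤ) :
    (F * ee k c).coeff x = F.coeff (x - c) + F.coeff (x + c) := by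
  simp only [ee, mul_add, AddMonoidAlgebra.coeff_add, Finsupp.add_apply,
    AddMonoidAlgebra.coeff_mul_single_apply, mul_one, neg_neg, sub_eq_add_neg]

private theorem z4_ct (F : Lau k) (x : ℤ × ℤ) :
    ct (F * ee k x) = F.coeff (-x) + F.coeff x := by
  rw [ct, z4_step, zero_sub, zero_add]

private theorem z4_neg (x : ℤ × ℤ) : ee k (-x) = ee k x := by
  simp [ee, add_comm]

private theorem z4_mul (x y : ℤ × ℤ) : ee k x * ee k y = ee k (x + y) + ee k (x - y) := by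
  simp only [ee, add_mul, mul_add, AddMonoidAlgebra.single_mul_single, mul_one, neg_add,
    sub_eq_add_neg, neg_neg]
  abel

private def z4_H (i j : ℕ) (F : Lau k) : Prop :=
  (∀ p q : ℤ, ((i : ℤ) < p ∨ (j : ℤ) < q) → F.coeff (p, q) = 0) ∧ F.coeff ((i : ℤ), (j : ℤ)) = 1

private theorem z4_H0 : z4_H k 0 0 1 := by
  refine ⟨fun p q h => ?_, ?_⟩
  · rw [AddMonoidAlgebra.one_def, AddMonoidAlgebra.coeff_single, Finsupp.single_apply, if_neg]
    intro h'
    have h1 : (0 : ℤ) = p := congrArg Prod.fst h'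
    have h2 : (0 : ℤ) = q := congrArg Prod.snd h'
    rcases h with h | h
    · simp at h
      omega
    · simp at h
      omega
  · rw [AddMonoidAlgebra.one_def, AddMonoidAlgebra.coeff_single, Finsupp.single_apply, if_pos]
    rfl

private theorem z4_Hx (i j : ℕ) (F : Lau k) (h : z4_H k i j F) :
    z4_H k (i + 1) j (F * ee k (1, 0)) := by
  refine ⟨fun p q hpq => ?_, ?_⟩
  · rw [z4_step]
    have h1 := h.1 (p - 1) q (by push_cast at hpq; omega)
    have h2 := h.1 (p + 1) q (by push_cast at hpq; omega)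
    have e1 : ((p, q) : ℤ × ℤ) - (1, 0) = (p - 1, q) := by ext <;> simp
    have e2 : ((p, q) : ℤ × ℤ) + (1, 0) = (p + 1, q) := by ext <;> simp
    rw [e1, e2, h1, h2, add_zero]
  · rw [z4_step]
    have h2 := h.1 ((i : ℤ) + 1 + 1) j (by omega)
    have e1 : (((i + 1 : ℕ) : ℤ), (j : ℤ)) - (1, 0) = ((i : ℤ), (j : ℤ)) := by ext <;> simp
    have e2 : (((i + 1 : ℕ) : ℤ), (j : ℤ)) + (1, 0) = ((i : ℤ) + 1 + 1, (j : ℤ)) := by ext <;> simp
    rw [e1, e2, h.2, h2, add_zero]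

private theorem z4_Hy (i j : ℕ) (F : Lau k) (h : z4_H k i j F) :
    z4_H k i (j + 1) (F * ee k (0, 1)) := by
  refine ⟨fun p q hpq => ?_, ?_⟩
  · rw [z4_step]
    have h1 := h.1 p (q - 1) (by push_cast at hpq; omega)
    have h2 := h.1 p (q + 1) (by push_cast at hpq; omega)
    have e1 : ((p, q) : ℤ × ℤ) - (0, 1) = (p, q - 1) := by ext <;> simp
    have e2 : ((p, q) : ℤ × ℤ) + (0, 1) = (p, q + 1) := by ext <;> simp
    rw [e1, e2, h1, h2, add_zero]
  · rw [z4_step]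
    have h2 := h.1 i ((j : ℤ) + 1 + 1) (by omega)
    have e1 : ((i : ℤ), ((j + 1 : ℕ) : ℤ)) - (0, 1) = ((i : ℤ), (j : ℤ)) := by ext <;> simp
    have e2 : ((i : ℤ), ((j + 1 : ℕ) : ℤ)) + (0, 1) = ((i : ℤ), (j : ℤ) + 1 + 1) := by ext <;> simp
    rw [e1, e2, h.2, h2, add_zero]

private theorem z4_Hm (i j : ℕ) : z4_H k i j (ee k (1, 0) ^ i * ee k (0, 1) ^ j) := by
  induction j with
  | zero =>
    rw [pow_zero, mul_one]
    induction i with
    | zero => exact z4_H0 k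
    | succ i ih =>
      rw [pow_succ]
      exact z4_Hx k i 0 _ ih
  | succ j ih =>
    rw [pow_succ, ← mul_assoc]
    exact z4_Hy k i j _ ih

/-- evaluation at the standard classes -/
private noncomputable def z4_r : MvPolynomial (Fin 2) k →ₐ[k] Lau k :=
  MvPolynomial.aeval ![ee k (1, 0), ee k (0, 1)]

private theorem z4_r0 : z4_r k (MvPolynomial.X 0) = ee k (1, 0) := by
  simp [z4_r]

private theorem z4_r1 : z4_r k (MvPolynomial.X 1) = ee k (0, 1) := by
  simp [z4_r]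

private theorem z4_inj (b : MvPolynomial (Fin 2) k) (hb : z4_r k b = 0) : b = 0 := by
  by_contra hne
  have hs : b.support.Nonempty := by
    rw [Finset.nonempty_iff_ne_empty]
    intro h
    exact hne (MvPolynomial.support_eq_empty.1 h)
  obtain ⟨m, hm, hmax⟩ := Finset.exists_max_image b.support (fun m => m 0 + m 1) hs
  have hmon : ∀ n : Fin 2 →₀ ℕ, ∀ c : k, z4_r k (MvPolynomial.monomial n c) =
      c • (ee k (1, 0) ^ (n 0) * ee k (0, 1) ^ (n 1)) := by
    intro n c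
    have : MvPolynomial.monomial n c =
        c • (MvPolynomial.X 0 ^ (n 0) * MvPolynomial.X 1 ^ (n 1) : MvPolynomial (Fin 2) k) := by
      rw [MvPolynomial.monomial_eq, Finsupp.prod_fintype _ _ (fun i => pow_zero _),
        Fin.prod_univ_two, MvPolynomial.smul_eq_C_mul]
    rw [this, map_smul, map_mul, map_pow, map_pow, z4_r0, z4_r1]
  have h1 : (z4_r k b).coeff ((m 0 : ℤ), (m 1 : ℤ)) = b.coeff m := by
    conv_lhs => rw [b.as_sum, map_sum]
    have h2 : ∀ n ∈ b.support,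
        (z4_r k (MvPolynomial.monomial n (b.coeff n))).coeff ((m 0 : ℤ), (m 1 : ℤ)) =
        if n = m then b.coeff m else 0 := by
      intro n hn
      rw [hmon, AddMonoidAlgebra.coeff_smul, Finsupp.smul_apply, smul_eq_mul]
      split_ifs with h
      · subst h
        rw [(z4_Hm k (n 0) (n 1)).2, mul_one]
      · rw [(z4_Hm k (n 0) (n 1)).1, mul_zero]
        by_contra hcon
        push Not at hcon
        have h3 := hmax n hn
        apply h
        ext i
        fin_cases i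
        · simp only [Fin.zero_eta]
          omega
        · simp only [Fin.mk_one]
          omega
    rw [AddMonoidAlgebra.coeff_sum, Finsupp.finsetSum_apply, Finset.sum_congr rfl h2]
    rw [Finset.sum_ite_eq', if_pos hm]
  rw [hb] at h1
  exact MvPolynomial.mem_support_iff.1 hm (by rw [← h1]; rfl)

private theorem z4_mem (x : ℤ × ℤ) (S : Subalgebra k (Lau k)) (hx : ee k x ∈ S) (n : ℕ) :
    ee k ((n : ℤ) • x) ∈ S ∧ ee k (((n : ℤ) + 1) • x) ∈ S := by
  induction n with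
  | zero =>
    refine ⟨?_, by simpa using hx⟩
    have : ee k (((0 : ℕ) : ℤ) • x) = algebraMap k (Lau k) 2 := by
      simp [ee]
      rw [← AddMonoidAlgebra.single_add]
      norm_num
    rw [this]
    exact S.algebraMap_mem 2
  | succ n ih =>
    refine ⟨by push_cast; exact ih.2, ?_⟩
    have h := z4_mul k (((n : ℤ) + 1) • x) x
    have e1 : ((n : ℤ) + 1) • x + x = (((n + 1 : ℕ) : ℤ) + 1) • x := by
      push_cast
      module
    have e2 : ((n : ℤ) + 1) • x - x = (n : ℤ) • x := by module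
    rw [e1, e2] at h
    have h2 : ee k ((((n + 1 : ℕ) : ℤ) + 1) • x) =
        ee k (((n : ℤ) + 1) • x) * ee k x - ee k ((n : ℤ) • x) := by
      rw [h]
      ring
    rw [h2]
    exact S.sub_mem (S.mul_mem ih.2 hx) ih.1

private theorem z4_mem' (x : ℤ × ℤ) (S : Subalgebra k (Lau k)) (hx : ee k x ∈ S) (i : ℤ) :
    ee k (i • x) ∈ S := by
  obtain ⟨n, rfl | rfl⟩ := i.eq_nat_or_neg
  · exact (z4_mem k x S hx n).1
  · rw [neg_smul, z4_neg]
    exact (z4_mem k x S hx n).1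

private theorem z4_std (h2 : (2 : k) ≠ 0) (P : MvPolynomial (Fin 2) k) (hP : P ≠ 0) :
    ∃ Q : MvPolynomial (Fin 2) k, ct (z4_r k (P * Q)) ≠ 0 := by
  set F := z4_r k P with hF
  have hF0 : F ≠ 0 := fun h => hP (z4_inj k P h)
  obtain ⟨⟨i, j⟩, hij⟩ : ∃ m, F.coeff m ≠ 0 := by
    by_contra hcon
    push Not at hcon
    apply hF0
    ext m
    simpa using hcon m
  let σ₁ : ℤ × ℤ →+ ℤ × ℤ := AddMonoidHom.prodMap (-AddMonoidHom.id ℤ) (AddMonoidHom.id ℤ)
  let σ₂ : ℤ × ℤ →+ ℤ × ℤ := AddMonoidHom.prodMap (AddMonoidHom.id ℤ) (-AddMonoidHom.id ℤ)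
  have hσ₁ : ∀ x y : ℤ, σ₁ (x, y) = (-x, y) := fun x y => rfl
  have hσ₂ : ∀ x y : ℤ, σ₂ (x, y) = (x, -y) := fun x y => rfl
  have hi₁ : Function.Injective σ₁ := by
    rintro ⟨x, y⟩ ⟨x', y'⟩ h
    rw [hσ₁, hσ₁, Prod.mk.injEq] at h
    rw [Prod.mk.injEq]
    omega
  have hi₂ : Function.Injective σ₂ := by
    rintro ⟨x, y⟩ ⟨x', y'⟩ h
    rw [hσ₂, hσ₂, Prod.mk.injEq] at h
    rw [Prod.mk.injEq]
    omega
  have hs₁ : z4_M k σ₁ F = F := by
    have : (z4_M k σ₁).comp (z4_r k) = z4_r k := by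
      apply MvPolynomial.algHom_ext
      intro i
      fin_cases i
      · simp only [Fin.zero_eta, AlgHom.comp_apply, z4_r0, z4_ee, hσ₁]
        have : ((-1, 0) : ℤ × ℤ) = -(1, 0) := by simp
        rw [this, z4_neg]
      · simp only [Fin.mk_one, AlgHom.comp_apply, z4_r1, z4_ee, hσ₁, neg_zero]
    exact DFunLike.congr_fun this P
  have hs₂ : z4_M k σ₂ F = F := by
    have : (z4_M k σ₂).comp (z4_r k) = z4_r k := by
      apply MvPolynomial.algHom_ext
      intro i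
      fin_cases i
      · simp only [Fin.zero_eta, AlgHom.comp_apply, z4_r0, z4_ee, hσ₂, neg_zero]
      · simp only [Fin.mk_one, AlgHom.comp_apply, z4_r1, z4_ee, hσ₂]
        have : ((0, -1) : ℤ × ℤ) = -(0, 1) := by simp
        rw [this, z4_neg]
    exact DFunLike.congr_fun this P
  have hc₁ : ∀ x y : ℤ, F.coeff (-x, y) = F.coeff (x, y) := by
    intro x y
    have h := z4_coeff k σ₁ hi₁ F (x, y)
    rw [hs₁, hσ₁] at h
    exact h
  have hc₂ : ∀ x y : ℤ, F.coeff (x, -y) = F.coeff (x, y) := by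
    intro x y
    have h := z4_coeff k σ₂ hi₂ F (x, y)
    rw [hs₂, hσ₂] at h
    exact h
  have m1 : ee k (i • ((1, 0) : ℤ × ℤ)) ∈ (z4_r k).range :=
    z4_mem' k (1, 0) (z4_r k).range ⟨MvPolynomial.X 0, z4_r0 k⟩ i
  have m2 : ee k (j • ((0, 1) : ℤ × ℤ)) ∈ (z4_r k).range :=
    z4_mem' k (0, 1) (z4_r k).range ⟨MvPolynomial.X 1, z4_r1 k⟩ j
  obtain ⟨Q, hQ⟩ : ∃ Q, z4_r k Q = ee k (i • ((1, 0) : ℤ × ℤ)) * ee k (j • ((0, 1) : ℤ × ℤ)) :=
    (z4_r k).range.mul_mem m1 m2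
  refine ⟨Q, ?_⟩
  have e1 : i • ((1, 0) : ℤ × ℤ) + j • ((0, 1) : ℤ × ℤ) = (i, j) := by ext <;> simp
  have e2 : i • ((1, 0) : ℤ × ℤ) - j • ((0, 1) : ℤ × ℤ) = (i, -j) := by ext <;> simp
  rw [z4_mul, e1, e2] at hQ
  have h4 : ct (z4_r k (P * Q)) = 2 * (2 * F.coeff (i, j)) := by
    rw [map_mul, hQ, mul_add]
    have hadd : ∀ a b : Lau k, ct (a + b) = ct a + ct b := fun a b => rfl
    rw [← hF, hadd, z4_ct, z4_ct]
    have e3 : -((i, j) : ℤ × ℤ) = (-i, -j) := rfl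
    have e4 : -((i, -j) : ℤ × ℤ) = (-i, j) := by simp
    rw [e3, e4, hc₁, hc₂, hc₁]
    ring
  rw [h4]
  exact mul_ne_zero h2 (mul_ne_zero h2 hij)

end

theorem p_Z4 : S_Z4 := by
  intro k _ h2 c d hcd P hP
  obtain ⟨Q, hQ⟩ := z4_std k h2 P hP
  refine ⟨Q, ?_⟩
  let θ : ℤ × ℤ →+ ℤ × ℤ := AddMonoidHom.mk' (fun x => x.1 • c + x.2 • d) (by
    intro x y
    simp only [Prod.fst_add, Prod.snd_add]
    module)
  have hθ : ∀ x, θ x = x.1 • c + x.2 • d := fun x => rfl
  have hθi : Function.Injective θ := by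
    rw [injective_iff_map_eq_zero]
    rintro ⟨x, y⟩ h
    rw [hθ] at h
    obtain ⟨h1, h2⟩ := hcd x y h
    rw [h1, h2]
    rfl
  have hcomp : (z4_M k θ).comp (z4_r k) = MvPolynomial.aeval ![ee k c, ee k d] := by
    apply MvPolynomial.algHom_ext
    intro i
    fin_cases i
    · simp only [Fin.zero_eta, AlgHom.comp_apply, z4_r0, z4_ee, hθ, MvPolynomial.aeval_X,
        one_smul, zero_smul, add_zero, Matrix.cons_val_zero]
    · simp only [Fin.mk_one, AlgHom.comp_apply, z4_r1, z4_ee, hθ, MvPolynomial.aeval_X,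
        one_smul, zero_smul, zero_add, Matrix.cons_val_one, Matrix.cons_val_zero]
  rw [← hcomp, AlgHom.comp_apply]
  have h3 : ct (z4_M k θ (z4_r k (P * Q))) = ct (z4_r k (P * Q)) := by
    have h := z4_coeff k θ hθi (z4_r k (P * Q)) 0
    rw [map_zero] at h
    exact h
  rw [h3]
  exact hQ

end Pool.Agent.F2W
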