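import Pool.Agent.Lib.MP_305fdd_al.F2.W.Stm4

/-!
# MP_305fdd_al, F_2, section W: piece [F2W Z5]
-/

set_option autoImplicit false

namespace Pool.Agent.F2W

open Pool.Agent.F2Ch Polynomial Pool.Agent.F2 Pool.Agent.F2RF

private noncomputable def z5_M (k : Type) [Field k] (σ : ℤ × ℤ →+ ℤ × ℤ) : Lau k →ₐ[k] Lau k :=
  AddMonoidAlgebra.mapDomainAlgHom k k σ

private theorem z5_coeff (k : Type) [Field k] (σ : ℤ × ℤ →+ ℤ × ℤ) (hσ : Function.Injective σ)
    (F : Lau k) (x : ℤ × ℤ) : (z5_M k σ F).coeff (σ x) = F.coeff x := by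
  have h : (z5_M k σ F).coeff = Finsupp.mapDomain σ F.coeff := rfl
  rw [h]
  exact Finsupp.mapDomain_apply hσ _ _

private theorem z5_ee (k : Type) [Field k] (σ : ℤ × ℤ →+ ℤ × ℤ) (x : ℤ × ℤ) :
    z5_M k σ (ee k x) = ee k (σ x) := by
  have hs : ∀ y : ℤ × ℤ, z5_M k σ (AddMonoidAlgebra.single y 1) =
      AddMonoidAlgebra.single (σ y) 1 := by
    intro y
    simp [z5_M]
  simp only [ee, map_add, hs, map_neg]

private theorem z5_ct (k : Type) [Field k] (F : Lau k) (x : ℤ × ℤ) :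
    ct (F * ee k x) = F.coeff (-x) + F.coeff x := by
  simp only [ct, ee, mul_add, AddMonoidAlgebra.coeff_add, Finsupp.add_apply,
    AddMonoidAlgebra.coeff_mul_single_apply, mul_one, zero_add, neg_neg]

theorem p_Z5 : S_Z5 := by
  intro k _ h2 F hF hF0
  have hsym : z5_M k (-AddMonoidHom.id (ℤ × ℤ)) F = F := by
    have hle : Sy k ≤ AlgHom.equalizer (z5_M k (-AddMonoidHom.id (ℤ × ℤ))) (AlgHom.id k (Lau k)) := by
      rw [Sy, Algebra.adjoin_le_iff]
      rintro _ ⟨c, rfl⟩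
      change z5_M k (-AddMonoidHom.id (ℤ × ℤ)) (ee k c) = ee k c
      rw [z5_ee]
      simp [ee, add_comm]
    exact hle hF
  have hcoeff : ∀ m, F.coeff (-m) = F.coeff m := by
    intro m
    have hinj : Function.Injective (-AddMonoidHom.id (ℤ × ℤ)) := by
      intro x y h
      simpa using h
    have h := z5_coeff k (-AddMonoidHom.id (ℤ × ℤ)) hinj F m
    rw [hsym] at h
    simpa using h
  obtain ⟨m, hm⟩ : ∃ m, F.coeff m ≠ 0 := by
    by_contra hcon
    push Not at hcon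
    apply hF0
    ext m
    simpa using hcon m
  refine ⟨m, ?_⟩
  rw [z5_ct, hcoeff, ← two_mul]
  exact mul_ne_zero h2 hm

end Pool.Agent.F2W
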