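import Pool.Agent.Lib.MP_305fdd_al.F2.W.Stm4

/-!
# MP_305fdd_al, F_2 project, section W: piece [F2W Z7]
-/

set_option autoImplicit false
set_option linter.unusedSectionVars false

namespace Pool.Agent.F2W

open Pool.Agent.F2Ch Polynomial Pool.Agent.F2 Pool.Agent.F2RF

section
variable {k K Γ κ : Type} [Field k] [Field K] [Algebra k K] [AddCommGroup Γ] [LinearOrder Γ]
  [IsOrderedAddMonoid Γ] [Field κ] [Algebra k κ] {v : K → Γ}

private theorem z7_ge_add (hv : IsV v) {f g : K} (hf : Ge v 0 f) (hg : Ge v 0 g) :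
    Ge v 0 (f + g) := by
  rcases hf with rfl | hf
  · rwa [zero_add]
  · rcases hg with rfl | hg
    · rw [add_zero]
      exact Or.inr hf
    · by_cases hf0 : f = 0
      · rw [hf0, zero_add]
        exact Or.inr hg
      · by_cases hg0 : g = 0
        · rw [hg0, add_zero]
          exact Or.inr hf
        · by_cases hs : f + g = 0
          · exact Or.inl hs
          · exact Or.inr (le_trans (le_min hf hg) (hv.add f g hf0 hg0 hs))

private theorem z7_ge_mul (hv : IsV v) {f g : K} (hf : Ge v 0 f) (hg : Ge v 0 g) :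
    Ge v 0 (f * g) := by
  by_cases hf0 : f = 0
  · exact Or.inl (by rw [hf0, zero_mul])
  · by_cases hg0 : g = 0
    · exact Or.inl (by rw [hg0, mul_zero])
    · have h1 := hf.resolve_left hf0
      have h2 := hg.resolve_left hg0
      right
      rw [hv.mul f g hf0 hg0]
      exact add_nonneg h1 h2

private theorem z7_mul (hv : IsV v) {r : ℕ} {x : Fin r → K} {ac : K → κ} (hac : IsAC k v x ac)
    {f g : K} (hf : Ge v 0 f) (hg : Ge v 0 g) :
    lc v ac 0 (f * g) = lc v ac 0 f * lc v ac 0 g := by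
  classical
  unfold lc
  by_cases hf0 : f = 0
  · simp [hf0]
  · by_cases hg0 : g = 0
    · simp [hg0]
    · have h1 := hf.resolve_left hf0
      have h2 := hg.resolve_left hg0
      have h3 := hv.mul f g hf0 hg0
      have h4 : f * g ≠ 0 := mul_ne_zero hf0 hg0
      rcases h1.eq_or_lt with h5 | h5
      · rcases h2.eq_or_lt with h6 | h6
        · rw [if_pos ⟨h4, by rw [h3, ← h5, ← h6, add_zero]⟩, if_pos ⟨hf0, h5.symm⟩,
            if_pos ⟨hg0, h6.symm⟩, hac.mul]
        · have h7 : ¬ (g ≠ 0 ∧ v g = 0) := fun h => h6.ne' h.2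
          have h8 : ¬ (f * g ≠ 0 ∧ v (f * g) = 0) := fun h => by
            rw [h3] at h
            exact (add_pos_of_nonneg_of_pos h1 h6).ne' h.2
          rw [if_neg h7, if_neg h8, mul_zero]
      · have h7 : ¬ (f ≠ 0 ∧ v f = 0) := fun h => h5.ne' h.2
        have h8 : ¬ (f * g ≠ 0 ∧ v (f * g) = 0) := fun h => by
          rw [h3] at h
          exact (add_pos_of_pos_of_nonneg h5 h2).ne' h.2
        rw [if_neg h7, if_neg h8, zero_mul]

private theorem z7_alg (ht : Triv k v) {r : ℕ} {x : Fin r → K} {ac : K → κ}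
    (hac : IsAC k v x ac) (c : k) :
    lc v ac 0 (algebraMap k K c) = algebraMap k κ c := by
  classical
  unfold lc
  by_cases hc : c = 0
  · simp [hc]
  · rw [if_pos ⟨by simpa using hc, ht c⟩, hac.alg]

end

theorem p_Z7 : S_Z7 := by
  intro k K Γ κ _ _ _ _ _ _ _ _ v hv ht r x ac hac htr f g h hf hg hh
  classical
  have main : ∀ P : MvPolynomial (Fin 3) k, Ge v 0 (MvPolynomial.aeval ![f, g, h] P) ∧
      lc v ac 0 (MvPolynomial.aeval ![f, g, h] P) =
        MvPolynomial.aeval ![lc v ac 0 f, lc v ac 0 g, lc v ac 0 h] P := by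
    intro P
    induction P using MvPolynomial.induction_on with
    | C a =>
      rw [MvPolynomial.aeval_C, MvPolynomial.aeval_C]
      exact ⟨Or.inr (ht a).ge, z7_alg ht hac a⟩
    | add p q hp hq =>
      rw [map_add, map_add]
      exact ⟨z7_ge_add hv hp.1 hq.1, by rw [hac.add 0 _ _ hp.1 hq.1, hp.2, hq.2]⟩
    | mul_X p i hp =>
      rw [map_mul, map_mul, MvPolynomial.aeval_X, MvPolynomial.aeval_X]
      have hi : Ge v 0 ((![f, g, h] : Fin 3 → K) i) ∧ lc v ac 0 ((![f, g, h] : Fin 3 → K) i) =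
          (![lc v ac 0 f, lc v ac 0 g, lc v ac 0 h] : Fin 3 → κ) i := by
        fin_cases i
        · exact ⟨hf, rfl⟩
        · exact ⟨hg, rfl⟩
        · exact ⟨hh, rfl⟩
      exact ⟨z7_ge_mul hv hp.1 hi.1, by rw [z7_mul hv hac hp.1 hi.1, hp.2, hi.2]⟩
  have hnot : ¬ AlgebraicIndependent k ![lc v ac 0 f, lc v ac 0 g, lc v ac 0 h] := by
    intro hai
    have h1 := hai.cardinalMk_le_trdeg
    have h2 := h1.trans htr
    rw [Cardinal.mk_fin] at h2
    have h3 : ((3 : ℕ) : Cardinal.{0}) ≤ ((2 : ℕ) : Cardinal.{0}) := by exact_mod_cast h2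
    rw [Nat.cast_le] at h3
    omega
  rw [algebraicIndependent_iff] at hnot
  push Not at hnot
  obtain ⟨P, hP, hP0⟩ := hnot
  refine ⟨P, hP0, ?_⟩
  obtain ⟨h1, h2⟩ := main P
  rw [hP] at h2
  by_cases h3 : MvPolynomial.aeval ![f, g, h] P = 0
  · exact Or.inl h3
  · right
    rcases (h1.resolve_left h3).eq_or_lt with h4 | h4
    · exfalso
      unfold lc at h2
      rw [if_pos ⟨h3, h4.symm⟩] at h2
      exact hac.ne _ h3 h2
    · exact h4

end Pool.Agent.F2W
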