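import Pool.Agent.Lib.MP_305fdd_al.F2.ChMain
import Pool.Agent.Lib.MP_305fdd_al.F2.RF.Main
import Pool.Agent.Lib.MP_305fdd_al.F2.W.L1
import Pool.Agent.Lib.MP_305fdd_al.F2.W.L2
import Pool.Agent.Lib.MP_305fdd_al.F2.W.L3
import Pool.Agent.Lib.MP_305fdd_al.F2.W.L4
import Pool.Agent.Lib.MP_305fdd_al.F2.W.L5
import Pool.Agent.Lib.MP_305fdd_al.F2.W.L6
import Pool.Agent.Lib.MP_305fdd_al.F2.W.L7
import Pool.Agent.Lib.MP_305fdd_al.F2.W.L8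
import Pool.Agent.Lib.MP_305fdd_al.F2.W.L9
import Pool.Agent.Lib.MP_305fdd_al.F2.W.L10
import Pool.Agent.Lib.MP_305fdd_al.F2.W.L11
import Pool.Agent.Lib.MP_305fdd_al.F2.W.Z0
import Pool.Agent.Lib.MP_305fdd_al.F2.W.Z1
import Pool.Agent.Lib.MP_305fdd_al.F2.W.Z2
import Pool.Agent.Lib.MP_305fdd_al.F2.W.Z3
import Pool.Agent.Lib.MP_305fdd_al.F2.W.Z4
import Pool.Agent.Lib.MP_305fdd_al.F2.W.Z5
import Pool.Agent.Lib.MP_305fdd_al.F2.W.Z6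
import Pool.Agent.Lib.MP_305fdd_al.F2.W.Z7
import Pool.Agent.Lib.MP_305fdd_al.F2.W.D
import Pool.Agent.Lib.MP_305fdd_al.F2.W.A1
import Pool.Agent.Lib.MP_305fdd_al.F2.W.A2
import Pool.Agent.Lib.MP_305fdd_al.F2.W.A3
import Pool.Agent.Lib.MP_305fdd_al.F2.W.A4
import Pool.Agent.Lib.MP_305fdd_al.F2.W.A5
import Pool.Agent.Lib.MP_305fdd_al.F2.W.R1
import Pool.Agent.Lib.MP_305fdd_al.F2.W.R2
import Pool.Agent.Lib.MP_305fdd_al.F2.W.R3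
import Pool.Agent.Lib.MP_305fdd_al.F2.W.R4
import Pool.Agent.Lib.MP_305fdd_al.F2.W.R5
import Pool.Agent.Lib.MP_305fdd_al.F2.W.R6
import Pool.Agent.Lib.MP_305fdd_al.F2.W.R7
import Pool.Agent.Lib.MP_305fdd_al.F2.W.R8
import Pool.Agent.Lib.MP_305fdd_al.F2.W.R9
import Pool.Agent.Lib.MP_305fdd_al.F2.W.R10
import Pool.Agent.Lib.MP_305fdd_al.F2.W.R11
import Pool.Agent.Lib.MP_305fdd_al.F2.W.R12
import Pool.Agent.Lib.MP_305fdd_al.F2.W.F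
import Pool.Agent.Lib.MP_305fdd_al.F2.W.Q
import Pool.Agent.Lib.MP_305fdd_al.F2.W.Q1
import Pool.Agent.Lib.MP_305fdd_al.F2.W.Q2
import Pool.Agent.Lib.MP_305fdd_al.F2.W.O1
import Pool.Agent.Lib.MP_305fdd_al.F2.W.O2

/-!
# MP_305fdd_al, F_2, section W: all statements, without hypotheses
-/

set_option autoImplicit false

namespace Pool.Agent.F2W

theorem t_L1 : S_L1 := p_L1

theorem t_L2 : S_L2 := p_L2

theorem t_L3 : S_L3 := p_L3 t_L1 t_L2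

theorem t_L4 : S_L4 := p_L4

theorem t_L5 : S_L5 := p_L5

theorem t_L6 : S_L6 := p_L6

theorem t_L7 : S_L7 := p_L7

theorem t_L8 : S_L8 := p_L8

theorem t_L9 : S_L9 := p_L9

theorem t_L10 : S_L10 := p_L10

theorem t_L11 : S_L11 := p_L11 t_L2 t_L3 t_L4 t_L5 t_L6 t_L7 t_L8 t_L9 t_L10

theorem t_Z0 : S_Z0 := p_Z0

theorem t_Z1 : S_Z1 := p_Z1 t_Z0

theorem t_Z2 : S_Z2 := p_Z2 t_Z0

theorem t_Z3 : S_Z3 := p_Z3

theorem t_Z4 : S_Z4 := p_Z4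

theorem t_Z5 : S_Z5 := p_Z5

theorem t_Z6 : S_Z6 := p_Z6 t_Z4

theorem t_Z7 : S_Z7 := p_Z7

theorem t_D : S_D := p_D

theorem t_A1 : S_A1 := p_A1

theorem t_A2 : S_A2 := p_A2 Pool.Agent.F2RF.u10 Pool.Agent.F2RF.u12

theorem t_A3 : S_A3 := p_A3

theorem t_A4 : S_A4 := p_A4

theorem t_A5 : S_A5 := p_A5

theorem t_R1 : S_R1 := p_R1

theorem t_R2 : S_R2 := p_R2

theorem t_R3 : S_R3 := p_R3

theorem t_R4 : S_R4 := p_R4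

theorem t_R5 : S_R5 := p_R5

theorem t_R6 : S_R6 := p_R6 t_R1 t_R2 t_R3 t_R4 t_R5 t_L11 Pool.Agent.F2RF.w4

theorem t_R7 : S_R7 := p_R7

theorem t_R8 : S_R8 := p_R8

theorem t_R9 : S_R9 := p_R9 t_R1 t_R2 t_R3 t_R5

theorem t_R10 : S_R10 := p_R10

theorem t_R11 : S_R11 := p_R11 Pool.Agent.F2Ch.t_B4 Pool.Agent.F2Ch.t_C5 Pool.Agent.F2Ch.t_C5b Pool.Agent.F2Ch.t_C9 Pool.Agent.F2RF.w6

theorem t_R12 : S_R12 := p_R12 t_R6 t_R7 t_R8 t_R9 t_R10 t_R11 Pool.Agent.F2Ch.t_X1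

theorem t_F : S_F := p_F Pool.Agent.F2Ch.t_X2 Pool.Agent.F2Ch.t_X5

theorem t_Q1 : S_Q1 := p_Q1

theorem t_Q2 : S_Q2 := p_Q2 t_Z0

theorem t_Q : S_Q := p_Q t_Q1 t_Q2 t_Z0

theorem t_O1 : S_O1 := p_O1 t_Z5

theorem t_O2 : S_O2 := p_O2

end Pool.Agent.F2W
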