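import Pool.Agent.Lib.MP_305fdd_al.F2.W.Stm3

/-!
# MP_305fdd_al, F_2, section W, part 4: two classes, valuations which are nonnegative on `B`.

Every `def S_xx : Prop` is one independent piece; its docstring contains the complete proof.
-/

set_option autoImplicit false

namespace Pool.Agent.F2W

open Pool.Agent.F2Ch Pool.Agent.F2 Pool.Agent.F2RF Polynomial

/-- [F2W Z4] (about 100 lines) The constant term is nondegenerate on `k[e_c, e_d]`.

Proof. `F = P(ee c, ee d) ∈ Lau k`. Its exponents are of the form `i c + j d` (`i, j ∈ ℤ`, unique as `c, d` are independent), and `F` is invariant under `(i, j) ↦ (- i, j)` and `(i, - j)` (true for `ee c`, `ee d`; the Laurent polynomials with exponents in `ℤ c + ℤ d` and these symmetries form a subalgebra).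
`F ≠ 0`: let `i` be the degree of `P` in `X`, `j` the degree in `Y` of the coefficient of `X^i`; the coefficient of `F` at `i c + j d` is the coefficient of `P` at `X^i Y^j`. Let `i c + j d` be any exponent of `F`. With the polynomials `T_i` of Z0 (a) (`T_(|i|)(ee c) = ee (i c)`),
`Q = T_|i|(X) T_|j|(Y)`, `Q(ee c, ee d) = ee (i c) ee (j d) = ∑ χ^(± i c ± j d)` (four terms), so the constant term of `F Q(ee c, ee d)` is the sum of four equal coefficients of `F`, `= 4 F_(i c + j d) ≠ 0`. -/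
def S_Z4 : Prop :=
  ∀ (k : Type) [Field k], (2 : k) ≠ 0 → ∀ c d : ℤ × ℤ,
    (∀ m n : ℤ, m • c + n • d = 0 → m = 0 ∧ n = 0) → ∀ P : MvPolynomial (Fin 2) k, P ≠ 0 →
    ∃ Q : MvPolynomial (Fin 2) k, ct (MvPolynomial.aeval ![ee k c, ee k d] (P * Q)) ≠ 0

/-- [F2W Z5] (about 40 lines) The constant term is nondegenerate on symmetric Laurent polynomials.

Proof. Elements of `Sy k` satisfy `F_m = F_{-m}` (`Algebra.adjoin_induction`). Let `F_m ≠ 0`. The constant term of `F * ee m` is `F_{-m} + F_m = 2 F_m ≠ 0`. -/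
def S_Z5 : Prop :=
  ∀ (k : Type) [Field k], (2 : k) ≠ 0 → ∀ F : Lau k, F ∈ Sy k → F ≠ 0 →
    ∃ m : ℤ × ℤ, ct (F * ee k m) ≠ 0

/-- [F2W Z6] (about 90 lines) Uses Z4 (and part (a) of the proof of Z1). LEMMA 0'' FOR TWO CLASSES: if two independent classes are elliptic and `trdeg κ(v) ≤ 2`, then `Q_v ⊆ P_v`.

Proof. As Z2. Let `f ∈ B`, `res f = 0`, `f ≠ 0`, `v f = 0`. By `htr` there is `P ≠ 0` in `k[X0, X1, X2]` with `Gt v 0 (P(t, t', f))`; divide by the largest power of `X2` dividing `P` (`v (f^m) = 0`), so `P0 = P(X0, X1, 0) ≠ 0`. For `Q ∈ k[X0, X1]` the element `P(t, t', f) Q(t, t') ∈ B` has `Gt v 0`, so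
`0 = ct (res (..)) = ct ((P0 Q)(ee c, ee d))` by (a) of Z1: contradiction to Z4. -/
def S_Z6 : Prop :=
  ∀ (p : ℕ) [Fact p.Prime], p ≠ 2 → ∀ (k K Γ : Type) [Field k] [CharP k p] [Field K] [Algebra k K]
    [AddCommGroup Γ] [LinearOrder Γ] [IsOrderedAddMonoid Γ]
    (B : Subalgebra k K) (res : B →ₐ[k] Lau k) (φ : K → K), Fra p k B res φ →
    ∀ v : K → Γ, IsV v → Triv k v → Compat p φ v →
    ∀ (t t' : B) (c d : ℤ × ℤ), (∀ m n : ℤ, m • c + n • d = 0 → m = 0 ∧ n = 0) →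
    res t = ee k c → res t' = ee k d → Ge v 0 (t : K) → Ge v 0 (t' : K) →
    (∀ f g h : K, Ge v 0 f → Ge v 0 g → Ge v 0 h → ∃ P : MvPolynomial (Fin 3) k, P ≠ 0 ∧
      Gt v 0 (MvPolynomial.aeval ![f, g, h] P)) →
    ∀ f : B, res f = 0 → Ge v 0 (f : K) → Gt v 0 (f : K)

/-- [F2W Z7] (about 60 lines) The hypothesis of Z6 from the transcendence degree of the residue field.

Proof. As Z3. `ρ f = lc v ac 0 f` is, on the ring `O = {f | Ge v 0 f}`, a homomorphism of `k`-algebras to `κ` with kernel `{Gt v 0}`. `ρ f`, `ρ g`, `ρ h` are not algebraically independent as `trdeg ≤ 2`. -/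
def S_Z7 : Prop :=
  ∀ (k K Γ κ : Type) [Field k] [Field K] [Algebra k K] [AddCommGroup Γ] [LinearOrder Γ]
    [IsOrderedAddMonoid Γ] [Field κ] [Algebra k κ] (v : K → Γ), IsV v → Triv k v →
    ∀ (r : ℕ) (x : Fin r → K) (ac : K → κ), IsAC k v x ac → Algebra.trdeg k κ ≤ 2 →
    ∀ f g h : K, Ge v 0 f → Ge v 0 g → Ge v 0 h → ∃ P : MvPolynomial (Fin 3) k, P ≠ 0 ∧
      Gt v 0 (MvPolynomial.aeval ![f, g, h] P)

/-- [F2W O1] (about 120 lines) Uses Z5 (and part (a) of the proof of Z1). (0.3): a nontrivial compatible valuation which is nonnegative on `B` is `ord_R`.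

Proof. `P = {f ∈ B | Gt v 0 f}` is a prime ideal of `B`; by (a) of Z1 and Z5, `f ∈ P` implies `res f = 0`: for all `m`, with `g ∈ B`, `res g = ee m` (`hres`), `f g ∈ P`, so `ct (res f * ee m) = 0`, and `res f ∈ Sy k` (`hsy`). `P ≠ 0`: otherwise `v = 0` on `B - 0`, so on `K`. (1) `v κ0 > 0`: let
`0 ≠ f ∈ P`. By `hord`, `f b = κ0^n a` with `a, b ∈ B`, `res a ≠ 0`, `res b ≠ 0`, `n ∈ ℤ`; `n ≥ 0` (if `n < 0`, `a = f b κ0^(-n)` would have `res a = 0`). So `κ0^n a ∈ P`, `a ∉ P` (`res a ≠ 0`), so `n ≥ 1` and `κ0 ∈ P`. (2) `a ∈ B`, `res a ≠ 0` implies `a ∉ P`, `v a = 0`. (3) For `f b = κ0^n a` as in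
the statement: `v f + 0 = n v κ0 + 0`. -/
def S_O1 : Prop :=
  ∀ (p : ℕ) [Fact p.Prime], p ≠ 2 → ∀ (k K Γ : Type) [Field k] [CharP k p] [Field K] [Algebra k K]
    [AddCommGroup Γ] [LinearOrder Γ] [IsOrderedAddMonoid Γ]
    (B : Subalgebra k K) (res : B →ₐ[k] Lau k) (φ : K → K), Fra p k B res φ →
    (∀ f : B, res f ∈ Sy k) → (∀ m : ℤ × ℤ, ∃ g : B, res g = ee k m) → ∀ κ0 : B, res κ0 = 0 →
    (∀ f : K, f ≠ 0 → ∃ (n : ℤ) (a b : B), res a ≠ 0 ∧ res b ≠ 0 ∧ f * b = (κ0 : K) ^ n * a) →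
    ∀ v : K → Γ, IsV v → Triv k v → Compat p φ v → (∃ f, v f ≠ 0) → (∀ f : B, Ge v 0 (f : K)) →
    0 < v κ0 ∧ ∀ (f : K) (n : ℤ) (a b : B), f ≠ 0 → res a ≠ 0 → res b ≠ 0 →
      f * b = (κ0 : K) ^ n * a → v f = n • v κ0

/-- [F2W O2] (about 60 lines) Uses Z5 (and part (a) of the proof of Z1). Traces are nonpositive; more generally an element of positive value restricts to `0`
if its square has nonzero constant term.

Proof. (a) of Z1: `Gt v 0 f`, `f ∈ B` implies `ct (res f) = 0`. If `v t > 0`, `res t = ee c`: `t² ∈ B` has `Gt v 0`, but `ct (ee c ^ 2) = 2` (`c ≠ 0`) or `4` (`c = 0`), not `0` as `p ≠ 2`. So `t = 0` or `v t ≤ 0`; and `t ≠ 0` because `res t ≠ 0`. -/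
def S_O2 : Prop :=
  ∀ (p : ℕ) [Fact p.Prime], p ≠ 2 → ∀ (k K Γ : Type) [Field k] [CharP k p] [Field K] [Algebra k K]
    [AddCommGroup Γ] [LinearOrder Γ] [IsOrderedAddMonoid Γ]
    (B : Subalgebra k K) (res : B →ₐ[k] Lau k) (φ : K → K), Fra p k B res φ →
    ∀ v : K → Γ, IsV v → Triv k v → Compat p φ v →
    (∀ f : B, Gt v 0 (f : K) → ct (res f) = 0) ∧
    ∀ (t : B) (c : ℤ × ℤ), res t = ee k c → (t : K) ≠ 0 ∧ v (t : K) ≤ 0

/-- [F2W A3] (about 120 lines) Uses S_U9-type inequality in the form of the second part of `S_U12`. W6: the vertex inequality.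

Proof. `A` from A1 (`c ∘ ac` is evaluated on leading coefficients; here `c₁, c₂ : κ → ℝ`). By the second part of `S_U12` there is `ρ > 0` with `c₁ a + ρ c₂ a ≤ 0` for `0 ≠ a ∈ A`. `G f = c₁ (ac f) + ρ c₂ (ac f)` is additive on `K - 0`. Let `f, g ∈ B` be nonzero with
`w f = a > 0 > - b = w g`. `h = f^b g^a ∈ B`, `w h = 0`, `ac h ∈ A - 0`, so `0 ≥ G h = b G f + a G g`: `G f / a ≤ - G g / b = G g / w g`. Let `λ` be the supremum of the `G f / w f`, `w f > 0` (nonempty, bounded above). Then `G f ≤ λ w f` if `w f > 0`, and `λ ≤ G g / w g`, so `G g ≤ λ w g` if `w g < 0`. If `w f = 0`: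
`ac f ∈ A - 0`, `G f ≤ 0 = λ w f`. -/
def S_A3 : Prop :=
  ∀ (k K κ : Type) [Field k] [Field K] [Algebra k K] [Field κ] [Algebra k κ]
    (B : Subalgebra k K) (w : K → ℤ), IsV w → Triv k w → (∃ b : B, 0 < w b) → (∃ b : B, w b < 0) →
    ∀ (r : ℕ) (x : Fin r → K) (ac : K → κ), IsAC k w x ac →
    ∀ A : Subalgebra k κ, (∀ z, z ∈ A ↔ ∃ f : B, Ge w 0 (f : K) ∧ lc w ac 0 (f : K) = z) →
    ∀ (c₁ c₂ : κ → ℝ) (ρ : ℝ), IsV c₁ → IsV c₂ → (∀ a ∈ A, a ≠ 0 → c₁ a + ρ * c₂ a ≤ 0) →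
    ∃ l : ℝ, ∀ f : B, (f : K) ≠ 0 → c₁ (ac f) + ρ * c₂ (ac f) ≤ l * w f

/-- [F2W A4] (about 80 lines) Uses S_U10. The descending direction is nonpositive on `A`: from `c < 0` on the residues of `I`.

Proof. `Q = {z | ∃ f ∈ B, res f = 0, Ge w 0 f, lc w ac 0 f = z}`, an ideal of `A`, contained in `A`. `0 ≠ h ∈ Q` exists: `f_+^b f_-^a` (elements of `I` with `w f_+ = a > 0 > - b = w f_-`) has value `0` and is in `I`. By hypothesis `c < 0` on `Q - 0`. S_U10. -/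
def S_A4 : Prop :=
  ∀ (k K κ : Type) [Field k] [Field K] [Algebra k K] [Field κ] [Algebra k κ]
    (B : Subalgebra k K) (res : B →ₐ[k] Lau k) (w : K → ℤ), IsV w → Triv k w →
    (∃ f : B, res f = 0 ∧ 0 < w f) → (∃ f : B, res f = 0 ∧ w f < 0) →
    ∀ (r : ℕ) (x : Fin r → K) (ac : K → κ), IsAC k w x ac →
    ∀ A : Subalgebra k κ, (∀ z, z ∈ A ↔ ∃ f : B, Ge w 0 (f : K) ∧ lc w ac 0 (f : K) = z) →
    ∀ c : κ → ℝ, IsV c → (∀ f : B, res f = 0 → (f : K) ≠ 0 → w f = 0 → c (ac f) < 0) →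
    ∃ Q : Set κ, (∀ h ∈ Q, h ∈ A) ∧ (∃ h ∈ Q, h ≠ 0) ∧ (∀ a ∈ A, ∀ h ∈ Q, a * h ∈ Q) ∧
      (∀ h ∈ Q, h ≠ 0 → c h < 0) ∧ (∀ a ∈ A, a ≠ 0 → c a ≤ 0) ∧ ∃ a ∈ A, a ≠ 0 ∧ c a < 0

/-- [F2W A5] (about 40 lines) `w` takes both signs on the ideal.

Proof. Let `0 ≠ f ∈ I` and `b ∈ B` with `w b < 0`: `f b^n ∈ I` has negative value for large `n`. The positive element is a hypothesis. -/
def S_A5 : Prop :=
  ∀ (k K : Type) [Field k] [Field K] [Algebra k K] (B : Subalgebra k K) (res : B →ₐ[k] Lau k)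
    (w : K → ℤ), IsV w → (∃ f : B, res f = 0 ∧ (f : K) ≠ 0) → (∃ b : B, w b < 0) →
    ∃ f : B, res f = 0 ∧ w f < 0

end Pool.Agent.F2W
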