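import Pool.Agent.Lib.MP_305fdd_al.F2.W.Stm2

/-!
# MP_305fdd_al, F_2, section W, part 3: regular points, the reducible locus.  The pieces [F2W ..]

Every `def S_xx : Prop` is one independent piece; its docstring contains the complete proof.  The other
statements may be taken as hypotheses.
-/

set_option autoImplicit false

namespace Pool.Agent.F2W

open Pool.Agent.F2Ch Pool.Agent.F2 Pool.Agent.F2RF Polynomial

/-- [F2W R8] (about 180 lines) The residue field of a rational point of a two-dimensional chart is `κ(y)`.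

Proof. `u ≠ 0`; `{m : ℤ² | wt u m = 0} = ℤ n0` with `n0 = (u 1, - u 0) / gcd` (as functions on `Fin 2`). `i c` = the element with `ι (i c) = toLF (single 0 c)` (range: `a = single 0 c`, `b = 1`); `ι` is injective, so `i` is a ring homomorphism. `y` = the element with
`ι y = toLF (single n0 1) =: Y`. `ι (i c * y ^ m) = toLF (single (m n0) c)` (`m ∈ ℤ`). For `P ∈ κ[X]`, `ι (aeval y P) = toLF (∑_j single (j n0) (P_j))`, injective in `P` (`toLF` is injective, `n0 ≠ 0`): `y` is transcendental. A Laurent polynomial `a` with exponents in `ℤ n0`,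
times `single (N n0) 1`, is of this form; so the range description gives `gen`, and the last statement. `Tor`: `p n' = m n0`, `n0` primitive, implies `p ∣ m`; apply `IsTor` and injectivity of `ι`: `ι (φ' (i a * y ^ (p m))) = Φ (single (p m n0) a) = single (m n0) (φb a)`; if `p ∤ m` then
`m n0` is not `p` times a vector, so `0`. `φb 1 = 1`, `IsPinv p φb` are hypotheses. -/
def S_R8 : Prop :=
  ∀ (p : ℕ) [Fact p.Prime] (κ κ' : Type) [Field κ] [Field κ'] (φb : κ → κ)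
    (Φ : LF κ 2 → LF κ 2) (φ' : κ' → κ') (u : Fin 2 → ℤ) (ι : κ' →+* LF κ 2), u ≠ 0 →
    IsPinv p φb → φb 1 = 1 → IsTor p φb Φ → IsPinv p φ' → φ' 1 = 1 → (∀ z, ι (φ' z) = Φ (ι z)) →
    (∀ z, (∃ z', ι z' = z) ↔ ∃ a b : AddMonoidAlgebra κ (Fin 2 → ℤ), b ≠ 0 ∧
        (∀ m, a.coeff m ≠ 0 → wt u m = 0) ∧ (∀ m, b.coeff m ≠ 0 → wt u m = 0) ∧
        z * toLF b = toLF a) →
    ∃ (i : κ →+* κ') (y : κ'), (∀ c, ι (i c) = toLF (AddMonoidAlgebra.single 0 c)) ∧
      (letI := i.toAlgebra; Tor p κ φb φ' y) ∧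
      ∀ (z : κ') (a : AddMonoidAlgebra κ (Fin 2 → ℤ)), (∀ m, a.coeff m ≠ 0 → wt u m = 0) →
        ι z = toLF a → ∃ (N : ℕ) (P : κ[X]), z * y ^ N = P.eval₂ i y

/-- [F2W R9] (about 180 lines) Uses R1, R2, R3, R5. A second direction on `k(y1, y2)`.

Proof. CLAIM `Ψ = c0 y1^a y2^b` with `c0 ∈ k`, `a, b ∈ ℤ`, `(a, b) ≠ 0`. R1 over `κ1` (`(Ψ + Ψ⁻¹) y2^N' = y1^(-N) P(y1, y2) ∈ κ1[y2]`): `Ψ = c y2^b`, `c ∈ κ1`. If `b = 0` then `Ψ = c ∈ κ1` and (coefficients at `y2^N'`; `y2` transcendental over `κ1`)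
`(c + c⁻¹) y1^N ∈ k[y1]`, so R1 over `k` gives `c = c0 y1^a`. If `b ≠ 0` compare the coefficients at `y2^(N' + b)` and `y2^(N' - b)`: `c y1^N` and `c⁻¹ y1^N` are polynomials in `y1`, their product is `y1^(2N)`, so both are constants times powers of `y1`. `(a, b) ≠ 0` as `Ψ` is
transcendental over `k`.
Put `(β1, β2) = (b, - a)`, `ε = ± 1`. R2, R3 over `k` (with `v1 = 0`, `α = 1`): `vε` on `κ1 = k(y1)` with `vε y1 = ε β1`, `v_ε = 0` on `k`, compatible with `φ1` (`k → κ1`). R2, R3 over `κ1` with `vε`, `α = 1`, `β = ε β2`: a compatible `Vε` on `κ`, `Vε y1 = ε b`, `Vε y2 = - ε a`,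
trivial on `k`. `Vε (Q(Ψ)) = 0` for `Q ≠ 0`: if `b ≠ 0`, `Q(Ψ) = ∑ q_j c0^j y1^(a j) y2^(b j)` times a power of `y2`: by the minimum formula of R2 every term has weight `ε (a j b - b j a) = 0` (times the power of `y2` subtracted again); if `b = 0`: `vε` is the trivial valuation of `κ1` and
`Q(Ψ) ∈ κ1`. Let `f = y1` if `b ≠ 0`, `f = y2` otherwise; `Vε f = ε d`, `d ≠ 0`; choose `ε` with `Vε f < 0` if `v f ≥ 0` (and `f`), and `Vε f > 0` if `v f < 0` (and `f⁻¹`). Normalise by R5. -/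
def S_R9 : Prop :=
  ∀ (p : ℕ) [Fact p.Prime] (k κ1 κ : Type) [Field k] [CharP k p] [Field κ1] [Field κ]
    [Algebra k κ1] [Algebra k κ] [Algebra κ1 κ] [IsScalarTower k κ1 κ] (φ0 : k → k)
    (φ1 : κ1 → κ1) (φ : κ → κ) (y1 : κ1) (y2 : κ), Tor p k φ0 φ1 y1 → Tor p κ1 φ1 φ y2 →
    ∀ (Ψ : κ) (N N' : ℕ) (P : MvPolynomial (Fin 2) k), Transcendental k Ψ →
    (Ψ + Ψ⁻¹) * (algebraMap κ1 κ y1 ^ N * y2 ^ N') =
      MvPolynomial.aeval ![algebraMap κ1 κ y1, y2] P →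
    ∀ v : κ → ℤ, IsV v → ∃ v' : κ → ℤ, Plc k v' ∧ Compat p φ v' ∧
      (∀ Q : k[X], Q ≠ 0 → v' (aeval Ψ Q) = 0) ∧ ∃ f, Ge v 0 f ∧ ¬ Ge v' 0 f

/-- [F2W R10] (about 200 lines) The residue field of a rational point of a three-dimensional chart is `k(y1, y2)`.

Proof. `M = {m : ℤ³ | wt u m = 0}` is the kernel of a nonzero homomorphism `ℤ³ → ℤ`, a direct summand (`ℤ³ / M` is torsion free), free of rank two; basis `m1, m2`; if `p ∣ a m1 + b m2` in `ℤ³` then `p ∣ a, b`. `y_i` with `ι y_i = toLF (single m_i 1)`. `κ1 = k(y1) ⊆ κ'`. Every element of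
`AddMonoidAlgebra κ M` is a `k`-linear combination of the `X^(a m1 + b m2)` (`hk`: `κ = k`), so `ι z = toLF a0` with exponents in `M` gives `z y1^N y2^N' ∈ k[y1, y2]`, and the range description says `κ' = k(y1, y2)`; `y1, y2` are algebraically independent (`toLF` injective). `κ1 = {f(y1) / g(y1)}`,
`y1` transcendental over `k`, `y2` over `κ1`. `φ0 c` = the element of `k` mapped to `φb (c)`: `IsPinv`, `φ0 1 = 1` (`IsPinv p φb`, `φb 1 = 1`). `φ' (c y1^(p a) y2^(p b)) = φ0(c) y1^a y2^b`, and `φ' (c y1^a y2^b) = 0` if not `p ∣ a, b` (`IsTor`, `ι` injective). So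
`φ' (k(y1)) ⊆ k(y1)` (`f(y1)/g(y1) = f g^(p-1) / g^p`); `φ1` the restriction. Both `Tor` statements follow; for the second let `a ∈ κ1`, `a = f(y1) / g(y1)^p`: `φ' (a y2^m) = g(y1)⁻¹ φ' (f(y1) y2^m)`. -/
def S_R10 : Prop :=
  ∀ (p : ℕ) [Fact p.Prime] (k κ κ' : Type) [Field k] [CharP k p] [Field κ] [Algebra k κ]
    [Field κ'] [Algebra k κ'] (φb : κ → κ) (Φ : LF κ 3 → LF κ 3) (φ' : κ' → κ') (u : Fin 3 → ℤ)
    (ι : κ' →+* LF κ 3), u ≠ 0 → Function.Surjective (algebraMap k κ) →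
    IsPinv p φb → φb 1 = 1 → IsTor p φb Φ → IsPinv p φ' → φ' 1 = 1 → (∀ z, ι (φ' z) = Φ (ι z)) →
    (∀ c : k, ι (algebraMap k κ' c) = toLF (AddMonoidAlgebra.single 0 (algebraMap k κ c))) →
    (∀ z, (∃ z', ι z' = z) ↔ ∃ a b : AddMonoidAlgebra κ (Fin 3 → ℤ), b ≠ 0 ∧
        (∀ m, a.coeff m ≠ 0 → wt u m = 0) ∧ (∀ m, b.coeff m ≠ 0 → wt u m = 0) ∧
        z * toLF b = toLF a) →
    ∃ (κ1 : IntermediateField k κ') (φ0 : k → k) (φ1 : κ1 → κ1) (y1 : κ1) (y2 : κ'),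
      Tor p k φ0 φ1 y1 ∧ Tor p κ1 φ1 φ' y2 ∧
      ∀ (z : κ') (a : AddMonoidAlgebra κ (Fin 3 → ℤ)), (∀ m, a.coeff m ≠ 0 → wt u m = 0) →
        ι z = toLF a → ∃ (N N' : ℕ) (P : MvPolynomial (Fin 2) k),
          z * ((y1 : κ') ^ N * y2 ^ N') = MvPolynomial.aeval ![(y1 : κ'), y2] P

/-- [F2W R11] (about 100 lines) Uses S_B4, S_C5, S_C5b, S_C9 (section C) and S_W6 (section RF). Log type in the residue field of a chart.

Proof. `κ` has a basis over `κ ^ p` of `p ^ s` elements (B4 for `κ`, `trdeg κ = s`), so a monomial `p`-basis `z : Fin s → κ`, `z_j ≠ 0`, coordinates `ρ` (C5). Lift: `y_j` with `V y_j = 0`, `ac y_j = z_j` (`isac.surj`). B4 for `K` (`FracGen`, `trdeg K = d = r + s`) gives a basis of `K` over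
`K ^ p` of `p ^ (r + s)` elements, and C5b a `Frame k p V x y ex ac π ρ`. C9: `φ f = π ix0 (h f)` and a residual map `φb'` with `φb' c = ρ j0 (ac h * c)`; `φb' = φb` because both describe `lc V ac 0 (φ f)` and every `c ∈ κ` is `lc V ac 0 f` for some `f` with `Ge V 0 f` (`surj`). W6. -/
def S_R11 : Prop :=
  ∀ (p : ℕ) [Fact p.Prime] (k K Γ κ : Type) [Field k] [CharP k p] [PerfectRing k p] [Field K]
    [Algebra k K] [AddCommGroup Γ] [LinearOrder Γ] [IsOrderedAddMonoid Γ] [Field κ] [Algebra k κ]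
    (n : ℕ) (t : Fin n → K), FracGen k t → ∀ (r s : ℕ), Algebra.trdeg k K = ((r + s : ℕ) : Cardinal) →
    ∀ φ : K → K, IsPinv p φ → φ 1 = 1 → LogTy p φ → ∀ V : K → Γ, InZ k p φ V →
    ∀ (x : Fin r → K) (ex : K → Fin r → ℤ) (ac : K → κ) (φb : κ → κ), IsVB V x ex →
    IsAC k V x ac → Algebra.trdeg k κ = s → (∃ (n' : ℕ) (t' : Fin n' → κ), FracGen k t') →
    IsPinv p φb → φb 1 = 1 →
    (∀ f, Ge V 0 f → Ge V 0 (φ f) ∧ lc V ac 0 (φ f) = φb (lc V ac 0 f)) →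
    LogTy p φb ∧ ∃ (z : Fin s → κ) (ρ : (Fin s → Fin p) → κ → κ), MB p z ρ

/-- [F2W R12] (about 200 lines) Uses R6 -- R11, S_X1. THE SECOND DIRECTION at a regular point.

Proof. Unpack `Reg`: chart of `V`, `κ`, `φb`, weight `u` with `OnCh … u w`. `u ≠ 0`: otherwise (`OnCh.min`) `w = 0` on `k[t] - 0`, so on `K`, against `w f = 1`. `Φ` from X1 (`CharP κ p` from `k`); `lform` gives `AC` (`ℤ` is nontrivial). R7: `ι : κ' → LF κ r`. With `b = aeval t q`, `w b = 0`: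
`ι (Ψ + Ψ⁻¹) = ι (ac' b) = AC b = toLF (part u 0 (L b))` (`LForm.eq`), and all exponents of `part u 0 _` have weight `0`. `r + s = 3`, `2 ≤ r`, so `r = 2, s = 1` or `r = 3, s = 0`.
`r = 2`: R11 (for `V`; `trdeg K = 3`) : `LogTy p φb` and `MB p z ρ` with `z : Fin 1 → κ`. R8: `i : κ → κ'`, `y`, `Tor`, and `(Ψ + Ψ⁻¹) y^N = P(y)`. `k → κ → κ'` is compatible with `k → κ'` (apply `ι`; R7 on constants). R6.
`r = 3`: `trdeg κ = 0` and `k` algebraically closed, so `κ = k` (`algebraMap k κ` is surjective). R10, R9. -/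
def S_R12 : Prop :=
  ∀ (p : ℕ) [Fact p.Prime] (k K κ' : Type) [Field k] [IsAlgClosed k] [CharP k p] [Field K]
    [Algebra k K] [Field κ'] [Algebra k κ'] (n : ℕ) (t : Fin n → K), FracGen k t →
    Algebra.trdeg k K = 3 → ∀ φ : K → K, IsPinv p φ → φ 1 = 1 → LogTy p φ →
    ∀ w : K → ℤ, InZ k p φ w → (∃ f, f ≠ 0 ∧ w f = 1) → Reg k p φ t w →
    ∀ (r' : ℕ) (x' : Fin r' → K) (ac' : K → κ'), IsAC k w x' ac' → ∀ φ' : κ' → κ',
    IsPinv p φ' → φ' 1 = 1 →
    (∀ f, Ge w 0 f → Ge w 0 (φ f) ∧ lc w ac' 0 (φ f) = φ' (lc w ac' 0 f)) →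
    ∀ (q : MvPolynomial (Fin n) k) (Ψ : κ'), MvPolynomial.aeval t q ≠ 0 →
    w (MvPolynomial.aeval t q) = 0 → Ψ + Ψ⁻¹ = ac' (MvPolynomial.aeval t q) →
    Transcendental k Ψ → ∀ v : κ' → ℤ, Plc k v → Compat p φ' v →
    (∀ Q : k[X], Q ≠ 0 → v (aeval Ψ Q) = 0) →
    ∃ v' : κ' → ℤ, Plc k v' ∧ Compat p φ' v' ∧ (∀ Q : k[X], Q ≠ 0 → v' (aeval Ψ Q) = 0) ∧
      ∃ f, Ge v 0 f ∧ ¬ Ge v' 0 f

/-- [F2W F] (about 180 lines) Uses S_X2, S_X5. Among infinitely many divisorial points there are regular ones.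

Proof. `U` = a nonprincipal ultrafilter on `ℕ` (`Filter.hyperfilter ℕ`). `V f` = germ of `i ↦ (w i f : ℝ)`, in `InZ` (X5; the `w i` as real valuations are in `InZ`: cast). X2: a chart of `V` with `r + s = 3`, `trdeg κ = s`, `κ` finitely generated. X5: for `U`-almost all `i`,
`u_i j = w i (x j)` is `Good N` and `OnCh … u_i (w i)` (real, hence also over `ℤ`: `wt`, `IsMinW`, `InZ` are compatible with the embedding `ℤ → ℝ`). It remains to see `2 ≤ r`. `r = 0`: `OnCh.min` gives `w i = 0` on `k[t] - 0`, hence on `K`, against normalisation. `r = 1`: `V (x 0) > 0` (`IsVB.pos`), so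
`w i (x 0) > 0` for `U`-almost all `i`; take two such indices `i ≠ j` (a `U`-large set is infinite). For `f ∈ k[t] - 0`: `w i f = (w i (x 0)) μ(f)`, `μ(f)` the minimum of the exponents (in `ℤ`) of `L f`, and the same for `j`; so `(w j (x 0)) w i = (w i (x 0)) w j` on `k[t]`, so on `K`; both are
normalised, so `w i = w j` : contradiction to injectivity. -/
def S_F : Prop :=
  ∀ (p : ℕ) [Fact p.Prime] (k K : Type) [Field k] [CharP k p] [PerfectRing k p] [Field K]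
    [Algebra k K] (n : ℕ) (t : Fin n → K), FracGen k t → ∀ (b : Fin (p ^ 3) → K)
    (ρ0 : Fin (p ^ 3) → K → K), IsPB p b ρ0 → ∀ φ : K → K, IsPinv p φ → φ 1 = 1 →
    ∀ w : ℕ → K → ℤ, Function.Injective w → (∀ i, InZ k p φ (w i)) →
    (∀ i, ∃ f, f ≠ 0 ∧ w i f = 1) → ∃ i, Reg k p φ t (w i)

/-! ## Q. The reducible locus -/

/-- [F2W Q1] (about 150 lines) A compatible place of `k(R)` which is trivial on `k(e_a)` has a pole on `k[R]`.

Proof. Suppose all `Ge v 0 (j f)`, `f ∈ Sy k`. Let `a, b` be the given basis of `ℤ²`; the height of `f ∈ Lau k` is the maximum of the `|m2|` over the exponents `m1 a + m2 b` of `f`. Facts: `Sy k` consists of the `f` with `f_m = f_{-m}` for all `m` (`⊆`: the symmetric ones form a subalgebra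
containing the `ee c`; `⊇`: `f = f_0 + ∑ f_m ee m`, the sum over a set of representatives of the exponents `≠ 0` modulo `±`; `ee 0 = 2 ≠ 0`). Suppose some `0 ≠ f ∈ Sy k` has `v (j f) > 0`; take one of minimal height `d`. `d = 0`: `f` is a symmetric Laurent polynomial in `χ^a`, so `f = P(ee a)` (as in Z0 (a)), `P ≠ 0`,
`v (j f) = 0` by `hv`: contradiction. `d ≥ 1`: let `c` be an exponent of `f` with `c = m1 a ± d b`. `g = ee c * f` has height `≤ 2 d`, constant term `2 f_c ≠ 0` and `v (j g) > 0` (`Ge v 0 (j (ee c))`). `φ (j g) = j g'` with `g'_m ^ p = g_{p m}` (write `g = g_0 + ∑ g_m ee m`, `k` perfect,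
`TorR.tor`, `tor0`, `pinv`, `one`); `g' ≠ 0` (`g'_0 ≠ 0`), the height of `g'` is `≤ 2 d / p < d` (`p ≥ 3`), and `v (j g') > 0` by `Compat`: contradiction. So `v (j f) = 0` for all `0 ≠ f ∈ Sy k`, so `v = 0` on `κ` (`gen`): contradiction to `Plc.unif`. -/
def S_Q1 : Prop :=
  ∀ (p : ℕ) [Fact p.Prime], p ≠ 2 → ∀ (k κ : Type) [Field k] [CharP k p] [PerfectRing k p]
    [Field κ] [Algebra k κ] (j : Sy k →ₐ[k] κ) (φ : κ → κ), TorR p k j φ →
    ∀ v : κ → ℤ, Plc k v → Compat p φ v → ∀ a b : ℤ × ℤ,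
    (∀ c : ℤ × ℤ, ∃ m : ℤ × ℤ, c = m.1 • a + m.2 • b) →
    (∀ P : k[X], P ≠ 0 → v (aeval (j (es k a)) P) = 0) → ∃ f, j f ≠ 0 ∧ v (j f) < 0

/-- [F2W Q2] (about 180 lines) The value at such a place is determined.

Proof. `a ≠ 0`, so `ee a` is transcendental over `k` (Z0 (b)) and `P(x) ≠ 0` for `P ≠ 0` (`j` injective); together with `hv` (the hypothesis on `v` and `a`) `v` is trivial on `k(x)`. `x = j (es a)`, `y = j (es b)`, `z = j (es (a + b))`. `x² + y² + z² - x y z = 4` (computation with `ee`). The algebra `Sy k` is generated by `es a, es b, es (a+b)` (`ee c ee d = ee (c + d) + ee (c - d)`, induction on `|m1| + |m2|`), and as `z² = x y z - x² - y² + 4` every element of `j (Sy k)` is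
`P + z Q`, `P, Q ∈ k[x][y]`. (1) `v y < 0`: `v x = 0`. If `v y ≥ 0` then `v z ≥ 0` (`z² - x y z + (x² + y² - 4) = 0` is monic with coefficients of value `≥ 0`), so `Ge v 0` on `j (Sy k)`, against `hpole`. (2) `r = z / y` satisfies `r² - x r + 1 = (4 - x²) / y²`, of value `> 0` or `0`; so `v r = 0` (if
`v r < 0` the term `r²` dominates, if `v r > 0` the term `1`). (3) For `P0, Q0 ∈ k[X]`, not both `0`: `v (P0(x) + r Q0(x)) = 0` (and `≠ 0`): `≥ 0` is clear. Suppose it is `0` or positive. If `Q0 = 0` this contradicts `hv`. If `Q0 ≠ 0` then `r ≡ - P0(x) / Q0(x) =: ρ` modulo positive, so `ρ² - x ρ + 1`, an element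
of `k(x)`, is `0` or of positive value, so `0` by `hv`; but `X² - x X + 1` has no root in `k(x)`: a root is in `k[x]` (integrally closed) and a unit, so a constant `c`, and `c² - x c + 1 = 0` is impossible as `x` is transcendental (`hv`). (4) Let `0 ≠ f = P + z Q` in `j (Sy k)`, `P = ∑ P_i(x) y^i`,
`Q = ∑ Q_i(x) y^i`; `d` the maximal index with `(P_d, Q_{d-1}) ≠ (0, 0)`. `f = ∑_{i ≤ d} (P_i(x) + r Q_{i-1}(x)) y^i`; the term `i = d` has value `d v y`, the others more (`v y < 0`). So `v f = d v y` with `d = d(f) ≥ 0` depending only on the polynomials, not on `v` (choose `P, Q` once for every `f`). -/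
def S_Q2 : Prop :=
  ∀ (p : ℕ) [Fact p.Prime], p ≠ 2 → ∀ (k κ : Type) [Field k] [CharP k p]
    [Field κ] [Algebra k κ] (j : Sy k →ₐ[k] κ) (a b : ℤ × ℤ),
    (∀ c : ℤ × ℤ, ∃ m : ℤ × ℤ, c = m.1 • a + m.2 • b) → Function.Injective j →
    ∃ d : Sy k → ℕ, ∀ v : κ → ℤ, IsV v → Triv k v →
      (∀ P : k[X], P ≠ 0 → v (aeval (j (es k a)) P) = 0) → (∃ f, j f ≠ 0 ∧ v (j f) < 0) →
      v (j (es k b)) < 0 ∧ ∀ f, f ≠ 0 → v (j f) = d f * v (j (es k b))

/-- [F2W Q] (about 80 lines) Uses Q1, Q2. Exactly one compatible direction of class `a` at the reducible locus.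

Proof. `a = e a0` with `a0` primitive (`e = gcd`), `b` such that `a0, b` is a basis of `ℤ²` (Bezout). `ee a = T(ee a0)` for some `T ∈ k[X]` of degree `e ≥ 1` (as in Z0 (a)); so `j (es a0)` is algebraic over `k(j (es a))`, and `v_i` is trivial on `k(j (es a))`, so `v_i (P(j (es a0))) = 0` for
`P ≠ 0`: `P(j (es a0)) ≠ 0` (`j` injective, `ee a0` transcendental) satisfies an equation with coefficients in `k(j (es a))` and nonzero constant term, so its value is `0`. Q1, Q2: `v_i (j f) = d(f) v_i (y)`, `v_i y < 0`; so `v_1 y • v_2 = v_2 y • v_1` on `j (Sy k)`, so on `κ` (`TorR.gen`), and both are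
normalised: `v_1 = v_2`. -/
def S_Q : Prop :=
  ∀ (p : ℕ) [Fact p.Prime], p ≠ 2 → ∀ (k κ : Type) [Field k] [CharP k p] [PerfectRing k p]
    [Field κ] [Algebra k κ] (j : Sy k →ₐ[k] κ) (φ : κ → κ), TorR p k j φ →
    ∀ v₁ v₂ : κ → ℤ, Plc k v₁ → Compat p φ v₁ → Plc k v₂ → Compat p φ v₂ → ∀ a : ℤ × ℤ, a ≠ 0 →
    (∀ P : k[X], P ≠ 0 → v₁ (aeval (j (es k a)) P) = 0) →
    (∀ P : k[X], P ≠ 0 → v₂ (aeval (j (es k a)) P) = 0) → v₁ = v₂

end Pool.Agent.F2W
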