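import Pool.Agent.Lib.MP_305fdd_al.F2.ChApi
import Pool.Agent.Lib.MP_305fdd_al.F2.RF.Defs
import Pool.Agent.Lib.MP_305fdd_al.F2.GDefs

/-!
# MP_305fdd_al, F_2, section W (local facts at one divisorial valuation): definitions
-/

set_option autoImplicit false

namespace Pool.Agent.F2W

open Pool.Agent.F2Ch Pool.Agent.F2 Pool.Agent.F2RF Polynomial

noncomputable section

/-- `κ = κ1(y)` with `y` transcendental, and `φ` is `φ1` on the coefficients and toric in `y` -/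
structure Tor (p : ℕ) (κ1 : Type) {κ : Type} [Field κ1] [Field κ] [Algebra κ1 κ] (φ1 : κ1 → κ1)
    (φ : κ → κ) (y : κ) : Prop where
  tr : Transcendental κ1 y
  gen : ∀ f : κ, ∃ a b : κ1[X], aeval y b ≠ 0 ∧ f * aeval y b = aeval y a
  pinv : IsPinv p φ
  one : φ 1 = 1
  pinv1 : IsPinv p φ1
  one1 : φ1 1 = 1
  tor : ∀ (a : κ1) (m : ℤ), φ (algebraMap κ1 κ a * y ^ (p * m)) = algebraMap κ1 κ (φ1 a) * y ^ m
  tor0 : ∀ (a : κ1) (m : ℤ), ¬ (p : ℤ) ∣ m → φ (algebraMap κ1 κ a * y ^ m) = 0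

/-- symmetric Laurent polynomials -/
def Sy (k : Type) [Field k] : Subalgebra k (Lau k) :=
  Algebra.adjoin k (Set.range (ee k))

/-- `ee c` as an element of `Sy` -/
def es (k : Type) [Field k] (c : ℤ × ℤ) : Sy k := ⟨ee k c, Algebra.subset_adjoin ⟨c, rfl⟩⟩

/-- the residue field `k(R)` of the reducible locus: `κ` is the fraction field of the symmetric
Laurent polynomials, `φ` is toric -/
structure TorR (p : ℕ) (k : Type) {κ : Type} [Field k] [Field κ] [Algebra k κ] (j : Sy k →ₐ[k] κ)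
    (φ : κ → κ) : Prop where
  inj : Function.Injective j
  gen : ∀ f : κ, ∃ a b : Sy k, j b ≠ 0 ∧ f * j b = j a
  pinv : IsPinv p φ
  one : φ 1 = 1
  tor : ∀ c : ℤ × ℤ, φ (j (es k ((p : ℤ) • c))) = j (es k c)
  tor0 : ∀ c : ℤ × ℤ, (∀ d : ℤ × ℤ, c ≠ (p : ℤ) • d) → φ (j (es k c)) = 0

/-- The data over `k` used at a valuation: the trace ring `B` in its fraction field `K`, restriction
to the reducible locus, Frobenius splitting with the constant term formula. -/
structure Fra (p : ℕ) (k : Type) {K : Type} [Field k] [Field K] [Algebra k K] (B : Subalgebra k K)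
    (res : B →ₐ[k] Lau k) (φ : K → K) : Prop where
  gen : ∀ f : K, ∃ a b : B, (b : K) ≠ 0 ∧ f * b = a
  pinv : IsPinv p φ
  one : φ 1 = 1
  tau : ∀ f : B, ∃ N0 : ℕ, ∀ N, N0 ≤ N → (φ^[N] (f : K)) ^ (p ^ N) = algebraMap k K (ct (res f))

/-- `w` is a point of rational rank one in a chart with at least two coordinates -/
def Reg (k : Type) (p : ℕ) {K : Type} [Field k] [Field K] [Algebra k K] {n : ℕ} (φ : K → K)
    (t : Fin n → K) (w : K → ℤ) : Prop :=
  ∃ (Γ : Type) (_ : AddCommGroup Γ) (_ : LinearOrder Γ) (_ : IsOrderedAddMonoid Γ) (V : K → Γ)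
    (r s : ℕ) (κ : Type) (_ : Field κ) (_ : Algebra k κ) (x : Fin r → K) (ex : K → Fin r → ℤ)
    (ac : K → κ) (φb : κ → κ) (N : Set (Fin r → ℤ)) (L : K → AddMonoidAlgebra κ (Fin r → ℤ))
    (u : Fin r → ℤ), InZ k p φ V ∧ Chart k p φ t V x ex ac φb N L ∧ 2 ≤ r ∧ r + s = 3 ∧
      Algebra.trdeg k κ = s ∧ (∃ (n' : ℕ) (t' : Fin n' → κ), FracGen k t') ∧
      Good N u ∧ OnCh k p φ t L u w

end

end Pool.Agent.F2W
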