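import Pool.Agent.Lib.MP_305fdd_al.F2.W.Stm3

/-! [F2W F]: among infinitely many divisorial points there are regular ones. -/

set_option autoImplicit false

namespace Pool.Agent.F2W

open Pool.Agent.F2Ch Polynomial Pool.Agent.F2 Pool.Agent.F2RF

private theorem f_wt {r : ℕ} (u : Fin r → ℤ) (m : Fin r → ℤ) :
    wt (fun j => ((u j : ℤ) : ℝ)) m = ((wt u m : ℤ) : ℝ) := by
  simp [wt]

private theorem f_inz {k K : Type} [Field k] [Field K] [Algebra k K] {p : ℕ} {φ : K → K}
    {w : K → ℤ} (h : InZ k p φ w) : InZ k p φ (fun f => ((w f : ℤ) : ℝ)) where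
  isv := {
    zero := by simp [h.isv.zero]
    mul := fun x y hx hy => by rw [h.isv.mul x y hx hy, Int.cast_add]
    add := fun x y hx hy hxy => by
      have := h.isv.add x y hx hy hxy
      rw [← Int.cast_min]
      exact_mod_cast this }
  triv := fun c => by
    change ((w (algebraMap k K c) : ℤ) : ℝ) = 0
    rw [h.triv c, Int.cast_zero]
  compat := fun f hf => by
    have := h.compat f hf
    simp only [nsmul_eq_mul] at this ⊢
    exact_mod_cast this

private theorem f_good {r : ℕ} {N : Set (Fin r → ℤ)} {u : Fin r → ℤ}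
    (h : Good N (fun j => ((u j : ℤ) : ℝ))) : Good N u := fun n hn => by
  have := h n hn
  rw [f_wt] at this
  exact_mod_cast this

private theorem f_min {κ : Type} [Field κ] {r : ℕ} {u : Fin r → ℤ}
    {P : AddMonoidAlgebra κ (Fin r → ℤ)} {c : ℤ}
    (h : IsMinW (fun j => ((u j : ℤ) : ℝ)) P (c : ℝ)) : IsMinW u P c := by
  refine ⟨fun m hm => ?_, ?_⟩
  · have := h.1 m hm
    rw [f_wt] at this
    exact_mod_cast this
  · obtain ⟨m, hm, hc⟩ := h.2
    rw [f_wt] at hc
    exact ⟨m, hm, by exact_mod_cast hc⟩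

private theorem f_prop {k K : Type} [Field k] [Field K] [Algebra k K] {n : ℕ} {t : Fin n → K}
    (hF : FracGen k t) {w w' : K → ℤ} (hw : IsV w) (hw' : IsV w') (a a' : ℤ)
    (h : ∀ q : MvPolynomial (Fin n) k, MvPolynomial.aeval t q ≠ 0 →
      a' * w (MvPolynomial.aeval t q) = a * w' (MvPolynomial.aeval t q)) (f : K) :
    a' * w f = a * w' f := by
  by_cases hf : f = 0
  · rw [hf, hw.zero, hw'.zero, mul_zero, mul_zero]
  · obtain ⟨b, c, hc, hbc⟩ := hF f
    have hb : MvPolynomial.aeval t b ≠ 0 := by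
      rw [← hbc]
      exact mul_ne_zero hf hc
    have h1 := h b hb
    have h2 := h c hc
    rw [← hbc, hw.mul _ _ hf hc, hw'.mul _ _ hf hc] at h1
    linarith

theorem p_F (hX2 : Pool.Agent.F2Ch.S_X2) (hX5 : Pool.Agent.F2Ch.S_X5) : S_F := by
  intro p hp k K _ _ _ _ _ n t hF b ρ0 hb φ hφ hφ1 w hinj hw hnorm
  let U : Ultrafilter ℕ := Filter.hyperfilter ℕ
  let wr : ℕ → K → ℝ := fun i f => ((w i f : ℤ) : ℝ)
  have hwr : ∀ i, InZ k p φ (wr i) := fun i => f_inz (hw i)
  obtain ⟨hV, hch⟩ := hX5 p k K ℕ U φ wr hwr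
  obtain ⟨r, s, κ, _, _, x, ex, ac, φb, N, L, hchart, hrs, htr, hfg, -⟩ :=
    hX2 p k K _ n t hF 3 b ρ0 hb φ hφ hφ1 _ hV
  have hev := hch κ n t r x ex ac φb N L hchart
  have hon : ∀ i, OnCh k p φ t L (fun j => wr i (x j)) (wr i) →
      OnCh k p φ t L (fun j => w i (x j)) (w i) := fun i h =>
    ⟨hw i, fun q hq => f_min (h.min q hq)⟩
  have hr : 2 ≤ r := by
    by_contra hlt
    have hlt' : r = 0 ∨ r = 1 := by omega
    rcases hlt' with rfl | rfl
    · obtain ⟨i, hi1, hi2⟩ := hev.exists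
      have h2 := hon i hi2
      obtain ⟨f, hf, hf1⟩ := hnorm i
      have h3 := f_prop hF (hw i).isv (hw i).isv 0 1 (fun q hq => by
        obtain ⟨m, -, hm⟩ := (h2.min q hq).2
        rw [hm]
        simp [wt]) f
      rw [hf1] at h3
      norm_num at h3
    · have hpos : ∀ᶠ i in (U : Filter ℕ), 0 < wr i (x 0) :=
        Filter.Germ.coe_pos.mp (hchart.vb.pos 0)
      have hev2 := hev.and hpos
      have hinf : {i | (Good N (fun j => wr i (x j)) ∧
          OnCh k p φ t L (fun j => wr i (x j)) (wr i)) ∧ 0 < wr i (x 0)}.Infinite := by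
        intro hfin
        exact Filter.notMem_hyperfilter_of_finite hfin hev2
      obtain ⟨i, hi⟩ := hinf.nonempty
      obtain ⟨j, hj, hij⟩ := (hinf.sdiff (Set.finite_singleton i)).nonempty
      have hij' : i ≠ j := fun h => hij (by rw [h]; rfl)
      have hi1 : 0 < w i (x 0) := Int.cast_pos.mp hi.2
      have hj1 : 0 < w j (x 0) := Int.cast_pos.mp hj.2
      have hi2 := hon i hi.1.2
      have hj2 := hon j hj.1.2
      have h3 := f_prop hF (hw i).isv (hw j).isv (w i (x 0)) (w j (x 0)) (fun q hq => by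
        obtain ⟨hig, m, hm, hmw⟩ := hi2.min q hq
        obtain ⟨hjg, m', hm', hmw'⟩ := hj2.min q hq
        have e1 := hig m' hm'
        have e2 := hjg m hm
        rw [hmw, hmw'] at *
        simp only [wt, Fin.sum_univ_one, smul_eq_mul] at e1 e2 ⊢
        have e3 : m 0 ≤ m' 0 := le_of_mul_le_mul_right e1 hi1
        have e4 : m' 0 ≤ m 0 := le_of_mul_le_mul_right e2 hj1
        have e5 : m 0 = m' 0 := le_antisymm e3 e4
        rw [e5]
        ring)
      obtain ⟨f, -, hf1⟩ := hnorm i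
      obtain ⟨f', -, hf1'⟩ := hnorm j
      have h4 := h3 f
      have h5 := h3 f'
      rw [hf1] at h4
      rw [hf1'] at h5
      have h6 : w i (x 0) ∣ w j (x 0) := ⟨w j f, by linarith⟩
      have h7 : w j (x 0) ∣ w i (x 0) := ⟨w i f', by linarith⟩
      have h8 : w i (x 0) = w j (x 0) := Int.dvd_antisymm hi1.le hj1.le h6 h7
      apply hij'
      apply hinj
      funext g
      have h9 := h3 g
      rw [h8] at h9
      exact mul_left_cancel₀ hj1.ne' h9
  obtain ⟨i, hi1, hi2⟩ := hev.exists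
  exact ⟨i, _, _, _, _, _, r, s, κ, _, _, x, ex, ac, φb, N, L, fun j => w i (x j), hV, hchart, hr,
    hrs, htr, hfg, f_good hi1, hon i hi2⟩

end Pool.Agent.F2W
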