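import Pool.Agent.Lib.MP_305fdd_al.F2.W.Stm

set_option autoImplicit false

namespace Pool.Agent.F2W

open Pool.Agent.F2Ch Polynomial

private theorem l8_trace_pow (p : ℕ) [hp : Fact p.Prime] (E M : Type) [Field E] [CharP E p]
    [Field M] [Algebra E M] [FiniteDimensional E M] [Algebra.IsSeparable E M] (a : M) :
    Algebra.trace E M (a ^ p) = (Algebra.trace E M a) ^ p := by
  have hC : CharP (AlgebraicClosure E) p :=
    charP_of_injective_algebraMap (algebraMap E (AlgebraicClosure E)).injective p
  apply (algebraMap E (AlgebraicClosure E)).injective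
  rw [RingHom.map_pow, trace_eq_sum_embeddings (AlgebraicClosure E),
    trace_eq_sum_embeddings (AlgebraicClosure E), sum_pow_char]
  exact Finset.sum_congr rfl fun σ _ => map_pow σ a p

theorem p_L8 : S_L8 := by
  intro p hp E M _ _ _ _ _ _ x ρE ρ hE hM f
  have hmon : ∀ j : Fin 1 → Fin p, algebraMap E M (monY (fun _ : Fin 1 => x) j) =
      monY (fun _ : Fin 1 => algebraMap E M x) j := by
    intro j
    simp only [monY, map_prod, map_pow]
  have hTr : Algebra.trace E M f = ∑ j : Fin 1 → Fin p,
      (Algebra.trace E M (ρ j f)) ^ p * monY (fun _ : Fin 1 => x) j := by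
    conv_lhs => rw [← hM.repr f]
    rw [map_sum]
    refine Finset.sum_congr rfl fun j _ => ?_
    rw [← hmon, mul_comm, ← Algebra.smul_def, map_smul, l8_trace_pow, smul_eq_mul, mul_comm]
  rw [hTr]
  exact hE.uniq (fun j => Algebra.trace E M (ρ j f)) j0

end Pool.Agent.F2W
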