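import Pool.Agent.Lib.MP_305fdd_al.F2.W.Stm2

set_option autoImplicit false

namespace Pool.Agent.F2W

open Pool.Agent.F2Ch Polynomial Pool.Agent.F2 Pool.Agent.F2RF

private theorem r3_pow {M : Type} [Field M] {v : M → ℤ} (hv : IsV v) {x : M} (hx : x ≠ 0) (n : ℕ) :
    v (x ^ n) = n * v x := by
  induction n with
  | zero =>
    have h := hv.mul 1 1 one_ne_zero one_ne_zero
    rw [mul_one] at h
    rw [pow_zero, Nat.cast_zero, zero_mul]
    linarith
  | succ n ih =>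
    rw [pow_succ, hv.mul _ _ (pow_ne_zero n hx) hx, ih]
    push_cast
    ring

private theorem r3_zero {p : ℕ} {M : Type} [Field M] {φ : M → M} (h : IsPinv p φ) : φ 0 = 0 := by
  have e := h.add 0 0
  rw [add_zero] at e
  exact left_eq_add.1 e

private theorem r3_poly {p : ℕ} (hp : p ≠ 0) {κ1 κ : Type} [Field κ1] [Field κ] [Algebra κ1 κ]
    {φ1 : κ1 → κ1} {φ : κ → κ} {y : κ} (h : Tor p κ1 φ1 φ y) (P : κ1[X]) :
    ∃ Q : κ1[X], φ (aeval y P) = aeval y Q ∧ ∀ j, Q.coeff j = φ1 (P.coeff (p * j)) := by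
  induction P using Polynomial.induction_on' with
  | add P1 P2 h1 h2 =>
    obtain ⟨Q1, e1, c1⟩ := h1
    obtain ⟨Q2, e2, c2⟩ := h2
    refine ⟨Q1 + Q2, ?_, fun j => ?_⟩
    · rw [map_add, map_add, h.pinv.add, e1, e2]
    · rw [coeff_add, coeff_add, h.pinv1.add, c1, c2]
  | monomial n a =>
    by_cases hn : p ∣ n
    · obtain ⟨m, rfl⟩ := hn
      refine ⟨monomial m (φ1 a), ?_, fun j => ?_⟩
      · have e := h.tor a (m : ℤ)
        rw [aeval_monomial, aeval_monomial, ← zpow_natCast y (p * m), ← zpow_natCast y m, ← e]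
        push_cast
        rfl
      · rw [coeff_monomial, coeff_monomial]
        by_cases hmj : m = j
        · rw [if_pos hmj, if_pos (by rw [hmj])]
        · rw [if_neg hmj, if_neg (fun h' => hmj (Nat.eq_of_mul_eq_mul_left (Nat.pos_of_ne_zero hp) h')),
            r3_zero h.pinv1]
    · refine ⟨0, ?_, fun j => ?_⟩
      · have e := h.tor0 a (n : ℤ) (fun h' => hn (Int.natCast_dvd_natCast.1 h'))
        rw [aeval_monomial, ← zpow_natCast y n, e, map_zero]
      · rw [coeff_monomial, if_neg (fun h' => hn ⟨j, h'⟩), coeff_zero, r3_zero h.pinv1]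

theorem p_R3 : S_R3 := by
  intro p hp κ1 κ _ _ _ φ1 φ y hT v1 hv1 hc1 α β hα v hv hw f hf
  have hp0 : p ≠ 0 := hp.out.ne_zero
  have hf0 : f ≠ 0 := by
    rintro rfl
    exact hf (r3_zero hT.pinv)
  obtain ⟨a, b, hb, hab⟩ := hT.gen f
  obtain ⟨Q, hQ, hQc⟩ := r3_poly hp0 hT (a * b ^ (p - 1))
  have e1 : aeval y (a * b ^ (p - 1)) = (aeval y b) ^ p * f := by
    rw [map_mul, map_pow, ← hab]
    conv_rhs => rw [← Nat.succ_pred_eq_of_pos hp.out.pos]
    rw [pow_succ, Nat.pred_eq_sub_one]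
    ring
  have e2 : aeval y Q = aeval y b * φ f := by
    rw [← hQ, e1, hT.pinv.pow_mul]
  have n1 : aeval y (a * b ^ (p - 1)) ≠ 0 := by
    rw [e1]
    exact mul_ne_zero (pow_ne_zero _ hb) hf0
  have n2 : aeval y Q ≠ 0 := by
    rw [e2]
    exact mul_ne_zero hb hf
  have m1 : a * b ^ (p - 1) ≠ 0 := by
    intro h
    apply n1
    rw [h, map_zero]
  have m2 : Q ≠ 0 := by
    intro h
    apply n2
    rw [h, map_zero]
  obtain ⟨-, j, hj, hvj⟩ := hw Q m2
  have hj' : (a * b ^ (p - 1)).coeff (p * j) ≠ 0 := by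
    intro h
    apply hj
    rw [hQc, h, r3_zero hT.pinv1]
  have k1 := (hw _ m1).1 (p * j) hj'
  rw [hQc] at hj hvj
  have k2 := hc1 _ hj
  rw [nsmul_eq_mul] at k2
  have v1' : v (aeval y (a * b ^ (p - 1))) = p * v (aeval y b) + v f := by
    rw [e1, hv.mul _ _ (pow_ne_zero _ hb) hf0, r3_pow hv hb]
  have v2' : v (aeval y Q) = v (aeval y b) + v (φ f) := by
    rw [e2, hv.mul _ _ hb hf]
  have k3 := mul_le_mul_of_nonneg_left k2 hα.le
  rw [nsmul_eq_mul]
  push_cast at k1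
  rw [v1'] at k1
  rw [v2'] at hvj
  have k4 : (p : ℤ) * (v (aeval y b) + v (φ f)) =
      p * (α * v1 (φ1 ((a * b ^ (p - 1)).coeff (p * j))) + j * β) := by rw [hvj]
  nlinarith [k1, k3, k4]

end Pool.Agent.F2W
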