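import Pool.Agent.Lib.MP_305fdd_al.F2.W.Defs

/-!
# MP_305fdd_al, F_2, section W, part L: a Frobenius splitting of a curve given by a form never has
exactly one compatible place.  The pieces [F2W L..]

Every `def S_xx : Prop` is one independent piece; its docstring contains the complete proof.  The other
statements may be taken as hypotheses.

Conventions: `p` a prime, `k` a field of characteristic `p` (algebraically closed where stated), `M` a
function field in one variable over `k`; valuations `v : M → ℤ` are additive with the junk value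
`v 0 = 0` (`IsV`); `Ge v 0 y` : `y = 0` or `v y ≥ 0`; `Gt v 0 y` : `y = 0` or `v y > 0`.
`φ : M → M` is additive and `φ (a ^ p b) = a φ b` (`IsPinv`), `φ 1 = 1`.
-/

set_option autoImplicit false

namespace Pool.Agent.F2W

open Pool.Agent.F2Ch Polynomial

/-- [F2W L1] (about 80 lines) A `φ`-stable module over the valuation ring which does not contain `1` is the maximal
ideal, and then `v` is compatible with `φ`.

Proof. `φ 0 = 0` (additive). Let `y ∈ J`, `y ≠ 0`. If `v y ≤ 0` then `Ge v 0 y⁻¹`, so `1 = y⁻¹ y ∈ J`, a contradiction. So all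
elements of `J` satisfy `Gt v 0`. Let `e ≥ 1` be the minimum of the `v y`, `0 ≠ y ∈ J`, attained at `y0`. Every `y ≠ 0` with `v y ≥ e` is
in `J` (`y = (y / y0) y0`). Suppose `e ≥ 2`. Let `v u = 1`, `b = u ^ (e - 1)`; `v (b ^ p) = p (e - 1) ≥ 2 (e - 1) ≥ e`, so `b ^ p ∈ J`,
so `φ (b ^ p) = b φ 1 = b ∈ J`, but `v b = e - 1 < e`: contradiction. So `e = 1`: `J = {y | Gt v 0 y}`.
Compatibility: let `φ f ≠ 0` (so `f ≠ 0`), `v f - 1 = p q + r`, `0 ≤ r < p`. `f' = u ^ (- p q) f = (u ^ (-q)) ^ p f` (`zpow`) has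
`v f' = r + 1 ≥ 1`, so `f' ∈ J`, `φ f' = u ^ (-q) φ f ∈ J` and `≠ 0`, so `v (φ f) - q ≥ 1`; `p v (φ f) ≥ p q + p ≥ p q + r + 1 = v f`. -/
def S_L1 : Prop :=
  ∀ (p : ℕ) [Fact p.Prime] (M : Type) [Field M] (φ : M → M), IsPinv p φ → φ 1 = 1 →
    ∀ v : M → ℤ, IsV v → (∃ u, u ≠ 0 ∧ v u = 1) →
    ∀ J : AddSubgroup M, (∃ y ∈ J, y ≠ 0) → (∀ a y, Ge v 0 a → y ∈ J → a * y ∈ J) →
    (∀ y ∈ J, φ y ∈ J) → (1 : M) ∉ J → (∀ y, y ∈ J ↔ Gt v 0 y) ∧ Compat p φ v

/-- [F2W L2] (about 80 lines) The additive valuation of a nonzero prime of a Dedekind domain.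

Proof. Let `w = (⟨P, _, _⟩ : HeightOneSpectrum A).valuation M : Valuation M ℤᵐ⁰` and `v y = - (the exponent of w y)` for
`y ≠ 0`, `v 0 = 0` (`WithZero.unzero`, `Multiplicative.toAdd`, or `WithZero.log`). `IsV` from `Valuation.map_mul`, `map_add`;
a uniformiser: `HeightOneSpectrum.valuation_exists_uniformizer`. `Gt v 0 a ↔ a ∈ P` : `valuation_lt_one_iff_mem`.
`Ge v 0 y ↔ …` : `←` `v s = 0` (`valuation_eq_one`-like: `≤ 1` for elements of `A`, not `< 1`) and `v a ≥ 0`. `→` (if `y = 0`: `s = 1`,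
`a = 0`): `y = b / c`, `b c ∈ A`, `c ≠ 0`; we need `s ∉ P` with `s b ∈ c A`. The ideal `c A` is `P ^ m I'` with `I'` coprime to `P`, `m = v c`,
`b ∈ P ^ m` as `v b ≥ v c`; choose `s ∈ I'`, `s ∉ P`; `s b ∈ P ^ m I'` (`= P ^ m ⊓ I'`). (Or: `IsLocalization.AtPrime` of `M`'s subring:
Mathlib may have `HeightOneSpectrum.valuation … le_one_iff`/`exists_primeCompl…`; any proof is fine.) -/
def S_L2 : Prop :=
  ∀ (A M : Type) [CommRing A] [IsDedekindDomain A] [Field M] [Algebra A M] [IsFractionRing A M]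
    (P : Ideal A), P.IsPrime → P ≠ ⊥ → ∃ v : M → ℤ, IsV v ∧ (∃ u, u ≠ 0 ∧ v u = 1) ∧
      (∀ y, Ge v 0 y ↔ ∃ s a : A, s ∉ P ∧ algebraMap A M s * y = algebraMap A M a) ∧
      ∀ a : A, Gt v 0 (algebraMap A M a) ↔ a ∈ P

/-- [F2W L3] (about 80 lines) Uses L1, L2. Elements of a `φ`-stable submodule over a Dedekind domain: `x ∈ A` is in
`J` if it is positive at all compatible places which are nonnegative on `A`.

Proof. The set `I = {s : A | s x ∈ J}` is an ideal. If `I ≠ ⊤` it is contained in a maximal ideal `P`; `P ≠ ⊥` because `I` contains a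
nonzero element: `0 ≠ y ∈ J`, `y = a / b`, `a = b y ∈ J`, so `a x = x a ∈ J`, `a ∈ I`, `a ≠ 0` (if `x` is anything). Let `v` be the valuation of
`P` (L2) and `J' = {y : M | ∃ s ∉ P, s y ∈ J}`, an additive subgroup (product of denominators), stable under multiplication with `Ge v 0`
elements (`t a' = b'`, `t ∉ P`: `(s t) (a' y) = b' (s y) ∈ J`), contains `J`, `φ`-stable: `s y ∈ J ⟹ s ^ p y = s ^ (p-1) (s y) ∈ J ⟹
φ (s ^ p y) = s φ y ∈ J`. If `1 ∈ J'`: `s 1 ∈ J`, `s ∉ P`, so `s x ∈ J` and `s ∈ I ⊆ P`, a contradiction. So L1: `J' = {Gt v 0}` and `v` is compatible, so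
`Gt v 0 x` by hypothesis, `x ∈ J'`: there is `s ∉ P` with `s x ∈ J`, so `s ∈ I ⊆ P`: contradiction. -/
def S_L3 : Prop :=
  ∀ (p : ℕ) [Fact p.Prime] (A M : Type) [CommRing A] [IsDedekindDomain A] [Field M] [Algebra A M]
    [IsFractionRing A M] (φ : M → M), IsPinv p φ → φ 1 = 1 →
    ∀ J : Submodule A M, J ≠ ⊥ → (∀ y ∈ J, φ y ∈ J) → ∀ x : A,
    (∀ v : M → ℤ, IsV v → (∃ u, u ≠ 0 ∧ v u = 1) → (∀ a : A, Ge v 0 (algebraMap A M a)) →
      Compat p φ v → Gt v 0 (algebraMap A M x)) → algebraMap A M x ∈ J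

/-- [F2W L4] (about 110 lines) Uses L2. If `1 ∈ J` and `v` (the valuation of the maximal ideal `P`) is compatible then there
is `y ∉ J` with `P y ⊆ J` and `φ (A y) ⊆ J`.

Proof. `J' = {z : M | ∃ s ∉ P, s z ∈ J}` as in L3. (1) The values `v z` of the nonzero elements `z ∈ J'` are bounded below: `J` is generated by
`z_1, .., z_n` and `v ≥ 0` on `A`, so `v z ≥ min v (z_i)` for `z ∈ J`, and `v s = 0` for `s ∉ P`. Let `- e` be the minimum, `e ≥ 0` because `1 ∈ J`;
as `J'` is a module over `{Ge v 0}`: `z ∈ J' ↔ z = 0 ∨ v z ≥ - e`. (2) Take `y1` with `v y1 = - e - 1` (power of a uniformiser). `P` is finitely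
generated (Noetherian), `P = (c_1, .., c_r)`, `v (c_i y1) ≥ - e`, so there are `s_i ∉ P` with `s_i c_i y1 ∈ J`; `y = (∏ s_i) y1` satisfies `P y ⊆ J`,
`v y = - e - 1`, so `y ∉ J`. (3) Let `a ∈ A`, `z = a y`; then `P z ⊆ J`, and `z = 0` or `v z ≥ - e - 1`. CLAIM `φ z ∈ J`: the ideal
`I = {s : A | s φ z ∈ J}` is not contained in any maximal ideal `Q`: if `Q ≠ P` take `b ∈ P`, `b ∉ Q`; `b ^ p z = b ^ (p-1) (b z) ∈ J`, so `b φ z = φ (b ^ p z) ∈ J`.
If `Q = P`: if `φ z = 0` clear; otherwise `p v (φ z) ≥ v z ≥ - e - 1` (compatibility), so `v (φ z) ≥ - e` (`p v ≥ - e - 1`, `p ≥ 2`, `e ≥ 0` integers: if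
`v (φ z) ≤ - e - 1` then `p v (φ z) ≤ - 2 e - 2 < - e - 1`), so `φ z ∈ J'`. So `I = ⊤`. -/
def S_L4 : Prop :=
  ∀ (p : ℕ) [Fact p.Prime] (A M : Type) [CommRing A] [IsDedekindDomain A] [Field M] [Algebra A M]
    [IsFractionRing A M] (φ : M → M), IsPinv p φ → φ 1 = 1 →
    ∀ J : Submodule A M, J.FG → (∀ y ∈ J, φ y ∈ J) → (1 : M) ∈ J →
    ∀ (P : Ideal A), P.IsPrime → P ≠ ⊥ → ∀ v : M → ℤ, IsV v → (∃ u, u ≠ 0 ∧ v u = 1) →
      (∀ y, Ge v 0 y ↔ ∃ s a : A, s ∉ P ∧ algebraMap A M s * y = algebraMap A M a) →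
      (∀ a : A, Gt v 0 (algebraMap A M a) ↔ a ∈ P) → Compat p φ v →
      ∃ y : M, y ∉ J ∧ (∀ b ∈ P, b • y ∈ J) ∧ ∀ a : A, φ (a • y) ∈ J

/-- [F2W L5] (about 90 lines) The module `J = {y | T (y A) ⊆ x0 R}` is nonzero and finitely generated.

Proof. `A` is a finite `R`-module (`IsIntegralClosure.finite R E M A` for the integral closure; separable). `J ≠ 0`: the
finitely many `T (a_i)` (`a_i` generators of `A` over `R`) have a common denominator `d ∈ R`, `d ≠ 0`; `T` is `E`-linear, so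
`T ((x0 d) a) ∈ x0 R` for all `a ∈ A`, and `x0 d ≠ 0` is in `J`. Finitely generated: let `b_1, .., b_n` be a basis of `M / E`
contained in `A` (`FiniteDimensional.exists_is_basis_integral` / multiply a basis by a common denominator). `y ↦ (T (y b_i))_i` is `R`-linear
`M → E ^ n` and injective: if `y ≠ 0` and `T (y b_i) = 0` for all `i` then `T (y M) = 0`, `T = 0`, a contradiction. It maps `J` into
`(x0 R) ^ n ≅ R ^ n`, a Noetherian `R`-module; so `J` is finitely generated over `R`, hence over `A`. -/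
def S_L5 : Prop :=
  ∀ (R E M : Type) [CommRing R] [IsDedekindDomain R] [Field E] [Algebra R E] [IsFractionRing R E]
    [Field M] [Algebra E M] [Algebra R M] [IsScalarTower R E M] [FiniteDimensional E M]
    [Algebra.IsSeparable E M] (T : M →ₗ[E] E), T ≠ 0 → ∀ x0 : R, x0 ≠ 0 →
    ∀ J : Submodule (integralClosure R M) M,
      (∀ y, y ∈ J ↔ ∀ a : integralClosure R M, ∃ r : R, T (y * a) = algebraMap R E (x0 * r)) →
      J ≠ ⊥ ∧ J.FG

/-- [F2W L6] (about 120 lines) The toric map on `k(x)`.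

Proof. `E = k(x)`, `x` transcendental. `P ∈ k[X]` is uniquely `∑_{i<p} (P_i(X)) ^ p X ^ i` (`k` perfect: coefficientwise `p`-th roots). The
monomials `x ^ i`, `0 ≤ i < p`, are a basis of `E` over `E ^ p`: spanning: `f = P(x) / Q(x) = P(x) Q(x) ^ (p-1) / Q(x) ^ p`; independence: clear
denominators and compare exponents mod `p` in `k[X]` (`aeval x` is injective). So there are coordinates `ρ` (`IsPB`; the index type is
`Fin 1 → Fin p`, `monY (fun _ => x) j = x ^ (j 0)`). For `Q ∈ k[X]`, `ρ j0 (Q(x)) = Q_0(x)` with `Q_0.coeff i ^ p = Q.coeff (p i)`. For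
`Q(x⁻¹)`: `x⁻¹ ^ m = (x ^ (-(q+1))) ^ p x ^ (p - r)` if `m = p q + r`, `0 < r < p`, and `(x ^ (-q)) ^ p` if `m = p q`; so
`ρ j0 (Q(x⁻¹)) = Q_0(x⁻¹)` with the same `Q_0`. -/
def S_L6 : Prop :=
  ∀ (p : ℕ) [Fact p.Prime] (k E : Type) [Field k] [CharP k p] [PerfectRing k p] [Field E]
    [Algebra k E] (x : E), Transcendental k x → (∀ f : E, ∃ a b : k[X], aeval x b ≠ 0 ∧
      f * aeval x b = aeval x a) →
    ∃ ρ : (Fin 1 → Fin p) → E → E, IsPB p (monY (p := p) fun _ : Fin 1 => x) ρ ∧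
      (∀ Q : k[X], ∃ Q' : k[X], (∀ i, Q'.coeff i ^ p = Q.coeff (p * i)) ∧
        ρ j0 (aeval x Q) = aeval x Q' ∧ ρ j0 (aeval x⁻¹ Q) = aeval x⁻¹ Q')

/-- [F2W L7] (about 150 lines) A `p`-basis `x` of a function field of one variable is a separating element.

Proof. `CharP M p` from `k`. (1) `x` is transcendental over `k`: if `x` were algebraic over `k` (perfect) then `k(x) / k` is finite and separable, so
`k(x)` is perfect and `x = a ^ p` with `a ∈ k(x)`; then the monomials `1 = x ^ 0` and `x` are dependent over `M ^ p` (`p ≥ 2`;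
`IsPB.uniq`), a contradiction. (2) `M / k(x)` is algebraic (`trdeg = 1`, `x` transcendental) and finitely generated (`FracGen`), so finite.
(3) Let `S` be the separable closure of `k(x)` in `M`; `M / S` is purely inseparable and finite, so there is `n` with `M ^ (p ^ n) ⊆ S`. By `IsPB.repr`,
`M = ∑_j M ^ p x ^ j`, so by induction `M = ∑_{i < p ^ n} M ^ (p ^ n) x ^ i` (substitute: `f = ∑ g_j ^ p x ^ j`, `g_j = ∑ h ^ (p ^ (n-1)) x ^ i`). So `M ⊆ S`. -/
def S_L7 : Prop :=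
  ∀ (p : ℕ) [Fact p.Prime] (k M : Type) [Field k] [CharP k p] [PerfectRing k p] [Field M]
    [Algebra k M] (n : ℕ) (t : Fin n → M), FracGen k t → Algebra.trdeg k M = 1 →
    ∀ (x : M) (ρ : (Fin 1 → Fin p) → M → M), IsPB p (monY (p := p) fun _ : Fin 1 => x) ρ →
    Transcendental k x ∧ FiniteDimensional (IntermediateField.adjoin k {x}) M ∧
      Algebra.IsSeparable (IntermediateField.adjoin k {x}) M

/-- [F2W L8] (about 60 lines) The trace commutes with the toric maps.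

Proof. `f = ∑_j (ρ j f) ^ p x ^ j` with `x ^ j ∈ E`, so `Tr f = ∑_j Tr ((ρ j f) ^ p) x ^ j`, and `Tr (a ^ p) = (Tr a) ^ p` (the trace is the sum
over the embeddings into an algebraic closure, `trace_eq_sum_embeddings`, separable; Frobenius is additive; `algebraMap` injective). By `IsPB.uniq` for
`E` (with `monY x_E j = x_E ^ (j 0)`), `ρE j0 (Tr f) = Tr (ρ j0 f)`. -/
def S_L8 : Prop :=
  ∀ (p : ℕ) [Fact p.Prime] (E M : Type) [Field E] [CharP E p] [Field M] [Algebra E M]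
    [FiniteDimensional E M] [Algebra.IsSeparable E M] (x : E)
    (ρE : (Fin 1 → Fin p) → E → E) (ρ : (Fin 1 → Fin p) → M → M),
    IsPB p (monY (p := p) fun _ : Fin 1 => x) ρE →
    IsPB p (monY (p := p) fun _ : Fin 1 => algebraMap E M x) ρ →
    ∀ f, ρE j0 (Algebra.trace E M f) = Algebra.trace E M (ρ j0 f)

/-- [F2W L9] (about 70 lines) A `p`-basis with positive value.

Proof. Let `u` with `v u = 1`, `y = y 0` the given `p`-basis, `x = y u ^ (p N)` with `N` so large that `v x = v y + p N > 0` (`y ≠ 0`: otherwise the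
monomial `y ^ 1` is `0` and `IsPB.uniq` fails; `p ≥ 2`). `x ^ j = y ^ j (u ^ (N j)) ^ p`, so `∑ a_j ^ p x ^ j = ∑ (a_j u ^ (N j)) ^ p y ^ j` and the new coordinates are
`ρ' j f = u ^ (- N j) ρ j f`. -/
def S_L9 : Prop :=
  ∀ (p : ℕ) [Fact p.Prime] (M : Type) [Field M] (v : M → ℤ), IsV v → (∃ u, u ≠ 0 ∧ v u = 1) →
    ∀ (y : Fin 1 → M) (ρ : (Fin 1 → Fin p) → M → M), IsPB p (monY (p := p) y) ρ →
    ∃ (x : M) (ρ' : (Fin 1 → Fin p) → M → M), x ≠ 0 ∧ 0 < v x ∧
      IsPB p (monY (p := p) fun _ : Fin 1 => x) ρ'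

/-- [F2W L10] (about 90 lines) Residues at a place of a curve over an algebraically closed field are constant.

Proof. Let `v u = 1`, `u` is transcendental over `k` (elements `a ≠ 0` algebraic over `k` have `v a = 0`: in
`a ^ n + c_1 a ^ (n-1) + .. + c_n = 0`, `c_n ≠ 0`, all `v (c_i) ∈ {0}`, the terms `a ^ n` resp. `c_n` would dominate if `v a < 0` resp. `> 0`). Let `Ge v 0 f`. As
`trdeg = 1`, `f` and `u` are algebraically dependent: `∑_j P_j(f) u ^ j = 0` with polynomials `P_j ∈ k[X]`, not all `0`; dividing by a power of `u`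
we may assume `P_0 ≠ 0` (`u ≠ 0`). Then `P_0(f) = - u (..)` is `0` or has positive value (`v ≥ 0` on `k[f, u]`). `P_0` is not constant (a nonzero constant has
value `0`), so it splits: `P_0(f) = c ∏ (f - c_i)`, and one of the factors must be `0` or have positive value (all have `Ge v 0`). -/
def S_L10 : Prop :=
  ∀ (k M : Type) [Field k] [IsAlgClosed k] [Field M] [Algebra k M], Algebra.trdeg k M = 1 →
    ∀ v : M → ℤ, IsV v → Triv k v → (∃ u, u ≠ 0 ∧ v u = 1) →
    ∀ f, Ge v 0 f → ∃ c : k, Gt v 0 (f - algebraMap k M c)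

/-- [F2W L11] (about 150 lines) Uses L3 -- L10 and the independence of the `p`-basis (RF: a form with respect to one
`p`-basis is a form with respect to every `p`-basis, here the hypothesis `hform`). MAIN LEMMA: `v` is not the only compatible place.

Proof. Suppose every compatible normalised `v'` (trivial on `k`) has the same valuation ring as `v` (negation of the conclusion:
`∀ f, Ge v 0 f → Ge v' 0 f`; then `{Ge v 0} ⊆ {Ge v' 0}`, so `v' = v`: `f` with `v f = 0` has `v' f ≥ 0` and `v' f⁻¹ ≥ 0`, so `v' f = 0`; so `v' f = v f v' u`, and `v' u = 1` by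
normalisation, `v' u ≥ 0`). L9: a `p`-basis `x` with `v x > 0`; by `hform`, `φ f = g⁻¹ ρ j0 (g f)`, `g ≠ 0`, `ρ` the coordinates of `x`. `E = k(x)`; L7. `φE = ρE j0` from L6 (with
`x` as element of `E`; every element of `E = k(x)` is a quotient of polynomials in `x`). `T y = Tr (g y)`, `E`-linear, `≠ 0` (`Algebra.trace_ne_zero`/surjective, `g ≠ 0`), and by L8
`φE (T y) = Tr (ρ j0 (g y)) = Tr (g φ y) = T (φ y)`.
(F) `R = k[x]` (`Algebra.adjoin k {x}`, a principal ideal domain, fraction field `E`), `A` its integral closure in `M`, `J = {y | T (y A) ⊆ x R}`.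
`φ J ⊆ J`: `T (φ y a) = T (φ (y a ^ p)) = φE (T (y a ^ p)) ∈ φE (x R) ⊆ x R` (L6: `Q.coeff 0 = 0` implies `Q'.coeff 0 = 0`). L5: `J ≠ 0`, finitely generated.
`P = {a ∈ A | Gt v 0 a}` is a prime ideal (`Ge v 0` on `A`: integral over `k[x]`, `v x > 0`), contains `x`, so `≠ ⊥`. By L3 every `b ∈ P` is in `J` (the only compatible
valuation which is `≥ 0` on `A` is `v`). In particular `x ∈ J`: `x T (A) ⊆ x R`, so `T(A) ⊆ R`.
(I) the same with `R' = k[x⁻¹]`, `A'`, `J' = {y | T (y A') ⊆ x⁻¹ R'}`: `v (x⁻¹) < 0` and `x⁻¹ ∈ A'`, so no compatible valuation is `≥ 0` on `A'`, and L3 (applied to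
`1`) gives `1 ∈ J'`: `T 1 ∈ x⁻¹ k[x⁻¹]`. As `T 1 ∈ k[x]`: `T 1 = 0` (compare degrees: `x` is transcendental).
Now `A = k + P` by L10, so `T(A) ⊆ x R`, i.e. `1 ∈ J`. The valuation of `P` in the sense of L2 is `v` (both normalised; the valuation ring of L2 is contained in `{Ge v 0}`: `s y = a`, `s ∉ P`
so `v s = 0`; two normalised valuations with `O ⊆ O'` are equal as above). L4: `y ∉ J` with `P y ⊆ J` and `φ (A y) ⊆ J`. There is `a ∈ A` with `T (y a) ∉ x R`; `x ∈ P`, so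
`x y ∈ J`, `x T (y a) ∈ x R`, so `T (y a) = Q(x)`, `Q ∈ k[X]`, `c = Q(0) ≠ 0`. `z = c⁻¹ a y`: `T z = (c⁻¹ Q)(x)`, `φ z ∈ J`, so `T (φ z) ∈ x R`; but
`T (φ z) = φE (T z) = Q'(x)` with `Q'(0) ^ p = (c⁻¹ Q)(0) = 1`: contradiction. -/
def S_L11 : Prop :=
  ∀ (p : ℕ) [Fact p.Prime] (k M : Type) [Field k] [IsAlgClosed k] [CharP k p] [Field M]
    [Algebra k M] (n : ℕ) (t : Fin n → M), FracGen k t → Algebra.trdeg k M = 1 →
    ∀ (y : Fin 1 → M) (ρ0 : (Fin 1 → Fin p) → M → M), IsPB p (monY (p := p) y) ρ0 →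
    ∀ φ : M → M, IsPinv p φ → φ 1 = 1 →
    (∀ (x : M) (ρ : (Fin 1 → Fin p) → M → M), IsPB p (monY (p := p) fun _ : Fin 1 => x) ρ →
      ∃ g, g ≠ 0 ∧ ∀ f, φ f = g⁻¹ * ρ j0 (g * f)) →
    ∀ v : M → ℤ, IsV v → Triv k v → (∃ u, u ≠ 0 ∧ v u = 1) → Compat p φ v →
    ∃ v' : M → ℤ, IsV v' ∧ Triv k v' ∧ (∃ u, u ≠ 0 ∧ v' u = 1) ∧ Compat p φ v' ∧
      ∃ f, Ge v 0 f ∧ ¬ Ge v' 0 f

end Pool.Agent.F2W
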