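import Pool.Agent.Lib.MP_305fdd_al.F2.W.Defs
import Pool.Agent.Lib.MP_305fdd_al.F2.RF.Stm
import Pool.Agent.Lib.MP_305fdd_al.F2.W.Stm

/-!
# MP_305fdd_al, F_2, section W, part 2: local facts at one divisorial valuation.  The pieces [F2W ..]

Every `def S_xx : Prop` is one independent piece; its docstring contains the complete proof.  The other
statements may be taken as hypotheses.

Conventions as in section C (`IsV`, `Ge`, `Gt`, `Compat`, `Chart`, ..) and section RF.  `Lau k`, `ee`, `ct` :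
Laurent polynomials in two variables, `ee c = χ^c + χ^{-c}`, constant term (GDefs).
`B` is the trace ring, `res : B → Lau k` the restriction to the reducible locus, `Fra` (Defs): `K = Frac B`
and `(φ^N f)^(p^N) = ct (res f)` for `f ∈ B`, `N ≥ N(f)`.
-/

set_option autoImplicit false

namespace Pool.Agent.F2W

open Pool.Agent.F2Ch Pool.Agent.F2 Pool.Agent.F2RF Polynomial

/-! ## Z. Constant terms and Lemma 0'' -/

/-- [F2W Z0] (about 60 lines) The constant term is nondegenerate on `k[e_c]`.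

Proof. `ee c = χ^c + χ^{-c}`, `χ^m = AddMonoidAlgebra.single m 1`. (a) By induction there is `T_d ∈ k[X]` with `T_d(ee c) = ee (d c)`:
`ee c * ee (d c) = ee ((d+1) c) + ee ((d-1) c)`. (b) For `P` of degree `d`: the exponents of `P(ee c)` are in `{i c : |i| ≤ d}` and the coefficient at `d c` and at
`- d c` is the leading coefficient `a` of `P` (for `d ≥ 1`; `c ≠ 0`, so `i ↦ i c` is injective); for `d = 0`, `P(ee c) = a`. (c) If `d = 0` take `Q = 1`. If `d ≥ 1` take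
`Q = T_d`: `ct (P(ee c) ee (d c))` = coefficient of `P(ee c)` at `d c` plus coefficient at `- d c` = `2 a ≠ 0`. -/
def S_Z0 : Prop :=
  ∀ (k : Type) [Field k], (2 : k) ≠ 0 → ∀ c : ℤ × ℤ, c ≠ 0 → ∀ P : k[X], P ≠ 0 →
    ∃ Q : k[X], ct (aeval (ee k c) (P * Q)) ≠ 0

/-- [F2W Z1] (about 60 lines) Uses Z0. An elliptic element of class `≠ 0` has a transcendental residue.

Proof. (a) If `f ∈ B` and `Gt v 0 f` then `ct (res f) = 0`: by `Compat`, `Gt v 0 (φ g)` whenever `Gt v 0 g` (`g ≠ 0`, `φ g ≠ 0` : `0 < v g ≤ p v (φ g)`; and `φ 0 = 0`), so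
`Gt v 0 (φ^[N] f)`, so `(φ^[N] f)^(p^N) = algebraMap (ct (res f))` is `0` or has positive value; a nonzero constant has value `0` (`Triv`).
(b) Let `P ≠ 0`, `z = aeval t P`; `Ge v 0 z` (sums and products of elements with `Ge v 0`). If `z = 0` or `v z > 0`, then for all `Q`, `z * aeval t Q ∈ B` has `Gt v 0`, and its `res` is
`aeval (ee c) (P * Q)`, so `ct (aeval (ee c) (P * Q)) = 0` for all `Q`: contradiction to Z0 (`2 ≠ 0` as `p ≠ 2`). -/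
def S_Z1 : Prop :=
  ∀ (p : ℕ) [Fact p.Prime], p ≠ 2 → ∀ (k K Γ : Type) [Field k] [CharP k p] [Field K] [Algebra k K]
    [AddCommGroup Γ] [LinearOrder Γ] [IsOrderedAddMonoid Γ]
    (B : Subalgebra k K) (res : B →ₐ[k] Lau k) (φ : K → K), Fra p k B res φ →
    ∀ v : K → Γ, IsV v → Triv k v → Compat p φ v →
    ∀ (t : B) (c : ℤ × ℤ), c ≠ 0 → res t = ee k c → Ge v 0 (t : K) →
    ∀ P : k[X], P ≠ 0 → aeval (t : K) P ≠ 0 ∧ v (aeval (t : K) P) = 0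

/-- [F2W Z2] (about 80 lines) Uses Z0 (and part (a) of the proof of Z1). LEMMA 0''.

Proof. Let `f ∈ B`, `res f = 0`, `Ge v 0 f`, and suppose not `Gt v 0 f`: `f ≠ 0`, `v f = 0`. By `htr` there is `P ≠ 0` in `k[X, Y]` with `Gt v 0 (P(t, f))`. Write `P = Y^m P'` with `P'` not divisible by `Y`
(`MvPolynomial`: the minimal exponent of the variable `1`); `v (f^m) = 0`, so `Gt v 0 (P'(t, f))`. `P0 = P'(X, 0) ≠ 0`. For `Q ∈ k[X]` the element
`P'(t, f) Q(t) ∈ B` has `Gt v 0`, so by (a) of Z1 `0 = ct (res (..)) = ct (P'(ee c, 0) Q(ee c)) = ct (aeval (ee c) (P0 * Q))`: contradiction to Z0. -/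
def S_Z2 : Prop :=
  ∀ (p : ℕ) [Fact p.Prime], p ≠ 2 → ∀ (k K Γ : Type) [Field k] [CharP k p] [Field K] [Algebra k K]
    [AddCommGroup Γ] [LinearOrder Γ] [IsOrderedAddMonoid Γ]
    (B : Subalgebra k K) (res : B →ₐ[k] Lau k) (φ : K → K), Fra p k B res φ →
    ∀ v : K → Γ, IsV v → Triv k v → Compat p φ v →
    ∀ (t : B) (c : ℤ × ℤ), c ≠ 0 → res t = ee k c → Ge v 0 (t : K) →
    (∀ f g : K, Ge v 0 f → Ge v 0 g → ∃ P : MvPolynomial (Fin 2) k, P ≠ 0 ∧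
      Gt v 0 (MvPolynomial.aeval ![f, g] P)) →
    ∀ f : B, res f = 0 → Ge v 0 (f : K) → Gt v 0 (f : K)

/-- [F2W Z3] (about 60 lines) The hypothesis of Z2 from the transcendence degree of the residue field.

Proof. `ρ f = lc v ac 0 f` is, on the ring `O = {f | Ge v 0 f}`, a homomorphism of `k`-algebras to `κ` with kernel `{Gt v 0}` (`IsAC`: `add` at level `0`, `mul`, `ne`; for a product of two elements of `O`: if both have value
`0` use `mul`, otherwise both sides are `0`). `ρ f`, `ρ g` are not algebraically independent as `trdeg ≤ 1` (`trdeg` is the supremum of the cardinalities of algebraically independent families): there is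
`P ≠ 0` with `P(ρ f, ρ g) = 0 = ρ (P(f, g))`. -/
def S_Z3 : Prop :=
  ∀ (k K Γ κ : Type) [Field k] [Field K] [Algebra k K] [AddCommGroup Γ] [LinearOrder Γ]
    [IsOrderedAddMonoid Γ] [Field κ] [Algebra k κ] (v : K → Γ), IsV v → Triv k v →
    ∀ (r : ℕ) (x : Fin r → K) (ac : K → κ), IsAC k v x ac → Algebra.trdeg k κ ≤ 1 →
    ∀ f g : K, Ge v 0 f → Ge v 0 g → ∃ P : MvPolynomial (Fin 2) k, P ≠ 0 ∧
      Gt v 0 (MvPolynomial.aeval ![f, g] P)

/-! ## D. The dichotomy of directions -/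

/-- [F2W D] (about 120 lines) The dichotomy at a divisorial point which takes both signs on `I`.

Proof. `S0 = {x ∈ I | w x = 0}`. If `x, y ∈ S0` with `c x < 0 < c y`: this is impossible if `c` is integer valued up to a factor; in general `c` is real valued, so assume (`hc`) that the values of `c` on
`I ∪ Tr` are integers times `γ > 0`: then `x^a y^b ∈ S0` with `a, b > 0`, `c = 0`, a contradiction. So `c` has one sign on `S0`. For `x ∈ I`, `w x = a > 0` and `y ∈ I ∪ Tr`, `w y = - b < 0`: `z = x^b y^a ∈ S0` (products of elements of `I`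
and at least one factor in `I`), `w z = 0`, `c z = b c x + a c y`. There is such an `x` and such a `y ∈ I`, so `S0` is not empty.
Case 1: `c < 0` on `S0`. Then `c x / a < - c y / b = c y / w y` for all such `x`, `y`. Let `- μ` be the supremum of the `c x / w x`, `x ∈ I`, `w x > 0` (nonempty, bounded above by `c y / w y`). So `c x ≤ - μ w x` for `w x > 0`, and
`- μ ≤ c y / w y`, i.e. `c y ≤ - μ w y` for `w y < 0` (`y ∈ I ∪ Tr`). For `w x = 0`: `x ∈ I`: `c x < 0`; `x ∈ Tr`: `c x ≤ 0` by hypothesis. (`w t > 0` does not occur for `t ∈ Tr`.)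
Case 2: `c > 0` on `S0`: the reverse inequalities with the infimum `μ` of the `c x / w x`, `w x > 0`; for `t ∈ Tr`, `w t = 0`: take `h ∈ S0`; `h t^n ∈ S0`, so `c h + n c t > 0` for all `n`, so `c t ≥ 0`. -/
def S_D : Prop :=
  ∀ (K : Type) [Field K] (w : K → ℤ) (c : K → ℝ) (γ : ℝ) (I Tr : Set K), 0 < γ →
    (∀ x y, x ≠ 0 → y ≠ 0 → w (x * y) = w x + w y) →
    (∀ x y, x ≠ 0 → y ≠ 0 → c (x * y) = c x + c y) → (∀ x, ∃ n : ℤ, c x = n * γ) →
    (∀ x ∈ I, x ≠ 0) → (∀ x ∈ Tr, x ≠ 0) → (∀ x ∈ I, ∀ y ∈ I, x * y ∈ I) →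
    (∀ x ∈ I, ∀ y ∈ Tr, x * y ∈ I) → (∀ t ∈ Tr, w t ≤ 0 ∧ (w t = 0 → c t ≤ 0)) →
    (∀ x ∈ I, w x = 0 → c x ≠ 0) → (∃ x ∈ I, 0 < w x) → (∃ x ∈ I, w x < 0) →
    ((∀ x ∈ I, w x = 0 → c x < 0) ∧ ∃ μ : ℝ, ∀ x ∈ I ∪ Tr, c x ≤ - μ * w x) ∨
    ((∀ x ∈ I, w x = 0 → 0 < c x) ∧ ∃ μ : ℝ, ∀ x ∈ I ∪ Tr, μ * w x ≤ c x)

/-! ## A. The residue ring -/

/-- [F2W A1] (about 100 lines) The residue field is the fraction field of the residue ring.

Proof. `ρ f = lc w ac 0 f` is a `k`-algebra homomorphism on `O = {Ge w 0}` with kernel `{Gt w 0}` (as in Z3), so `A = ρ (B ∩ O)` is a subalgebra. Let `z ∈ κ`, `z ≠ 0`: `z = ac f`, `w f = 0` (`surj`), `f b2 = b1` with `b1, b2 ∈ B`, nonzero,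
`w b1 = w b2 = n`. CLAIM: there is `0 ≠ b3 ∈ B` with `w b3 = - n`. Let `b₊, b₋` have values `m > 0`, `- l < 0`. If `n = 0`: `b3 = 1`. If `n > 0`: `b3 = b1^(l-1) b₋^n` has value
`n (l - 1) - n l = - n`. If `n < 0`: `b3 = b1^(m-1) b₊^(-n)` has value `n (m-1) - n m = - n`. Then `z = ac (b1 b3) / ac (b2 b3)`, both in `A` (value `0`). For `z = 0`: `0 * 1 = 0`. -/
def S_A1 : Prop :=
  ∀ (k K κ : Type) [Field k] [Field K] [Algebra k K] [Field κ] [Algebra k κ]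
    (B : Subalgebra k K), (∀ f : K, ∃ a b : B, (b : K) ≠ 0 ∧ f * b = a) →
    ∀ w : K → ℤ, IsV w → Triv k w → (∃ b : B, 0 < w b) → (∃ b : B, w b < 0) →
    ∀ (r : ℕ) (x : Fin r → K) (ac : K → κ), IsAC k w x ac →
    ∃ A : Subalgebra k κ, (∀ z, z ∈ A ↔ ∃ f : B, Ge w 0 (f : K) ∧ lc w ac 0 (f : K) = z) ∧ FracOf A

/-- [F2W A2] (about 60 lines) Uses U10, U12. Two descending directions which are trivial on `k(s)` are equivalent.

Proof. `S_U10` (for `A` and `Q`, `Γ = ℝ`): `c₁, c₂ ≤ 0` on `A - 0` and both have a pole on `A`. If `y ≠ 0`, `0 ≤ c₁ y`, `c₂ y < 0` then `S_U12` (first part) gives `0 ≤ c₂` on `A`, a contradiction. So `0 ≤ c₁ y → 0 ≤ c₂ y`, and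
by symmetry (`c₁ 0 = c₂ 0 = 0`). -/
def S_A2 : Prop :=
  ∀ (k M : Type) [Field k] [Field M] [Algebra k M] (n : ℕ) (t : Fin n → M), FracGen k t →
    Algebra.trdeg k M = 2 → ∀ A : Subalgebra k M, FracOf A → ∀ Q : Set M, (∀ h ∈ Q, h ∈ A) →
    (∃ h ∈ Q, h ≠ 0) → (∀ a ∈ A, ∀ h ∈ Q, a * h ∈ Q) → ∀ s ∈ A, Transcendental k s →
    ∀ c₁ c₂ : M → ℝ, IsV c₁ → IsV c₂ →
    (∀ P : k[X], P ≠ 0 → c₁ (aeval s P) = 0) → (∀ P : k[X], P ≠ 0 → c₂ (aeval s P) = 0) →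
    (∀ h ∈ Q, h ≠ 0 → c₁ h < 0) → (∀ h ∈ Q, h ≠ 0 → c₂ h < 0) → ∀ y, 0 ≤ c₁ y ↔ 0 ≤ c₂ y

/-! ## R. A second direction at a regular point -/

/-- [F2W R1] (about 80 lines) Eigenvalues are monomials.

Proof. `κ1[X]` is a principal ideal domain; `Ψ = a(y) / b(y)` with `a, b ∈ κ1[X]` coprime, nonzero. `(a² + b²)(y) y^N = P(y) a(y) b(y)`, so `(a² + b²) X^N = P a b` in `κ1[X]` (`y` transcendental), and `a b` is coprime to
`a² + b²`, so `a b ∣ X^N`; as `X` is prime, `a = a0 X^i`, `b = b0 X^j` with constants (units). So `Ψ = (a0 / b0) y^(i-j)`. -/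
def S_R1 : Prop :=
  ∀ (κ1 κ : Type) [Field κ1] [Field κ] [Algebra κ1 κ] (y : κ), Transcendental κ1 y →
    (∀ f : κ, ∃ a b : κ1[X], aeval y b ≠ 0 ∧ f * aeval y b = aeval y a) →
    ∀ (Ψ : κ) (N : ℕ) (P : κ1[X]), Ψ ≠ 0 → (Ψ + Ψ⁻¹) * y ^ N = aeval y P →
    ∃ (c : κ1) (n : ℤ), c ≠ 0 ∧ Ψ = algebraMap κ1 κ c * y ^ n

/-- [F2W R2] (about 150 lines) Monomial valuations of `κ1(y)`.

Proof. For `0 ≠ P ∈ κ1[X]` let `m P = min {α v1 (P_j) + j β | P_j ≠ 0}`. (1) `m (P + Q) ≥ min`. (2) `m (P Q) = m P + m Q`: `≥` is clear; let `i0`, `j0` be the smallest indices where the minimum for `P`, `Q` is attained; the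
coefficient of `P Q` at `i0 + j0` is `P_{i0} Q_{j0}` plus terms `P_i Q_j` with `i < i0` or `j < j0`, whose weighted value is `> m P + m Q`; so (`α > 0`) this coefficient is nonzero with weighted value exactly
`m P + m Q`. (3) `v (P(y) / Q(y)) = m P - m Q`, well defined by (2) (`y` transcendental), `v 0 = 0`; `IsV`. (Or: localise a `Valuation` on `κ1[X]`.) -/
def S_R2 : Prop :=
  ∀ (κ1 κ : Type) [Field κ1] [Field κ] [Algebra κ1 κ] (y : κ), Transcendental κ1 y →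
    (∀ f : κ, ∃ a b : κ1[X], aeval y b ≠ 0 ∧ f * aeval y b = aeval y a) →
    ∀ v1 : κ1 → ℤ, IsV v1 → ∀ α β : ℤ, 0 < α → ∃ v : κ → ℤ, IsV v ∧
      (∀ a, a ≠ 0 → v (algebraMap κ1 κ a) = α * v1 a) ∧ v y = β ∧
      ∀ P : κ1[X], P ≠ 0 → (∀ j, P.coeff j ≠ 0 → v (aeval y P) ≤ α * v1 (P.coeff j) + j * β) ∧
        ∃ j, P.coeff j ≠ 0 ∧ v (aeval y P) = α * v1 (P.coeff j) + j * β

/-- [F2W R3] (about 90 lines) Monomial valuations over a compatible one are compatible.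

Proof. Let `f ∈ κ`, `φ f ≠ 0`. `f = a(y) / b(y) = P(y) / b(y)^p` with `P = a b^(p-1) ≠ 0`, so `φ f = φ (P(y)) / b(y)` (`pinv`), and it is enough: `v (P(y)) ≤ p v (φ (P(y)))`, `φ (P(y)) ≠ 0`. By `Tor`, `φ (P(y)) = Q(y)`, `Q = ∑_j φ1 (P_{p j}) X^j`. Let `j` be with
`Q_j ≠ 0`, `v (Q(y)) = α v1 (Q_j) + j β`. `p v (Q(y)) = α p v1 (φ1 (P_{pj})) + p j β ≥ α v1 (P_{pj}) + (p j) β ≥ v (P(y))` (`Compat` for `v1`, `P_{pj} ≠ 0` since `φ1 0 = 0`). -/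
def S_R3 : Prop :=
  ∀ (p : ℕ) [Fact p.Prime] (κ1 κ : Type) [Field κ1] [Field κ] [Algebra κ1 κ] (φ1 : κ1 → κ1)
    (φ : κ → κ) (y : κ), Tor p κ1 φ1 φ y → ∀ v1 : κ1 → ℤ, IsV v1 → Compat p φ1 v1 →
    ∀ α β : ℤ, 0 < α → ∀ v : κ → ℤ, IsV v →
      (∀ P : κ1[X], P ≠ 0 → (∀ j, P.coeff j ≠ 0 → v (aeval y P) ≤ α * v1 (P.coeff j) + j * β) ∧
        ∃ j, P.coeff j ≠ 0 ∧ v (aeval y P) = α * v1 (P.coeff j) + j * β) → Compat p φ v

/-- [F2W R4] (about 70 lines) A compatible valuation which is trivial on `κ1` and on `y` is trivial.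

Proof. `v (P(y)) ≥ 0` for `0 ≠ P ∈ κ1[X]`. Suppose some `v (P(y)) > 0`, take `P` of minimal degree `d`; `d ≥ 1` (constants have value `0`), and `P_0 ≠ 0` (otherwise divide by `X`, `v y = 0`). `z = P_0⁻¹ P(y)` has `v z > 0`, so `φ z = 0` or
`v (φ z) > 0` (`Compat`). `φ z = Q(y)` with `Q = ∑_j φ1 (P_0⁻¹ P_{pj}) X^j`, `Q_0 = φ1 1 = 1`, so `Q ≠ 0`, of degree `≤ d / p < d`: a contradiction to minimality. So `v = 0` on `κ1[y] - 0` and on quotients. -/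
def S_R4 : Prop :=
  ∀ (p : ℕ) [Fact p.Prime] (κ1 κ : Type) [Field κ1] [Field κ] [Algebra κ1 κ] (φ1 : κ1 → κ1)
    (φ : κ → κ) (y : κ), Tor p κ1 φ1 φ y → ∀ v : κ → ℤ, IsV v → Compat p φ v →
    (∀ a : κ1, v (algebraMap κ1 κ a) = 0) → v y = 0 → ∀ f, v f = 0

/-- [F2W R5] (about 50 lines) Normalisation.

Proof. The set of the values of nonzero elements is a subgroup of `ℤ`, `≠ 0`, so equal to `e ℤ`, `e > 0`; `v' f = v f / e`. -/
def S_R5 : Prop :=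
  ∀ (p : ℕ) [Fact p.Prime] (M : Type) [Field M] (φ : M → M) (v : M → ℤ), IsV v →
    (∃ f, v f ≠ 0) → ∃ (v' : M → ℤ) (e : ℤ), 0 < e ∧ IsV v' ∧ (∃ u, u ≠ 0 ∧ v' u = 1) ∧
      (∀ f, v f = e * v' f) ∧ (Compat p φ v → Compat p φ v')

/-- [F2W R6] (about 200 lines) Uses R1 -- R5, L11, and `S_W4` of RF. THE SECOND DIRECTION, algebraic form.

Proof. R1: `Ψ = c y^n`. Replacing `Ψ` by `Ψ⁻¹` (`v (Q(Ψ⁻¹)) = 0` for all `Q ≠ 0` iff the same for `Ψ`: `Q(Ψ⁻¹) = Ψ^(-d) Q*(Ψ)`; `v Ψ = 0` from `Q = X`) we may assume `n ≥ 0`.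
CASE `n = 0`: `Ψ ∈ κ1`. By R2, R3 with `v1 = 0`, `α = 1`, `β = ± 1` (normalised: `v y = ± 1`) there are compatible `v₊`, `v₋` trivial on `κ1`, so on `k` and on `k(Ψ) - 0`. If `v y ≥ 0` take `v' = v₋`, `f = y`; if `v y < 0` take `v' = v₊`, `f = y⁻¹`.
CASE `n > 0`. `v1 a = v (algebraMap a)` (`v1 0 = 0`) is a valuation of `κ1`, compatible with `φ1` (`φ (algebraMap a) = algebraMap (φ1 a)` : `Tor.tor` with `m = 0`). It is not trivial: otherwise `0 = v Ψ = n v y`, `v y = 0`, and R4 says `v = 0`, contradiction to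
the normalisation. R5: `v1 = e v1'`, normalised, compatible. L11 (with `S_W4` for the hypothesis `hform`): there are a normalised compatible `v2` on `κ1` and `a ∈ κ1` with `Ge v1' 0 a`, not `Ge v2 0 a`: `a ≠ 0`, `v2 a < 0`. R2, R3 with `v2`, `α = n`, `β = - v2 c`: `v''`, compatible.
`v''` is trivial on `k`. For `0 ≠ Q ∈ k[X]`: `Q(Ψ) = P(y)`, `P = ∑_j q_j c^j X^(n j)`; every `P_{nj} ≠ 0` has weight `n v2 (q_j c^j) + n j β = n j v2 c - n j v2 c = 0`, so `v'' (Q(Ψ)) = 0`. R5: `v'' = e'' v'`. `f = algebraMap a`: `v f = v1 a = e v1' a ≥ 0` and `v'' f = n v2 a < 0`. -/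
def S_R6 : Prop :=
  ∀ (p : ℕ) [Fact p.Prime] (k κ1 κ : Type) [Field k] [IsAlgClosed k] [CharP k p] [Field κ1]
    [Field κ] [Algebra k κ1] [Algebra k κ] [Algebra κ1 κ] [IsScalarTower k κ1 κ]
    (n : ℕ) (t : Fin n → κ1), FracGen k t → Algebra.trdeg k κ1 = 1 → ∀ (y1 : Fin 1 → κ1)
    (ρ : (Fin 1 → Fin p) → κ1 → κ1), MB p y1 ρ → ∀ (φ1 : κ1 → κ1) (φ : κ → κ) (y : κ),
    LogTy p φ1 → Tor p κ1 φ1 φ y → ∀ (Ψ : κ) (N : ℕ) (P : κ1[X]), Ψ ≠ 0 →
    (Ψ + Ψ⁻¹) * y ^ N = aeval y P → ∀ v : κ → ℤ, Plc k v → Compat p φ v →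
    (∀ Q : k[X], Q ≠ 0 → v (aeval Ψ Q) = 0) →
    ∃ v' : κ → ℤ, Plc k v' ∧ Compat p φ v' ∧ (∀ Q : k[X], Q ≠ 0 → v' (aeval Ψ Q) = 0) ∧
      ∃ f, Ge v 0 f ∧ ¬ Ge v' 0 f

/-- [F2W R7] (about 150 lines) The residue field of a point of a chart.

Proof. Put `ι (ac' f) = AC f` for `f ≠ 0`, `w f = 0` (every element `≠ 0` of `κ'` is such an `ac' f`, `IsAC.surj`), `ι 0 = 0`. Well defined and additive: let `f, g` have value `0`. `lc w ac' 0` and `lc w AC 0` are additive on `{Ge w 0}` (`IsAC.add`, `LForm.add`) and vanish exactly on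
`{Gt w 0}`; so if `ac' f = ac' g` then `lc w ac' 0 (f - g) = 0`, `Gt w 0 (f - g)` (or `0`), `AC f = AC g`; similarly `ι (ac' f + ac' g) = ι (lc w ac' 0 (f + g)) = lc w AC 0 (f + g)`. Multiplicative by `mul`. `ι 1 = 1`. `Φ ∘ ι = ι ∘ φ'`: `LForm.phi` with
`γ = 0` and `hφ'`. The range: `LForm.range`. On constants: `alg`. -/
def S_R7 : Prop :=
  ∀ (p : ℕ) [Fact p.Prime] (k K κ κ' : Type) [Field k] [Field K] [Algebra k K] [Field κ]
    [Algebra k κ] [Field κ'] [Algebra k κ'] (n r : ℕ) (t : Fin n → K) (φ : K → K) (x : Fin r → K)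
    (L : K → AddMonoidAlgebra κ (Fin r → ℤ)) (Φ : LF κ r → LF κ r) (u : Fin r → ℤ) (w : K → ℤ)
    (AC : K → LF κ r), LForm k p φ t x L Φ u w AC → IsPinv p Φ → IsV w →
    ∀ (r' : ℕ) (x' : Fin r' → K) (ac' : K → κ'), IsAC k w x' ac' →
    ∀ φ' : κ' → κ', (∀ f, Ge w 0 f → Ge w 0 (φ f) ∧ lc w ac' 0 (φ f) = φ' (lc w ac' 0 f)) →
    ∃ ι : κ' →+* LF κ r, (∀ f, f ≠ 0 → w f = 0 → ι (ac' f) = AC f) ∧
      (∀ c : k, ι (algebraMap k κ' c) = toLF (AddMonoidAlgebra.single 0 (algebraMap k κ c))) ∧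
      (∀ z, ι (φ' z) = Φ (ι z)) ∧
      ∀ z, (∃ z', ι z' = z) ↔ ∃ a b : AddMonoidAlgebra κ (Fin r → ℤ), b ≠ 0 ∧
        (∀ m, a.coeff m ≠ 0 → wt u m = 0) ∧ (∀ m, b.coeff m ≠ 0 → wt u m = 0) ∧
        z * toLF b = toLF a

end Pool.Agent.F2W
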